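import Pool.Agent.Helper24.FR.StI

/-!
# FR, part II: computations with names; part III: from posets to complete Boolean algebras (statements)

General hints.  All notions (`Sub`, `Pr`, `Rl`, `Fn`, `Cov`, `Le`, `Tr`, `Od`, `Id`, `Om`, `Ci`, `Pw`) are congruences: `Sub_congr`, ... in Names.lean.
`bmem_fam`, `bmem_sn`, `bmem_on`, `bmem_sgN`, `bmem_dbN` compute membership in special names.  To show `x ≤ y` in `B` one can also use the
transfer principle `StEXT.2`: every ultrafilter containing `x` contains `y` (with `UF.inf_iff`, ..., and `los`), i.e. ordinary reasoning in the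
quotient (which is a model of ZFC); but infinite suprema over index SETS are not preserved by ultrafilters.
-/

set_option autoImplicit false

universe u

namespace Pool.Agent.Helper24.FR

/-! ### Part II -/

/-- MODULE PRN (pairs).  Written proof.  `Sg w x = beq w (sgN x)` by `beq_eq_iInf` and `bmem_sgN`; `Db w x y = beq w (dbN x y)` by `bmem_dbN`;
`Pr z x y = ⨅ w, bi (bmem w z) (beq w (sgN x) ⊔ beq w (dbN x y)) = beq z (opN x y)`.  Injectivity of `opN`: `≥` is congruence; `≤`: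
`beq (opN x y) (opN x' y') ≤ bmem (sgN x) (opN x' y') = beq (sgN x) (sgN x') ⊔ beq (sgN x) (dbN x' y') ≤ beq x x'` (as `beq (sgN x) (dbN x' y') ≤ bmem x' (sgN x)
= beq x' x`); given `beq x x'`, the value of `dbN x y = dbN x' y'` is also there: `dbN x y ∈ opN x' y'` and `dbN x' y' ∈ opN x y`; if `{x, y} = {x'}` and
`{x', y'} = {x}` then `y = x' = x = y'`, the other cases are direct (the usual proof; one may use the transfer principle and do it in a two valued extensional structure).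
Last item: `Rl f x y = ⨆ z, bmem z f ⊓ beq z (opN x y) = bmem (opN x y) f`. -/
def StPRN : Prop :=
  (∀ (B : Type u) [CompleteBooleanAlgebra B] (w x : Nm B), Sg bmem beq w x = beq w (sgN x)) ∧
  (∀ (B : Type u) [CompleteBooleanAlgebra B] (w x y : Nm B), Db bmem beq w x y = beq w (dbN x y)) ∧
  (∀ (B : Type u) [CompleteBooleanAlgebra B] (z x y : Nm B), Pr bmem beq z x y = beq z (opN x y)) ∧
  (∀ (B : Type u) [CompleteBooleanAlgebra B] (x y x' y' : Nm B),
    beq (opN x y) (opN x' y') = beq x x' ⊓ beq y y') ∧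
  (∀ (B : Type u) [CompleteBooleanAlgebra B] (f x y : Nm B), Rl bmem beq f x y = bmem (opN x y) f)

/-- MODULE RLN (named relations).  Written proof.  `Rl (rlN a c G) x y = bmem (opN x y) (rlN a c G) = ⨆ (i, j), G i j ⊓ beq (opN x y) (opN (a i) (c j))`, and `StPRN`.
Second: `beq (a i) (a i') = ⊥` for `i' ≠ i`.  Third: `Rl f x y ⊓ Rl f x y' ≤ ⨆ i j i' j', G i j ⊓ G i' j' ⊓ beq x (a i) ⊓ beq x (a i') ⊓ beq y (c j) ⊓ beq y' (c j')`;
a term with `i ≠ i'` is `⊥`, a term with `i = i'`, `j ≠ j'` is `⊥`, else it is `≤ beq y y'`. -/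
def StRLN : Prop :=
  (∀ (B : Type u) [CompleteBooleanAlgebra B] (I J : Type u) (a : I → Nm B) (c : J → Nm B) (G : I → J → B)
    (x y : Nm B), Rl bmem beq (rlN a c G) x y = ⨆ i, ⨆ j, G i j ⊓ (beq x (a i) ⊓ beq y (c j))) ∧
  (∀ (B : Type u) [CompleteBooleanAlgebra B] (I J : Type u) (a : I → Nm B) (c : J → Nm B) (G : I → J → B),
    Disc a → Disc c → ∀ i j, Rl bmem beq (rlN a c G) (a i) (c j) = G i j) ∧
  (∀ (B : Type u) [CompleteBooleanAlgebra B] (I J : Type u) (a : I → Nm B) (c : J → Nm B) (G : I → J → B),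
    Disc a → (∀ i j j', j ≠ j' → G i j ⊓ G i j' = ⊥) → Fn bmem beq (rlN a c G) = ⊤)

/-- MODULE LEN (`|c| ≤ |a|` for families of different names).  Written proof.  (→) `full_Le` gives `f` with `b ≤ Cov f (fam a) (fam c)`; let `G i j := b ⊓ Rl f (a i) (c j)`.
`G i j ⊓ G i j' ≤ Fn f ⊓ Rl f (a i) (c j) ⊓ Rl f (a i) (c j') ≤ beq (c j) (c j') = ⊥`, and
`b ≤ bmem (c j) (fam c) ⇨ ⨆ x, bmem x (fam a) ⊓ Rl f x (c j)`, `bmem (c j) (fam c) = ⊤`, `bmem x (fam a) = ⨆ i, beq x (a i)`.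
(←) `f := rlN a c G`: `Fn f = ⊤`, and `b ⊓ bmem y (fam c) = ⨆ j, b ⊓ beq y (c j) ≤ ⨆ j i, G i j ⊓ beq y (c j) ≤ ⨆ i, bmem (a i) (fam a) ⊓ Rl f (a i) y`. -/
def StLEN : Prop :=
  ∀ (B : Type u) [CompleteBooleanAlgebra B] (I J : Type u) (a : I → Nm B) (c : J → Nm B) (b : B),
    Disc a → Disc c → (b ≤ Le bmem beq (fam c) (fam a) ↔ Cl b I J)

/-- MODULE ONN (names of ordinals and of sets of ordinals).  Written proof.  `on B b` is an element of `on B a` with value `⊤` for `b < a`, so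
`beq (on B a) (on B b) ≤ bmem (on B b) (on B b) = ⊥` (`StFND.2.2`) for `b < a`.  The rest from `bmem_sn`, `bmem_on`, `on_eq`. `Od (sn S)`: if `y ∈ sn S` then `y = on B a`, `a ∈ S`
(with value `⨆ a, beq y (on B a)`), and `on B a = sn (Iio a) ⊆ sn S`, and `on B a` is transitive (the same for `Iio a`); use the congruences. -/
def StONN : Prop :=
  (∀ (B A : Type u) [CompleteBooleanAlgebra B] [LinearOrder A] [WellFoundedLT A],
    Disc (on B : A → Nm B)) ∧
  (∀ (B A : Type u) [CompleteBooleanAlgebra B] [LinearOrder A] [WellFoundedLT A] (a : A) (S : Set A),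
    (a ∈ S → bmem (on B a) (sn B S) = ⊤) ∧ (a ∉ S → bmem (on B a) (sn B S) = ⊥)) ∧
  (∀ (B A : Type u) [CompleteBooleanAlgebra B] [LinearOrder A] [WellFoundedLT A] (S T : Set A),
    (S ⊆ T → Sub bmem (sn B S) (sn B T) = ⊤) ∧ (S ≠ T → beq (sn B S) (sn B T) = ⊥)) ∧
  (∀ (B A : Type u) [CompleteBooleanAlgebra B] [LinearOrder A] [WellFoundedLT A] (S : Set A),
    (∀ a ∈ S, ∀ b < a, b ∈ S) → Od bmem (sn B S) = ⊤)

/-- `w` is the `ω`-th element. -/
def I0 {A : Type u} [LinearOrder A] (w : A) : Prop :=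
  (Set.Iio w).Infinite ∧ ∀ a < w, (Set.Iio a).Finite

/-- `w` is the `ω₁`-th element. -/
def I1 {A : Type u} [LinearOrder A] (w : A) : Prop :=
  ¬ (Set.Iio w).Countable ∧ ∀ a < w, (Set.Iio a).Countable

/-- MODULE OMN (the least inductive set).  Written proof.  Second part: `Om z` gives `Sub z z'` from `Id z'` and conversely.  First part:
`Id (on B w) = ⊤`: for the least element `a₀`, `on B a₀` is empty; for `a < w` let `a'` be the least element above `a`, `a' < w` (as `Iio w` is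
infinite, `Iio a` finite) and `Iio a' = Iio a ∪ {a}`, so `bmem z (on B a') = bmem z (on B a) ⊔ beq z (on B a)`, `Su (on B a') (on B a) = ⊤`.
`Id z ≤ Sub (on B w) z`: by induction on `a < w`, `Id z ≤ bmem (on B a) z`: `a` is least: `Em e ≤ beq e (on B a)`; otherwise `a` is the successor
of some `c` (`Iio a` is finite and nonempty, `c` its maximum) and `Su y (on B c) ≤ beq y (on B a)`, both by `le_beq_of_mem`. -/
def StOMN : Prop :=
  (∀ (B A : Type u) [CompleteBooleanAlgebra B] [LinearOrder A] [WellFoundedLT A] (w : A), I0 w →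
    Om bmem beq (on B w) = ⊤) ∧
  (∀ (B : Type u) [CompleteBooleanAlgebra B] (z z' : Nm B),
    Om bmem beq z ⊓ Om bmem beq z' ≤ beq z z')

/-- MODULE CLF (facts on `Cl`).  Written proof.  First: let `m = #I`, `F ⊆ J` a finite set with `m + 1` elements.  `b ≤ ⨅ j ∈ F, ⨆ i, G i j = ⨆ (h : F → I), ⨅ j ∈ F, G (h j) j` (finite
distributivity), and `h` is not injective, so each term is `≤ G i j ⊓ G i j' = ⊥`.  Second: enumerate `I` by `ℕ` (if `I` is empty, `b ≤ ⨆ over empty = ⊥`);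
apply `Dist` to `G' n (some j) = b ⊓ G (i n) j`, `G' n none = b ⊓ (⨆ j, G (i n) j)ᶜ` (index type `Option J`): `b' ≤ G' n (h n)` for all `n`.  There is `j` different from all values `h n`;
`b' ≤ b ≤ ⨆ i, G i j = ⨆ n, G (i n) j` and `b' ⊓ G (i n) j ≤ G' n (h n) ⊓ G (i n) j = ⊥`; so `b' = ⊥`.  Third: `G i j = ⊤` if `g i = j`, else `⊥`.
Fifth: `G' i j' = ⨆ j with g j = j', G i j` . -/
def StCLF : Prop :=
  (∀ (B : Type u) [CompleteBooleanAlgebra B] (b : B) (I J : Type u), b ≠ ⊥ → Finite I → Infinite J →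
    ¬ Cl b I J) ∧
  (∀ (B : Type u) [CompleteBooleanAlgebra B] (b : B) (I J : Type u), Dist B → b ≠ ⊥ → Countable I →
    Uncountable J → ¬ Cl b I J) ∧
  (∀ (B : Type u) [CompleteBooleanAlgebra B] (b : B) (I J : Type u) (g : I → J), Function.Surjective g →
    Cl b I J) ∧
  (∀ (B : Type u) [CompleteBooleanAlgebra B] (b b' : B) (I J : Type u), b' ≤ b → Cl b I J → Cl b' I J) ∧
  (∀ (B : Type u) [CompleteBooleanAlgebra B] (b : B) (I J J' : Type u) (g : J → J'),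
    Function.Surjective g → Cl b I J → Cl b I J')

/-- MODULE CIN.  Written proof.  Use `z = on B w` in the definition of `Ci`: `Om (on B w) = ⊤`, and both `Le` are `⊤` by `StLEN` (`on B w = sn B (Iio w)`, both are `fam`s of restrictions
of `on B`, which is `Disc`) and surjections `Iio w → y`, `y → Iio w` (both countably infinite; `StCLF`). -/
def StCIN : Prop :=
  ∀ (B A : Type u) [CompleteBooleanAlgebra B] [LinearOrder A] [WellFoundedLT A] (w : A), I0 w →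
    ∀ y : Set A, y.Countable → y.Infinite → Ci bmem beq (sn B y) = ⊤

/-- MODULE DSU (subsets of countable sets are decided).  Written proof.  Apply `Dist` to `G s (true) = bmem (on B s) z`, `G s (false) = (bmem (on B s) z)ᶜ` for
`s ∈ S` (enumerate `S`; if `S` is empty `y = ∅`): `b' ≤ b`, `b' ≠ ⊥`, and `y ⊆ S` with `b' ≤ bmem (on B s) z` for `s ∈ y`, `b' ⊓ bmem (on B s) z = ⊥` for `s ∈ S \ y`.
`b' ≤ beq z (sn B y)` by `le_beq_of_mem`: `b' ⊓ bmem x z ≤ ⨆ s : S, beq x (on B s) ⊓ bmem x z ⊓ b'`. -/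
def StDSU : Prop :=
  ∀ (B A : Type u) [CompleteBooleanAlgebra B] [LinearOrder A] [WellFoundedLT A], Dist B →
    ∀ (S : Set A) (z : Nm B) (b : B), b ≠ ⊥ → S.Countable → b ≤ Sub bmem z (sn B S) →
      ∃ b' ≤ b, b' ≠ ⊥ ∧ ∃ y ⊆ S, b' ≤ beq z (sn B y)

/-- MODULE DCI (countable sets are decided).  Written proof.  `b ≤ Ci z = ⨆ t, Om t ⊓ (Le z t ⊓ Le t z) ≤ Le z (on B w) ⊓ Le (on B w) z` (`StOMN.2`, `Le_congr`).  `full_Le`: `f` with `b ≤ Cov f (on B w) z`.
For `n ∈ Iio w` (countable) let `G n (some s) = b ⊓ Rl f (on B n) (on B s) ⊓ bmem (on B s) z` for `s ∈ S`, `G n none` the complement of the supremum of these in `b`.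
`Dist`: `b' ≤ b`, `b' ≠ ⊥`, `h`.  `y = {s ∈ S | ∃ n, h n = some s}` is countable.  `b' ≤ bmem (on B s) z` for `s ∈ y`.  Conversely for `s ∈ S`:
`b' ⊓ bmem (on B s) z ≤ ⨆ n, b' ⊓ Rl f (on B n) (on B s) ⊓ bmem (on B s) z`, the `n`-th term is `⊥` if `h n = none`, and if `h n = some s'` it is `≤ beq (on B s) (on B s')`
(`Fn f`), `⊥` unless `s = s'`; so it is `⊥` if `s ∉ y`.  So `b' ≤ beq z (sn B y)` as in `StDSU`.  If `y` were finite, `b' ≤ Le (on B w) z`, `beq z (sn B y)` would give `b' ≤ Le (on B w) (sn B y)`,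
`Cl b' y (Iio w)` (`StLEN`), against `StCLF.1`. -/
def StDCI : Prop :=
  ∀ (B A : Type u) [CompleteBooleanAlgebra B] [LinearOrder A] [WellFoundedLT A], Dist B →
    ∀ w : A, I0 w → ∀ (S : Set A) (z : Nm B) (b : B), b ≠ ⊥ →
      b ≤ Sub bmem z (sn B S) ⊓ Ci bmem beq z →
        ∃ b' ≤ b, b' ≠ ⊥ ∧ ∃ y ⊆ S, y.Countable ∧ y.Infinite ∧ b' ≤ beq z (sn B y)

/-- MODULE PWN (the power set of `ω`).  Written proof.  `bmem z p = ⨆ S, beq z (sn B S)`.  `≤ Sub z (on B w)`: `sn B S ⊆ sn B (Iio w) = on B w` (`StONN`), congruence.  Conversely let `b = Sub z (on B w) ⊓ (⨆ S, beq z (sn B S))ᶜ`;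
if `b ≠ ⊥`, `StDSU` gives a contradiction.  The second part is `StONN`. -/
def StPWN : Prop :=
  ∀ (B A : Type u) [CompleteBooleanAlgebra B] [LinearOrder A] [WellFoundedLT A], Dist B →
    ∀ w : A, I0 w →
      Pw bmem (fam fun S : {S : Set A // S ⊆ Set.Iio w} => sn B S.1) (on B w) = ⊤ ∧
      Disc fun S : {S : Set A // S ⊆ Set.Iio w} => sn B S.1

/-- MODULE CDN (cardinals).  Written proof.  First: `Od (sn B T) = ⊤`; `bmem x (sn B T) ⊓ Le (sn B T) x ≤ ⨆ β : T, Le (sn B T) (on B β)` and each of these is `⊥`: if `b₀` is this value and `b₀ ≠ ⊥`, `StLEN` gives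
`Cl b₀ (Iio β) T`.  Second: `bmem (on B μ) (sn B T) = ⊤`, and for `β ∈ T`, `Le (on B β) (on B μ) = ⊤` by `StLEN`.  Third: `Cd (on B w₁) = ⊤` by the first with `T = Iio w₁` and `StCLF.2`; in the supremum
take `on B w₀` and the name of the power set of `StPWN`; `Le p m` is the hypothesis (`StLEN`), `Le m p = ⊤`: there is an injection `Iio w₁ → {S // S ⊆ Iio w₀}` since `#(Iio w₁) = ℵ₁ ≤ 2 ^ ℵ₀`, so a
surjection in the other direction, `StCLF`. -/
def StCDN : Prop :=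
  (∀ (B A : Type u) [CompleteBooleanAlgebra B] [LinearOrder A] [WellFoundedLT A] (T : Set A),
    (∀ a ∈ T, ∀ b < a, b ∈ T) → (∀ b : B, b ≠ ⊥ → ∀ β ∈ T, ¬ Cl b (Set.Iio β) T) →
      Cd bmem beq (sn B T) = ⊤) ∧
  (∀ (B A : Type u) [CompleteBooleanAlgebra B] [LinearOrder A] [WellFoundedLT A] (T : Set A) (μ : A),
    μ ∈ T → (∀ a ∈ T, ∀ b < a, b ∈ T) → (∀ b : B, b ≠ ⊥ → ∀ β ∈ T, ¬ Cl b (Set.Iio β) T) →
      (∀ β ∈ T, Cl (⊤ : B) (Set.Iio μ) (Set.Iio β)) → Sc bmem beq (on B μ) (sn B T) = ⊤) ∧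
  (∀ (B A : Type u) [CompleteBooleanAlgebra B] [LinearOrder A] [WellFoundedLT A] (w₀ w₁ : A),
    I0 w₀ → I1 w₁ → Dist B → Cl (⊤ : B) (Set.Iio w₁) {S : Set A // S ⊆ Set.Iio w₀} →
      Ct bmem beq (on B w₁) = ⊤)

/-- The partition property at the level of Boolean values. -/
def CoreB (B A : Type u) [CompleteBooleanAlgebra B] [LinearOrder A] (k : A) : Prop :=
  ∀ b : B, b ≠ ⊥ → ∀ G : {y : Set A // y.Countable ∧ y.Infinite} → Set.Iio k → B,
    (∀ y c c', c ≠ c' → G y c ⊓ G y c' = ⊥) → (∀ y, b ≤ ⨆ c, G y c) →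
      ∃ b' ≤ b, b' ≠ ⊥ ∧ ∃ (X : Set A) (d : Set.Iio k), Nonempty (X ≃ Set.Iio k) ∧
        ∀ y c, y.1 ⊆ X → d ≤ c → b' ⊓ G y c = ⊥

/-- MODULE PTN (assembly of part II).  Written proof.  `Ct`, `Sc`, `Sc` by `StCDN` (`on B k = sn B (Iio k)`).  For the last conjunct let `f` be a name; put
`b₀ = Fn f ⊓ Tot f l k ⊓ (⨆ X, ...)ᶜ` and suppose `b₀ ≠ ⊥`.  `G y c := b₀ ⊓ Rl f (sn B y) (on B c)`.  `G y c ⊓ G y c' ≤ beq (on B c) (on B c') = ⊥` for `c ≠ c'`.  `b₀ ≤ Tot` at `sn B y`: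
`Sub (sn B y) (sn B univ) = ⊤`, `Ci (sn B y) = ⊤` (`StCIN`), so `b₀ ≤ ⨆ c, bmem c (on B k) ⊓ Rl f (sn B y) c = ⨆ c : Iio k, Rl f (sn B y) (on B c)`.  `CoreB` gives `b'`, `X`, `d`.
Show `b' ≤ Sub (sn B X) (sn B univ) ⊓ (Le (sn B X) (on B k) ⊓ (Le (on B k) (sn B X) ⊓ Omi f (sn B X) (on B k)))`, a contradiction to `b' ≤ b₀`: the first three are `⊤` (`StLEN`, `StCLF` with the bijection);
for `Omi` use `c := on B d`: for every name `z` we need `b' ⊓ Sub z (sn B X) ⊓ Ci z ⊓ Rl f z (on B d) = ⊥`; if this value `b''` is not `⊥`, `StDCI` gives `b''' ≤ b''`, not `⊥`, and `y ⊆ X`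
countably infinite with `b''' ≤ beq z (sn B y)`, so `b''' ≤ b' ⊓ G y d = ⊥`. -/
def StPTN : Prop :=
  ∀ (B A : Type u) [CompleteBooleanAlgebra B] [LinearOrder A] [WellFoundedLT A] (w₀ w₁ k : A),
    I0 w₀ → I1 w₁ → w₁ < k → Dist B →
    (∀ b : B, b ≠ ⊥ → ∀ β < k, ¬ Cl b (Set.Iio β) (Set.Iio k)) →
    (∀ b : B, b ≠ ⊥ → ∀ α : A, ¬ Cl b (Set.Iio α) (Set.univ : Set A)) →
    (∀ β < k, Cl (⊤ : B) (Set.Iio w₁) (Set.Iio β)) →
    Cl (⊤ : B) (Set.Iio w₁) {S : Set A // S ⊆ Set.Iio w₀} →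
    (∀ α : A, Cl (⊤ : B) (Set.Iio k) (Set.Iio α)) → CoreB B A k →
      PosP bmem beq (on B w₁) (on B k) (sn B (Set.univ : Set A)) = ⊤

/-! ### Part III -/

/-- `e` is a dense embedding of the poset `R` into the complete Boolean algebra `B`. -/
structure DE {R B : Type u} [Preorder R] [CompleteBooleanAlgebra B] (e : R → B) : Prop where
  ne : ∀ p, e p ≠ ⊥
  mono : ∀ p q, p ≤ q → e p ≤ e q
  dense : ∀ b, b ≠ ⊥ → ∃ p, e p ≤ b
  inc : ∀ p q, (∀ r, r ≤ p → ¬ r ≤ q) → e p ⊓ e q = ⊥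

/-- MODULE ROA (the regular open algebra).  Written proof.  `B := Heyting.Regular (LowerSet R)` (`LowerSet R` is a frame, so a Heyting algebra, and the regular elements of a Heyting algebra are a Boolean
algebra in Mathlib); it is complete via the Galois insertion of `toRegular` (`x ↦ xᶜᶜ`) (`GaloisInsertion.liftCompleteLattice`), and a complete lattice which is a Boolean algebra
(with the same order) is a complete Boolean algebra.  `e p := (LowerSet.Iic p)ᶜᶜ`.  In `LowerSet R`: `q ∈ Aᶜ ↔ ∀ r ≤ q, r ∉ A`, so `q ∈ Aᶜᶜ ↔ ∀ r ≤ q, ∃ s ≤ r, s ∈ A`.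
`ne`: `p ∈ e p`.  `dense`: if `b ≠ ⊥` there is `p ∈ b`, `Iic p ≤ b`, so `e p ≤ bᶜᶜ = b`.  `inc`: `Iic p ⊓ Iic q = ⊥` and `(a ⊓ b)ᶜᶜ = aᶜᶜ ⊓ bᶜᶜ`. (One may also define `B` by hand.) -/
def StROA : Prop :=
  ∀ (R : Type u) [Preorder R], ∃ (B : Type u) (_ : CompleteBooleanAlgebra B) (e : R → B), DE e

/-- MODULE PDB (`σ`-closed posets are distributive).  Written proof.  First: if `e p ⊓ c ≠ ⊥`, there is `q` with `e q ≤ e p ⊓ c`; `q`, `p` are compatible (else `e q = e q ⊓ e p = ⊥`), let `r ≤ q, p`: `e r ≤ c`.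
Second: `p₀` with `e p₀ ≤ b`; given `p n` with `e (p n) ≤ b ≤ ⨆ i, G n i` there is `i` with `e (p n) ⊓ G n i ≠ ⊥`, so by the first part `p (n+1) ≤ p n` with `e (p (n+1)) ≤ G n (h n)`. `r` below all `p n`: `b' = e r`. -/
def StPDB : Prop :=
  (∀ (R B : Type u) [Preorder R] [CompleteBooleanAlgebra B] (e : R → B), DE e → ∀ p c, e p ⊓ c ≠ ⊥ →
    ∃ r ≤ p, e r ≤ c) ∧
  (∀ (R B : Type u) [Preorder R] [CompleteBooleanAlgebra B] (e : R → B), DE e →
    (∀ f : ℕ → R, (∀ n, f (n + 1) ≤ f n) → ∃ r, ∀ n, r ≤ f n) → Dist B)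

/-- `p` forces that a function maps (a part of) `I` onto `J`; version for posets. -/
def ClP {R : Type u} [Preorder R] (p : R) (I J : Type u) : Prop :=
  ∃ D : I → J → Set R, (∀ i j r r', r ∈ D i j → r' ≤ r → r' ∈ D i j) ∧
    (∀ i j j' r, j ≠ j' → r ∈ D i j → r ∉ D i j') ∧ ∀ j, ∀ q ≤ p, ∃ r ≤ q, ∃ i, r ∈ D i j

/-- The same for all conditions. -/
def ClT (R : Type u) [Preorder R] (I J : Type u) : Prop :=
  ∃ D : I → J → Set R, (∀ i j r r', r ∈ D i j → r' ≤ r → r' ∈ D i j) ∧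
    (∀ i j j' r, j ≠ j' → r ∈ D i j → r ∉ D i j') ∧ ∀ j, ∀ q : R, ∃ r ≤ q, ∃ i, r ∈ D i j

/-- The partition property at the level of posets. -/
def CoreP (R A : Type u) [Preorder R] [LinearOrder A] (k : A) : Prop :=
  ∀ (p : R) (D : {y : Set A // y.Countable ∧ y.Infinite} → Set.Iio k → Set R),
    (∀ y c r r', r ∈ D y c → r' ≤ r → r' ∈ D y c) → (∀ y c c' r, c ≠ c' → r ∈ D y c → r ∉ D y c') →
    (∀ y, ∀ q ≤ p, ∃ r ≤ q, ∃ c, r ∈ D y c) →
      ∃ p' ≤ p, ∃ (X : Set A) (d : Set.Iio k), Nonempty (X ≃ Set.Iio k) ∧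
        ∀ y c, y.1 ⊆ X → d ≤ c → ∀ r ≤ p', r ∉ D y c

/-- MODULE CLP (between the poset and the algebra; first parts of `StPDB` allowed).  Written proof.  First: `G` given; `p` with `e p ≤ b`; `D i j := {r | e r ≤ G i j}`; a `q ≤ p` has `e q ≤ ⨆ i, G i j` so `e q ⊓ G i j ≠ ⊥` for some `i`, `StPDB.1`.
Second: `G i j := ⨆ r ∈ D i j, e r`.  `e r ⊓ e r' = ⊥` for `r ∈ D i j`, `r' ∈ D i j'`: a common extension would be in both.  `⊤ ≤ ⨆ i, G i j`: otherwise the complement contains some `e p`, and `p` has an extension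
in some `D i j`.  Third: `CoreB`: given `b, G`: `p` with `e p ≤ b`, `D y c := {r | e r ≤ G y c}`; the result `p'` gives `b' = e p'`; if `e p' ⊓ G y c ≠ ⊥`, then `StPDB.1` gives `r ≤ p'`, `r ∈ D y c`. -/
def StCLP : Prop :=
  (∀ (R B : Type u) [Preorder R] [CompleteBooleanAlgebra B] (e : R → B), DE e →
    ∀ (b : B) (I J : Type u), b ≠ ⊥ → Cl b I J → ∃ p, e p ≤ b ∧ ClP p I J) ∧
  (∀ (R B : Type u) [Preorder R] [CompleteBooleanAlgebra B] (e : R → B), DE e →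
    ∀ (I J : Type u), ClT R I J → Cl (⊤ : B) I J) ∧
  (∀ (R B A : Type u) [Preorder R] [CompleteBooleanAlgebra B] [LinearOrder A] (e : R → B), DE e →
    ∀ k : A, CoreP R A k → CoreB B A k)

end Pool.Agent.Helper24.FR
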