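import Pool.Agent.Helper24.FR.Plain
import Pool.Agent.Helper24.FR.StII

/-!
# FR, part VI: translation to plain notions (statements)

`Eq'` below is `fun x y : N => x = y`; the notions of Notions.lean are used with truth values in `Prop`.
-/

set_option autoImplicit false

universe u

namespace Pool.Agent.Helper24.FR

/-- MODULE PCV (conversions).  Written proof.  Unfold: in `Prop`, `⨅`, `⨆`, `⊓`, `⊔`, `⇨`, `ᶜ` are `∀`, `∃`, `∧`, `∨`, `→`, `¬` (`iInf_Prop_eq`, `iSup_Prop_eq`, `himp_eq`..., mostly `Iff.rfl` after `iInf_Prop_eq`), `bi a b` is `a ↔ b`. -/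
def StPCV : Prop := ∀ (N : Type u) (E : N → N → Prop),
  (∀ x y, Sub E x y ↔ PSub E x y) ∧
  (∀ z x y, Pr E (fun x y : N => x = y) z x y ↔ PPair E z x y) ∧
  (∀ f x y, Rl E (fun x y : N => x = y) f x y ↔ PVal E f x y) ∧
  (∀ f, Fn E (fun x y : N => x = y) f ↔ ∀ x y y', PVal E f x y → PVal E f x y' → y = y') ∧
  (∀ b m, Le E (fun x y : N => x = y) b m ↔
    ∃ f, (∀ x y y', PVal E f x y → PVal E f x y' → y = y') ∧ ∀ y, E y b → ∃ x, E x m ∧ PVal E f x y) ∧
  (∀ x, Od E x ↔ POrd E x) ∧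
  (∀ w, Om E (fun x y : N => x = y) w ↔ POmega E w) ∧
  (∀ p x, Pw E p x ↔ ∀ z, E z p ↔ PSub E z x) ∧
  (∀ f l k, Tot E (fun x y : N => x = y) f l k ↔
    ∀ y, PSub E y l → Ci E (fun x y : N => x = y) y → ∃ c, E c k ∧ PVal E f y c) ∧
  (∀ f X k, Omi E (fun x y : N => x = y) f X k ↔
    ∃ c, E c k ∧ ∀ y, PSub E y X → Ci E (fun x y : N => x = y) y → ¬ PVal E f y c)

/-- MODULE PSB (definable relations are sets).  Written proof.  Pairs: axiom `pair` twice; injectivity of ordered pairs: the usual proof.  Third: first, `Sat E φ v` depends only on `v i` for `i < n₀`, for some `n₀` depending on `φ` (induction on `φ`).  Let `u` be the union of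
`{a, b}`, `q` the power set of the power set of `u`; every pair `(x, y)`, `x ∈ a`, `y ∈ b`, is in `q` (`ext` is not needed: the pair `p` has `∀ w ∈ p, w ⊆ u`).  Let `s, s', s''` be different variables `≥ n₀`, `≥ 2`; `v'` = `v` with `a` at `s'` and `b` at `s''`.  Separation from `q` with the
formula `fEx s (fAnd (.eq s 0) (fEx 0 (fEx 1 (fAnd (.mem 0 s') (fAnd (.mem 1 s'') (fAnd (cPr s 0 1) φ))))))` (`ev_prop`, the simp lemmas `ev_ex`, `ev_cPr`, ...).  Pairs are unique by `ext`. -/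
def StPSB : Prop := ∀ (N : Type u) (E : N → N → Prop), ZFC E →
  (∀ x y, ∃ p, PPair E p x y) ∧
  (∀ p x y x' y', PPair E p x y → PPair E p x' y' → x = x' ∧ y = y') ∧
  (∀ (φ : Fml) (v : ℕ → N) (a b : N), ∃ f,
    (∀ p, E p f → ∃ x y, E x a ∧ E y b ∧ PPair E p x y) ∧
      ∀ x y, PVal E f x y ↔
        E x a ∧ E y b ∧ Sat E φ (Function.update (Function.update v 0 x) 1 y))

/-- MODULE PIJ (injections, inverses).  Written proof.  First (`|b| ≤ |m|` gives an injection): let `f` be as in `StPCV` for `Le b m`.  For `t ∈ b` let `S_t = {s ∈ m | (s, t) ∈ f}` (separation), not empty; `S_t ∩ S_t' = ∅` for `t ≠ t'` as `f` is functional.  Replacement: the set `a = {S_t | t ∈ b}` (formula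
`∀ s, s ∈ S ↔ s ∈ m ∧ (s, t) ∈ f`, i.e. with codes `fIff (.mem s S) (fAnd (.mem s m) (cRl f s t))`).  `choice`: `c` with a unique element in `S_t ∩ c`.  `g = {(t, s) | t ∈ b, s ∈ m, (s, t) ∈ f, s ∈ c}` (`StPSB.3`) is an injective function.  Second: the inverse of a bijection is a set by `StPSB.3`.
Third: if `m ⊆ j`, the identity on `m` is a set by `StPSB.3`. -/
def StPIJ : Prop := ∀ (N : Type u) (E : N → N → Prop), ZFC E →
  (∀ b m, Le E (fun x y : N => x = y) b m →
    ∃ g, PFun E g b m ∧ ∀ x x' y, PVal E g x y → PVal E g x' y → x = x') ∧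
  (∀ a b, PEq E a b → PEq E b a ∧ Le E (fun x y : N => x = y) b a) ∧
  (∀ m j, PSub E m j → Le E (fun x y : N => x = y) m j)

/-- MODULE PCB (Cantor-Bernstein in the model).  Written proof.  Let `f : a → b`, `g : b → a` be injective functions.  `C = {x ∈ a | ∃ D ⊆ a, x ∈ D, ∀ z ∈ D, ¬ ∃ y ∈ b, (y, z) ∈ g ∧ ¬ ∃ x' ∈ D, (x', y) ∈ f}` (separation; formula with codes `cSub`, `cRl`).  `C` is itself such a `D` (if `z ∈ C`, `z ∈ D`,
and `(y, z) ∈ g`, then there is `x' ∈ D ⊆ C` with `(x', y) ∈ f`).  Conversely if `z ∈ a` is not in `C` then there is `y ∈ b` with `(y, z) ∈ g` and no `x' ∈ C` with `(x', y) ∈ f` (otherwise `C ∪ {z}` is such a `D`: this set exists by `pair` and `union`).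
`h = {(x, y) | x ∈ a, y ∈ b, (x ∈ C ∧ (x, y) ∈ f) ∨ (x ∉ C ∧ (y, x) ∈ g)}` (`StPSB.3`) is a bijection: total: clear.  Injective and surjective: if `y` is `f x` with `x ∈ C`, then `x` is the only preimage: for `x' ∉ C` with `(y, x') ∈ g`: there is `y'` with `(y', x') ∈ g`, `y'` not in `f[C]`, `y' = y` as `g` is
injective, contradiction.  If `y` is not in `f[C]`, let `(y, z) ∈ g`; `z ∉ C` (if `z ∈ C` then `y ∈ f[C]`), so `(z, y) ∈ h`. -/
def StPCB : Prop := ∀ (N : Type u) (E : N → N → Prop), ZFC E → ∀ a b f g,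
  PFun E f a b → (∀ x x' y, PVal E f x y → PVal E f x' y → x = x') →
  PFun E g b a → (∀ x x' y, PVal E g x y → PVal E g x' y → x = x') → PEq E a b

/-- MODULE PFN (the final translation).  Written proof.  Write `≤` for `Le`.  By `StPIJ.1` and `StPCB`: (*) `a ≤ b` and `b ≤ a` imply `PEq a b`; conversely `PEq a b` implies both (`StPIJ.2`).
`Cd k → PCard k`: if `y ∈ k` and `PEq k y` then `k ≤ y`.  `Ct m → PCont m`: (*).  `Sc m k → PSucc m k`: let `j ∈ k`, `m ∈ j`, `PCard j`; `j ≤ m` by `Sc`, `m ⊆ j` (`POrd k`: `j` is transitive) so `m ≤ j` (`StPIJ.3`), so `PEq j m` by (*), a contradiction to `PCard j`.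
`¬ PNeg l k`: let `L, f` be as in `PNeg`.  `Fn f`: if `(x, y), (x, y') ∈ f` then `x ∈ L` (`StPSB.2`), so `y = y'`.  `Tot f l k`: `y ⊆ l`, `Ci y` gives `w` with `Om w`, `y ≤ w`, `w ≤ y`, so `PEq y w`, `y ∈ L`, so `f` has a value at `y`, in `k`.
So `PosP` gives `X ⊆ l`, `X ≤ k`, `k ≤ X`, so `PEq X k`, and `c ∈ k` which is not a value at the `y ⊆ X` with `Ci y`; but `PNeg` gives such a `y` with `PCtb y X`, so `Ci y`, a contradiction. -/
def StPFN : Prop := ∀ (N : Type u) (E : N → N → Prop), ZFC E → ∀ m k l,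
  PosP E (fun x y : N => x = y) m k l →
    PCont E m ∧ PSucc E m k ∧ PSucc E k l ∧ ¬ PNeg E l k

end Pool.Agent.Helper24.FR
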