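import Pool.Agent.Helper24.FR.StV
import Pool.Agent.Helper24.FR.StVI

/-!
# FR: assembly
-/

set_option autoImplicit false

universe u

open Cardinal Set

namespace Pool.Agent.Helper24.FR

theorem posQ {B : Type u} [CompleteBooleanAlgebra B] (W : UF B) (m k l : Nm B)
    (h : PosP bmem beq m k l = ⊤) :
    PosP (QE W) (fun x y : QN W => x = y) (QN.mk W m) (QN.mk W k) (QN.mk W l) := by
  have h1 := (los W (cPosP 0 1 2) (env m k l)).2 (by
    rw [ev_cPosP]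
    change PosP bmem beq m k l ∈ W.s
    rw [h]
    exact W.top)
  rw [← ev_prop, ev_cPosP] at h1
  exact h1

theorem hPOS (hZ : StZFC.{u}) (hU : StUFX.{u}) (hP : StPTN.{u}) (hR : StROA.{u}) (hD : StPDB.{u})
    (hC : StCLP.{u}) (R A : Type u) [Preorder R] [Nonempty R] [LinearOrder A] [WellFoundedLT A]
    (w₀ w₁ k : A) (h0 : I0 w₀) (h1 : I1 w₁) (h2 : w₁ < k)
    (hs : ∀ f : ℕ → R, (∀ n, f (n + 1) ≤ f n) → ∃ r, ∀ n, r ≤ f n)
    (h3 : ∀ p : R, ∀ β < k, ¬ ClP p (Set.Iio β) (Set.Iio k))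
    (h4 : ∀ (p : R) (α : A), ¬ ClP p (Set.Iio α) (Set.univ : Set A))
    (h5 : ∀ β < k, ClT R (Set.Iio w₁) (Set.Iio β))
    (h6 : ClT R (Set.Iio w₁) {S : Set A // S ⊆ Set.Iio w₀})
    (h7 : ∀ α : A, ClT R (Set.Iio k) (Set.Iio α)) (h8 : CoreP R A k) :
    ∃ (N : Type (u + 1)) (E : N → N → Prop), ZFC E ∧
      ∃ m k l : N, PosP E (fun x y : N => x = y) m k l := by
  obtain ⟨B, hB, e, he⟩ := hR R
  have hp : PosP bmem beq (on B w₁) (on B k) (sn B (Set.univ : Set A)) = ⊤ := by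
    refine hP B A w₀ w₁ k h0 h1 h2 (hD.2 R B e he hs) ?_ ?_ ?_ ?_ ?_ ?_
    · intro b hb β hβ hc
      obtain ⟨p, -, hp⟩ := hC.1 R B e he b _ _ hb hc
      exact h3 p β hβ hp
    · intro b hb α hc
      obtain ⟨p, -, hp⟩ := hC.1 R B e he b _ _ hb hc
      exact h4 p α hp
    · exact fun β hβ => hC.2.1 R B e he _ _ (h5 β hβ)
    · exact hC.2.1 R B e he _ _ h6
    · exact fun α => hC.2.1 R B e he _ _ (h7 α)
    · exact hC.2.2 R B A e he k h8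
  obtain ⟨r⟩ := ‹Nonempty R›
  obtain ⟨W, -⟩ := hU B (e r) (he.ne r)
  exact ⟨QN W, QE W, hZ B W, _, _, _, posQ W _ _ _ hp⟩

theorem ClT.map {R : Type u} [Preorder R] {I J J' : Type u} (h : ClT R I J) (g : J → J')
    (hg : Function.Surjective g) : ClT R I J' := by
  obtain ⟨D, h1, h2, h3⟩ := h
  refine ⟨fun i j' => {r | ∃ j, g j = j' ∧ r ∈ D i j}, ?_, ?_, ?_⟩
  · rintro i j' r r' ⟨j, hj, hr⟩ hrr
    exact ⟨j, hj, h1 i j r r' hr hrr⟩
  · rintro i j j' r hjj ⟨a, ha, hra⟩ ⟨b, hb, hrb⟩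
    refine h2 i a b r ?_ hra hrb
    rintro rfl
    exact hjj (ha.symm.trans hb)
  · intro j' q
    obtain ⟨j, rfl⟩ := hg j'
    obtain ⟨r, hr, i, hi⟩ := h3 j q
    exact ⟨r, hr, i, j, rfl, hi⟩

theorem RC.ne {A : Type} [LinearOrder A] {κ : A} (h : Rg κ) : Nonempty (RC κ) := by
  have hne : ∀ γ : A, Rg γ → ∃ ξ, ξ < γ := by
    intro γ hγ
    obtain ⟨ξ, hξ, -⟩ := hγ.2.2 ∅ (Set.empty_subset _) (by
      rw [mk_emptyCollection]
      exact aleph0_pos.trans hγ.1)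
    exact ⟨ξ, hξ⟩
  refine ⟨⟨(fun _ => none, fun _ => none), ⟨?_, ?_, ?_, ?_⟩, ⟨?_, ?_, ?_⟩⟩⟩
  · intro γ β η v h
    exact absurd h (by simp)
  · convert Set.countable_empty using 1
    ext γ
    simp
  · intro γ
    have : {z : A × A | (fun _ : A × A × A => (none : Option A)) (γ, z.1, z.2) ≠ none} = ∅ := by
      ext z
      simp
    rw [this, mk_emptyCollection]
    exact bot_le
  · intro γ hγ
    obtain ⟨ξ, hξ⟩ := hne γ hγ
    exact ⟨ξ, hξ, fun β η h => absurd rfl h⟩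
  · intro α η n h
    exact absurd h (by simp)
  · have : {z : A × A | (fun _ : A × A => (none : Option (Na A))) z ≠ none} = ∅ := by
      ext z
      simp
    rw [this, mk_emptyCollection]
    exact bot_le
  · obtain ⟨ξ, hξ⟩ := hne κ h
    exact ⟨ξ, hξ, fun β η h => absurd rfl h⟩

/-- Everything from the existence of `Hu κ U`. -/
theorem fromHu (hZ : StZFC.{0}) (hU : StUFX.{0}) (hP : StPTN.{0}) (hR : StROA.{0}) (hD : StPDB.{0})
    (hC : StCLP.{0}) (hSIG : StSIG) (hCO1 : StCO1) (hCO2 : StCO2) (hWOO : StWOO) (hCCP : StCCP)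
    (hULR : StULR) (hCRP : StCRP) (hPFN : StPFN.{1})
    (A : Type) [LinearOrder A] [WellFoundedLT A] (κ : A) (U : Ultrafilter (Set A)) (h : Hu κ U) :
    ∃ (N : Type 1) (E : N → N → Prop), ZFC E ∧
      ∃ m k l : N, PCont E m ∧ PSucc E m k ∧ PSucc E k l ∧ ¬ PNeg E l k := by
  have hb : Big κ := hULR A κ U h
  obtain ⟨w₀, w₁, h0, h1, h2, β, hβ, g, hg⟩ := hWOO A κ hb
  haveI := RC.ne hb.rg
  obtain ⟨N, E, hE, m, k, l, hm⟩ := hPOS hZ hU hP hR hD hC (RC κ) A w₀ w₁ κ h0 h1 h2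
    (hSIG A κ hb.rg) (fun p β hβ => hCRP.2 A κ U h p β hβ) (fun p α => hCCP A κ hb p α)
    (fun β hβ => hCO1.2 A κ w₁ hb.rg h1 h2 β hβ)
    ((hCO1.2 A κ w₁ hb.rg h1 h2 β hβ).map g hg)
    (fun α => hCO2 A κ hb.rg α) (hCRP.1 A κ U h)
  exact ⟨N, E, hE, m, k, l, hPFN N E hE m k l hm⟩

end Pool.Agent.Helper24.FR
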