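import Pool.Agent.Helper24.FR.Bv

/-!
# FR: basic facts on names: equality, membership, congruence, mixing, fullness
-/

set_option autoImplicit false

universe u v w

namespace Pool.Agent.Helper24.FR

variable {B : Type u} [CompleteBooleanAlgebra B]

theorem beq_def (x y : Nm B) : beq x y =
    (⨅ i : x.ix, x.vl i ⇨ ⨆ j : y.ix, y.vl j ⊓ beq (x.el i) (y.el j)) ⊓
      (⨅ j : y.ix, y.vl j ⇨ ⨆ i : x.ix, x.vl i ⊓ beq (x.el i) (y.el j)) := by
  cases x; cases y; rw [beq]; rfl

theorem bmem_def (x y : Nm B) : bmem x y = ⨆ j : y.ix, y.vl j ⊓ beq x (y.el j) := by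
  cases y; rw [bmem]; rfl

@[simp] theorem beq_refl (x : Nm B) : beq x x = ⊤ := by
  induction x with
  | mk ι a p ih =>
    rw [eq_top_iff, beq]
    refine le_inf (le_iInf fun i => ?_) (le_iInf fun i => ?_)
    · rw [le_himp_iff, top_inf_eq]
      exact le_iSup_of_le i (by rw [ih i, inf_top_eq])
    · rw [le_himp_iff, top_inf_eq]
      exact le_iSup_of_le i (by rw [ih i, inf_top_eq])

theorem beq_comm (x y : Nm B) : beq x y = beq y x := by
  induction x generalizing y with
  | mk ι a p ih =>
    cases y with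
    | mk κ b q =>
      rw [beq, beq, inf_comm]
      simp only [ih]

theorem beq_le_left (x y : Nm B) (i : x.ix) : x.vl i ⊓ beq x y ≤ bmem (x.el i) y := by
  rw [beq_def, bmem_def]
  refine (inf_le_inf_left _ (inf_le_left.trans (iInf_le _ i))).trans ?_
  rw [inf_himp]
  exact inf_le_right

theorem beq_le_right (x y : Nm B) (j : y.ix) : y.vl j ⊓ beq x y ≤ bmem (y.el j) x := by
  rw [beq_comm]
  exact beq_le_left y x j

theorem le_beq {b : B} {x y : Nm B} (h1 : ∀ i : x.ix, b ⊓ x.vl i ≤ bmem (x.el i) y)
    (h2 : ∀ j : y.ix, b ⊓ y.vl j ≤ bmem (y.el j) x) : b ≤ beq x y := by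
  rw [beq_def]
  refine le_inf (le_iInf fun i => ?_) (le_iInf fun j => ?_)
  · rw [le_himp_iff, ← bmem_def]
    exact h1 i
  · rw [le_himp_iff]
    simp only [beq_comm (x.el _)]
    rw [← bmem_def]
    exact h2 j

theorem beq_trans (x y z : Nm B) : beq x y ⊓ beq y z ≤ beq x z := by
  induction x generalizing y z with
  | mk ι a p ih =>
    have h0 : ∀ (i : ι) (y z : Nm B), beq (a i) y ⊓ beq y z ≤ beq (a i) z := ih
    refine le_beq (fun i => ?_) (fun k => ?_)
    · have h1 := beq_le_left (Nm.mk ι a p) y i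
      calc beq (Nm.mk ι a p) y ⊓ beq y z ⊓ (Nm.mk ι a p).vl i
          ≤ ((Nm.mk ι a p).vl i ⊓ beq (Nm.mk ι a p) y) ⊓ beq y z :=
            le_inf (le_inf inf_le_right (inf_le_left.trans inf_le_left))
              (inf_le_left.trans inf_le_right)
        _ ≤ bmem (a i) y ⊓ beq y z := inf_le_inf_right _ h1
        _ ≤ bmem (a i) z := by
            rw [bmem_def, iSup_inf_eq]
            refine iSup_le fun j => ?_
            calc y.vl j ⊓ beq (a i) (y.el j) ⊓ beq y z
                ≤ beq (a i) (y.el j) ⊓ (y.vl j ⊓ beq y z) :=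
                  le_inf (inf_le_left.trans inf_le_right)
                    (le_inf (inf_le_left.trans inf_le_left) inf_le_right)
              _ ≤ beq (a i) (y.el j) ⊓ bmem (y.el j) z := inf_le_inf_left _ (beq_le_left y z j)
              _ ≤ bmem (a i) z := by
                  rw [bmem_def, bmem_def, inf_iSup_eq]
                  refine iSup_le fun k => le_iSup_of_le k ?_
                  exact le_inf (inf_le_right.trans inf_le_left)
                    ((le_inf inf_le_left (inf_le_right.trans inf_le_right)).trans (h0 i _ _))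
    · calc beq (Nm.mk ι a p) y ⊓ beq y z ⊓ z.vl k
          ≤ (z.vl k ⊓ beq y z) ⊓ beq (Nm.mk ι a p) y :=
            le_inf (le_inf inf_le_right (inf_le_left.trans inf_le_right))
              (inf_le_left.trans inf_le_left)
        _ ≤ bmem (z.el k) y ⊓ beq (Nm.mk ι a p) y := inf_le_inf_right _ (beq_le_right y z k)
        _ ≤ bmem (z.el k) (Nm.mk ι a p) := by
            rw [bmem_def, iSup_inf_eq]
            refine iSup_le fun j => ?_
            calc y.vl j ⊓ beq (z.el k) (y.el j) ⊓ beq (Nm.mk ι a p) y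
                ≤ beq (z.el k) (y.el j) ⊓ (y.vl j ⊓ beq (Nm.mk ι a p) y) :=
                  le_inf (inf_le_left.trans inf_le_right)
                    (le_inf (inf_le_left.trans inf_le_left) inf_le_right)
              _ ≤ beq (z.el k) (y.el j) ⊓ bmem (y.el j) (Nm.mk ι a p) :=
                  inf_le_inf_left _ (beq_le_right (Nm.mk ι a p) y j)
              _ ≤ bmem (z.el k) (Nm.mk ι a p) := by
                  rw [bmem_def, bmem_def, inf_iSup_eq]
                  refine iSup_le fun i => le_iSup_of_le i ?_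
                  refine le_inf (inf_le_right.trans inf_le_left) ?_
                  have h2 := h0 i (y.el j) (z.el k)
                  change _ ≤ beq (z.el k) (a i)
                  rw [beq_comm (z.el k) (a i)]
                  refine le_trans (le_inf ?_ ?_) h2
                  · rw [beq_comm (a i) (y.el j)]
                    exact inf_le_right.trans inf_le_right
                  · rw [beq_comm (y.el j) (z.el k)]
                    exact inf_le_left

theorem bmem_congr_left (x y z : Nm B) : beq x y ⊓ bmem x z ≤ bmem y z := by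
  rw [bmem_def, bmem_def, inf_iSup_eq]
  refine iSup_le fun k => le_iSup_of_le k (le_inf (inf_le_right.trans inf_le_left) ?_)
  refine le_trans ?_ (beq_trans y x (z.el k))
  rw [beq_comm y x]
  exact le_inf inf_le_left (inf_le_right.trans inf_le_right)

theorem bmem_congr_right (x y z : Nm B) : beq y z ⊓ bmem x y ≤ bmem x z := by
  conv_lhs => rw [bmem_def]
  rw [inf_iSup_eq]
  refine iSup_le fun j => ?_
  calc beq y z ⊓ (y.vl j ⊓ beq x (y.el j))
      ≤ beq (y.el j) x ⊓ (y.vl j ⊓ beq y z) := by
        rw [beq_comm (y.el j) x]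
        exact le_inf (inf_le_right.trans inf_le_right)
          (le_inf (inf_le_right.trans inf_le_left) inf_le_left)
    _ ≤ beq (y.el j) x ⊓ bmem (y.el j) z := inf_le_inf_left _ (beq_le_left y z j)
    _ ≤ bmem x z := bmem_congr_left _ _ _

theorem vl_le_bmem (x : Nm B) (i : x.ix) : x.vl i ≤ bmem (x.el i) x := by
  rw [bmem_def]
  exact le_iSup_of_le i (by rw [beq_refl, inf_top_eq])

/-- Extensionality. -/
theorem le_beq_of_mem {b : B} {x y : Nm B} (h1 : ∀ z, b ⊓ bmem z x ≤ bmem z y)
    (h2 : ∀ z, b ⊓ bmem z y ≤ bmem z x) : b ≤ beq x y :=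
  le_beq (fun i => (inf_le_inf_left _ (vl_le_bmem x i)).trans (h1 _))
    (fun j => (inf_le_inf_left _ (vl_le_bmem y j)).trans (h2 _))

theorem beq_eq_iInf (x y : Nm B) : beq x y =
    ⨅ z : Nm B, (bmem z x ⇨ bmem z y) ⊓ (bmem z y ⇨ bmem z x) := by
  apply le_antisymm
  · refine le_iInf fun z => le_inf ?_ ?_
    · rw [le_himp_iff]
      exact bmem_congr_right z x y
    · rw [le_himp_iff, beq_comm]
      exact bmem_congr_right z y x
  · refine le_beq_of_mem (fun z => ?_) (fun z => ?_)
    · rw [← le_himp_iff]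
      exact (iInf_le _ z).trans inf_le_left
    · rw [← le_himp_iff]
      exact (iInf_le _ z).trans inf_le_right

/-- Congruence for formulas. -/
theorem ev_congr (φ : Fml) (v v' : ℕ → Nm B) (b : B) (h : ∀ n, b ≤ beq (v n) (v' n)) :
    b ⊓ ev bmem beq φ v ≤ ev bmem beq φ v' := by
  induction φ generalizing v v' b with
  | mem i j =>
    rw [ev, ev]
    calc b ⊓ bmem (v i) (v j) ≤ beq (v i) (v' i) ⊓ (beq (v j) (v' j) ⊓ bmem (v i) (v j)) :=
          le_inf (inf_le_left.trans (h i)) (le_inf (inf_le_left.trans (h j)) inf_le_right)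
      _ ≤ beq (v i) (v' i) ⊓ bmem (v i) (v' j) := inf_le_inf_left _ (bmem_congr_right _ _ _)
      _ ≤ bmem (v' i) (v' j) := bmem_congr_left _ _ _
  | eq i j =>
    rw [ev, ev]
    calc b ⊓ beq (v i) (v j) ≤ beq (v' i) (v i) ⊓ (beq (v i) (v j) ⊓ beq (v j) (v' j)) := by
          rw [beq_comm (v' i)]
          exact le_inf (inf_le_left.trans (h i)) (le_inf inf_le_right (inf_le_left.trans (h j)))
      _ ≤ beq (v' i) (v i) ⊓ beq (v i) (v' j) := inf_le_inf_left _ (beq_trans _ _ _)
      _ ≤ beq (v' i) (v' j) := beq_trans _ _ _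
  | bot => rw [ev, ev]; exact inf_le_right
  | imp φ ψ h1 h2 =>
    rw [ev, ev, le_himp_iff]
    have e1 := h1 v' v b (fun n => by rw [beq_comm]; exact h n)
    calc b ⊓ (ev bmem beq φ v ⇨ ev bmem beq ψ v) ⊓ ev bmem beq φ v'
        ≤ b ⊓ ((ev bmem beq φ v ⇨ ev bmem beq ψ v) ⊓ ev bmem beq φ v) :=
          le_inf (inf_le_left.trans inf_le_left) (le_inf (inf_le_left.trans inf_le_right)
            ((le_inf (inf_le_left.trans inf_le_left) inf_le_right).trans e1))
      _ ≤ b ⊓ ev bmem beq ψ v := inf_le_inf_left _ himp_inf_le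
      _ ≤ ev bmem beq ψ v' := h2 v v' b h
  | all i φ ih =>
    rw [ev, ev]
    refine le_iInf fun x => ?_
    refine (inf_le_inf_left _ (iInf_le _ x)).trans (ih _ _ _ fun n => ?_)
    by_cases hn : n = i
    · subst hn
      rw [Function.update_self, Function.update_self, beq_refl]
      exact le_top
    · rw [Function.update_of_ne hn, Function.update_of_ne hn]
      exact h n

/-- Extensional Boolean valued predicates. -/
def Ex (P : Nm B → B) : Prop := ∀ x y, beq x y ⊓ P x ≤ P y

theorem ex_ev (φ : Fml) (v : ℕ → Nm B) (i : ℕ) :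
    Ex fun x => ev bmem beq φ (Function.update v i x) := by
  intro x y
  refine ev_congr φ _ _ _ fun n => ?_
  by_cases hn : n = i
  · subst hn
    rw [Function.update_self, Function.update_self]
  · rw [Function.update_of_ne hn, Function.update_of_ne hn, beq_refl]
    exact le_top

/-! ### Mixing and fullness -/

/-- The mixture of the `x i` with weights `b i`. -/
def mix {ι : Type u} (b : ι → B) (x : ι → Nm B) : Nm B :=
  .mk (Σ i, (x i).ix) (fun s => (x s.1).el s.2) (fun s => b s.1 ⊓ (x s.1).vl s.2)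

theorem le_mix {ι : Type u} (b : ι → B) (x : ι → Nm B) (hb : ∀ i j, i ≠ j → b i ⊓ b j = ⊥)
    (i : ι) : b i ≤ beq (mix b x) (x i) := by
  refine le_beq (fun s => ?_) (fun t => ?_)
  · obtain ⟨j, t⟩ := s
    change b i ⊓ (b j ⊓ (x j).vl t) ≤ bmem ((x j).el t) (x i)
    by_cases h : i = j
    · subst h
      exact (inf_le_right.trans inf_le_right).trans (vl_le_bmem (x i) t)
    · rw [← inf_assoc, hb i j h, bot_inf_eq]
      exact bot_le
  · refine le_trans ?_ (vl_le_bmem (mix b x) ⟨i, t⟩)
    exact le_rfl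

/-- Fullness (maximum principle). -/
theorem full (P : Nm B → B) (hP : Ex P) : ∃ x, P x = ⨆ y, P y := by
  classical
  have hx : ∀ s : Set.range P, ∃ y, P y = s := fun s => s.2
  choose x hx using hx
  let r : Set.range P → Set.range P → Prop := WellOrderingRel
  let b : Set.range P → B := fun s => (s : B) ⊓ (⨆ t : {t : Set.range P // r t s}, (t.1 : B))ᶜ
  have hb : ∀ s t, s ≠ t → b s ⊓ b t = ⊥ := by
    have key : ∀ s t, r s t → b s ⊓ b t = ⊥ := by
      intro s t h
      rw [eq_bot_iff]
      have h1 : (s : B) ≤ ⨆ u : {u : Set.range P // r u t}, (u.1 : B) :=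
        le_iSup_of_le (⟨s, h⟩ : {u : Set.range P // r u t}) le_rfl
      calc b s ⊓ b t ≤ (⨆ u : {u : Set.range P // r u t}, (u.1 : B)) ⊓
            (⨆ u : {u : Set.range P // r u t}, (u.1 : B))ᶜ :=
            le_inf ((inf_le_left.trans inf_le_left).trans h1) (inf_le_right.trans inf_le_right)
        _ = ⊥ := inf_compl_self _
        _ ≤ ⊥ := le_rfl
    intro s t h
    rcases trichotomous_of r s t with h1 | h1 | h1
    · exact key s t h1
    · exact absurd h1 h
    · rw [inf_comm]; exact key t s h1
  have hs : ∀ s : Set.range P, (s : B) ≤ ⨆ t, b t := by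
    intro s
    induction s using (IsWellFounded.wf : WellFounded r).induction with
    | _ s ih =>
      have h1 : (⨆ t : {t : Set.range P // r t s}, (t.1 : B)) ≤ ⨆ t, b t :=
        iSup_le fun t => ih t.1 t.2
      calc (s : B) ≤ b s ⊔ (⨆ t : {t : Set.range P // r t s}, (t.1 : B)) := by
            change (s : B) ≤ (s : B) ⊓ (⨆ t : {t : Set.range P // r t s}, (t.1 : B))ᶜ ⊔
              (⨆ t : {t : Set.range P // r t s}, (t.1 : B))
            rw [sup_inf_right, compl_sup_eq_top, inf_top_eq]
            exact le_sup_left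
        _ ≤ ⨆ t, b t := sup_le (le_iSup b s) h1
  refine ⟨mix b x, le_antisymm (le_iSup P _) (iSup_le fun y => ?_)⟩
  refine (hs ⟨P y, y, rfl⟩).trans (iSup_le fun s => ?_)
  have h1 : b s ≤ beq (x s) (mix b x) := by rw [beq_comm]; exact le_mix b x hb s
  have h2 : b s ≤ P (x s) := by rw [hx s]; exact inf_le_left
  exact (le_inf h1 h2).trans (hP _ _)

end Pool.Agent.Helper24.FR
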