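import Pool.Agent.Helper24.FR.Fml

/-!
# FR: Boolean valued models of set theory

`Nm B` are the names over a complete Boolean algebra `B`, `beq` and `bmem` the Boolean values of equality and
membership.  `Fml` are the formulas of set theory (variables are natural numbers), `ev` their value in a structure
`(M, E, Q)` with truth values in a complete Boolean algebra `O` (`O = Prop`: ordinary satisfaction).
-/

set_option autoImplicit false

universe u v w

namespace Pool.Agent.Helper24.FR

/-! ### Names -/

/-- Names. -/
inductive Nm (B : Type u) : Type (u + 1)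
  | mk (ι : Type u) (a : ι → Nm B) (p : ι → B) : Nm B

section names

variable {B : Type u} [CompleteBooleanAlgebra B]

/-- The Boolean value of equality. -/
noncomputable def beq : Nm B → Nm B → B
  | .mk ι a p, .mk κ b q =>
    (⨅ i : ι, p i ⇨ ⨆ j : κ, q j ⊓ beq (a i) (b j)) ⊓ (⨅ j : κ, q j ⇨ ⨆ i : ι, p i ⊓ beq (a i) (b j))

/-- The Boolean value of membership. -/
noncomputable def bmem : Nm B → Nm B → B
  | x, .mk κ b q => ⨆ j : κ, q j ⊓ beq x (b j)

/-- The index type of a name. -/
def Nm.ix : Nm B → Type u
  | .mk ι _ _ => ι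

/-- The elements of a name. -/
def Nm.el : (x : Nm B) → x.ix → Nm B
  | .mk _ a _ => a

/-- The values of the elements. -/
def Nm.vl : (x : Nm B) → x.ix → B
  | .mk _ _ p => p

end names

/-! ### Formulas -/

/-- The value of a formula. -/
def ev {O : Type u} [CompleteBooleanAlgebra O] {M : Type v} (E Q : M → M → O) : Fml → (ℕ → M) → O
  | .mem i j, v => E (v i) (v j)
  | .eq i j, v => Q (v i) (v j)
  | .bot, _ => ⊥
  | .imp φ ψ, v => ev E Q φ v ⇨ ev E Q ψ v
  | .all i φ, v => ⨅ x : M, ev E Q φ (Function.update v i x)

theorem ev_prop {N : Type v} (E : N → N → Prop) (φ : Fml) (v : ℕ → N) :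
    ev E (fun x y : N => x = y) φ v ↔ Sat E φ v := by
  induction φ generalizing v with
  | mem i j => exact Iff.rfl
  | eq i j => exact Iff.rfl
  | bot => exact Iff.rfl
  | imp φ ψ h1 h2 =>
    rw [ev, Sat, ← h1, ← h2]
    exact Iff.rfl
  | all i φ h =>
    rw [ev, Sat, iInf_Prop_eq]
    exact forall_congr' fun x => h _

end Pool.Agent.Helper24.FR
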