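import Mathlib

/-!
# FR: formulas of set theory and the axioms of ZFC for a structure `(N, E)`
-/

set_option autoImplicit false

universe v

namespace Pool.Agent.Helper24.FR

/-- Formulas of set theory; the variables are natural numbers. -/
inductive Fml : Type
  | mem (i j : ℕ) : Fml
  | eq (i j : ℕ) : Fml
  | bot : Fml
  | imp (φ ψ : Fml) : Fml
  | all (i : ℕ) (φ : Fml) : Fml

/-- Satisfaction in a structure `(N, E)`. -/
def Sat {N : Type v} (E : N → N → Prop) : Fml → (ℕ → N) → Prop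
  | .mem i j, v => E (v i) (v j)
  | .eq i j, v => v i = v j
  | .bot, _ => False
  | .imp φ ψ, v => Sat E φ v → Sat E ψ v
  | .all i φ, v => ∀ x : N, Sat E φ (Function.update v i x)

/-- The axioms of ZFC hold in `(N, E)`; separation and replacement for all first order formulas with parameters. -/
structure ZFC {N : Type v} (E : N → N → Prop) : Prop where
  nonempty : Nonempty N
  ext : ∀ x y, (∀ z, E z x ↔ E z y) → x = y
  found : ∀ x, (∃ y, E y x) → ∃ y, E y x ∧ ∀ z, E z y → ¬ E z x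
  pair : ∀ x y, ∃ z, ∀ w, E w z ↔ w = x ∨ w = y
  union : ∀ x, ∃ u, ∀ z, E z u ↔ ∃ y, E z y ∧ E y x
  power : ∀ x, ∃ p, ∀ z, E z p ↔ ∀ w, E w z → E w x
  inf : ∃ w, (∃ e, (∀ z, ¬ E z e) ∧ E e w) ∧ ∀ x, E x w → ∃ y, E y w ∧ ∀ z, E z y ↔ E z x ∨ z = x
  sep : ∀ (φ : Fml) (v : ℕ → N) (a : N), ∃ b, ∀ x, E x b ↔ E x a ∧ Sat E φ (Function.update v 0 x)
  repl : ∀ (φ : Fml) (v : ℕ → N) (a : N),
    (∀ x, E x a → ∃! y, Sat E φ (Function.update (Function.update v 0 x) 1 y)) →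
      ∃ b, ∀ y, E y b ↔ ∃ x, E x a ∧ Sat E φ (Function.update (Function.update v 0 x) 1 y)
  choice : ∀ a, (∀ x, E x a → ∃ z, E z x) → (∀ x y z, E x a → E y a → E z x → E z y → x = y) →
    ∃ c, ∀ x, E x a → ∃! z, E z x ∧ E z c

end Pool.Agent.Helper24.FR
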