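import Mathlib

/-!
# FR: huge cardinals
-/

set_option autoImplicit false

open Cardinal Set

namespace Pool.Agent.Helper24.FR

/-- The cardinal `κ` is huge: it is uncountable and for some `lam > κ` there is an ultrafilter on the power set of (the set of the ordinals
below) `lam` which is `κ`-complete, fine, normal, and contains the set of the `x` of order type `κ`. -/
def IsHuge (κ : Cardinal.{0}) : Prop :=
  ℵ₀ < κ ∧ ∃ lam : Cardinal.{0}, κ < lam ∧ ∃ U : Ultrafilter (Set lam.ord.ToType),
    (∀ (I : Type) (X : I → Set (Set lam.ord.ToType)), #I < κ → (∀ i, X i ∈ U) → (⋂ i, X i) ∈ U) ∧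
    (∀ a : lam.ord.ToType, {x : Set lam.ord.ToType | a ∈ x} ∈ U) ∧
    (∀ f : Set lam.ord.ToType → lam.ord.ToType, {x | f x ∈ x} ∈ U → ∃ a, {x | f x = a} ∈ U) ∧
    {x : Set lam.ord.ToType | Ordinal.type (fun a b : x => a < b) = κ.ord} ∈ U

end Pool.Agent.Helper24.FR
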