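import Pool.Agent.Helper24.FR.StIV

/-!
# FR: module CAP (capturing)
-/

set_option autoImplicit false

open Cardinal Set

namespace Pool.Agent.Helper24.FR

theorem hCAP (hR : StRES) : StCAP := by
  obtain ⟨hR1, hR2, hR3, _⟩ := hR
  constructor
  · rintro A _ _ κ δ Y Cr pt hF hP p p' t hp hp' hx ⟨s, hs, h1, h2⟩
    refine ⟨s, hs, Xt.refl _, fun z n hz => ?_⟩
    obtain ⟨n', hn', hf⟩ := h2 z n hz
    exact ⟨n', hP.mono p p' hp hp' hx z n' hn', hf.mono (hR3 A δ p p' hx)⟩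
  · rintro A _ _ κ δ Y Cr pt hF hP p t t' ⟨α, η⟩ n n' v v' hp ht ht' ⟨s, hs, h1⟩ ⟨s', hs', h1'⟩
      hz hz' hn hn'
    obtain ⟨t'', ht'', hc⟩ := hF.b (pt p) (hP.pT p hp)
    have hpd : isP δ (rs δ p) := hR1 A κ δ p hp
    have e1 := (hF.c t'' ht'' t ht (pt p) s (rs δ p) (rs δ p) hc hs hpd hpd).2 h1
    have e2 := (hF.c t'' ht'' t' ht' (pt p) s' (rs δ p) (rs δ p) hc hs' hpd hpd).2 h1'
    obtain ⟨m, hm, f1⟩ := e1.2 (α, η) n hz
    obtain ⟨m', hm', f2⟩ := e2.2 (α, η) n' hz'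
    have hmm : m' = m := Option.some.inj (hm'.symm.trans hm)
    subst hmm
    have hm : t'' (α, η) = some m' := hm
    obtain ⟨q, hq, hqp, hd⟩ := ((hF.yT t'' ht'').dom α η m' hm).2.2.den p hp
    obtain ⟨v'', hv''⟩ := Option.ne_none_iff_exists'.1 hd
    have hxq : Xt q (rs δ p) := hqp.trans (hR2 A δ p)
    have g1 := f1 q v'' v hq hxq hv'' (((hF.yT t ht).dom α η n hz).2.2.mon p q v hn hq hqp)
    have g2 := f2 q v'' v' hq hxq hv'' (((hF.yT t' ht').dom α η n' hz').2.2.mon p q v' hn' hq hqp)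
    exact g1.symm.trans g2

end Pool.Agent.Helper24.FR
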