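import Pool.Agent.Helper24.FR.StIV

set_option autoImplicit false

/-! # FR, module CCP: the target cardinal is preserved -/

open Cardinal Set

namespace Pool.Agent.Helper24.FR

theorem hCCP (hC : StCHN) : StCCP := by
  intro A _ _ κ hB p α hcl
  obtain ⟨D, hmono, hdis, hden⟩ := hcl
  have hch : ∀ j : A, ∃ (r : RC κ) (i : Iio α), r ∈ D i ⟨j, Set.mem_univ j⟩ := by
    intro j
    obtain ⟨r, _, i, hr⟩ := hden ⟨j, Set.mem_univ j⟩ p le_rfl
    exact ⟨r, i, hr⟩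
  choose r i hri using hch
  have hα : #(Iio α) < #A := (Cardinal.cantor _).trans (hB.lsl α)
  -- some fibre is large
  obtain ⟨i₀, hi₀⟩ : ∃ i₀ : Iio α, #{j : A | i j = i₀} = #A := by
    by_contra hno
    push Not at hno
    have hlt : ∀ i₀ : Iio α, #{j : A | i j = i₀} < #A := fun i₀ =>
      lt_of_le_of_ne (Cardinal.mk_set_le _) (hno i₀)
    have hb : ∀ i₀ : Iio α, ∃ ξ : A, ∀ s ∈ {j : A | i j = i₀}, s < ξ := fun i₀ =>
      hB.lreg _ (hlt i₀)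
    choose ξ hξ using hb
    obtain ⟨ζ, hζ⟩ := hB.lreg (Set.range ξ) (lt_of_le_of_lt Cardinal.mk_range_le hα)
    have h1 := hξ (i ζ) ζ rfl
    have h2 := hζ (ξ (i ζ)) ⟨_, rfl⟩
    exact absurd (h1.trans h2) (lt_irrefl _)
  obtain ⟨ν, hν, ν', hν', hne, a, ha, ha'⟩ := hC A κ hB {j : A | i j = i₀} r hi₀
  have h1 : a ∈ D i₀ ⟨ν, Set.mem_univ ν⟩ := by
    have := hmono (i ν) ⟨ν, Set.mem_univ ν⟩ (r ν) a (hri ν) ha
    have e : i ν = i₀ := hν
    rwa [e] at this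
  have h2 : a ∈ D i₀ ⟨ν', Set.mem_univ ν'⟩ := by
    have := hmono (i ν') ⟨ν', Set.mem_univ ν'⟩ (r ν') a (hri ν') ha'
    have e : i ν' = i₀ := hν'
    rwa [e] at this
  exact hdis i₀ ⟨ν, Set.mem_univ ν⟩ ⟨ν', Set.mem_univ ν'⟩ a
    (fun h => hne (congrArg Subtype.val h)) h1 h2

end Pool.Agent.Helper24.FR
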