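import Pool.Agent.Helper24.FR.StII

/-!
# FR, module CDN: cardinals
-/

set_option autoImplicit false

universe u

namespace Pool.Agent.Helper24.FR

section CDN

variable {B A : Type u} [CompleteBooleanAlgebra B] [LinearOrder A] [WellFoundedLT A]

private theorem disc_CDN (hO : StONN.{u}) (S : Set A) : Disc fun a : S => on B a.1 :=
  fun i j hij => hO.1 B A i.1 j.1 fun h => hij (Subtype.ext h)

private theorem le_sn_CDN (hL : StLEN.{u}) (hO : StONN.{u}) (S T : Set A) (b : B) :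
    b ≤ Le bmem beq (sn B T) (sn B S) ↔ Cl b S T :=
  hL B S T (fun a : S => on B a.1) (fun a : T => on B a.1) b (disc_CDN hO S) (disc_CDN hO T)

private theorem le_on_CDN (hL : StLEN.{u}) (hO : StONN.{u}) (a : A) (T : Set A) (b : B) :
    b ≤ Le bmem beq (sn B T) (on B a) ↔ Cl b (Set.Iio a) T := by
  rw [on_eq]
  exact le_sn_CDN hL hO _ _ _

private theorem on_le_on_CDN (hL : StLEN.{u}) (hO : StONN.{u}) (a c : A) (b : B) :
    b ≤ Le bmem beq (on B c) (on B a) ↔ Cl b (Set.Iio a) (Set.Iio c) := by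
  rw [on_eq c]
  exact le_on_CDN hL hO _ _ _

private theorem cd_CDN (hL : StLEN.{u}) (hO : StONN.{u}) (T : Set A)
    (hT : ∀ a ∈ T, ∀ b < a, b ∈ T) (h : ∀ b : B, b ≠ ⊥ → ∀ β ∈ T, ¬ Cl b (Set.Iio β) T) :
    Cd bmem beq (sn B T) = ⊤ := by
  rw [Cd, hO.2.2.2 B A T hT, top_inf_eq, eq_top_iff]
  refine le_iInf fun x => ?_
  rw [le_himp_iff, top_inf_eq, bmem_sn]
  refine iSup_le fun a => ?_
  rw [le_compl_iff_disjoint_right, disjoint_iff]
  have h1 : beq x (on B a.1) ⊓ Le bmem beq (sn B T) x ≤ Le bmem beq (sn B T) (on B a.1) :=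
    Le_congr (by rw [beq_refl]; exact le_top) le_rfl
  have h2 : Le bmem beq (sn B T) (on B a.1) = ⊥ := by
    by_contra hne
    exact h _ hne a.1 a.2 ((le_on_CDN hL hO a.1 T _).1 le_rfl)
  rw [h2] at h1
  exact le_bot_iff.1 h1

private theorem sc_CDN (hL : StLEN.{u}) (hO : StONN.{u}) (T : Set A) (μ : A) (hμ : μ ∈ T)
    (hT : ∀ a ∈ T, ∀ b < a, b ∈ T) (h : ∀ b : B, b ≠ ⊥ → ∀ β ∈ T, ¬ Cl b (Set.Iio β) T)
    (h2 : ∀ β ∈ T, Cl (⊤ : B) (Set.Iio μ) (Set.Iio β)) :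
    Sc bmem beq (on B μ) (sn B T) = ⊤ := by
  rw [Sc, cd_CDN hL hO T hT h, (hO.2.1 B A μ T).1 hμ, top_inf_eq, top_inf_eq, eq_top_iff]
  refine le_iInf fun x => ?_
  rw [le_himp_iff, top_inf_eq, bmem_sn]
  refine iSup_le fun a => ?_
  have h3 : (⊤ : B) ≤ Le bmem beq (on B a.1) (on B μ) := (on_le_on_CDN hL hO μ a.1 _).2 (h2 a.1 a.2)
  have h4 : beq x (on B a.1) ⊓ Le bmem beq (on B a.1) (on B μ) ≤ Le bmem beq x (on B μ) :=
    Le_congr (by rw [beq_comm]) (by rw [beq_refl]; exact le_top)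
  exact (le_inf le_rfl (le_top.trans h3)).trans h4

open Cardinal Ordinal in
private theorem card_CDN (w₁ : A) (hw : I1 w₁) : #(Set.Iio w₁) ≤ ℵ₁ := by
  by_contra hlt
  rw [not_le] at hlt
  -- the order type of `Iio w₁` is larger than `ω₁`
  have h1 : ω₁ < type (fun x y : Set.Iio w₁ => x < y) := by
    rw [← not_le]
    intro hle
    have := Ordinal.card_le_card hle
    rw [card_type, card_omega] at this
    exact absurd this (not_le.2 hlt)
  obtain ⟨a, ha⟩ := typein_surj (fun x y : Set.Iio w₁ => x < y) h1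
  have h2 : #{b : Set.Iio w₁ // b < a} = ℵ₁ := by
    have := congrArg Ordinal.card ha
    rw [card_omega] at this
    rw [← this]
    rfl
  have h3 : (Set.Iio a.1).Countable := hw.2 a.1 a.2
  haveI : Countable (Set.Iio a.1) := h3.to_subtype
  have h4 : Countable {b : Set.Iio w₁ // b < a} :=
    Function.Injective.countable (f := fun b : {b : Set.Iio w₁ // b < a} =>
      (⟨b.1.1, b.2⟩ : Set.Iio a.1)) fun b c hbc => by
        have := congrArg Subtype.val hbc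
        exact Subtype.ext (Subtype.ext this)
  have h5 : #{b : Set.Iio w₁ // b < a} ≤ ℵ₀ := Cardinal.mk_le_aleph0_iff.2 h4
  rw [h2] at h5
  exact absurd h5 (not_le.2 aleph0_lt_aleph_one)

open Cardinal in
private theorem surj_CDN (w₀ w₁ : A) (h0 : I0 w₀) (h1 : I1 w₁) :
    ∃ g : {S : Set A // S ⊆ Set.Iio w₀} → Set.Iio w₁, Function.Surjective g := by
  have e1 : #(Set.Iio w₁) ≤ #{S : Set A // S ⊆ Set.Iio w₀} := by
    have h2 : #{S : Set A // S ⊆ Set.Iio w₀} = 2 ^ #(Set.Iio w₀) := Cardinal.mk_powerset _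
    rw [h2]
    haveI := h0.1.to_subtype
    calc #(Set.Iio w₁) ≤ ℵ₁ := card_CDN w₁ h1
      _ ≤ 𝔠 := aleph_one_le_continuum
      _ = 2 ^ ℵ₀ := two_power_aleph0.symm
      _ ≤ 2 ^ #(Set.Iio w₀) := Cardinal.power_le_power_left two_ne_zero (Cardinal.aleph0_le_mk _)
  obtain ⟨f⟩ := e1
  haveI : Nonempty (Set.Iio w₁) := by
    by_contra hne
    rw [not_nonempty_iff] at hne
    exact h1.1 (Set.countable_coe_iff.1 inferInstance)
  exact ⟨Function.invFun f, Function.invFun_surjective f.injective⟩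

end CDN

theorem hCDN (hL : StLEN.{u}) (hO : StONN.{u}) (hM : StOMN.{u}) (hC : StCLF.{u})
    (hP : StPWN.{u}) : StCDN.{u} := by
  refine ⟨fun B A _ _ _ T hT h => cd_CDN hL hO T hT h,
    fun B A _ _ _ T μ hμ hT h h2 => sc_CDN hL hO T μ hμ hT h h2, ?_⟩
  intro B A _ _ _ w₀ w₁ h0 h1 hD hcl
  have hcd : Cd bmem beq (on B w₁) = ⊤ := by
    rw [on_eq]
    refine cd_CDN hL hO _ (fun a ha b hb => lt_trans hb ha) fun b hb β hβ => ?_
    haveI : Countable (Set.Iio β) := (h1.2 β hβ).to_subtype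
    haveI : Uncountable (Set.Iio w₁) := by
      rw [← not_countable_iff]
      exact fun h => h1.1 (Set.countable_coe_iff.1 h)
    exact hC.2.1 B b _ _ hD hb inferInstance inferInstance
  obtain ⟨hp1, hp2⟩ := hP B A hD w₀ h0
  obtain ⟨g, hg⟩ := surj_CDN w₀ w₁ h0 h1
  have e1 : (⊤ : B) ≤ Le bmem beq (fam fun S : {S : Set A // S ⊆ Set.Iio w₀} => sn B S.1)
      (on B w₁) := by
    rw [on_eq]
    exact (hL B (Set.Iio w₁) {S : Set A // S ⊆ Set.Iio w₀} (fun a : Set.Iio w₁ => on B a.1)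
      (fun S => sn B S.1) ⊤ (disc_CDN hO _) hp2).2 hcl
  have e2 : (⊤ : B) ≤ Le bmem beq (on B w₁)
      (fam fun S : {S : Set A // S ⊆ Set.Iio w₀} => sn B S.1) := by
    rw [on_eq]
    exact (hL B {S : Set A // S ⊆ Set.Iio w₀} (Set.Iio w₁) (fun S => sn B S.1)
      (fun a : Set.Iio w₁ => on B a.1) ⊤ hp2 (disc_CDN hO _)).2
      (hC.2.2.1 B ⊤ _ _ g hg)
  rw [Ct, hcd, top_inf_eq, eq_top_iff]
  refine le_iSup_of_le (on B w₀) (le_inf ?_ (le_iSup_of_le _ (le_inf ?_ (le_inf e1 e2))))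
  · rw [hM.1 B A w₀ h0]
  · rw [hp1]

end Pool.Agent.Helper24.FR
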