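import Pool.Agent.Helper24.FR.StIV

/-!
# FR, module CHN: the chain condition
-/

set_option autoImplicit false

open Cardinal Set

namespace Pool.Agent.Helper24.FR

section aux

variable {A : Type} [LinearOrder A]

/-- the columns of a term condition -/
private def cl_CHN (t : Ta A) : Set A := {α | ∃ η, t (α, η) ≠ none}

/-- restriction to the columns below `θ` -/
private noncomputable def rt_CHN (θ : A) (t : Ta A) : Ta A := by
  classical exact fun z => if z.1 < θ then t z else none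

private theorem rt_lt_CHN {θ : A} {t : Ta A} {z : A × A} (h : z.1 < θ) : rt_CHN θ t z = t z := by
  simp [rt_CHN, h]

private theorem rt_some_CHN {θ : A} {t : Ta A} {z : A × A} {n : Na A} (h : rt_CHN θ t z = some n) :
    z.1 < θ ∧ t z = some n := by
  by_cases hz : z.1 < θ
  · rw [rt_lt_CHN hz] at h
    exact ⟨hz, h⟩
  · simp [rt_CHN, hz] at h

private theorem rt_ne_CHN {θ : A} {t : Ta A} {z : A × A} (h : rt_CHN θ t z ≠ none) :
    t z ≠ none := by
  obtain ⟨n, hn⟩ := Option.ne_none_iff_exists'.1 h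
  rw [(rt_some_CHN hn).2]
  simp

private theorem mk_cl_CHN {κ : A} {S : Set A} {t : Ta A} (h : isT κ S t) :
    #(cl_CHN t) ≤ #(Iio κ) := by
  refine le_trans ?_ h.siz
  have hs : cl_CHN t ⊆ Prod.fst '' {z : A × A | t z ≠ none} := by
    rintro α ⟨η, hη⟩
    exact ⟨(α, η), hη, rfl⟩
  exact (mk_le_mk_of_subset hs).trans mk_image_le

private theorem rt_isT_CHN {κ θ : A} {S : Set A} {t : Ta A} (h : isT κ S t) :
    isT κ (Iio θ) (rt_CHN θ t) := by
  refine ⟨?_, ?_, ?_⟩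
  · intro α η n hn
    obtain ⟨h1, h2⟩ := rt_some_CHN hn
    obtain ⟨_, h3, h4⟩ := h.dom α η n h2
    exact ⟨h1, h3, h4⟩
  · refine le_trans (mk_le_mk_of_subset ?_) h.siz
    intro z hz
    exact rt_ne_CHN hz
  · obtain ⟨ξ, hξ, h1⟩ := h.hgt
    exact ⟨ξ, hξ, fun α η hn => h1 α η (rt_ne_CHN hn)⟩

private theorem mono_isT_CHN {κ θ : A} {S : Set A} {t : Ta A} (h : isT κ S t)
    (hc : ∀ α ∈ cl_CHN t, α < θ) : isT κ (Iio θ) t := by
  refine ⟨?_, h.siz, h.hgt⟩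
  intro α η n hn
  obtain ⟨_, h3, h4⟩ := h.dom α η n hn
  exact ⟨hc α ⟨η, by rw [hn]; simp⟩, h3, h4⟩

private theorem biUnion_CHN {ι α : Type} (S : Set ι) (f : ι → Set α) (a c : Cardinal)
    (hS : #S ≤ a) (h : ∀ i ∈ S, #(f i) ≤ c) : #(⋃ i ∈ S, f i) ≤ a * c := by
  rw [biUnion_eq_iUnion]
  calc #(⋃ x : S, f x.1) ≤ sum fun x : S => #(f x.1) := mk_iUnion_le_sum_mk
    _ ≤ sum fun _ : S => c := sum_le_sum _ _ fun x => h x.1 x.2
    _ = #S * c := by rw [sum_const']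
    _ ≤ a * c := mul_le_mul' hS le_rfl

/-- union of two term conditions which agree on the common domain -/
private theorem union_isT_CHN {κ : A} (hK : ℵ₀ ≤ #(Iio κ)) {t t' u : Ta A}
    (h : isT κ Set.univ t) (h' : isT κ Set.univ t')
    (hu : ∀ z, (t z ≠ none → u z = t z) ∧ (t z = none → u z = t' z)) :
    isT κ Set.univ u := by
  have hcase : ∀ z, u z ≠ none → t z ≠ none ∨ t' z ≠ none := by
    intro z hz
    by_cases ht : t z = none
    · right
      rw [← (hu z).2 ht]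
      exact hz
    · exact Or.inl ht
  refine ⟨?_, ?_, ?_⟩
  · intro α η n hn
    by_cases ht : t (α, η) = none
    · rw [(hu _).2 ht] at hn
      exact h'.dom α η n hn
    · rw [(hu _).1 ht] at hn
      exact h.dom α η n hn
  · have hs : {z : A × A | u z ≠ none} ⊆ {z | t z ≠ none} ∪ {z | t' z ≠ none} := by
      intro z hz
      exact hcase z hz
    calc #{z : A × A | u z ≠ none} ≤ #({z | t z ≠ none} ∪ {z | t' z ≠ none} : Set (A × A)) :=
          mk_le_mk_of_subset hs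
      _ ≤ #{z | t z ≠ none} + #{z | t' z ≠ none} := mk_union_le _ _
      _ ≤ #(Iio κ) + #(Iio κ) := add_le_add h.siz h'.siz
      _ = #(Iio κ) := add_eq_self hK
  · obtain ⟨ξ, hξ, h1⟩ := h.hgt
    obtain ⟨ξ', hξ', h1'⟩ := h'.hgt
    refine ⟨max ξ ξ', max_lt hξ hξ', ?_⟩
    intro α η hn
    rcases hcase _ hn with h2 | h2
    · exact (h1 α η h2).trans_le (le_max_left _ _)
    · exact (h1' α η h2).trans_le (le_max_right _ _)

end aux

theorem hCHN (hC : StCNT) (hU : StCNU) : StCHN := by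
  classical
  intro A _ _ κ hB J r hJ
  obtain ⟨hC1, _, hC3⟩ := hC
  obtain ⟨_, hU2, _, _⟩ := hU
  have hK0 : ℵ₀ < #(Iio κ) := hB.rg.1
  have hKA : #(Iio κ) < #A := (cantor _).trans (hB.lsl κ)
  have hA0 : ℵ₀ ≤ #A := (hK0.trans hKA).le
  have hsm : ∀ a : A, #(Iio a) < #A := fun a => (cantor _).trans (hB.lsl a)
  have hp : ∀ c < #A, 2 ^ c < #A := hU2 A κ hB
  have hPs : #{p : Ra A | isP κ p} < #A := hC1 A #A hA0 hp κ hKA
  have hTs : ∀ θ : A, #{t : Ta A | isT κ (Iio θ) t} < #A :=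
    fun θ => hC3 A #A hA0 hp κ θ hKA (hsm θ)
  have hprod : ∀ θ : A, #({p : Ra A | isP κ p} × {t : Ta A | isT κ (Iio θ) t}) < #A := by
    intro θ
    rw [mk_prod, lift_id, lift_id]
    exact mul_lt_of_lt hA0 hPs (hTs θ)
  -- small sets of representatives
  have hrep : ∀ θ : A, ∃ N : Set A, N ⊆ J ∧ #N < #A ∧ ∀ ν ∈ J, ∃ ν' ∈ N,
      (r ν').1.1 = (r ν).1.1 ∧ rt_CHN θ (r ν').1.2 = rt_CHN θ (r ν).1.2 := by
    intro θ
    let g : J → {p : Ra A | isP κ p} × {t : Ta A | isT κ (Iio θ) t} := fun ν =>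
      (⟨(r ν).1.1, (r ν).2.1⟩, ⟨rt_CHN θ (r ν).1.2, rt_isT_CHN (r ν).2.2⟩)
    have hs : ∀ y : range g, ∃ ν : J, g ν = y := fun y => y.2
    choose s hs using hs
    refine ⟨range fun y => (s y).1, ?_, ?_, ?_⟩
    · rintro _ ⟨y, rfl⟩
      exact (s y).2
    · exact (mk_range_le.trans (mk_set_le _)).trans_lt (hprod θ)
    · intro ν hν
      refine ⟨_, ⟨⟨g ⟨ν, hν⟩, mem_range_self _⟩, rfl⟩, ?_⟩
      have h1 := hs ⟨g ⟨ν, hν⟩, mem_range_self _⟩
      have h2 := congrArg (fun q => q.1.1) h1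
      have h3 := congrArg (fun q => q.2.1) h1
      exact ⟨h2, h3⟩
  choose N hNJ hNs hN using hrep
  have hF : ∀ θ : A, ∃ ξ : A, ∀ ν ∈ N θ, ∀ α ∈ cl_CHN (r ν).1.2, α < ξ := by
    intro θ
    have h1 : #(⋃ ν ∈ N θ, cl_CHN (r ν).1.2 : Set A) < #A :=
      (biUnion_CHN (N θ) (fun ν => cl_CHN (r ν).1.2) _ _ le_rfl
        (fun ν _ => mk_cl_CHN (r ν).2.2)).trans_lt (mul_lt_of_lt hA0 (hNs θ) hKA)
    obtain ⟨ξ, hξ⟩ := hB.lreg _ h1
    exact ⟨ξ, fun ν hν α hα => hξ α (mem_biUnion hν hα)⟩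
  choose F hF using hF
  have hG : ∃ G : Set A → A, ∀ S : Set A, #S < #A → ∀ s ∈ S, s < G S := by
    have : Nonempty A := ⟨κ⟩
    have h1 : ∀ S : Set A, ∃ ξ, #S < #A → ∀ s ∈ S, s < ξ := by
      intro S
      by_cases h : #S < #A
      · obtain ⟨ξ, hξ⟩ := hB.lreg S h
        exact ⟨ξ, fun _ => hξ⟩
      · exact ⟨κ, fun h' => absurd h' h⟩
    choose G hG using h1
    exact ⟨G, hG⟩
  obtain ⟨G, hG⟩ := hG
  let θ : A → A := (wellFounded_lt (α := A)).fix fun j rec =>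
    G {x | ∃ i, ∃ h : i < j, x = rec i h ∨ x = F (rec i h)}
  have hθ : ∀ j, θ j = G {x | ∃ i, ∃ _ : i < j, x = θ i ∨ x = F (θ i)} := fun j =>
    WellFounded.fix_eq _ _ _
  have hθ1 : ∀ j i, i < j → θ i < θ j ∧ F (θ i) < θ j := by
    intro j i hij
    have hs : #{x | ∃ i, ∃ _ : i < j, x = θ i ∨ x = F (θ i)} < #A := by
      have hsub : {x | ∃ i, ∃ _ : i < j, x = θ i ∨ x = F (θ i)} ⊆
          (θ '' Iio j) ∪ ((fun i => F (θ i)) '' Iio j) := by
        rintro x ⟨i, hi, rfl | rfl⟩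
        · exact Or.inl ⟨i, hi, rfl⟩
        · exact Or.inr ⟨i, hi, rfl⟩
      exact ((mk_le_mk_of_subset hsub).trans (mk_union_le _ _)).trans_lt
        (add_lt_of_lt hA0 (mk_image_le.trans_lt (hsm j)) (mk_image_le.trans_lt (hsm j)))
    rw [hθ j]
    exact ⟨hG _ hs _ ⟨i, hij, Or.inl rfl⟩, hG _ hs _ ⟨i, hij, Or.inr rfl⟩⟩
  -- the least element with more than `κ` predecessors
  have hsucc : Order.succ #(Iio κ) < #A :=
    (Order.succ_le_of_lt (cantor _)).trans_lt (hB.lsl κ)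
  have ha : ∃ a : A, Order.succ #(Iio κ) ≤ #(Iio a) := by
    obtain ⟨S, hS⟩ := le_mk_iff_exists_set.1 hsucc.le
    obtain ⟨ξ, hξ⟩ := hB.lreg S (by rw [hS]; exact hsucc)
    exact ⟨ξ, by rw [← hS]; exact mk_le_mk_of_subset hξ⟩
  obtain ⟨a₀, ha₀, hmin⟩ : ∃ a : A, Order.succ #(Iio κ) ≤ #(Iio a) ∧
      ∀ b < a, #(Iio b) ≤ #(Iio κ) := by
    refine ⟨(wellFounded_lt (α := A)).min {a | Order.succ #(Iio κ) ≤ #(Iio a)} ha,
      WellFounded.min_mem _ _ ha, fun b hb => ?_⟩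
    by_contra h
    have h5 : b ∈ {a : A | Order.succ #(Iio κ) ≤ #(Iio a)} := Order.succ_le_of_lt (not_le.1 h)
    exact (wellFounded_lt (α := A)).not_lt_min _ h5 hb
  have hbd : ∀ S : Set A, S ⊆ Iio a₀ → #S ≤ #(Iio κ) → ∃ j < a₀, ∀ s ∈ S, s < j := by
    intro S hS hSK
    by_contra hcon
    push Not at hcon
    have h1 : Iio a₀ ⊆ ⋃ s ∈ S, Iic s := by
      intro j hj
      obtain ⟨s, hs, hjs⟩ := hcon j hj
      exact mem_biUnion hs hjs
    have h2 : #(⋃ s ∈ S, Iic s : Set A) ≤ #(Iio κ) * #(Iio κ) := by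
      refine biUnion_CHN S (fun s => Iic s) _ _ hSK ?_
      intro s hs
      have h3 : Iic s ⊆ Iio s ∪ {s} := by
        intro x hx
        rcases lt_or_eq_of_le (mem_Iic.1 hx) with h | h
        · exact Or.inl h
        · exact Or.inr h
      calc #(Iic s) ≤ #(Iio s ∪ {s} : Set A) := mk_le_mk_of_subset h3
        _ ≤ #(Iio s) + #({s} : Set A) := mk_union_le _ _
        _ ≤ #(Iio κ) + #(Iio κ) := by
            refine add_le_add (hmin s (hS hs)) ?_
            rw [mk_singleton]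
            exact one_le_aleph0.trans hK0.le
        _ = #(Iio κ) := add_eq_self hK0.le
    rw [mul_eq_self hK0.le] at h2
    exact absurd ((ha₀.trans (mk_le_mk_of_subset h1)).trans h2)
      (not_le.2 (Order.lt_succ _))
  by_cases hall : ∀ ν ∈ J, ∀ α ∈ cl_CHN (r ν).1.2, α < θ a₀
  · -- `r` is not injective on `J`
    let g : J → {p : Ra A | isP κ p} × {t : Ta A | isT κ (Iio (θ a₀)) t} := fun ν =>
      (⟨(r ν).1.1, (r ν).2.1⟩, ⟨(r ν).1.2, mono_isT_CHN (r ν).2.2 (hall ν.1 ν.2)⟩)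
    have hg : ¬ Function.Injective g := by
      intro hg
      have := mk_le_of_injective hg
      rw [hJ] at this
      exact absurd (hprod (θ a₀)) (not_lt.2 this)
    simp only [Function.Injective, not_forall] at hg
    obtain ⟨ν, ν', hgg, hne⟩ := hg
    have h2 : (r ν).1.1 = (r ν').1.1 := congrArg (fun q => q.1.1) hgg
    have h3 : (r ν).1.2 = (r ν').1.2 := congrArg (fun q => q.2.1) hgg
    have h4 : r ν = r ν' := Subtype.ext (Prod.ext h2 h3)
    exact ⟨ν, ν.2, ν', ν'.2, fun h => hne (Subtype.ext h), r ν, le_rfl, h4.le⟩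
  · push Not at hall
    obtain ⟨ν, hν, c, hc, hcθ⟩ := hall
    -- the columns of `r ν` below `θ j` for some `j < a₀` are below `θ j₀`
    have hj₀ : ∃ j₀ < a₀, ∀ α ∈ cl_CHN (r ν).1.2, (∃ j < a₀, α < θ j) → α < θ j₀ := by
      have h1 : ∀ α : A, ∃ j, (∃ j < a₀, α < θ j) → j < a₀ ∧ α < θ j := by
        intro α
        by_cases h : ∃ j < a₀, α < θ j
        · obtain ⟨j, hj⟩ := h
          exact ⟨j, fun _ => hj⟩
        · exact ⟨κ, fun h' => absurd h' h⟩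
      choose jj hjj using h1
      obtain ⟨j₀, hj₀, h2⟩ := hbd (jj '' {α | α ∈ cl_CHN (r ν).1.2 ∧ ∃ j < a₀, α < θ j}) (by
          rintro _ ⟨α, ⟨_, hα⟩, rfl⟩
          exact (hjj α hα).1)
        (mk_image_le.trans ((mk_le_mk_of_subset fun α hα => hα.1).trans
          (mk_cl_CHN (r ν).2.2)))
      refine ⟨j₀, hj₀, fun α hα h => ?_⟩
      exact (hjj α h).2.trans (hθ1 _ _ (h2 _ ⟨α, ⟨hα, h⟩, rfl⟩)).1
    obtain ⟨j₀, hj₀, hcol⟩ := hj₀
    obtain ⟨j₁, hj₁, hj01⟩ := hbd {j₀} (by simpa using hj₀) (by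
      rw [mk_singleton]; exact one_le_aleph0.trans hK0.le)
    have hj01 : j₀ < j₁ := hj01 j₀ rfl
    obtain ⟨ν', hν', h1, h2⟩ := hN (θ j₀) ν hν
    have hcol' : ∀ α ∈ cl_CHN (r ν').1.2, α < θ j₁ := fun α hα =>
      (hF (θ j₀) ν' hν' α hα).trans (hθ1 j₁ j₀ hj01).2
    have hagree : ∀ z, (r ν).1.2 z ≠ none → (r ν').1.2 z ≠ none → (r ν).1.2 z = (r ν').1.2 z := by
      intro z hz hz'
      have h3 : z.1 < θ j₀ :=
        hcol z.1 ⟨z.2, hz⟩ ⟨j₁, hj₁, hcol' z.1 ⟨z.2, hz'⟩⟩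
      have h4 := congrFun h2 z
      rw [rt_lt_CHN h3, rt_lt_CHN h3] at h4
      exact h4.symm
    have hne : ν ≠ ν' := by
      rintro rfl
      have h3 := hcol' c hc
      exact absurd (h3.trans (hθ1 a₀ j₁ hj₁).1) (not_lt.2 hcθ)
    let u : Ta A := fun z => if (r ν).1.2 z = none then (r ν').1.2 z else (r ν).1.2 z
    have hu : ∀ z, ((r ν).1.2 z ≠ none → u z = (r ν).1.2 z) ∧
        ((r ν).1.2 z = none → u z = (r ν').1.2 z) := by
      intro z
      exact ⟨fun h => if_neg h, fun h => if_pos h⟩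
    have huT : isT κ Set.univ u := union_isT_CHN hK0.le (r ν).2.2 (r ν').2.2 hu
    refine ⟨ν, hν, ν', hNJ _ hν', hne, ⟨((r ν).1.1, u), (r ν).2.1, huT⟩, ?_, ?_⟩
    · rw [RC.le_iff]
      refine ⟨Xt.refl _, fun z n hz => ⟨n, ?_, Feq.refl _ _ _⟩⟩
      have h3 := (hu z).1 (by rw [hz]; simp)
      exact h3.trans hz
    · rw [RC.le_iff]
      refine ⟨?_, fun z n hz => ⟨n, ?_, Feq.refl _ _ _⟩⟩
      · change Xt (r ν).1.1 (r ν').1.1
        rw [h1]
        exact Xt.refl _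
      · change u z = some n
        by_cases h3 : (r ν).1.2 z = none
        · rw [(hu z).2 h3]
          exact hz
        · rw [(hu z).1 h3, hagree z h3 (by rw [hz]; simp)]
          exact hz

end Pool.Agent.Helper24.FR
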