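import Pool.Agent.Helper24.FR.StI

/-!
# FR: the axiom of choice in the quotient of the universe of names
-/

set_option autoImplicit false

universe u

namespace Pool.Agent.Helper24.FR

section

variable {B : Type u} [CompleteBooleanAlgebra B]

/-- `t j` is an element of `x` and no smaller `t j'` is. -/
private noncomputable def M_CHO {J : Type u} (r : J → J → Prop) (t : J → Nm B) (j : J) (x : Nm B) : B :=
  bmem (t j) x ⊓ (⨆ j' : {j' : J // r j' j}, bmem (t j'.1) x)ᶜ

private theorem disj_CHO {J : Type u} (r : J → J → Prop) [IsWellOrder J r] (t : J → Nm B)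
    (x : Nm B) {j k : J} (h : j ≠ k) : M_CHO r t j x ⊓ M_CHO r t k x = ⊥ := by
  have key : ∀ j k, r j k → M_CHO r t j x ⊓ M_CHO r t k x = ⊥ := by
    intro j k h
    rw [eq_bot_iff]
    have h1 : bmem (t j) x ≤ ⨆ j' : {j' : J // r j' k}, bmem (t j'.1) x :=
      le_iSup_of_le (⟨j, h⟩ : {j' : J // r j' k}) le_rfl
    calc M_CHO r t j x ⊓ M_CHO r t k x ≤ (⨆ j' : {j' : J // r j' k}, bmem (t j'.1) x) ⊓
          (⨆ j' : {j' : J // r j' k}, bmem (t j'.1) x)ᶜ :=
          le_inf ((inf_le_left.trans inf_le_left).trans h1) (inf_le_right.trans inf_le_right)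
      _ = ⊥ := inf_compl_self _
      _ ≤ ⊥ := le_rfl
  rcases trichotomous_of r j k with h1 | h1 | h1
  · exact key j k h1
  · exact absurd h1 h
  · rw [inf_comm]; exact key k j h1

private theorem sup_CHO {J : Type u} (r : J → J → Prop) [IsWellOrder J r] (t : J → Nm B)
    (x : Nm B) (j : J) : bmem (t j) x ≤ ⨆ k, M_CHO r t k x := by
  induction j using (IsWellFounded.wf : WellFounded r).induction with
  | _ j ih =>
    have h1 : (⨆ k : {k : J // r k j}, bmem (t k.1) x) ≤ ⨆ k, M_CHO r t k x :=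
      iSup_le fun k => ih k.1 k.2
    calc bmem (t j) x ≤ M_CHO r t j x ⊔ (⨆ k : {k : J // r k j}, bmem (t k.1) x) := by
          rw [M_CHO, sup_inf_right, compl_sup_eq_top, inf_top_eq]
          exact le_sup_left
      _ ≤ ⨆ k, M_CHO r t k x := sup_le (le_iSup (fun k => M_CHO r t k x) j) h1

private theorem congr_CHO {J : Type u} (r : J → J → Prop) (t : J → Nm B) (j : J) :
    Ex (M_CHO r t j) := by
  intro x y
  have h1 : beq x y ⊓ bmem (t j) x ≤ bmem (t j) y := bmem_congr_right _ _ _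
  have h2 : Ex fun x : Nm B => ⨆ j' : {j' : J // r j' j}, bmem (t j'.1) x := by
    intro x y
    show beq x y ⊓ (⨆ j' : {j' : J // r j' j}, bmem (t j'.1) x) ≤ _
    rw [inf_iSup_eq]
    exact iSup_le fun j' => le_iSup_of_le j' (bmem_congr_right _ _ _)
  have h3 := h2.compl x y
  refine le_inf ?_ ?_
  · exact (inf_le_inf_left _ inf_le_left).trans h1
  · exact (inf_le_inf_left _ inf_le_right).trans h3

/-- the formula expressing that the elements of the third argument are disjoint -/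
private def dj_CHO : Fml :=
  .all 0 (.all 1 (.all 2 (.imp (.mem 0 3) (.imp (.mem 1 3) (.imp (.mem 2 0) (.imp (.mem 2 1)
    (.eq 0 1)))))))

private theorem ev_dj_CHO (a x y z : Nm B) :
    ev bmem beq dj_CHO (fun _ => a) ⊓ (bmem x a ⊓ (bmem y a ⊓ (bmem z x ⊓ bmem z y))) ≤
      beq x y := by
  have h : ev bmem beq dj_CHO (fun _ => a) ≤
      (bmem x a ⇨ (bmem y a ⇨ (bmem z x ⇨ (bmem z y ⇨ beq x y)))) := by
    have e1 : ev bmem beq dj_CHO (fun _ => a) = ⨅ x, ⨅ y, ⨅ z,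
        (bmem x a ⇨ (bmem y a ⇨ (bmem z x ⇨ (bmem z y ⇨ beq x y)))) := by
      simp only [dj_CHO, ev]
      refine iInf_congr fun x => iInf_congr fun y => iInf_congr fun z => ?_
      simp [Function.update]
    rw [e1]
    exact (iInf_le _ x).trans ((iInf_le _ y).trans (iInf_le _ z))
  have e2 : (bmem x a ⇨ (bmem y a ⇨ (bmem z x ⇨ (bmem z y ⇨ beq x y)))) =
      (bmem x a ⊓ (bmem y a ⊓ (bmem z x ⊓ bmem z y)) ⇨ beq x y) := by
    simp only [himp_himp]
  rw [e2] at h
  rwa [le_himp_iff] at h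

end

theorem hCHO : StCHO.{u} := by
  intro B _ W q h1 h2
  obtain ⟨a, rfl⟩ : ∃ a, QN.mk W a = q := QN.ind' W (p := fun q => ∃ a, QN.mk W a = q)
    (fun a => ⟨a, rfl⟩) q
  -- disjointness
  have hD : ev bmem beq dj_CHO (fun _ => a) ∈ W.s := by
    rw [← los]
    intro x y z hx hy hzx hzy
    simp only [Sat, Function.update] at hx hy hzx hzy ⊢
    exact h2 x y z (by simpa using hx) (by simpa using hy) (by simpa using hzx) (by simpa using hzy)
  obtain ⟨D, hDdef⟩ : ∃ D, D = ev bmem beq dj_CHO (fun _ => a) := ⟨_, rfl⟩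
  have hDj : ∀ x y z, D ⊓ (bmem x a ⊓ (bmem y a ⊓ (bmem z x ⊓ bmem z y))) ≤ beq x y := by
    intro x y z
    rw [hDdef]
    exact ev_dj_CHO a x y z
  rw [← hDdef] at hD
  let J : Type u := Σ i : a.ix, (a.el i).ix
  let t : J → Nm B := fun j => (a.el j.1).el j.2
  let r : J → J → Prop := WellOrderingRel
  let M : J → Nm B → B := M_CHO r t
  have hM : ∀ j, Ex (M j) := fun j => congr_CHO r t j
  have hMt : ∀ j x, M j x ≤ bmem (t j) x := fun j x => inf_le_left
  -- every nonempty element of `a` contains some `t j`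
  have c0 : ∀ x z, bmem x a ⊓ bmem z x ≤ ⨆ j, M j x := by
    intro x z
    have e1 : bmem x a ⊓ bmem z x ≤ ⨆ j, bmem (t j) x := by
      rw [bmem_def x a, iSup_inf_eq]
      refine iSup_le fun i => ?_
      calc a.vl i ⊓ beq x (a.el i) ⊓ bmem z x
          ≤ bmem z x ⊓ bmem z (a.el i) := le_inf inf_le_right
            ((le_inf (inf_le_left.trans inf_le_right) inf_le_right).trans
              (bmem_congr_right z x (a.el i)))
        _ ≤ ⨆ j, bmem (t j) x := by
            rw [bmem_def z (a.el i), inf_iSup_eq]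
            refine iSup_le fun k => le_iSup_of_le (⟨i, k⟩ : J) ?_
            exact (le_inf (inf_le_right.trans inf_le_right) inf_le_left).trans
              (bmem_congr_left z ((a.el i).el k) x)
    exact e1.trans (iSup_le fun j => sup_CHO r t x j)
  let c : Nm B := Nm.mk J t fun j => ⨆ x, bmem x a ⊓ M j x
  have hcv : ∀ j x, bmem x a ⊓ M j x ≤ bmem (t j) c := fun j x =>
    (le_iSup (fun x => bmem x a ⊓ M j x) x).trans (vl_le_bmem c j)
  -- elements of `c` which are elements of `x`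
  have key : ∀ x z, D ⊓ (bmem x a ⊓ (bmem z x ⊓ bmem z c)) ≤ ⨆ j, beq z (t j) ⊓ M j x := by
    intro x z
    have e1 : bmem z c = ⨆ j, (⨆ x', bmem x' a ⊓ M j x') ⊓ beq z (t j) := bmem_def z c
    rw [e1]
    simp only [inf_iSup_eq, iSup_inf_eq]
    refine iSup_le fun j => iSup_le fun x' => le_iSup_of_le j ?_
    have p1 : D ⊓ (bmem x a ⊓ (bmem z x ⊓ (bmem x' a ⊓ M j x' ⊓ beq z (t j)))) ≤ D := inf_le_left
    have p2 : D ⊓ (bmem x a ⊓ (bmem z x ⊓ (bmem x' a ⊓ M j x' ⊓ beq z (t j)))) ≤ bmem x a :=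
      inf_le_right.trans inf_le_left
    have p3 : D ⊓ (bmem x a ⊓ (bmem z x ⊓ (bmem x' a ⊓ M j x' ⊓ beq z (t j)))) ≤ bmem z x :=
      inf_le_right.trans (inf_le_right.trans inf_le_left)
    have p4 : D ⊓ (bmem x a ⊓ (bmem z x ⊓ (bmem x' a ⊓ M j x' ⊓ beq z (t j)))) ≤ bmem x' a :=
      inf_le_right.trans (inf_le_right.trans (inf_le_right.trans (inf_le_left.trans inf_le_left)))
    have p5 : D ⊓ (bmem x a ⊓ (bmem z x ⊓ (bmem x' a ⊓ M j x' ⊓ beq z (t j)))) ≤ M j x' :=
      inf_le_right.trans (inf_le_right.trans (inf_le_right.trans (inf_le_left.trans inf_le_right)))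
    have p6 : D ⊓ (bmem x a ⊓ (bmem z x ⊓ (bmem x' a ⊓ M j x' ⊓ beq z (t j)))) ≤ beq z (t j) :=
      inf_le_right.trans (inf_le_right.trans (inf_le_right.trans inf_le_right))
    have p7 : D ⊓ (bmem x a ⊓ (bmem z x ⊓ (bmem x' a ⊓ M j x' ⊓ beq z (t j)))) ≤ bmem z x' := by
      refine (le_inf ?_ (p5.trans (hMt j x'))).trans (bmem_congr_left (t j) z x')
      rw [beq_comm (t j) z]
      exact p6
    have p8 : D ⊓ (bmem x a ⊓ (bmem z x ⊓ (bmem x' a ⊓ M j x' ⊓ beq z (t j)))) ≤ beq x' x :=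
      (le_inf p1 (le_inf p4 (le_inf p2 (le_inf p7 p3)))).trans (hDj x' x z)
    exact le_inf p6 ((le_inf p8 p5).trans (hM j x' x))
  refine ⟨QN.mk W c, ?_⟩
  rw [QN_forall]
  intro x hx
  have hx' : bmem x a ∈ W.s := hx
  -- existence
  obtain ⟨z, hz1, hz2⟩ : ∃ z, bmem z x ∈ W.s ∧ bmem z c ∈ W.s := by
    obtain ⟨z0, hz0⟩ := (QN_exists W).1 (h1 _ hx)
    have hz0' : bmem z0 x ∈ W.s := hz0
    have hEx : Ex fun z : Nm B => bmem z x ⊓ bmem z c := by
      intro y y'
      exact le_inf ((inf_le_inf_left _ inf_le_left).trans (bmem_congr_left _ _ _))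
        ((inf_le_inf_left _ inf_le_right).trans (bmem_congr_left _ _ _))
    have e1 : (⨆ z, bmem z x ⊓ bmem z c) ∈ W.s := by
      refine W.up _ _ (W.inf _ _ hx' (W.inf _ _ hx' hz0')) ?_
      refine (inf_le_inf_left _ (c0 x z0)).trans ?_
      rw [inf_iSup_eq]
      exact iSup_le fun j => le_iSup_of_le (t j) (le_inf (inf_le_right.trans (hMt j x)) (hcv j x))
    obtain ⟨z, hz⟩ := (W.iSup_iff _ hEx).1 e1
    exact ⟨z, (W.inf_iff _ _).1 hz⟩
  refine ⟨QN.mk W z, ⟨hz1, hz2⟩, ?_⟩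
  rintro y ⟨hy1, hy2⟩
  revert hy1 hy2
  refine QN.ind' W (p := fun y => QE W y (QN.mk W x) → QE W y (QN.mk W c) → y = QN.mk W z) ?_ y
  intro z' hy1 hy2
  have hy1' : bmem z' x ∈ W.s := hy1
  have hy2' : bmem z' c ∈ W.s := hy2
  rw [QN_eq]
  have k1 := W.up _ _ (W.inf _ _ hD (W.inf _ _ hx' (W.inf _ _ hz1 hz2))) (key x z)
  have k2 := W.up _ _ (W.inf _ _ hD (W.inf _ _ hx' (W.inf _ _ hy1' hy2'))) (key x z')
  refine W.up _ _ (W.inf _ _ k2 k1) ?_
  rw [iSup_inf_eq]
  refine iSup_le fun j => ?_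
  rw [inf_iSup_eq]
  refine iSup_le fun k => ?_
  by_cases hjk : j = k
  · subst hjk
    refine (le_inf (inf_le_left.trans inf_le_left) ?_).trans (beq_trans z' (t j) z)
    rw [beq_comm (t j) z]
    exact inf_le_right.trans inf_le_left
  · have e1 : beq z' (t j) ⊓ M j x ⊓ (beq z (t k) ⊓ M k x) ≤ M j x ⊓ M k x :=
      le_inf (inf_le_left.trans inf_le_right) (inf_le_right.trans inf_le_right)
    have e2 : M j x ⊓ M k x = ⊥ := disj_CHO r t x hjk
    exact (e1.trans e2.le).trans bot_le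

end Pool.Agent.Helper24.FR
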