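import Pool.Agent.Helper24.FR.StII

/-!
# FR, module CIN: countably infinite subsets of a well order are countably infinite in the names
-/

set_option autoImplicit false

universe u

namespace Pool.Agent.Helper24.FR

private lemma countable_CIN {A : Type u} [LinearOrder A] {w : A} (h : I0 w) :
    (Set.Iio w).Countable := by
  refine Set.MapsTo.countable_of_injOn (f := fun a : A => (Set.Iio a).ncard)
    (t := (Set.univ : Set ℕ)) (fun _ _ => Set.mem_univ _) ?_ (Set.countable_univ)
  intro a ha b hb hab
  have hab' : (Set.Iio a).ncard = (Set.Iio b).ncard := hab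
  rcases lt_trichotomy a b with hlt | heq | hlt
  · have := Set.ncard_lt_ncard (Set.Iio_ssubset_Iio hlt) (h.2 b hb)
    omega
  · exact heq
  · have := Set.ncard_lt_ncard (Set.Iio_ssubset_Iio hlt) (h.2 a ha)
    omega

private lemma disc_CIN (hO : StONN.{u}) (B A : Type u) [CompleteBooleanAlgebra B] [LinearOrder A]
    [WellFoundedLT A] (S : Set A) : Disc (fun a : S => on B a.1) := by
  intro i j hij
  exact hO.1 B A i.1 j.1 (fun h => hij (Subtype.ext h))

private lemma le_CIN (hL : StLEN.{u}) (hO : StONN.{u}) (hC : StCLF.{u}) (B A : Type u)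
    [CompleteBooleanAlgebra B] [LinearOrder A] [WellFoundedLT A] (S T : Set A)
    (g : T → S) (hg : Function.Surjective g) : Le bmem beq (sn B S) (sn B T) = ⊤ := by
  rw [eq_top_iff]
  exact (hL B T S (fun a : T => on B a.1) (fun a : S => on B a.1) ⊤ (disc_CIN hO B A T)
    (disc_CIN hO B A S)).2 (hC.2.2.1 B ⊤ T S g hg)

theorem hCIN (hL : StLEN.{u}) (hO : StONN.{u}) (hM : StOMN.{u}) (hC : StCLF.{u}) :
    StCIN.{u} := by
  intro B A _ _ _ w hw y hyc hyi
  haveI : Countable y := hyc.to_subtype
  haveI : Infinite y := hyi.to_subtype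
  haveI : Countable (Set.Iio w) := (countable_CIN hw).to_subtype
  haveI : Infinite (Set.Iio w) := hw.1.to_subtype
  obtain ⟨e⟩ := nonempty_equiv_of_countable (α := y) (β := Set.Iio w)
  rw [eq_top_iff]
  unfold Ci
  refine le_iSup_of_le (on B w) ?_
  rw [hM.1 B A w hw, on_eq, le_CIN hL hO hC B A y (Set.Iio w) e.symm e.symm.surjective,
    le_CIN hL hO hC B A (Set.Iio w) y e e.surjective]
  simp

end Pool.Agent.Helper24.FR
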