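import Pool.Agent.Helper24.FR.StII

/-! FR, module CLF -/

set_option autoImplicit false

universe u

namespace Pool.Agent.Helper24.FR

private theorem exists_of_le_iSup_CLF {B : Type u} [CompleteBooleanAlgebra B] {I : Type u} {c : B}
    {f : I → B} (hc : c ≠ ⊥) (h : c ≤ ⨆ i, f i) : ∃ i, c ⊓ f i ≠ ⊥ := by
  by_contra hcon
  push Not at hcon
  apply hc
  have h1 : c = c ⊓ ⨆ i, f i := (inf_eq_left.2 h).symm
  rw [h1, inf_iSup_eq]
  simp only [hcon, iSup_bot]

private theorem fin_CLF {B : Type u} [CompleteBooleanAlgebra B] {b : B} {I J : Type u} (hb : b ≠ ⊥)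
    {G : I → J → B} (hG : ∀ j, b ≤ ⨆ i, G i j) (e : ℕ → J) (i0 : I) (n : ℕ) :
    ∃ c ≤ b, c ≠ ⊥ ∧ ∃ h : ℕ → I, ∀ k < n, c ≤ G (h k) (e k) := by
  induction n with
  | zero => exact ⟨b, le_refl _, hb, fun _ => i0, fun k hk => absurd hk (Nat.not_lt_zero _)⟩
  | succ n ih =>
    obtain ⟨c, hcb, hc, h, hh⟩ := ih
    obtain ⟨i, hi⟩ := exists_of_le_iSup_CLF hc (hcb.trans (hG (e n)))
    refine ⟨c ⊓ G i (e n), inf_le_left.trans hcb, hi, Function.update h n i, fun k hk => ?_⟩
    rcases Nat.lt_succ_iff_lt_or_eq.1 hk with h1 | h1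
    · rw [Function.update_of_ne h1.ne]
      exact inf_le_left.trans (hh k h1)
    · subst h1
      rw [Function.update_self]
      exact inf_le_right

theorem hCLF : StCLF.{u} := by
  refine ⟨?_, ?_, ?_, ?_, ?_⟩
  · rintro B _ b I J hb hI hJ ⟨G, hdis, hcov⟩
    have := Fintype.ofFinite I
    have e := Infinite.natEmbedding J
    obtain ⟨i0, -⟩ := exists_of_le_iSup_CLF hb (hcov (e 0))
    obtain ⟨c, -, hc, h, hh⟩ := fin_CLF hb hcov e i0 (Fintype.card I + 1)
    obtain ⟨k, l, hkl, heq⟩ := Fintype.exists_ne_map_eq_of_card_lt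
      (fun k : Fin (Fintype.card I + 1) => h k) (by rw [Fintype.card_fin]; omega)
    apply hc
    have h1 := hh k k.2
    have h2 := hh l l.2
    rw [← heq] at h2
    have h3 := hdis (h k) (e k) (e l) (fun hh => hkl (Fin.ext (e.injective hh)))
    exact le_bot_iff.1 (h3 ▸ le_inf h1 h2)
  · rintro B _ b I J hD hb hI hJ ⟨G, hdis, hcov⟩
    have := hI
    have := hJ
    obtain ⟨j0⟩ : Nonempty J := inferInstance
    obtain ⟨i0, -⟩ := exists_of_le_iSup_CLF hb (hcov j0)
    have : Nonempty I := ⟨i0⟩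
    obtain ⟨en, hen⟩ := exists_surjective_nat I
    obtain ⟨b', hb'b, hb', h, hh⟩ := hD (Option J)
      (fun n o => o.elim (b ⊓ (⨆ j, G (en n) j)ᶜ) (fun j => b ⊓ G (en n) j)) b hb (by
        intro n
        rw [iSup_option]
        simp only [Option.elim_none, Option.elim_some]
        rw [← inf_iSup_eq, ← inf_sup_left, compl_sup_eq_top, inf_top_eq])
    have hcount : {j : J | ∃ n, h n = some j}.Countable := by
      have h1 : {j : J | ∃ n, h n = some j} ⊆ some ⁻¹' (Set.range h) := by
        rintro j ⟨n, hn⟩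
        exact ⟨n, hn⟩
      exact ((Set.countable_range h).preimage (Option.some_injective J)).mono h1
    obtain ⟨j, hj⟩ : ∃ j : J, ¬ ∃ n, h n = some j := by
      by_contra hcon
      push Not at hcon
      have h1 : (Set.univ : Set J).Countable := hcount.mono fun j _ => hcon j
      exact not_countable (Set.countable_univ_iff.1 h1)
    obtain ⟨i, hi⟩ := exists_of_le_iSup_CLF hb' (hb'b.trans (hcov j))
    obtain ⟨n, rfl⟩ := hen i
    apply hi
    have h2 := hh n
    rcases hn : h n with _ | j'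
    · rw [hn] at h2
      simp only [Option.elim_none] at h2
      apply le_bot_iff.1
      calc b' ⊓ G (en n) j ≤ (⨆ j, G (en n) j)ᶜ ⊓ ⨆ j, G (en n) j :=
            inf_le_inf (h2.trans inf_le_right) (le_iSup (fun j => G (en n) j) j)
        _ = ⊥ := compl_inf_eq_bot
    · rw [hn] at h2
      simp only [Option.elim_some] at h2
      apply le_bot_iff.1
      calc b' ⊓ G (en n) j ≤ G (en n) j' ⊓ G (en n) j :=
            inf_le_inf (h2.trans inf_le_right) le_rfl
        _ = ⊥ := hdis _ _ _ (by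
            rintro rfl
            exact hj ⟨n, hn⟩)
  · intro B _ b I J g hg
    classical
    refine ⟨fun i j => if g i = j then ⊤ else ⊥, ?_, ?_⟩
    · intro i j j' hjj
      show (if g i = j then (⊤ : B) else ⊥) ⊓ (if g i = j' then (⊤ : B) else ⊥) = ⊥
      by_cases h1 : g i = j
      · have h2 : g i ≠ j' := fun hh => hjj (h1.symm.trans hh)
        rw [if_neg h2, inf_bot_eq]
      · rw [if_neg h1, bot_inf_eq]
    · intro j
      obtain ⟨i, hi⟩ := hg j
      refine le_trans ?_ (le_iSup _ i)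
      simp only [hi, if_true]
      exact le_top
  · rintro B _ b b' I J hbb ⟨G, h1, h2⟩
    exact ⟨G, h1, fun j => hbb.trans (h2 j)⟩
  · rintro B _ b I J J' g hg ⟨G, h1, h2⟩
    refine ⟨fun i j' => ⨆ j, ⨆ _ : g j = j', G i j, ?_, ?_⟩
    · intro i j1 j2 hne
      apply le_bot_iff.1
      rw [iSup_inf_eq]
      refine iSup_le fun a => ?_
      rw [iSup_inf_eq]
      refine iSup_le fun ha => ?_
      rw [inf_iSup_eq]
      refine iSup_le fun c => ?_
      rw [inf_iSup_eq]
      refine iSup_le fun hc => ?_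
      exact (h1 i a c (by rintro rfl; exact hne (ha.symm.trans hc))).le
    · intro j'
      obtain ⟨j, hj⟩ := hg j'
      refine (h2 j).trans (iSup_mono fun i => ?_)
      exact le_iSup_of_le j (le_iSup_of_le hj le_rfl)

end Pool.Agent.Helper24.FR
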