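import Pool.Agent.Helper24.FR.StII

/-! FR, module CLP -/

set_option autoImplicit false

universe u

namespace Pool.Agent.Helper24.FR

private theorem exists_of_le_iSup_CLP {B : Type u} [CompleteBooleanAlgebra B] {I : Type u} {c : B}
    {f : I → B} (hc : c ≠ ⊥) (h : c ≤ ⨆ i, f i) : ∃ i, c ⊓ f i ≠ ⊥ := by
  by_contra hcon
  push Not at hcon
  apply hc
  have h1 : c = c ⊓ ⨆ i, f i := (inf_eq_left.2 h).symm
  rw [h1, inf_iSup_eq]
  simp only [hcon, iSup_bot]

theorem hCLP (hP : StPDB.{u}) : StCLP.{u} := by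
  refine ⟨?_, ?_, ?_⟩
  · rintro R B _ _ e he b I J hb ⟨G, hdis, hcov⟩
    obtain ⟨p, hp⟩ := he.dense b hb
    refine ⟨p, hp, fun i j => {r | e r ≤ G i j}, ?_, ?_, ?_⟩
    · intro i j r r' hr hrr
      exact (he.mono _ _ hrr).trans hr
    · intro i j j' r hne hr hr'
      exact he.ne r (le_bot_iff.1 ((hdis i j j' hne) ▸ le_inf hr hr'))
    · intro j q hq
      obtain ⟨i, hi⟩ := exists_of_le_iSup_CLP (he.ne q) (((he.mono _ _ hq).trans hp).trans (hcov j))
      obtain ⟨r, hr, hrG⟩ := hP.1 R B e he q (G i j) hi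
      exact ⟨r, hr, i, hrG⟩
  · rintro R B _ _ e he I J ⟨D, hdown, hdis, hcov⟩
    have hcomp : ∀ r r' : R, e r ⊓ e r' ≠ ⊥ → ∃ t, t ≤ r ∧ t ≤ r' := by
      intro r r' h
      obtain ⟨s, hs, hs'⟩ := hP.1 R B e he r (e r') h
      by_contra hcon
      push Not at hcon
      have h1 := he.inc s r' (fun t ht ht' => hcon t (ht.trans hs) ht')
      rw [inf_eq_left.2 hs'] at h1
      exact he.ne s h1
    refine ⟨fun i j => ⨆ r, ⨆ _ : r ∈ D i j, e r, ?_, ?_⟩
    · intro i j j' hne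
      apply le_bot_iff.1
      rw [iSup_inf_eq]
      refine iSup_le fun r => ?_
      rw [iSup_inf_eq]
      refine iSup_le fun hr => ?_
      rw [inf_iSup_eq]
      refine iSup_le fun r' => ?_
      rw [inf_iSup_eq]
      refine iSup_le fun hr' => ?_
      by_contra hcon
      obtain ⟨t, ht, ht'⟩ := hcomp r r' (fun hh => hcon hh.le)
      exact hdis i j j' t hne (hdown i j r t hr ht) (hdown i j' r' t hr' ht')
    · intro j
      by_contra hcon
      have h1 : (⨆ i, ⨆ r, ⨆ _ : r ∈ D i j, e r)ᶜ ≠ ⊥ := by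
        intro hh
        apply hcon
        rw [compl_eq_bot] at hh
        exact hh.ge
      obtain ⟨p, hp⟩ := he.dense _ h1
      obtain ⟨r, hr, i, hri⟩ := hcov j p
      have h2 : e r ≤ ⨆ i, ⨆ r, ⨆ _ : r ∈ D i j, e r :=
        le_iSup_of_le i (le_iSup_of_le r (le_iSup_of_le hri le_rfl))
      have h3 : e r ≤ (⨆ i, ⨆ r, ⨆ _ : r ∈ D i j, e r)ᶜ := (he.mono _ _ hr).trans hp
      exact he.ne r (le_bot_iff.1 (compl_inf_eq_bot (a := ⨆ i, ⨆ r, ⨆ _ : r ∈ D i j, e r) ▸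
        le_inf h3 h2))
  · rintro R B A _ _ _ e he k hC b hb G hdis hcov
    obtain ⟨p, hp⟩ := he.dense b hb
    obtain ⟨p', hp', X, d, hX, h⟩ := hC p (fun y c => {r | e r ≤ G y c})
      (fun y c r r' hr hrr => (he.mono _ _ hrr).trans hr)
      (fun y c c' r hne hr hr' => he.ne r (le_bot_iff.1 ((hdis y c c' hne) ▸ le_inf hr hr')))
      (by
        intro y q hq
        have h0 : e q ≤ ⨆ c, G y c := ((he.mono _ _ hq).trans hp).trans (hcov y)
        obtain ⟨c, hc⟩ := exists_of_le_iSup_CLP (he.ne q) h0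
        obtain ⟨r, hr, hrG⟩ := hP.1 R B e he q (G y c) hc
        exact ⟨r, hr, c, hrG⟩)
    refine ⟨e p', (he.mono _ _ hp').trans hp, he.ne p', X, d, hX, fun y c hy hc => ?_⟩
    by_contra hcon
    obtain ⟨r, hr, hrG⟩ := hP.1 R B e he p' (G y c) hcon
    exact h y c hy hc r hr hrG

end Pool.Agent.Helper24.FR
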