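import Pool.Agent.Helper24.FR.StIV

/-!
# FR, module CNT: counting conditions, names and term conditions
-/

set_option autoImplicit false

open Cardinal Set

namespace Pool.Agent.Helper24.FR

/-- Counting of partial functions. -/
private theorem aux_CNT {X Y : Type} (X₀ : Set X) (Y₀ : Set Y) (μ : Cardinal.{0}) (hμ : ℵ₀ ≤ μ)
    (hs : ∀ c < μ, 2 ^ c < μ) (h1 : #X₀ < μ) (h2 : #Y₀ < μ) (P : (X → Option Y) → Prop)
    (hP : ∀ f, P f → ∀ x y, f x = some y → x ∈ X₀ ∧ y ∈ Y₀) :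
    #{f : X → Option Y | P f} < μ := by
  have h3 : #(X₀ × Y₀) < μ := by
    rw [Cardinal.mk_prod, Cardinal.lift_id, Cardinal.lift_id]
    exact Cardinal.mul_lt_of_lt hμ h1 h2
  have h4 : #{f : X → Option Y | P f} ≤ #(Set (X₀ × Y₀)) := by
    refine Cardinal.mk_le_of_injective (f := fun f : {f : X → Option Y | P f} =>
      ({z : X₀ × Y₀ | f.1 z.1.1 = some z.2.1} : Set (X₀ × Y₀))) ?_
    intro f g hfg
    apply Subtype.ext
    funext x
    have key : ∀ (f g : {f : X → Option Y | P f}),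
        ({z : X₀ × Y₀ | f.1 z.1.1 = some z.2.1} : Set (X₀ × Y₀)) =
          {z : X₀ × Y₀ | g.1 z.1.1 = some z.2.1} → ∀ y, f.1 x = some y → g.1 x = some y := by
      intro f g hfg y hy
      obtain ⟨hx, hy'⟩ := hP f.1 f.2 x y hy
      have : ((⟨x, hx⟩, ⟨y, hy'⟩) : X₀ × Y₀) ∈ {z : X₀ × Y₀ | f.1 z.1.1 = some z.2.1} := hy
      rw [hfg] at this
      exact this
    rcases hfx : f.1 x with _ | y
    · rcases hgx : g.1 x with _ | y'
      · rfl
      · have := key g f hfg.symm y' hgx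
        rw [hfx] at this
        exact this
    · exact (key f g hfg y hfx).symm
  refine lt_of_le_of_lt h4 ?_
  rw [Cardinal.mk_set]
  exact hs _ h3

private theorem one_CNT {A : Type} [LinearOrder A] [WellFoundedLT A] (μ : Cardinal.{0})
    (hμ : ℵ₀ ≤ μ) (hs : ∀ c < μ, 2 ^ c < μ) (k : A) (hk : #(Iio k) < μ) :
    #{p : Ra A | isP k p} < μ := by
  refine aux_CNT (Iio k ×ˢ (Iio k ×ˢ Iio k)) (Iio k) μ hμ hs ?_ hk (fun p => isP k p) ?_
  · rw [Cardinal.mk_setProd, Cardinal.mk_setProd]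
    exact Cardinal.mul_lt_of_lt hμ hk (Cardinal.mul_lt_of_lt hμ hk hk)
  · rintro f hf ⟨γ, β, η⟩ v hv
    obtain ⟨_, h1, h2, h3, h4⟩ := hf.dom γ β η v hv
    exact ⟨⟨h1, h2, h3.trans h1⟩, h4.trans h2⟩

private theorem two_CNT {A : Type} [LinearOrder A] [WellFoundedLT A] (μ : Cardinal.{0})
    (hμ : ℵ₀ ≤ μ) (hs : ∀ c < μ, 2 ^ c < μ) (k α : A) (hk : #(Iio k) < μ) (hα : #(Iio α) < μ) :
    #{n : Na A | isN k α n} < μ := by
  refine aux_CNT {p : Ra A | isP k p} (Iio α) μ hμ hs (one_CNT μ hμ hs k hk) hα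
    (fun n => isN k α n) ?_
  intro n hn p v hv
  exact hn.dom p v hv

/-- Module CNT. -/
theorem hCNT : StCNT := by
  refine ⟨?_, ?_, ?_⟩
  · intro A _ _ μ hμ hs k hk
    exact one_CNT μ hμ hs k hk
  · intro A _ _ μ hμ hs k α hk hα
    exact two_CNT μ hμ hs k α hk hα
  · intro A _ _ μ hμ hs k θ hk hθ
    refine aux_CNT (Iio θ ×ˢ Iio k) {n : Na A | isN k θ n} μ hμ hs ?_
      (two_CNT μ hμ hs k θ hk hθ) (fun t => isT k (Iio θ) t) ?_
    · rw [Cardinal.mk_setProd]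
      exact Cardinal.mul_lt_of_lt hμ hθ hk
    · rintro t ht ⟨α, η⟩ n hn
      obtain ⟨h1, h2, h3⟩ := ht.dom α η n hn
      exact ⟨⟨h1, h2⟩, ⟨fun p v hv => ⟨(h3.dom p v hv).1, lt_trans (h3.dom p v hv).2 h1⟩,
        h3.mon, h3.den⟩⟩

end Pool.Agent.Helper24.FR
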