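import Pool.Agent.Helper24.FR.StIV

/-!
# FR, module CNU: counting, second part
-/

set_option autoImplicit false

open Cardinal Set

namespace Pool.Agent.Helper24.FR

private theorem one_CNU {A : Type} [LinearOrder A] [WellFoundedLT A] {κ : A} (hB : Big κ) :
    ∀ c < #(Iio κ), 2 ^ c < #(Iio κ) := by
  intro c hc
  obtain ⟨S, hS, hSc⟩ := Cardinal.le_mk_iff_exists_subset.1 hc.le
  obtain ⟨ξ, hξ, hs⟩ := hB.rg.2.2 S hS (by rw [hSc]; exact hc)
  have h1 : c ≤ #(Iio ξ) := by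
    rw [← hSc]
    exact Cardinal.mk_le_mk_of_subset (fun x hx => hs x hx)
  exact lt_of_le_of_lt (Cardinal.power_le_power_left two_ne_zero h1) (hB.sl ξ hξ)

private theorem two_CNU {A : Type} [LinearOrder A] [WellFoundedLT A] {κ : A} (hB : Big κ) :
    ∀ c < #A, 2 ^ c < #A := by
  intro c hc
  obtain ⟨S, hSc⟩ := Cardinal.le_mk_iff_exists_set.1 hc.le
  obtain ⟨ξ, hs⟩ := hB.lreg S (by rw [hSc]; exact hc)
  have h1 : c ≤ #(Iio ξ) := by
    rw [← hSc]
    exact Cardinal.mk_le_mk_of_subset (fun x hx => hs x hx)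
  exact lt_of_le_of_lt (Cardinal.power_le_power_left two_ne_zero h1) (hB.lsl ξ)

private theorem lt_CNU {A : Type} [LinearOrder A] [WellFoundedLT A] {κ : A} (hB : Big κ) (a : A) :
    #(Iio a) < #A := lt_trans (Cardinal.cantor _) (hB.lsl a)

private theorem inf_CNU {A : Type} [LinearOrder A] [WellFoundedLT A] {κ : A} (hB : Big κ) :
    ℵ₀ ≤ #A := (hB.rg.1.trans (lt_CNU hB κ)).le

private theorem three_CNU (hC : StCNT) {A : Type} [LinearOrder A] [WellFoundedLT A] {κ : A}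
    (hB : Big κ) : #{t : Ta A | isT κ Set.univ t} ≤ #A := by
  have hsub : {t : Ta A | isT κ Set.univ t} ⊆ ⋃ θ : A, {t : Ta A | isT κ (Iio θ) t} := by
    intro t ht
    have ht' : isT κ Set.univ t := ht
    let S : Set A := (fun z : A × A => z.1) '' {z : A × A | t z ≠ none}
    have hS : #S < #A := lt_of_le_of_lt Cardinal.mk_image_le
      (lt_of_le_of_lt ht'.siz (lt_CNU hB κ))
    obtain ⟨θ, hθ⟩ := hB.lreg S hS
    refine Set.mem_iUnion.2 ⟨θ, ?_⟩
    refine ⟨fun α η n hn => ?_, ht'.siz, ht'.hgt⟩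
    obtain ⟨_, h2, h3⟩ := ht'.dom α η n hn
    refine ⟨hθ α ⟨(α, η), ?_, rfl⟩, h2, h3⟩
    show t (α, η) ≠ none
    rw [hn]; exact Option.some_ne_none n
  refine (Cardinal.mk_le_mk_of_subset hsub).trans ?_
  refine (Cardinal.mk_iUnion_le _).trans ?_
  have h1 : (⨆ θ : A, #{t : Ta A | isT κ (Iio θ) t}) ≤ #A :=
    ciSup_le' fun θ => (hC.2.2 A (#A) (inf_CNU hB) (two_CNU hB) κ θ (lt_CNU hB κ)
      (lt_CNU hB θ)).le
  calc #A * (⨆ θ : A, #{t : Ta A | isT κ (Iio θ) t}) ≤ #A * #A := by gcongr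
    _ = #A := Cardinal.mul_eq_self (inf_CNU hB)

private theorem four_CNU (hC : StCNT) {A : Type} [LinearOrder A] [WellFoundedLT A] {κ δ : A}
    (hB : Big κ) (hδ : δ < κ) :
    ∃ (e : A → A) (s : A → A → Na A), (∀ α < κ, e α < κ) ∧
      (∀ α < κ, ∀ α' < κ, e α = e α' → α = α') ∧
      ∀ α < κ, (∃ n, isN δ α n) → (∀ v < e α, isN δ α (s α v)) ∧
        ∀ n, isN δ α n → ∃ v < e α, s α v = n := by
  classical
  have hν : ∀ α : A, ∃ ν : A, α < κ → ν < κ ∧ #{n : Na A | isN δ α n} ≤ #(Iio ν) := by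
    intro α
    by_cases hα : α < κ
    · have h1 : #{n : Na A | isN δ α n} < #(Iio κ) :=
        hC.2.1 A (#(Iio κ)) hB.rg.1.le (one_CNU hB) δ α (hB.rg.2.1 δ hδ) (hB.rg.2.1 α hα)
      obtain ⟨S, hS, hSc⟩ := Cardinal.le_mk_iff_exists_subset.1 h1.le
      obtain ⟨ξ, hξ, hs⟩ := hB.rg.2.2 S hS (by rw [hSc]; exact h1)
      refine ⟨ξ, fun _ => ⟨hξ, ?_⟩⟩
      rw [← hSc]
      exact Cardinal.mk_le_mk_of_subset (fun x hx => hs x hx)
    · exact ⟨α, fun h => absurd h hα⟩
  choose ν hν using hν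
  -- the recursion
  let F : ∀ α : A, (∀ α' : A, α' < α → A) → A := fun α f =>
    if h : ∃ ξ : A, ξ < κ ∧ (∀ α' (h : α' < α), f α' h < ξ) ∧ ν α < ξ then h.choose else α
  let e : A → A := (wellFounded_lt (α := A)).fix F
  have he : ∀ α, e α = F α (fun α' _ => e α') := fun α => WellFounded.fix_eq _ F α
  have key : ∀ α, α < κ → e α < κ ∧ (∀ α' < α, e α' < e α) ∧ ν α < e α := by
    intro α
    induction α using (wellFounded_lt (α := A)).induction with
    | _ α ih =>
      intro hα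
      have hex : ∃ ξ : A, ξ < κ ∧ (∀ α' (_ : α' < α), e α' < ξ) ∧ ν α < ξ := by
        let S : Set A := insert (ν α) (e '' Iio α)
        have hS1 : S ⊆ Iio κ := by
          rintro x (rfl | ⟨α', hα', rfl⟩)
          · exact (hν α hα).1
          · exact (ih α' hα' (lt_trans hα' hα)).1
        have hS2 : #S < #(Iio κ) := by
          refine lt_of_le_of_lt (Cardinal.mk_insert_le) ?_
          refine Cardinal.add_lt_of_lt hB.rg.1.le ?_ (lt_trans Cardinal.one_lt_aleph0 hB.rg.1)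
          exact lt_of_le_of_lt Cardinal.mk_image_le (hB.rg.2.1 α hα)
        obtain ⟨ξ, hξ, hs⟩ := hB.rg.2.2 S hS1 hS2
        exact ⟨ξ, hξ, fun α' hα' => hs _ (Or.inr ⟨α', hα', rfl⟩), hs _ (Or.inl rfl)⟩
      have h2 : e α = hex.choose := by
        rw [he α]
        exact dif_pos hex
      rw [h2]
      exact hex.choose_spec
  have hinj : ∀ α < κ, ∀ α' < κ, e α = e α' → α = α' := by
    intro α hα α' hα' h
    rcases lt_trichotomy α α' with h1 | h1 | h1
    · have := (key α' hα').2.1 α h1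
      rw [h] at this
      exact absurd this (lt_irrefl _)
    · exact h1
    · have := (key α hα).2.1 α' h1
      rw [h] at this
      exact absurd this (lt_irrefl _)
  have hs : ∀ α : A, ∃ s : A → Na A, α < κ → (∃ n, isN δ α n) →
      (∀ v < e α, isN δ α (s v)) ∧ ∀ n, isN δ α n → ∃ v < e α, s v = n := by
    intro α
    by_cases hα : α < κ
    · by_cases hn : ∃ n, isN δ α n
      · have hc : #{n : Na A | isN δ α n} ≤ #(Iio (e α)) :=
          (hν α hα).2.trans (Cardinal.mk_le_mk_of_subset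
            (fun x hx => lt_trans hx (key α hα).2.2))
        obtain ⟨g⟩ := Cardinal.le_def _ _ |>.1 hc
        have : Nonempty {n : Na A | isN δ α n} := ⟨⟨hn.choose, hn.choose_spec⟩⟩
        refine ⟨fun v => if h : v < e α then (Function.invFun g ⟨v, h⟩).1 else fun _ => none, ?_⟩
        intro _ _
        refine ⟨fun v hv => ?_, fun n hn' => ?_⟩
        · simp only [hv, dif_pos]
          exact (Function.invFun g ⟨v, hv⟩).2
        · refine ⟨(g ⟨n, hn'⟩).1, (g ⟨n, hn'⟩).2, ?_⟩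
          have h3 : ((g ⟨n, hn'⟩).1 : A) < e α := (g ⟨n, hn'⟩).2
          simp only [h3, dif_pos]
          have h4 : Function.invFun g (g ⟨n, hn'⟩) = ⟨n, hn'⟩ :=
            Function.leftInverse_invFun g.injective _
          have h5 : (⟨(g ⟨n, hn'⟩).1, h3⟩ : Iio (e α)) = g ⟨n, hn'⟩ := rfl
          rw [h5, h4]
      · exact ⟨fun _ _ => none, fun _ h => absurd h hn⟩
    · exact ⟨fun _ _ => none, fun h => absurd h hα⟩
  choose s hs using hs
  exact ⟨e, s, fun α hα => (key α hα).1, hinj, fun α hα hn => hs α hα hn⟩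

/-- Module CNU. -/
theorem hCNU (hC : StCNT) : StCNU :=
  ⟨fun _ _ _ _ hB => one_CNU hB, fun _ _ _ _ hB => two_CNU hB,
    fun _ _ _ _ hB => three_CNU hC hB, fun _ _ _ _ _ hB hδ => four_CNU hC hB hδ⟩

end Pool.Agent.Helper24.FR
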