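import Pool.Agent.Helper24.FR.StIV

set_option autoImplicit false

open Cardinal Set

namespace Pool.Agent.Helper24.FR

open Cardinal Ordinal in
private theorem card_CO1 {A : Type} [LinearOrder A] [WellFoundedLT A] (w₁ : A) (hw : I1 w₁) :
    #(Set.Iio w₁) ≤ ℵ₁ := by
  by_contra hlt
  rw [not_le] at hlt
  have h1 : ω₁ < type (fun x y : Set.Iio w₁ => x < y) := by
    rw [← not_le]
    intro hle
    have := Ordinal.card_le_card hle
    rw [card_type, card_omega] at this
    exact absurd this (not_le.2 hlt)
  obtain ⟨a, ha⟩ := typein_surj (fun x y : Set.Iio w₁ => x < y) h1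
  have h2 : #{b : Set.Iio w₁ // b < a} = ℵ₁ := by
    have := congrArg Ordinal.card ha
    rw [card_omega] at this
    rw [← this]
    rfl
  have h3 : (Set.Iio a.1).Countable := hw.2 a.1 a.2
  haveI : Countable (Set.Iio a.1) := h3.to_subtype
  have h4 : Countable {b : Set.Iio w₁ // b < a} :=
    Function.Injective.countable (f := fun b : {b : Set.Iio w₁ // b < a} =>
      (⟨b.1.1, b.2⟩ : Set.Iio a.1)) fun b c hbc => by
        have := congrArg Subtype.val hbc
        exact Subtype.ext (Subtype.ext this)
  have h5 : #{b : Set.Iio w₁ // b < a} ≤ ℵ₀ := Cardinal.mk_le_aleph0_iff.2 h4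
  rw [h2] at h5
  exact absurd h5 (not_le.2 aleph0_lt_aleph_one)

private theorem Rg_CO1 {A : Type} [LinearOrder A] [WellFoundedLT A] (w : A) (hw : I1 w) : Rg w := by
  have h0 : ℵ₀ < #(Set.Iio w) := by
    rw [← not_le, Cardinal.mk_le_aleph0_iff]
    intro h
    exact hw.1 (Set.countable_coe_iff.1 h)
  refine ⟨h0, fun ξ hξ => lt_of_le_of_lt ?_ h0, fun S hS hc => ?_⟩
  · rw [Cardinal.mk_le_aleph0_iff]
    exact (hw.2 ξ hξ).to_subtype
  · have hSc : S.Countable := by
      have h1 : #S < ℵ₁ := lt_of_lt_of_le hc (card_CO1 w hw)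
      have h2 : #S ≤ ℵ₀ := by
        have h3 : (ℵ₁ : Cardinal.{0}) = Order.succ ℵ₀ := Cardinal.succ_aleph0.symm
        rw [h3] at h1
        exact Order.lt_succ_iff.1 h1
      exact Set.countable_coe_iff.1 (Cardinal.mk_le_aleph0_iff.1 h2)
    by_contra hno
    push Not at hno
    apply hw.1
    have hsub : Set.Iio w ⊆ ⋃ s ∈ S, Set.Iic s := by
      intro ξ hξ
      obtain ⟨s, hs, hle⟩ := hno ξ hξ
      exact Set.mem_biUnion hs hle
    refine Set.Countable.mono hsub (Set.Countable.biUnion hSc fun s hs => ?_)
    have : Set.Iic s = insert s (Set.Iio s) := by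
      ext x
      simp [le_iff_eq_or_lt]
    rw [this]
    exact (hw.2 s (hS hs)).insert s

theorem hCO1 : StCO1 := by
  classical
  refine ⟨fun A _ _ w hw => Rg_CO1 w hw, ?_⟩
  intro A _ _ κ w hκ hw hwκ β hβ
  have hRw : Rg w := Rg_CO1 w hw
  refine ⟨fun η ζ => {r : RC κ | r.1.1 (w, β, η.1) = some ζ.1}, ?_, ?_, ?_⟩
  · intro i j r r' hr hle
    exact hle.1 _ _ hr
  · intro i j j' r hne hr hr'
    have h1 : r.1.1 (w, β, i.1) = some j.1 := hr
    have h2 : r.1.1 (w, β, i.1) = some j'.1 := hr'
    rw [h1] at h2
    exact hne (Subtype.ext (Option.some.inj h2))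
  · intro ζ q
    obtain ⟨⟨p, t⟩, hp, ht⟩ := q
    change isP κ p at hp
    change isT κ Set.univ t at ht
    obtain ⟨ξ, hξ, hbd⟩ := hp.hgt w hRw
    have hnone : p (w, β, ξ) = none := by
      by_contra h
      exact lt_irrefl _ (hbd β ξ h)
    let p' : Ra A := fun z => if z = (w, β, ξ) then some ζ.1 else p z
    have hp'1 : p' (w, β, ξ) = some ζ.1 := by simp [p']
    have hp'2 : ∀ z, z ≠ (w, β, ξ) → p' z = p z := fun z hz => by simp [p', hz]
    have hX : Xt p' p := by
      intro z v hz
      rw [hp'2 z (by rintro rfl; rw [hnone] at hz; cases hz)]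
      exact hz
    have hP : isP κ p' := by
      refine ⟨?_, ?_, ?_, ?_⟩
      · intro γ β' η v hv
        by_cases hz : (γ, β', η) = (w, β, ξ)
        · rw [hz, hp'1] at hv
          simp only [Prod.mk.injEq] at hz
          obtain ⟨rfl, rfl, rfl⟩ := hz
          have := Option.some.inj hv
          subst this
          exact ⟨hRw, hwκ, hβ, hξ, ζ.2⟩
        · rw [hp'2 _ hz] at hv
          exact hp.dom _ _ _ _ hv
      · refine Set.Countable.mono ?_ (hp.cnt.insert w)
        rintro γ ⟨β', η, hne⟩
        by_cases hz : (γ, β', η) = (w, β, ξ)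
        · simp only [Prod.mk.injEq] at hz
          exact Set.mem_insert_iff.2 (Or.inl hz.1)
        · rw [hp'2 _ hz] at hne
          exact Set.mem_insert_iff.2 (Or.inr ⟨β', η, hne⟩)
      · intro γ
        by_cases hγ : γ = w
        · subst hγ
          have hsub : {z : A × A | p' (γ, z.1, z.2) ≠ none} ⊆
              insert (β, ξ) {z : A × A | p (γ, z.1, z.2) ≠ none} := by
            rintro ⟨x, y⟩ hne
            by_cases hz : (x, y) = (β, ξ)
            · exact Set.mem_insert_iff.2 (Or.inl hz)
            · refine Set.mem_insert_iff.2 (Or.inr ?_)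
              have hz' : (γ, x, y) ≠ (γ, β, ξ) := by
                intro h
                simp only [Prod.mk.injEq, true_and] at h
                exact hz (by rw [h.1, h.2])
              have hne' : p' (γ, x, y) ≠ none := hne
              rw [hp'2 _ hz'] at hne'
              exact hne'
          calc #{z : A × A | p' (γ, z.1, z.2) ≠ none}
              ≤ #(insert (β, ξ) {z : A × A | p (γ, z.1, z.2) ≠ none} : Set (A × A)) :=
                Cardinal.mk_le_mk_of_subset hsub
            _ ≤ #{z : A × A | p (γ, z.1, z.2) ≠ none} + 1 := Cardinal.mk_insert_le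
            _ ≤ #(Iio γ) + 1 := by
                have := hp.siz γ
                gcongr
            _ = #(Iio γ) := Cardinal.add_one_eq hRw.1.le
        · have : {z : A × A | p' (γ, z.1, z.2) ≠ none} = {z : A × A | p (γ, z.1, z.2) ≠ none} := by
            ext ⟨x, y⟩
            have hz' : (γ, x, y) ≠ (w, β, ξ) := by
              intro h
              simp only [Prod.mk.injEq] at h
              exact hγ h.1
            simp only [Set.mem_setOf_eq]
            rw [hp'2 _ hz']
          rw [this]
          exact hp.siz γ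
      · intro γ hRγ
        by_cases hγ : γ = w
        · subst hγ
          obtain ⟨ξ', hξ', hlt⟩ := hRw.2.2 {ξ} (by
            intro x hx
            rw [Set.mem_singleton_iff] at hx
            rw [hx]
            exact hξ) (by
              rw [Cardinal.mk_singleton]
              exact lt_of_lt_of_le Cardinal.one_lt_aleph0 hRw.1.le)
          have hlt' : ξ < ξ' := hlt ξ rfl
          refine ⟨ξ', hξ', fun β' η hne => ?_⟩
          by_cases hz : (γ, β', η) = (γ, β, ξ)
          · simp only [Prod.mk.injEq, true_and] at hz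
            rw [hz.2]
            exact hlt'
          · rw [hp'2 _ hz] at hne
            exact (hbd β' η hne).trans hlt'
        · obtain ⟨ξ', hξ', h⟩ := hp.hgt γ hRγ
          refine ⟨ξ', hξ', fun β' η hne => ?_⟩
          have hz' : (γ, β', η) ≠ (w, β, ξ) := by
            intro h
            simp only [Prod.mk.injEq] at h
            exact hγ h.1
          rw [hp'2 _ hz'] at hne
          exact h β' η hne
    refine ⟨⟨(p', t), hP, ht⟩, ?_, ⟨ξ, hξ⟩, ?_⟩
    · exact Rle.left' t hX
    · exact hp'1

end Pool.Agent.Helper24.FR
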