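import Pool.Agent.Helper24.FR.StIV

/-!
# FR, part IV: the term part collapses (module CO2)
-/

set_option autoImplicit false

open Cardinal Set

namespace Pool.Agent.Helper24.FR

/-- The constant name with value `ζ`. -/
private noncomputable def cst_CO2 {A : Type} [LinearOrder A] (κ ζ : A) : Na A := by
  classical exact fun p => if isP κ p then some ζ else none

private theorem cst_some_CO2 {A : Type} [LinearOrder A] {κ ζ : A} {p : Ra A} {v : A}
    (h : cst_CO2 κ ζ p = some v) : isP κ p ∧ v = ζ := by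
  unfold cst_CO2 at h
  by_cases hp : isP κ p
  · simp [hp] at h
    exact ⟨hp, h.symm⟩
  · simp [hp] at h

private theorem cst_val_CO2 {A : Type} [LinearOrder A] {κ ζ : A} {p : Ra A} (hp : isP κ p) :
    cst_CO2 κ ζ p = some ζ := by
  unfold cst_CO2
  simp [hp]

private theorem isN_cst_CO2 {A : Type} [LinearOrder A] {κ α ζ : A} (h : ζ < α) :
    isN κ α (cst_CO2 κ ζ) := by
  refine ⟨?_, ?_, ?_⟩
  · intro p v hv
    obtain ⟨h1, h2⟩ := cst_some_CO2 hv
    exact ⟨h1, h2 ▸ h⟩
  · intro p p' v hv hp' _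
    obtain ⟨_, h2⟩ := cst_some_CO2 hv
    rw [cst_val_CO2 hp', h2]
  · intro p hp
    refine ⟨p, hp, Xt.refl p, ?_⟩
    rw [cst_val_CO2 hp]
    simp

/-- Module CO2. -/
theorem hCO2 : StCO2 := by
  classical
  intro A _ _ κ hκ α
  refine ⟨fun η ζ => {r : RC κ | ∃ n, r.1.2 (α, η.1) = some n ∧
    ∀ q v, isP κ q → Xt q r.1.1 → n q = some v → v = ζ.1}, ?_, ?_, ?_⟩
  · rintro ⟨η, hη⟩ ⟨ζ, hζ⟩ r r' ⟨n, hn, hv⟩ hle
    obtain ⟨hx, h2⟩ := hle
    obtain ⟨n', hn', hF⟩ := h2 _ n hn
    refine ⟨n', hn', ?_⟩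
    intro q v hq hxq hnv
    have hNn := (r.2.2.dom _ _ _ hn).2.2
    have hNn' := (r'.2.2.dom _ _ _ hn').2.2
    obtain ⟨q', hq', hxq', hd⟩ := hNn.den q hq
    obtain ⟨v0, hv0⟩ := Option.ne_none_iff_exists'.1 hd
    have e1 : v0 = ζ := hv q' v0 hq' ((hxq'.trans hxq).trans hx) hv0
    have e2 : n' q' = some v := hNn'.mon _ _ _ hnv hq' hxq'
    have e3 : v = v0 := hF q' v v0 hq' (hxq'.trans hxq) e2 hv0
    exact e3.trans e1
  · rintro ⟨η, hη⟩ ⟨ζ, hζ⟩ ⟨ζ', hζ'⟩ r hne ⟨n, hn, hv⟩ ⟨n', hn', hv'⟩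
    have he : n' = n := by
      have := hn'.symm.trans hn
      exact Option.some.inj this
    subst he
    have hNn := (r.2.2.dom _ _ _ hn).2.2
    obtain ⟨q', hq', hxq', hd⟩ := hNn.den r.1.1 r.2.1
    obtain ⟨v0, hv0⟩ := Option.ne_none_iff_exists'.1 hd
    apply hne
    apply Subtype.ext
    exact (hv q' v0 hq' hxq' hv0).symm.trans (hv' q' v0 hq' hxq' hv0)
  · rintro ⟨ζ, hζ⟩ ⟨⟨p, t⟩, hp, ht⟩
    have hζ' : ζ < α := hζ
    obtain ⟨ξ, hξ, hξb⟩ := ht.hgt
    obtain ⟨ξ', hξ', hlt⟩ := hκ.2.2 {ξ} (by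
      intro s hs
      rw [mem_singleton_iff] at hs
      subst hs
      exact hξ) (by
      rw [Cardinal.mk_singleton]
      exact lt_of_lt_of_le Cardinal.one_lt_aleph0 hκ.1.le)
    have hlt' : ξ < ξ' := hlt ξ rfl
    have hn0 : t (α, ξ) = none := by
      by_contra h
      exact lt_irrefl _ (hξb α ξ h)
    let t' : Ta A := Function.update t (α, ξ) (some (cst_CO2 κ ζ))
    have ht'1 : t' (α, ξ) = some (cst_CO2 κ ζ) := by simp [t']
    have ht'2 : ∀ z, z ≠ (α, ξ) → t' z = t z := by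
      intro z hz
      simp [t', Function.update_of_ne hz]
    have hT : isT κ Set.univ t' := by
      refine ⟨?_, ?_, ?_⟩
      · intro a η n hn
        by_cases hz : (a, η) = (α, ξ)
        · have ha : a = α := congrArg Prod.fst hz
          have hη : η = ξ := congrArg Prod.snd hz
          subst ha
          subst hη
          rw [ht'1] at hn
          have hn2 := Option.some.inj hn
          rw [← hn2]
          exact ⟨Set.mem_univ _, hξ, isN_cst_CO2 hζ'⟩
        · rw [ht'2 _ hz] at hn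
          exact ht.dom _ _ _ hn
      · have hsub : {z : A × A | t' z ≠ none} ⊆ {z : A × A | t z ≠ none} ∪ {(α, ξ)} := by
          intro z hz
          by_cases hz' : z = (α, ξ)
          · exact Or.inr hz'
          · refine Or.inl ?_
            have : t' z ≠ none := hz
            rw [ht'2 _ hz'] at this
            exact this
        refine (Cardinal.mk_le_mk_of_subset hsub).trans ?_
        refine (Cardinal.mk_union_le _ _).trans ?_
        refine Cardinal.add_le_of_le hκ.1.le ht.siz ?_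
        rw [Cardinal.mk_singleton]
        exact (lt_of_lt_of_le Cardinal.one_lt_aleph0 hκ.1.le).le
      · refine ⟨ξ', hξ', ?_⟩
        intro a η h
        by_cases hz : (a, η) = (α, ξ)
        · have hη : η = ξ := congrArg Prod.snd hz
          rw [hη]
          exact hlt'
        · rw [ht'2 _ hz] at h
          exact (hξb _ _ h).trans hlt'
    refine ⟨⟨(p, t'), hp, hT⟩, ?_, ⟨ξ, hξ⟩, cst_CO2 κ ζ, ht'1, ?_⟩
    · refine ⟨Xt.refl p, ?_⟩
      intro z n hz
      by_cases hz' : z = (α, ξ)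
      · have hz2 : t z = some n := hz
        rw [hz', hn0] at hz2
        simp at hz2
      · refine ⟨n, ?_, Feq.refl _ _ _⟩
        have hz2 : t z = some n := hz
        change t' z = some n
        rw [ht'2 _ hz']
        exact hz2
    · intro q v _ _ hv
      exact (cst_some_CO2 hv).2

end Pool.Agent.Helper24.FR
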