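import Pool.Agent.Helper24.FR.StV

/-!
# FR, module CRP: the two applications of the main lemma
-/

set_option autoImplicit false

open Cardinal Set Filter

namespace Pool.Agent.Helper24.FR

/-- No largest element below `κ`. -/
private theorem nomax_CRP {A : Type} [LinearOrder A] {κ : A} {U : Ultrafilter (Set A)}
    (hu : Hu κ U) (c : Iio κ) : ∃ c' : Iio κ, c < c' := by
  by_contra hcon
  push Not at hcon
  have h1 : Iio κ ⊆ Iio c.1 ∪ {c.1} := by
    intro z hz
    have h2 := hcon ⟨z, hz⟩
    change z ≤ c.1 at h2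
    rcases h2.lt_or_eq with h3 | h3
    · exact Or.inl h3
    · exact Or.inr h3
  have h2 : #(Iio κ) ≤ #(Iio c.1) + 1 := by
    refine (Cardinal.mk_le_mk_of_subset h1).trans ?_
    refine (Cardinal.mk_union_le _ _).trans ?_
    rw [Cardinal.mk_singleton]
  have h3 := hu.kini c.1 c.2
  have h4 := hu.unc
  by_cases h5 : ℵ₀ ≤ #(Iio c.1)
  · rw [Cardinal.add_one_eq h5] at h2
    exact absurd h3 (not_lt.2 h2)
  · push Not at h5
    have h6 : #(Iio c.1) + 1 < ℵ₀ := Cardinal.add_lt_aleph0 h5 Cardinal.one_lt_aleph0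
    exact absurd (h2.trans_lt h6) (not_lt.2 h4.le)

theorem hCRP (hS : StUSE) (hM : StUML) : StCRP := by
  refine ⟨?_, ?_⟩
  · intro A _ _ κ U hu p D h1 h2 h3
    obtain ⟨p', hp', x, e, hx, H⟩ := hM A κ U hu {y : Set A // y.Countable ∧ y.Infinite}
      (fun x => {y | y.1 ⊆ x}) (by
        intro f hf
        obtain ⟨y, hy⟩ := hS.2.2.2 A κ U hu (fun x => (f x).1) (by
          filter_upwards [hf] with x hx
          exact ⟨(f x).2.1, hx⟩)
        obtain ⟨x0, hx0⟩ := hy.exists
        refine ⟨f x0, ?_⟩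
        filter_upwards [hy] with x hx
        exact Subtype.ext (hx.trans hx0.symm)) p D h1 h2 h3
    exact ⟨p', hp', x, e, hx, fun y c hy hc r hr => H y hy c hc r hr⟩
  · intro A _ _ κ U hu p β hβ hcl
    obtain ⟨D₀, h1, h2, h3⟩ := hcl
    classical
    let c₀ : Iio κ := ⟨β, hβ⟩
    let D : Iio β → Iio κ → Set (RC κ) := fun z c =>
      if c = c₀ then D₀ z c₀ ∪ {r | ∀ r' ≤ r, ∀ c, r' ∉ D₀ z c} else D₀ z c
    have hD0 : ∀ z, D z c₀ = D₀ z c₀ ∪ {r | ∀ r' ≤ r, ∀ c, r' ∉ D₀ z c} := by
      intro z
      simp [D]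
    have hD1 : ∀ z c, c ≠ c₀ → D z c = D₀ z c := by
      intro z c hc
      simp [D, hc]
    obtain ⟨p', hp', x, e, hx, H⟩ := hM A κ U hu (Iio β) (fun _ => Set.univ) (by
        intro f _
        obtain ⟨z, _, hz⟩ := hS.2.2.1 A κ U hu (Iio β) Set.univ (by
          rw [Cardinal.mk_univ]
          exact hu.kini β hβ) f (Filter.Eventually.of_forall fun _ => Set.mem_univ _)
        exact ⟨z, hz⟩) p D (by
        intro z c r r' hr hle
        by_cases hc : c = c₀
        · subst hc
          rw [hD0] at hr ⊢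
          rcases hr with hr | hr
          · exact Or.inl (h1 _ _ _ _ hr hle)
          · exact Or.inr fun r'' hr'' c => hr r'' (hr''.trans hle) c
        · rw [hD1 z c hc] at hr ⊢
          exact h1 _ _ _ _ hr hle) (by
        intro z c c' r hcc hr hr'
        by_cases hc : c = c₀
        · have hc' : c' ≠ c₀ := fun h => hcc (hc.trans h.symm)
          subst hc
          rw [hD0] at hr
          rw [hD1 z c' hc'] at hr'
          rcases hr with hr | hr
          · exact h2 _ _ _ _ hcc hr hr'
          · exact hr r le_rfl c' hr'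
        · rw [hD1 z c hc] at hr
          by_cases hc' : c' = c₀
          · subst hc'
            rw [hD0] at hr'
            rcases hr' with hr' | hr'
            · exact h2 _ _ _ _ hcc hr hr'
            · exact hr' r le_rfl c hr
          · rw [hD1 z c' hc'] at hr'
            exact h2 _ _ _ _ hcc hr hr') (by
        intro z q _
        by_cases hex : ∃ r ≤ q, ∃ c, r ∈ D₀ z c
        · obtain ⟨r, hr, c, hc⟩ := hex
          refine ⟨r, hr, c, ?_⟩
          by_cases hc0 : c = c₀
          · subst hc0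
            rw [hD0]
            exact Or.inl hc
          · rw [hD1 z c hc0]
            exact hc
        · push Not at hex
          refine ⟨q, le_rfl, c₀, ?_⟩
          rw [hD0]
          exact Or.inr hex)
    have hc : ∃ c : Iio κ, e ≤ c ∧ c ≠ c₀ := by
      by_cases he : e = c₀
      · obtain ⟨c', hc'⟩ := nomax_CRP hu e
        exact ⟨c', hc'.le, fun h => absurd hc' (by rw [h, he]; exact lt_irrefl _)⟩
      · exact ⟨e, le_rfl, he⟩
    obtain ⟨c, hec, hcc⟩ := hc
    obtain ⟨r, hr, z, hz⟩ := h3 c p' hp'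
    refine H z (Set.mem_univ _) c hec r hr ?_
    rw [hD1 z c hcc]
    exact hz

end Pool.Agent.Helper24.FR
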