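import Pool.Agent.Helper24.FR.StII

/-!
# FR, module DCI: countable sets are decided
-/

set_option autoImplicit false

universe u

namespace Pool.Agent.Helper24.FR

private theorem countable_Iio_DCI {A : Type u} [LinearOrder A] {w : A}
    (hw : I0 w) : (Set.Iio w).Countable := by
  have hinj : Set.InjOn (fun a : A => (Set.Iio a).ncard) (Set.Iio w) := by
    intro a ha b hb hab
    by_contra hne
    rcases lt_or_gt_of_ne hne with h | h
    · have hss : Set.Iio a ⊂ Set.Iio b :=
        ⟨Set.Iio_subset_Iio h.le, fun hs => lt_irrefl a (hs h)⟩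
      have := Set.ncard_lt_ncard hss (hw.2 b hb)
      exact absurd hab this.ne
    · have hss : Set.Iio b ⊂ Set.Iio a :=
        ⟨Set.Iio_subset_Iio h.le, fun hs => lt_irrefl b (hs h)⟩
      have := Set.ncard_lt_ncard hss (hw.2 a ha)
      exact absurd hab this.ne'
  exact Set.MapsTo.countable_of_injOn (t := Set.univ) (fun _ _ => Set.mem_univ _) hinj
    Set.countable_univ

theorem hDCI (hL : StLEN.{u}) (hO : StONN.{u}) (hM : StOMN.{u}) (hC : StCLF.{u}) :
    StDCI.{u} := by
  classical
  intro B A _ _ _ hD w hw S z b hb hbz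
  have hdisc : Disc (on B : A → Nm B) := hO.1 B A
  have hOm : Om bmem beq (on B w) = ⊤ := hM.1 B A w hw
  -- `b ≤ Le z (on B w) ⊓ Le (on B w) z`
  have hCi : Ci bmem beq z ≤ Le bmem beq z (on B w) ⊓ Le bmem beq (on B w) z := by
    rw [Ci]
    refine iSup_le fun t => ?_
    have h1 : Om bmem beq t ≤ beq t (on B w) := by
      have := hM.2 B t (on B w)
      rwa [hOm, inf_top_eq] at this
    have hzz : beq t (on B w) ≤ beq z z := by rw [beq_refl]; exact le_top
    refine le_inf ?_ ?_
    · calc Om bmem beq t ⊓ (Le bmem beq z t ⊓ Le bmem beq t z)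
          ≤ beq t (on B w) ⊓ Le bmem beq z t :=
            inf_le_inf h1 inf_le_left
        _ ≤ _ := Le_congr hzz le_rfl
    · calc Om bmem beq t ⊓ (Le bmem beq z t ⊓ Le bmem beq t z)
          ≤ beq t (on B w) ⊓ Le bmem beq t z :=
            inf_le_inf h1 inf_le_right
        _ ≤ _ := Le_congr le_rfl hzz
  have hb1 : b ≤ Le bmem beq z (on B w) := (hbz.trans inf_le_right).trans (hCi.trans inf_le_left)
  have hb2 : b ≤ Le bmem beq (on B w) z := (hbz.trans inf_le_right).trans (hCi.trans inf_le_right)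
  have hbS : b ≤ Sub bmem z (sn B S) := hbz.trans inf_le_left
  obtain ⟨f, hf⟩ := full_Le z (on B w)
  have hfb : b ≤ Cov bmem beq f (on B w) z := by rw [hf]; exact hb1
  have hfFn : b ≤ Fn bmem beq f := by
    rw [Cov] at hfb
    exact hfb.trans inf_le_left
  -- enumeration of `Iio w`
  have : Countable (Set.Iio w) := (countable_Iio_DCI hw).to_subtype
  have : Infinite (Set.Iio w) := hw.1.to_subtype
  obtain ⟨e, he⟩ := exists_surjective_nat (Set.Iio w)
  -- `b ⊓ bmem (on B a) z ≤ ⨆ n, Rl f (on B (e n)) (on B a)`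
  have hcov : ∀ y : Nm B, b ⊓ bmem y z ≤ ⨆ n, Rl bmem beq f (on B (e n).1) y := by
    intro y
    have h1 : b ≤ bmem y z ⇨ ⨆ x, bmem x (on B w) ⊓ Rl bmem beq f x y := by
      rw [Cov] at hfb
      exact (hfb.trans inf_le_right).trans (iInf_le _ y)
    rw [le_himp_iff] at h1
    refine h1.trans (iSup_le fun x => ?_)
    rw [bmem_on, iSup_inf_eq]
    refine iSup_le fun c => ?_
    obtain ⟨n, hn⟩ := he c
    refine le_iSup_of_le n ?_
    rw [hn]
    refine Rl_congr (b := beq x (on B c.1)) ?_ le_rfl ?_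
    · rw [beq_refl]; exact le_top
    · rw [beq_refl]; exact le_top
  -- the family
  let g : ℕ → S → B := fun n s => b ⊓ (Rl bmem beq f (on B (e n).1) (on B s.1) ⊓ bmem (on B s.1) z)
  let G : ℕ → Option S → B := fun n o => o.elim (b ⊓ (⨆ s, g n s)ᶜ) (g n)
  have hG : ∀ n, b ≤ ⨆ o, G n o := by
    intro n
    have h1 : (⨆ s, g n s) ≤ ⨆ o, G n o :=
      iSup_le fun s => le_iSup_of_le (some s) le_rfl
    have h2 : b ⊓ (⨆ s, g n s)ᶜ ≤ ⨆ o, G n o := le_iSup_of_le none le_rfl
    calc b ≤ (⨆ s, g n s) ⊔ b ⊓ (⨆ s, g n s)ᶜ := by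
          rw [sup_inf_left, sup_compl_eq_top, inf_top_eq]
          exact le_sup_right
      _ ≤ _ := sup_le h1 h2
  obtain ⟨b', hb'b, hb', h, hh⟩ := hD (Option S) G b hb hG
  let y : Set A := {a | ∃ n, ∃ s : S, h n = some s ∧ s.1 = a}
  have hyS : y ⊆ S := by
    rintro a ⟨n, s, _, rfl⟩
    exact s.2
  have hyc : y.Countable := by
    have : y ⊆ Set.range (fun n => ((h n).map Subtype.val).getD w) := by
      rintro a ⟨n, s, hn, rfl⟩
      exact ⟨n, by simp [hn]⟩
    exact (Set.countable_range _).mono this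
  have hy1 : ∀ a ∈ y, b' ≤ bmem (on B a) z := by
    rintro a ⟨n, s, hn, rfl⟩
    have h1 := hh n
    rw [hn] at h1
    exact h1.trans (inf_le_right.trans inf_le_right)
  have hy2 : ∀ a ∈ S, a ∉ y → b' ⊓ bmem (on B a) z ≤ ⊥ := by
    intro a haS hay
    have h1 : b' ⊓ bmem (on B a) z ≤ (b' ⊓ bmem (on B a) z) ⊓
        ⨆ n, Rl bmem beq f (on B (e n).1) (on B a) :=
      le_inf le_rfl ((inf_le_inf_right _ hb'b).trans (hcov _))
    refine h1.trans ?_
    rw [inf_iSup_eq]
    refine iSup_le fun n => ?_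
    rcases hn : h n with _ | s
    · have h2 := hh n
      rw [hn] at h2
      have h3 : b' ≤ (⨆ s, g n s)ᶜ := h2.trans inf_le_right
      have h4 : b' ⊓ bmem (on B a) z ⊓ Rl bmem beq f (on B (e n).1) (on B a) ≤ ⨆ s, g n s := by
        refine le_iSup_of_le ⟨a, haS⟩ ?_
        refine le_inf ((inf_le_left.trans inf_le_left).trans hb'b) (le_inf inf_le_right ?_)
        exact inf_le_left.trans inf_le_right
      calc _ ≤ (⨆ s, g n s) ⊓ (⨆ s, g n s)ᶜ :=
            le_inf h4 ((inf_le_left.trans inf_le_left).trans h3)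
        _ = ⊥ := inf_compl_self _
        _ ≤ ⊥ := le_rfl
    · have h2 := hh n
      rw [hn] at h2
      have h3 : b' ≤ Rl bmem beq f (on B (e n).1) (on B s.1) :=
        h2.trans (inf_le_right.trans inf_le_left)
      have hne : s.1 ≠ a := fun hsa => hay ⟨n, s, hn, hsa⟩
      have h4 : b' ≤ Fn bmem beq f := hb'b.trans hfFn
      have h5 : Fn bmem beq f ≤ Rl bmem beq f (on B (e n).1) (on B s.1) ⊓
          Rl bmem beq f (on B (e n).1) (on B a) ⇨ beq (on B s.1) (on B a) := by
        rw [Fn]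
        exact (iInf_le _ (on B (e n).1)).trans ((iInf_le _ (on B s.1)).trans (iInf_le _ (on B a)))
      rw [le_himp_iff] at h5
      calc b' ⊓ bmem (on B a) z ⊓ Rl bmem beq f (on B (e n).1) (on B a)
          ≤ Fn bmem beq f ⊓ (Rl bmem beq f (on B (e n).1) (on B s.1) ⊓
            Rl bmem beq f (on B (e n).1) (on B a)) :=
            le_inf ((inf_le_left.trans inf_le_left).trans h4)
              (le_inf ((inf_le_left.trans inf_le_left).trans h3) inf_le_right)
        _ ≤ beq (on B s.1) (on B a) := h5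
        _ = ⊥ := hdisc _ _ hne
        _ ≤ ⊥ := le_rfl
  have hyz : b' ≤ beq z (sn B y) := by
    refine le_beq_of_mem (fun x => ?_) (fun x => ?_)
    · have h1 : b' ⊓ bmem x z ≤ (b' ⊓ bmem x z) ⊓ bmem x (sn B S) := by
        refine le_inf le_rfl ?_
        have h2 : b ≤ bmem x z ⇨ bmem x (sn B S) := by
          rw [Sub] at hbS
          exact hbS.trans (iInf_le _ x)
        rw [le_himp_iff] at h2
        exact (inf_le_inf_right _ hb'b).trans h2
      refine h1.trans ?_
      rw [bmem_sn, inf_iSup_eq]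
      refine iSup_le fun s => ?_
      by_cases hs : s.1 ∈ y
      · rw [bmem_sn]
        exact le_iSup_of_le ⟨s.1, hs⟩ inf_le_right
      · refine le_trans ?_ bot_le (b := ⊥)
        refine le_trans ?_ (hy2 s.1 s.2 hs)
        refine le_inf (inf_le_left.trans inf_le_left) ?_
        refine le_trans ?_ (bmem_congr_left x (on B s.1) z)
        exact le_inf inf_le_right (inf_le_left.trans inf_le_right)
    · rw [bmem_sn, inf_iSup_eq]
      refine iSup_le fun a => ?_
      refine le_trans ?_ (bmem_congr_left (on B a.1) x z)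
      refine le_inf ?_ (inf_le_left.trans (hy1 a.1 a.2))
      rw [beq_comm]
      exact inf_le_right
  refine ⟨b', hb'b, hb', y, hyS, hyc, ?_, hyz⟩
  intro hyf
  have : Finite y := hyf.to_subtype
  have h1 : b' ≤ Le bmem beq (on B w) (sn B y) := by
    refine le_trans (le_inf le_rfl (hb'b.trans hb2)) (Le_congr ?_ hyz)
    rw [beq_refl]; exact le_top
  rw [on_eq] at h1
  have h2 : Cl b' y (Set.Iio w) := by
    refine (hL B y (Set.Iio w) (fun a => on B a.1) (fun a => on B a.1) b' ?_ ?_).1 h1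
    · intro i j hij
      exact hdisc _ _ fun h => hij (Subtype.ext h)
    · intro i j hij
      exact hdisc _ _ fun h => hij (Subtype.ext h)
  exact hC.1 B b' y (Set.Iio w) hb' inferInstance inferInstance h2

end Pool.Agent.Helper24.FR
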