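import Pool.Agent.Helper24.FR.StII

/-!
# FR, module DSU: subsets of countable sets are decided
-/

set_option autoImplicit false

universe u

namespace Pool.Agent.Helper24.FR

theorem hDSU (_hO : StONN.{u}) : StDSU.{u} := by
  classical
  intro B A _ _ _ hD S z b hb hS hsub
  have hsubx : ∀ x : Nm B, b ⊓ bmem x z ≤ bmem x (sn B S) := by
    intro x
    rw [← le_himp_iff]
    exact hsub.trans (iInf_le _ x)
  rcases S.eq_empty_or_nonempty with hS0 | hS0
  · subst hS0
    refine ⟨b, le_rfl, hb, ∅, le_rfl, le_beq_of_mem (fun x => hsubx x) (fun x => ?_)⟩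
    rw [bmem_sn, iSup_of_empty, inf_bot_eq]
    exact bot_le
  obtain ⟨e, he⟩ := hS.exists_eq_range hS0
  let G : ℕ → ULift.{u} Bool → B := fun n i =>
    if i.down then bmem (on B (e n)) z else (bmem (on B (e n)) z)ᶜ
  have hG : ∀ n, b ≤ ⨆ i, G n i := by
    intro n
    have h1 : bmem (on B (e n)) z ≤ ⨆ i, G n i :=
      le_iSup_of_le ⟨true⟩ (by simp [G])
    have h2 : (bmem (on B (e n)) z)ᶜ ≤ ⨆ i, G n i :=
      le_iSup_of_le ⟨false⟩ (by simp [G])
    refine le_top.trans ?_
    rw [← sup_compl_eq_top (x := bmem (on B (e n)) z)]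
    exact sup_le h1 h2
  obtain ⟨b', hb'b, hb', h, hh⟩ := hD _ G b hb hG
  have htrue : ∀ n, (h n).down = true → b' ≤ bmem (on B (e n)) z := by
    intro n hn
    have := hh n
    simpa [G, hn] using this
  have hfalse : ∀ n, (h n).down = false → b' ≤ (bmem (on B (e n)) z)ᶜ := by
    intro n hn
    have := hh n
    simpa [G, hn] using this
  refine ⟨b', hb'b, hb', {a | ∃ n, (h n).down = true ∧ e n = a}, ?_, ?_⟩
  · rintro a ⟨n, -, rfl⟩
    rw [he]
    exact ⟨n, rfl⟩
  refine le_beq_of_mem (fun x => ?_) (fun x => ?_)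
  · have h0 : b' ⊓ bmem x z ≤ ⨆ a : S, beq x (on B a.1) := by
      rw [← bmem_sn]
      exact (inf_le_inf_right _ hb'b).trans (hsubx x)
    have h1 : b' ⊓ bmem x z ≤ (⨆ a : S, beq x (on B a.1)) ⊓ (b' ⊓ bmem x z) := le_inf h0 le_rfl
    refine h1.trans ?_
    rw [iSup_inf_eq]
    refine iSup_le fun a => ?_
    obtain ⟨a, ha⟩ := a
    obtain ⟨n, rfl⟩ : ∃ n, e n = a := by
      rw [he] at ha
      exact ha
    rcases hc : (h n).down with _ | _
    · have h2 : beq x (on B (e n)) ⊓ (b' ⊓ bmem x z) ≤ ⊥ := by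
        calc beq x (on B (e n)) ⊓ (b' ⊓ bmem x z)
            ≤ (beq x (on B (e n)) ⊓ bmem x z) ⊓ b' :=
              le_inf (le_inf inf_le_left (inf_le_right.trans inf_le_right))
                (inf_le_right.trans inf_le_left)
          _ ≤ bmem (on B (e n)) z ⊓ (bmem (on B (e n)) z)ᶜ :=
              inf_le_inf (bmem_congr_left _ _ _) (hfalse n hc)
          _ = ⊥ := inf_compl_self _
      exact h2.trans bot_le
    · rw [bmem_sn]
      exact inf_le_left.trans
        (le_iSup_of_le (⟨e n, n, hc, rfl⟩ : {a | ∃ n, (h n).down = true ∧ e n = a}) le_rfl)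
  · rw [bmem_sn, inf_iSup_eq]
    refine iSup_le fun a => ?_
    obtain ⟨a, n, hc, rfl⟩ := a
    calc b' ⊓ beq x (on B (e n)) ≤ beq (on B (e n)) x ⊓ bmem (on B (e n)) z := by
          rw [beq_comm x]
          exact le_inf inf_le_right (inf_le_left.trans (htrue n hc))
      _ ≤ bmem x z := bmem_congr_left _ _ _

end Pool.Agent.Helper24.FR
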