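import Pool.Agent.Helper24.FR.StI

/-!
# FR, module EXT: extensionality and transfer
-/

set_option autoImplicit false

universe u

namespace Pool.Agent.Helper24.FR

private theorem ex_mem_EXT {B : Type u} [CompleteBooleanAlgebra B] (x : Nm B) :
    Ex fun z => bmem z x := fun z z' => bmem_congr_left z z' x

private theorem ex_himp_EXT {B : Type u} [CompleteBooleanAlgebra B] {P Q : Nm B → B}
    (hP : Ex P) (hQ : Ex Q) : Ex fun z => P z ⇨ Q z := by
  intro x y
  rw [le_himp_iff]
  have h1 : beq x y ⊓ (P x ⇨ Q x) ⊓ P y ≤ P x := by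
    refine le_trans ?_ (hP y x)
    rw [beq_comm y x]
    exact le_inf (inf_le_left.trans inf_le_left) inf_le_right
  have h2 : beq x y ⊓ (P x ⇨ Q x) ⊓ P y ≤ Q x := by
    refine le_trans ?_ (himp_inf_le (a := P x) (b := Q x))
    exact le_inf (inf_le_left.trans inf_le_right) h1
  refine le_trans ?_ (hQ x y)
  exact le_inf (inf_le_left.trans inf_le_left) h2

theorem hEXT (hU : StUFX.{u}) : StEXT.{u} := by
  refine ⟨fun B _ W x y h => ?_, fun B _ a b h => ?_⟩
  · obtain ⟨x', rfl⟩ : ∃ x', QN.mk W x' = x :=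
      QN.ind' W (p := fun q => ∃ x', QN.mk W x' = q) (fun x' => ⟨x', rfl⟩) x
    obtain ⟨y', rfl⟩ : ∃ y', QN.mk W y' = y :=
      QN.ind' W (p := fun q => ∃ y', QN.mk W y' = q) (fun y' => ⟨y', rfl⟩) y
    rw [QN_eq, beq_eq_iInf]
    rw [QN_forall] at h
    rw [W.iInf_iff]
    · intro z
      have hz := h z
      rw [QE_mk, QE_mk] at hz
      rw [W.inf_iff, W.himp_iff, W.himp_iff]
      exact ⟨hz.1, hz.2⟩
    · intro z z'
      have e1 := ex_himp_EXT (ex_mem_EXT x') (ex_mem_EXT y') z z'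
      have e2 := ex_himp_EXT (ex_mem_EXT y') (ex_mem_EXT x') z z'
      refine le_inf (le_trans ?_ e1) (le_trans ?_ e2)
      · exact inf_le_inf_left _ inf_le_left
      · exact inf_le_inf_left _ inf_le_right
  · by_contra hc
    have hne : a ⊓ bᶜ ≠ ⊥ := by
      intro h0
      apply hc
      rw [← disjoint_compl_right_iff, disjoint_iff_inf_le]
      exact h0.le
    obtain ⟨W, hW⟩ := hU B (a ⊓ bᶜ) hne
    rw [W.inf_iff, W.not] at hW
    exact hW.2 (h W hW.1)

end Pool.Agent.Helper24.FR
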