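import Pool.Agent.Helper24.FR.StI

/-!
# FR, module FND: foundation
-/

set_option autoImplicit false

universe u

namespace Pool.Agent.Helper24.FR

private theorem aux1_FND (B : Type u) [CompleteBooleanAlgebra B] (x : Nm B) :
    (⨆ y, bmem y x) ≤ ⨆ y, bmem y x ⊓ ⨅ z, bmem z y ⇨ (bmem z x)ᶜ := by
  set R : B := ⨆ y, bmem y x ⊓ ⨅ z, bmem z y ⇨ (bmem z x)ᶜ with hR
  refine iSup_le fun y => ?_
  induction y with
  | mk ι a p ih =>
    have h1 : bmem (Nm.mk ι a p) x ⊓ Rᶜ ≤ R := by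
      rw [hR]
      refine le_iSup_of_le (Nm.mk ι a p) (le_inf inf_le_left (le_iInf fun z => ?_))
      rw [le_himp_iff, le_compl_iff_disjoint_right, disjoint_iff_inf_le, ← hR]
      have h2 : bmem z (Nm.mk ι a p) ⊓ bmem z x ≤ R := by
        rw [bmem, iSup_inf_eq]
        refine iSup_le fun i => ?_
        refine le_trans ?_ (ih i)
        refine le_trans ?_ (bmem_congr_left z (a i) x)
        exact le_inf (inf_le_left.trans inf_le_right) inf_le_right
      calc bmem (Nm.mk ι a p) x ⊓ Rᶜ ⊓ bmem z (Nm.mk ι a p) ⊓ bmem z x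
          ≤ (bmem z (Nm.mk ι a p) ⊓ bmem z x) ⊓ Rᶜ :=
            le_inf (le_inf (inf_le_left.trans inf_le_right) inf_le_right)
              (inf_le_left.trans (inf_le_left.trans inf_le_right))
        _ ≤ R ⊓ Rᶜ := inf_le_inf_right _ h2
        _ ≤ ⊥ := by rw [inf_compl_self]
    calc bmem (Nm.mk ι a p) x = bmem (Nm.mk ι a p) x ⊓ (R ⊔ Rᶜ) := by
          rw [sup_compl_eq_top, inf_top_eq]
      _ = bmem (Nm.mk ι a p) x ⊓ R ⊔ bmem (Nm.mk ι a p) x ⊓ Rᶜ := inf_sup_left _ _ _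
      _ ≤ R := sup_le inf_le_right h1

private theorem ex_FND {B : Type u} [CompleteBooleanAlgebra B] (x : Nm B) :
    Ex fun y => bmem y x ⊓ ⨅ z, bmem z y ⇨ (bmem z x)ᶜ := by
  intro y y'
  refine le_inf ?_ (le_iInf fun z => ?_)
  · exact (le_inf inf_le_left (inf_le_right.trans inf_le_left)).trans (bmem_congr_left y y' x)
  · rw [le_himp_iff]
    have h1 : beq y y' ⊓ (bmem y x ⊓ ⨅ z, bmem z y ⇨ (bmem z x)ᶜ) ⊓ bmem z y' ≤ bmem z y := by
      refine le_trans (le_inf ?_ inf_le_right) (bmem_congr_right z y' y)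
      rw [beq_comm y' y]
      exact inf_le_left.trans inf_le_left
    have h2 : beq y y' ⊓ (bmem y x ⊓ ⨅ z, bmem z y ⇨ (bmem z x)ᶜ) ⊓ bmem z y' ≤
        bmem z y ⇨ (bmem z x)ᶜ :=
      inf_le_left.trans (inf_le_right.trans (inf_le_right.trans (iInf_le _ z)))
    exact (le_inf h2 h1).trans himp_inf_le

theorem hFND : StFND.{u} := by
  refine ⟨aux1_FND, ?_, ?_⟩
  · intro B _ W x
    induction x using QN.ind' with
    | h x =>
    rw [QN_exists, QN_exists]
    rintro ⟨y, hy⟩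
    rw [QE_mk] at hy
    have h1 := W.up _ _ (W.up _ _ hy (le_iSup (fun y => bmem y x) y)) (aux1_FND B x)
    obtain ⟨t, ht⟩ := (W.iSup_iff _ (ex_FND x)).1 h1
    rw [W.inf_iff] at ht
    refine ⟨t, ht.1, (QN_forall W).2 fun z => ?_⟩
    rw [QE_mk, QE_mk]
    intro hz
    exact (W.not _).1 ((W.himp_iff _ _).1 (W.up _ _ ht.2 (iInf_le _ z)) hz)
  · intro B _ y
    have h1 := aux1_FND B (sgN y)
    have h2 : (⊤ : B) ≤ ⨆ z, bmem z (sgN y) := by
      refine le_iSup_of_le y ?_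
      rw [bmem_sgN, beq_refl]
    rw [← le_bot_iff]
    calc bmem y y = bmem y y ⊓ ⊤ := (inf_top_eq _).symm
      _ ≤ bmem y y ⊓ ⨆ z, bmem z (sgN y) ⊓ ⨅ w, bmem w z ⇨ (bmem w (sgN y))ᶜ :=
          inf_le_inf_left _ (h2.trans h1)
      _ = ⨆ z, bmem y y ⊓ (bmem z (sgN y) ⊓ ⨅ w, bmem w z ⇨ (bmem w (sgN y))ᶜ) :=
          inf_iSup_eq _ _
      _ ≤ ⊥ := by
          refine iSup_le fun z => ?_
          have h3 : bmem y y ⊓ (bmem z (sgN y) ⊓ ⨅ w, bmem w z ⇨ (bmem w (sgN y))ᶜ) ≤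
              bmem y z := by
            refine le_trans (le_inf ?_ inf_le_left) (bmem_congr_right y y z)
            rw [beq_comm y z, ← bmem_sgN]
            exact inf_le_right.trans inf_le_left
          have h4 : bmem y y ⊓ (bmem z (sgN y) ⊓ ⨅ w, bmem w z ⇨ (bmem w (sgN y))ᶜ) ≤
              bmem y z ⇨ (bmem y (sgN y))ᶜ :=
            inf_le_right.trans (inf_le_right.trans (iInf_le _ y))
          refine ((le_inf h4 h3).trans himp_inf_le).trans ?_
          rw [bmem_sgN, beq_refl, compl_top]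

end Pool.Agent.Helper24.FR
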