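import Pool.Agent.Helper24.FR.StV

/-!
# FR, module HUG: from the huge cardinal to the structure `Hu`
-/

set_option autoImplicit false

open Cardinal Set Filter

namespace Pool.Agent.Helper24.FR

theorem hHUG : StHUG := by
  intro κ hκ
  obtain ⟨hunc, lam, hlt, U, hcomp, hfine, hnorm, htyp⟩ := hκ
  have hlt' : κ.ord < Ordinal.type (fun a b : lam.ord.ToType => a < b) := by
    have h1 : Ordinal.type (fun a b : lam.ord.ToType => a < b) = lam.ord := Ordinal.type_toType _
    rw [h1]
    exact ord_lt_ord.mpr hlt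
  obtain ⟨k, hk⟩ := Ordinal.typein_surj (fun a b : lam.ord.ToType => a < b) hlt'
  have hcard : #(Iio k) = κ := by
    have h1 : (Ordinal.typein (fun a b : lam.ord.ToType => a < b) k).card = #(Iio k) :=
      Ordinal.card_typein k
    rw [← h1, hk, card_ord]
  refine ⟨lam.ord.ToType, inferInstance, inferInstance, k, U, ?_⟩
  refine ⟨?_, ?_, ?_, ?_, ?_, ?_, ?_⟩
  · rw [hcard]
    exact hunc
  · intro a ha
    rw [hcard]
    have h1 : (Ordinal.typein (fun a b : lam.ord.ToType => a < b) a).card = #(Iio a) :=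
      Ordinal.card_typein a
    have h2 : Ordinal.typein (fun a b : lam.ord.ToType => a < b) a <
        Ordinal.typein (fun a b : lam.ord.ToType => a < b) k :=
      (Ordinal.typein_lt_typein (fun a b : lam.ord.ToType => a < b)).mpr ha
    rw [hk] at h2
    rw [← h1]
    exact lt_ord.mp h2
  · intro a
    have h1 : #(Iio a) < #(lam.ord.ToType) := by
      apply mk_Iio_lt
      rw [mk_toType, card_ord, Ordinal.type_toType]
    exact h1
  · intro I P hI hP
    rw [hcard] at hI
    have h1 := hcomp I (fun i => {x | P i x}) hI (fun i => hP i)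
    have h2 : (⋂ i, {x | P i x}) = {x | ∀ i, P i x} := by
      ext x
      simp
    rw [h2] at h1
    exact h1
  · intro a
    exact hfine a
  · intro f hf
    exact hnorm f hf
  · refine Filter.mem_of_superset (Ultrafilter.mem_coe.mpr htyp) ?_
    intro x hx
    have hx' : Ordinal.type (fun a b : x => a < b) = κ.ord := hx
    have h1 : Ordinal.type (fun a b : Iio k => a < b) =
        Ordinal.typein (fun a b : lam.ord.ToType => a < b) k := rfl
    have h2 : Ordinal.type (fun a b : Iio k => a < b) = Ordinal.type (fun a b : x => a < b) := by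
      rw [h1, hk, hx']
    obtain ⟨e⟩ := Ordinal.type_eq.mp h2
    classical
    refine ⟨fun a => if h : a ∈ Iio k then (e ⟨a, h⟩ : lam.ord.ToType) else a, ?_, ?_⟩
    · intro a ha b hb hab
      show (if h : a ∈ Iio k then (e ⟨a, h⟩ : lam.ord.ToType) else a) <
        (if h : b ∈ Iio k then (e ⟨b, h⟩ : lam.ord.ToType) else b)
      rw [dif_pos ha, dif_pos hb]
      have h3 : e ⟨a, ha⟩ < e ⟨b, hb⟩ := e.map_rel_iff.mpr hab
      exact h3
    · ext y
      constructor
      · rintro ⟨a, ha, rfl⟩
        show (if h : a ∈ Iio k then (e ⟨a, h⟩ : lam.ord.ToType) else a) ∈ x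
        rw [dif_pos ha]
        exact (e ⟨a, ha⟩).2
      · intro hy
        refine ⟨(e.symm ⟨y, hy⟩ : lam.ord.ToType), (e.symm ⟨y, hy⟩).2, ?_⟩
        show (if h : (e.symm ⟨y, hy⟩ : lam.ord.ToType) ∈ Iio k then
          (e ⟨(e.symm ⟨y, hy⟩ : lam.ord.ToType), h⟩ : lam.ord.ToType)
            else (e.symm ⟨y, hy⟩ : lam.ord.ToType)) = y
        rw [dif_pos (e.symm ⟨y, hy⟩).2]
        have h3 : e (e.symm ⟨y, hy⟩) = ⟨y, hy⟩ := e.apply_symm_apply _
        exact congrArg Subtype.val h3

end Pool.Agent.Helper24.FR
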