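import Pool.Agent.Helper24.FR.StI

/-!
# FR, module INF: infinity
-/

set_option autoImplicit false

universe u

namespace Pool.Agent.Helper24.FR

variable {B : Type u} [CompleteBooleanAlgebra B]

private theorem bmem_zero_INF (z : Nm B) :
    bmem z (on B (ULift.up.{u} (0 : ℕ))) = ⊥ := by
  rw [bmem_on, eq_bot_iff]
  refine iSup_le fun b => ?_
  have h : b.1 < ULift.up.{u} (0 : ℕ) := b.2
  exact absurd (show b.1.down < 0 from h) (Nat.not_lt_zero _)

private theorem lt_INF {m n : ℕ} (h : m < n) : (ULift.up.{u} m) < ULift.up.{u} n := h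

private theorem bmem_succ_INF (z : Nm B) (n : ℕ) :
    bmem z (on B (ULift.up.{u} (n + 1))) =
      bmem z (on B (ULift.up.{u} n)) ⊔ beq z (on B (ULift.up.{u} n)) := by
  rw [bmem_on, bmem_on]
  apply le_antisymm
  · refine iSup_le fun b => ?_
    obtain ⟨⟨m⟩, hm⟩ := b
    have hm' : m < n + 1 := hm
    rcases Nat.lt_succ_iff_lt_or_eq.1 hm' with h | h
    · refine le_trans ?_ le_sup_left
      exact le_iSup_of_le (⟨⟨m⟩, lt_INF h⟩ : Set.Iio (ULift.up.{u} n)) le_rfl
    · subst h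
      exact le_sup_right
  · refine sup_le (iSup_le fun b => ?_) ?_
    · obtain ⟨⟨m⟩, hm⟩ := b
      have hm' : m < n := hm
      exact le_iSup_of_le (⟨⟨m⟩, lt_INF (hm'.trans (Nat.lt_succ_self n))⟩ :
        Set.Iio (ULift.up.{u} (n + 1))) le_rfl
    · exact le_iSup_of_le (⟨⟨n⟩, lt_INF (Nat.lt_succ_self n)⟩ :
        Set.Iio (ULift.up.{u} (n + 1))) le_rfl

private theorem bi_congr_right_INF {a b c x : B} (h1 : x ⊓ b ≤ c) (h2 : x ⊓ c ≤ b) :
    x ⊓ bi a b ≤ bi a c := by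
  rw [bi, bi]
  refine le_inf ?_ ?_
  · rw [le_himp_iff]
    refine le_trans (le_inf ?_ ?_) h1
    · exact inf_le_left.trans inf_le_left
    · exact (inf_le_inf_right _ (inf_le_right.trans inf_le_left)).trans himp_inf_le
  · rw [le_himp_iff]
    have h3 : x ⊓ ((a ⇨ b) ⊓ (b ⇨ a)) ⊓ c ≤ b :=
      (le_inf (inf_le_left.trans inf_le_left) inf_le_right).trans h2
    refine le_trans (le_inf ?_ h3) (himp_inf_le (a := b) (b := a))
    exact inf_le_left.trans (inf_le_right.trans inf_le_right)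

private theorem ex_Su_INF (w x : Nm B) : Ex fun y => bmem y w ⊓ Su bmem beq y x := by
  have h := ex_ev (B := B) (fAnd (.mem 0 1) (cSu 0 2)) (env x w x) 0
  simp (disch := omega) only [ev_and, ev_mem, ev_cSu, Function.update_self,
    Function.update_of_ne] at h
  exact h

private theorem Su_succ_INF (n : ℕ) :
    Su bmem beq (on B (ULift.up.{u} (n + 1))) (on B (ULift.up.{u} n)) = ⊤ := by
  rw [Su, eq_top_iff]
  refine le_iInf fun z => ?_
  rw [bmem_succ_INF, bi, himp_self, inf_top_eq]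

private theorem Su_congr_INF {y x x' : Nm B} :
    beq x x' ⊓ Su bmem beq y x ≤ Su bmem beq y x' := by
  have h := congr3 (B := B) (cSu 0 1) (x := y) (y := x) (z := x) (x' := y) (y' := x') (z' := x')
    (b := beq x x') (by rw [beq_refl]; exact le_top) le_rfl le_rfl
  simpa [env] using h

private theorem key_INF (x : Nm B) :
    bmem x (sn B (Set.univ : Set (ULift.{u} ℕ))) ≤
      ⨆ y, bmem y (sn B (Set.univ : Set (ULift.{u} ℕ))) ⊓ Su bmem beq y x := by
  conv_lhs => rw [bmem_sn]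
  refine iSup_le fun n => ?_
  obtain ⟨⟨n⟩, -⟩ := n
  refine le_iSup_of_le (on B (ULift.up.{u} (n + 1))) (le_inf ?_ ?_)
  · rw [bmem_sn]
    exact le_iSup_of_le (⟨⟨n + 1⟩, trivial⟩ : (Set.univ : Set (ULift.{u} ℕ)))
      (by rw [beq_refl]; exact le_top)
  · have h := Su_congr_INF (y := on B (ULift.up.{u} (n + 1))) (x := on B (ULift.up.{u} n)) (x' := x)
    rw [Su_succ_INF, inf_top_eq, beq_comm] at h
    exact h

/-- Infinity. -/
theorem hINF : StINF.{u} := by
  intro B _ W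
  refine ⟨QN.mk W (sn B (Set.univ : Set (ULift.{u} ℕ))), ?_, ?_⟩
  · refine ⟨QN.mk W (on B (ULift.up.{u} (0 : ℕ))), ?_, ?_⟩
    · rw [QN_forall]
      intro z hz
      rw [QE_mk, bmem_zero_INF] at hz
      exact W.bot_notMem hz
    · rw [QE_mk, bmem_sn]
      refine W.up _ _ W.top ?_
      exact le_iSup_of_le (⟨⟨0⟩, trivial⟩ : (Set.univ : Set (ULift.{u} ℕ)))
        (by rw [beq_refl])
  · rw [QN_forall]
    intro x hx
    rw [QE_mk] at hx
    have h1 := W.up _ _ hx (key_INF x)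
    rw [W.iSup_iff _ (ex_Su_INF _ x)] at h1
    obtain ⟨y, hy⟩ := h1
    rw [W.inf_iff] at hy
    refine ⟨QN.mk W y, (QE_mk W _ _).2 hy.1, ?_⟩
    rw [QN_forall]
    intro z
    rw [QE_mk, QE_mk, QN_eq, ← W.sup_iff]
    have h2 := W.up _ _ hy.2 (iInf_le _ z)
    rw [bi, W.inf_iff, W.himp_iff, W.himp_iff] at h2
    exact ⟨h2.1, h2.2⟩

end Pool.Agent.Helper24.FR
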