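import Pool.Agent.Helper24.FR.StII

/-!
# FR, module LEN
-/

set_option autoImplicit false

universe u

namespace Pool.Agent.Helper24.FR

private theorem mem_LEN {B : Type u} [CompleteBooleanAlgebra B] {I : Type u} (a : I → Nm B)
    (i : I) : bmem (a i) (fam a) = ⊤ := by
  rw [bmem_fam, eq_top_iff]
  exact le_iSup_of_le i (beq_refl _).ge

theorem hLEN (hR : StRLN.{u}) : StLEN.{u} := by
  intro B _ I J a c b ha hc
  constructor
  · intro hb
    obtain ⟨f, hf⟩ := full_Le (fam c) (fam a)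
    rw [← hf] at hb
    have hFn : b ≤ Fn bmem beq f := hb.trans inf_le_left
    have hCv : b ≤ ⨅ y, bmem y (fam c) ⇨ ⨆ x, bmem x (fam a) ⊓ Rl bmem beq f x y :=
      hb.trans inf_le_right
    refine ⟨fun i j => b ⊓ Rl bmem beq f (a i) (c j), ?_, ?_⟩
    · intro i j j' hj
      rw [eq_bot_iff, ← hc j j' hj]
      have h1 : Fn bmem beq f ≤ Rl bmem beq f (a i) (c j) ⊓ Rl bmem beq f (a i) (c j') ⇨
          beq (c j) (c j') :=
        (iInf_le _ (a i)).trans ((iInf_le _ (c j)).trans (iInf_le _ (c j')))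
      rw [le_himp_iff] at h1
      refine le_trans ?_ h1
      refine le_inf ?_ (le_inf ?_ ?_)
      · exact (inf_le_left.trans inf_le_left).trans hFn
      · exact inf_le_left.trans inf_le_right
      · exact inf_le_right.trans inf_le_right
    · intro j
      have h1 : b ≤ bmem (c j) (fam c) ⇨ ⨆ x, bmem x (fam a) ⊓ Rl bmem beq f x (c j) :=
        hCv.trans (iInf_le _ (c j))
      rw [le_himp_iff, mem_LEN, inf_top_eq] at h1
      have h2 : (⨆ x, bmem x (fam a) ⊓ Rl bmem beq f x (c j)) ≤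
          ⨆ i, Rl bmem beq f (a i) (c j) := by
        refine iSup_le fun x => ?_
        rw [bmem_fam, iSup_inf_eq]
        refine iSup_le fun i => le_iSup_of_le i ?_
        refine Rl_congr ?_ le_rfl ?_
        · rw [beq_refl]; exact le_top
        · rw [beq_refl]; exact le_top
      show b ≤ ⨆ i, b ⊓ Rl bmem beq f (a i) (c j)
      rw [← inf_iSup_eq]
      exact le_inf le_rfl (h1.trans h2)
  · rintro ⟨G, hG1, hG2⟩
    have hF : Fn bmem beq (rlN a c G) = ⊤ := hR.2.2 B I J a c G ha hG1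
    refine le_iSup_of_le (rlN a c G) ?_
    show b ≤ Fn bmem beq (rlN a c G) ⊓
      ⨅ y, bmem y (fam c) ⇨ ⨆ x, bmem x (fam a) ⊓ Rl bmem beq (rlN a c G) x y
    rw [hF, top_inf_eq]
    refine le_iInf fun y => ?_
    rw [le_himp_iff, bmem_fam, inf_iSup_eq]
    refine iSup_le fun j => ?_
    have h1 : b ⊓ beq y (c j) ≤ (⨆ i, G i j) ⊓ beq y (c j) := inf_le_inf_right _ (hG2 j)
    refine h1.trans ?_
    rw [iSup_inf_eq]
    refine iSup_le fun i => le_iSup_of_le (a i) ?_
    rw [mem_LEN, top_inf_eq, hR.1]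
    refine le_iSup_of_le i (le_iSup_of_le j ?_)
    rw [beq_refl, top_inf_eq]

end Pool.Agent.Helper24.FR
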