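import Pool.Agent.Helper24.FR.StIV

/-!
# FR, part IV, module MAS: the master condition
-/

set_option autoImplicit false

open Cardinal Set

namespace Pool.Agent.Helper24.FR

section

variable {A : Type} [LinearOrder A]

/-- the graph of the names of the master condition -/
def VMAS (κ δ : A) (Y : Set (Ta A)) (Cr : Ta A → Ta A → Prop) (pt : Ra A → Ta A) (v0 : A)
    (z : A × A) (p : Ra A) (v : A) : Prop :=
  isP κ p ∧ ((∃ t ∈ Y, Cp δ pt Cr p t ∧ ∃ n, t z = some n ∧ n p = some v) ∨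
    (v = v0 ∧ ¬ ∃ p', isP κ p' ∧ Xt p' p ∧ ∃ t ∈ Y, Cp δ pt Cr p' t ∧ t z ≠ none))

/-- the names of the master condition -/
noncomputable def nMAS (κ δ : A) (Y : Set (Ta A)) (Cr : Ta A → Ta A → Prop) (pt : Ra A → Ta A)
    (v0 : A) (z : A × A) : Na A := fun p => by
  classical exact if h : ∃ v, VMAS κ δ Y Cr pt v0 z p v then some h.choose else none

/-- the master condition -/
noncomputable def mMAS (κ δ : A) (Y : Set (Ta A)) (Cr : Ta A → Ta A → Prop) (pt : Ra A → Ta A)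
    (v0 : A) : Ta A := fun z => by
  classical exact if ∃ t ∈ Y, t z ≠ none then some (nMAS κ δ Y Cr pt v0 z) else none

end

theorem hMAS (hR : StRES) (hC : StCAP) : StMAS := by
  intro A _ _ κ δ Y Cr pt hκ hF hP
  classical
  obtain ⟨v0, hv0⟩ : ∃ v0 : A, ∀ a, v0 ≤ a := by
    obtain ⟨v0, -, h⟩ := WellFounded.has_min (wellFounded_lt (α := A)) Set.univ ⟨κ, mem_univ κ⟩
    exact ⟨v0, fun a => not_lt.1 (h a (mem_univ a))⟩
  have hinh := hC.1 A κ δ Y Cr pt hF hP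
  have hagr := hC.2 A κ δ Y Cr pt hF hP
  have huniq : ∀ z p v v', VMAS κ δ Y Cr pt v0 z p v → VMAS κ δ Y Cr pt v0 z p v' → v = v' := by
    rintro z p v v' ⟨hp, h⟩ ⟨-, h'⟩
    rcases h with ⟨t, ht, hct, n, hn, hnv⟩ | ⟨hv, hno⟩
    · rcases h' with ⟨t', ht', hct', n', hn', hnv'⟩ | ⟨hv', hno'⟩
      · exact hagr p t t' z n n' v v' hp ht ht' hct hct' hn hn' hnv hnv'
      · exact absurd ⟨p, hp, Xt.refl p, t, ht, hct, by rw [hn]; exact Option.some_ne_none n⟩ hno'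
    · rcases h' with ⟨t', ht', hct', n', hn', hnv'⟩ | ⟨hv', hno'⟩
      · exact absurd ⟨p, hp, Xt.refl p, t', ht', hct', by
          rw [hn']; exact Option.some_ne_none n'⟩ hno
      · rw [hv, hv']
  have hval : ∀ z p v, nMAS κ δ Y Cr pt v0 z p = some v ↔ VMAS κ δ Y Cr pt v0 z p v := by
    intro z p v
    unfold nMAS
    constructor
    · intro h
      split_ifs at h with hex
      have := Option.some.inj h
      rw [← this]
      exact hex.choose_spec
    · intro h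
      have hex : ∃ v, VMAS κ δ Y Cr pt v0 z p v := ⟨v, h⟩
      rw [dif_pos hex]
      exact congrArg some (huniq z p _ _ hex.choose_spec h)
  have hm1 : ∀ z, (∃ t ∈ Y, t z ≠ none) → mMAS κ δ Y Cr pt v0 z = some (nMAS κ δ Y Cr pt v0 z) := by
    intro z h
    unfold mMAS
    rw [if_pos h]
  have hm2 : ∀ z, mMAS κ δ Y Cr pt v0 z ≠ none → ∃ t ∈ Y, t z ≠ none := by
    intro z h
    by_contra hno
    apply h
    unfold mMAS
    rw [if_neg hno]
  have hnam : ∀ α η, (∃ t ∈ Y, t (α, η) ≠ none) → isN κ α (nMAS κ δ Y Cr pt v0 (α, η)) := by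
    rintro α η ⟨t0, ht0, hz0⟩
    obtain ⟨n0, hn0⟩ := Option.ne_none_iff_exists'.1 hz0
    have hN0 := ((hF.yT t0 ht0).dom α η n0 hn0).2.2
    refine ⟨?_, ?_, ?_⟩
    · intro p v hv
      rw [hval] at hv
      obtain ⟨hp, h⟩ := hv
      refine ⟨hp, ?_⟩
      rcases h with ⟨t, ht, hct, n, hn, hnv⟩ | ⟨hv, hno⟩
      · exact (((hF.yT t ht).dom α η n hn).2.2.dom p v hnv).2
      · obtain ⟨p', hp', -, hd⟩ := hN0.den p hp
        obtain ⟨v1, hv1⟩ := Option.ne_none_iff_exists'.1 hd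
        rw [hv]
        exact lt_of_le_of_lt (hv0 v1) (hN0.dom p' v1 hv1).2
    · intro p p' v hv hp' hx
      rw [hval] at hv ⊢
      obtain ⟨hp, h⟩ := hv
      refine ⟨hp', ?_⟩
      rcases h with ⟨t, ht, hct, n, hn, hnv⟩ | ⟨hv, hno⟩
      · exact Or.inl ⟨t, ht, hinh p p' t hp hp' hx hct, n, hn,
          ((hF.yT t ht).dom α η n hn).2.2.mon p p' v hnv hp' hx⟩
      · refine Or.inr ⟨hv, ?_⟩
        rintro ⟨p'', hp'', hx', h⟩
        exact hno ⟨p'', hp'', hx'.trans hx, h⟩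
    · intro p hp
      by_cases hex : ∃ p', isP κ p' ∧ Xt p' p ∧ ∃ t ∈ Y, Cp δ pt Cr p' t ∧ t (α, η) ≠ none
      · obtain ⟨p', hp', hx, t, ht, hct, hz⟩ := hex
        obtain ⟨n, hn⟩ := Option.ne_none_iff_exists'.1 hz
        have hN := ((hF.yT t ht).dom α η n hn).2.2
        obtain ⟨p'', hp'', hx', hd⟩ := hN.den p' hp'
        obtain ⟨v, hv⟩ := Option.ne_none_iff_exists'.1 hd
        refine ⟨p'', hp'', hx'.trans hx, ?_⟩
        have : nMAS κ δ Y Cr pt v0 (α, η) p'' = some v :=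
          (hval _ _ _).2 ⟨hp'', Or.inl ⟨t, ht, hinh p' p'' t hp' hp'' hx' hct, n, hn, hv⟩⟩
        rw [this]
        exact Option.some_ne_none v
      · refine ⟨p, hp, Xt.refl p, ?_⟩
        have : nMAS κ δ Y Cr pt v0 (α, η) p = some v0 :=
          (hval _ _ _).2 ⟨hp, Or.inr ⟨rfl, hex⟩⟩
        rw [this]
        exact Option.some_ne_none v0
  refine ⟨mMAS κ δ Y Cr pt v0, ⟨?_, ?_, ?_⟩, ?_⟩
  · intro α η n hn
    have hne : mMAS κ δ Y Cr pt v0 (α, η) ≠ none := by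
      rw [hn]; exact Option.some_ne_none n
    have hex := hm2 _ hne
    rw [hm1 _ hex] at hn
    obtain ⟨t, ht, hz⟩ := hex
    refine ⟨mem_univ _, (hF.h t ht α η hz).trans hF.lt, ?_⟩
    rw [← Option.some.inj hn]
    exact hnam α η ⟨t, ht, hz⟩
  · have hsub : {z : A × A | mMAS κ δ Y Cr pt v0 z ≠ none} ⊆ ⋃ t ∈ Y, {z : A × A | t z ≠ none} := by
      intro z hz
      obtain ⟨t, ht, h⟩ := hm2 z hz
      exact mem_biUnion ht h
    refine (Cardinal.mk_le_mk_of_subset hsub).trans ((Cardinal.mk_biUnion_le _ _).trans ?_)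
    have hinf : ℵ₀ ≤ #(Iio κ) := hκ.1.le
    calc #Y * ⨆ t : Y, #{z : A × A | t.1 z ≠ none} ≤ #(Iio κ) * #(Iio κ) :=
          mul_le_mul' hF.card (ciSup_le' fun t => (hF.yT t.1 t.2).siz)
      _ = #(Iio κ) := Cardinal.mul_eq_self hinf
  · refine ⟨δ, hF.lt, fun α η hz => ?_⟩
    obtain ⟨t, ht, h⟩ := hm2 _ hz
    exact hF.h t ht α η h
  · intro p t hp ht hct
    refine ⟨Xt.refl _, fun z n hz => ?_⟩
    have hex : ∃ t ∈ Y, t z ≠ none := ⟨t, ht, by
      have : t z = some n := hz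
      rw [this]; exact Option.some_ne_none n⟩
    refine ⟨nMAS κ δ Y Cr pt v0 z, hm1 z hex, ?_⟩
    intro q v v' hq hx hv hv'
    have hcq := hinh p q t hp hq hx hct
    rw [hval] at hv
    rcases hv.2 with ⟨t1, ht1, hct1, n1, hn1, hnv1⟩ | ⟨-, hno⟩
    · exact hagr q t1 t z n1 n v v' hq ht1 ht hct1 hcq hn1 hz hnv1 hv'
    · exact absurd ⟨q, hq, Xt.refl q, t, ht, hcq, by
        have : t z = some n := hz
        rw [this]; exact Option.some_ne_none n⟩ hno

end Pool.Agent.Helper24.FR
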