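import Pool.Agent.Helper24.FR.StIV

/-!
# FR, module MLX: the main lemma for a fixed `x`
-/

set_option autoImplicit false

open Cardinal Set

namespace Pool.Agent.Helper24.FR

theorem hMLX (hR : StRES) (hM : StMAS) : StMLX := by
  intro A _ _ κ δ Y Cr pt hκ F P Z AX D p₀ t₀ hp₀ ht₀ hmono huniq hdense
  obtain ⟨hR1, hR2, hR3, hR4, hR5, -⟩ := hR
  obtain ⟨m, hmT, hm⟩ := hM A κ δ Y Cr pt hκ F P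
  obtain ⟨s₀, hs₀⟩ := F.a t₀ ht₀
  have hs₀T := F.crT _ _ hs₀
  have ht₀T := F.yT t₀ ht₀
  have hp₀κ : isP κ p₀ := hR5 A κ δ p₀ hp₀ F.lt.le
  have hrs₀ : rs δ p₀ = p₀ := hR4 A δ p₀ hp₀
  have hle₀ : Rle δ (p₀, s₀) (rs δ p₀, pt p₀) := by
    refine ⟨?_, fun z n hz => ?_⟩
    · show Xt p₀ (rs δ p₀)
      rw [hrs₀]
      exact Xt.refl _
    · have h1 : pt p₀ z = some n := hz
      rw [P.zero p₀ z hp₀] at h1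
      exact absurd h1 (by simp)
  obtain ⟨ps, hps, hxs, hrs, hle⟩ := P.lift p₀ p₀ s₀ hp₀κ hp₀ hs₀T hle₀
  have hcs : Cp δ pt Cr ps t₀ := ⟨s₀, hs₀, by rw [hrs]; exact hle⟩
  have hm₀ : Rle κ (ps, m) (ps, t₀) := hm ps t₀ hps ht₀ hcs
  refine ⟨ps, m, hps, hmT, Rle.trans hmT ht₀T ht₀T hm₀ (Rle.left' t₀ hxs), ?_⟩
  rintro z hz c hc ⟨p₁, q₁⟩ hp₁ hq₁ hle₁ hD
  have hp₁' : isP κ p₁ := hp₁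
  have hq₁' : isT κ Set.univ q₁ := hq₁
  have hx₁ : Xt p₁ ps := hle₁.1
  have hr₁ : isP δ (rs δ p₁) := hR1 A κ δ p₁ hp₁'
  have hs₁T : isT δ (Iio κ) (pt p₁) := P.pT p₁ hp₁'
  obtain ⟨t₁, ht₁, hc₁⟩ := F.b (pt p₁) hs₁T
  have h1 : Rle δ (rs δ p₁, pt p₁) (p₀, pt ps) := by
    refine ⟨?_, fun w n hw => ⟨n, P.mono ps p₁ hps hp₁' hx₁ w n hw, Feq.refl _ _ _⟩⟩
    show Xt (rs δ p₁) p₀
    rw [← hrs]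
    exact hR3 A δ ps p₁ hx₁
  have h2 : Rle δ (rs δ p₁, pt p₁) (p₀, s₀) := Rle.trans hs₁T (P.pT ps hps) hs₀T h1 hle
  have h3 : Rle κ (rs δ p₁, t₁) (p₀, t₀) :=
    (F.c t₁ ht₁ t₀ ht₀ (pt p₁) s₀ (rs δ p₁) p₀ hc₁ hs₀ hr₁ hp₀).mpr h2
  obtain ⟨r₂, t₂, c', hr₂, ht₂, hc', hle₂, hD₂⟩ := hdense z hz (rs δ p₁) t₁ hr₁ ht₁ h3
  obtain ⟨s₂, hs₂⟩ := F.a t₂ ht₂
  have h4 : Rle δ (r₂, s₂) (rs δ p₁, pt p₁) :=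
    (F.c t₂ ht₂ t₁ ht₁ s₂ (pt p₁) r₂ (rs δ p₁) hs₂ hc₁ hr₂ hr₁).mp hle₂
  obtain ⟨p₂, hp₂, hx₂, hrs₂, hle₃⟩ := P.lift p₁ r₂ s₂ hp₁' hr₂ (F.crT _ _ hs₂) h4
  have hcs₂ : Cp δ pt Cr p₂ t₂ := ⟨s₂, hs₂, by rw [hrs₂]; exact hle₃⟩
  have hm₂ : Rle κ (p₂, m) (p₂, t₂) := hm p₂ t₂ hp₂ ht₂ hcs₂
  have hxr : Xt p₂ r₂ := by
    have := hR2 A δ p₂
    rwa [hrs₂] at this
  have h5 : Rle κ (p₂, t₂) (r₂, t₂) := Rle.left' t₂ hxr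
  have h6 : Rle κ (p₂, q₁) (p₂, m) := by
    refine ⟨Xt.refl _, fun w n hw => ?_⟩
    obtain ⟨n', hn', hf⟩ := hle₁.2 w n hw
    exact ⟨n', hn', hf.mono hx₂⟩
  have ht₂T := F.yT t₂ ht₂
  have h7 : Rle κ (p₂, q₁) (r₂, t₂) :=
    Rle.trans hq₁' hmT ht₂T h6 (Rle.trans hmT ht₂T ht₂T hm₂ h5)
  have h8 : ((p₂, q₁) : Ra A × Ta A) ∈ D z c' := hmono z c' (r₂, t₂) (p₂, q₁) hp₂ hq₁' hD₂ h7
  have h9 : ((p₂, q₁) : Ra A × Ta A) ∈ D z c :=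
    hmono z c (p₁, q₁) (p₂, q₁) hp₂ hq₁' hD (Rle.left' q₁ hx₂)
  have h10 : c = c' := huniq z c c' _ h9 h8
  rw [h10] at hc
  exact absurd hc' (not_lt.mpr hc)

end Pool.Agent.Helper24.FR
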