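import Pool.Agent.Helper24.FR.StII

/-!
# FR, module OMN: the least inductive set
-/

set_option autoImplicit false

universe u

namespace Pool.Agent.Helper24.FR

section

variable {B : Type u} [CompleteBooleanAlgebra B]

private theorem om_sub (z z' : Nm B) : Om bmem beq z ⊓ Om bmem beq z' ≤ Sub bmem z z' := by
  have h1 : Om bmem beq z ≤ Id bmem beq z' ⇨ Sub bmem z z' := inf_le_right.trans (iInf_le _ z')
  have h2 : Om bmem beq z' ≤ Id bmem beq z' := inf_le_left
  exact (inf_le_inf h1 h2).trans himp_inf_le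

private theorem Su_congr {y x y' x' : Nm B} {b : B} (h1 : b ≤ beq y y') (h2 : b ≤ beq x x') :
    b ⊓ Su bmem beq y x ≤ Su bmem beq y' x' := by
  simpa [env] using congr3 (cSu 0 1) h1 h2 h2

variable {A : Type u} [LinearOrder A] [WellFoundedLT A]

private theorem bmem_empty (a : A) (h : ∀ d : A, ¬ d < a) (x : Nm B) :
    bmem x (on B a) = ⊥ := by
  rw [bmem_on]
  have : IsEmpty (Set.Iio a) := ⟨fun d => h d.1 d.2⟩
  exact iSup_of_empty _

private theorem bmem_succ (a c : A) (h : ∀ d : A, d < a ↔ d < c ∨ d = c) (x : Nm B) :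
    bmem x (on B a) = bmem x (on B c) ⊔ beq x (on B c) := by
  rw [bmem_on, bmem_on]
  apply le_antisymm
  · refine iSup_le fun d => ?_
    obtain ⟨d, hd⟩ := d
    rcases (h d).1 hd with h1 | h1
    · exact le_sup_of_le_left (le_iSup (fun b : Set.Iio c => beq x (on B b.1)) ⟨d, h1⟩)
    · subst h1
      exact le_sup_right
  · refine sup_le (iSup_le fun d => ?_) ?_
    · exact le_iSup (fun b : Set.Iio a => beq x (on B b.1)) ⟨d.1, (h d.1).2 (Or.inl d.2)⟩
    · exact le_iSup (fun b : Set.Iio a => beq x (on B b.1)) ⟨c, (h c).2 (Or.inr rfl)⟩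

private theorem Em_empty (a : A) (h : ∀ d : A, ¬ d < a) : Em bmem (on B a) = ⊤ := by
  rw [Em, eq_top_iff]
  refine le_iInf fun z => ?_
  rw [bmem_empty a h, compl_bot]

private theorem Su_succ (a c : A) (h : ∀ d : A, d < a ↔ d < c ∨ d = c) :
    Su bmem beq (on B a) (on B c) = ⊤ := by
  rw [Su, eq_top_iff]
  refine le_iInf fun z => ?_
  rw [bmem_succ a c h, bi, himp_self, inf_idem]

private theorem bmem_on_top (a w : A) (h : a < w) : bmem (on B a) (on B w) = ⊤ := by
  rw [bmem_on, eq_top_iff]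
  refine le_iSup_of_le (⟨a, h⟩ : Set.Iio w) ?_
  rw [beq_refl]

private theorem Em_le (a : A) (h : ∀ d : A, ¬ d < a) (e : Nm B) :
    Em bmem e ≤ beq e (on B a) := by
  refine le_beq_of_mem (fun z => ?_) (fun z => ?_)
  · have h1 : Em bmem e ≤ (bmem z e)ᶜ := iInf_le _ z
    calc Em bmem e ⊓ bmem z e ≤ (bmem z e)ᶜ ⊓ bmem z e := inf_le_inf_right _ h1
      _ = ⊥ := compl_inf_self _
      _ ≤ _ := bot_le
  · rw [bmem_empty a h, inf_bot_eq]
    exact bot_le

private theorem Su_le (a c : A) (h : ∀ d : A, d < a ↔ d < c ∨ d = c) (y : Nm B) :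
    Su bmem beq y (on B c) ≤ beq y (on B a) := by
  refine le_beq_of_mem (fun z => ?_) (fun z => ?_)
  · have h1 : Su bmem beq y (on B c) ≤ bmem z y ⇨ (bmem z (on B c) ⊔ beq z (on B c)) :=
      (iInf_le _ z).trans inf_le_left
    rw [bmem_succ a c h]
    exact (inf_le_inf_right _ h1).trans himp_inf_le
  · have h1 : Su bmem beq y (on B c) ≤ (bmem z (on B c) ⊔ beq z (on B c)) ⇨ bmem z y :=
      (iInf_le _ z).trans inf_le_right
    rw [bmem_succ a c h]
    exact (inf_le_inf_right _ h1).trans himp_inf_le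

private theorem exists_succ (w : A) (hw : I0 w) (a : A) (ha : a < w) :
    ∃ a' < w, ∀ d : A, d < a' ↔ d < a ∨ d = a := by
  obtain ⟨b, hbw, hba⟩ : ∃ b, b < w ∧ a < b := by
    by_contra hcon
    apply hw.1
    refine ((hw.2 a ha).insert a).subset fun d hd => ?_
    by_contra h1
    apply hcon
    refine ⟨d, hd, ?_⟩
    simp only [Set.mem_insert_iff, Set.mem_Iio, not_or, not_lt] at h1
    exact lt_of_le_of_ne h1.2 (Ne.symm h1.1)
  have hne : (Set.Ioi a).Nonempty := ⟨b, hba⟩
  have wf := (wellFounded_lt (α := A))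
  refine ⟨wf.min _ hne, lt_of_le_of_lt ?_ hbw, fun d => ?_⟩
  · exact not_lt.1 (wf.not_lt_min _ hba)
  · have hmin : a < wf.min _ hne := wf.min_mem _ hne
    constructor
    · intro hd
      have h2 : ¬ a < d := fun h3 => wf.not_lt_min (Set.Ioi a) h3 hd
      exact lt_or_eq_of_le (not_lt.1 h2)
    · rintro (hd | rfl)
      · exact hd.trans hmin
      · exact hmin

private theorem exists_least (w : A) (hw : I0 w) : ∃ a < w, ∀ d : A, ¬ d < a := by
  have wf := (wellFounded_lt (α := A))
  obtain ⟨b, hb⟩ := hw.1.nonempty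
  have hne : (Set.Iio w).Nonempty := ⟨b, hb⟩
  have hmin : wf.min _ hne < w := wf.min_mem _ hne
  refine ⟨wf.min _ hne, hmin, fun d hd => ?_⟩
  exact wf.not_lt_min (Set.Iio w) (show d ∈ Set.Iio w from hd.trans hmin) hd

private theorem Id_on (w : A) (hw : I0 w) : Id bmem beq (on B w) = ⊤ := by
  rw [Id, eq_top_iff]
  refine le_inf ?_ (le_iInf fun x => ?_)
  · obtain ⟨a, haw, ha⟩ := exists_least w hw
    refine le_iSup_of_le (on B a) ?_
    rw [Em_empty a ha, bmem_on_top a w haw, inf_idem]
  · rw [le_himp_iff, top_inf_eq, bmem_on]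
    refine iSup_le fun b => ?_
    obtain ⟨a', ha'w, ha'⟩ := exists_succ w hw b.1 b.2
    refine le_iSup_of_le (on B a') ?_
    rw [bmem_on_top a' w ha'w, top_inf_eq]
    have h1 := Su_congr (y := on B a') (y' := on B a') (x := on B b.1) (x' := x)
      (b := beq x (on B b.1)) (by rw [beq_refl]; exact le_top) (by rw [beq_comm])
    rw [Su_succ a' b.1 ha', inf_top_eq] at h1
    exact h1

private theorem Id_le (w : A) (hw : I0 w) (z : Nm B) (a : A) (ha : a < w) :
    Id bmem beq z ≤ bmem (on B a) z := by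
  induction a using WellFoundedLT.induction with
  | ind a ih =>
    by_cases hne : (Set.Iio a).Nonempty
    · obtain ⟨c, hc, hmax⟩ := Set.exists_max_image (Set.Iio a) id (hw.2 a ha) hne
      have hca : c < a := hc
      have hs : ∀ d : A, d < a ↔ d < c ∨ d = c := by
        intro d
        constructor
        · intro hd
          exact lt_or_eq_of_le (hmax d hd)
        · rintro (hd | rfl)
          · exact hd.trans hca
          · exact hca
      have h1 : Id bmem beq z ≤ bmem (on B c) z := ih c hca (hca.trans ha)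
      have h2 : Id bmem beq z ≤ bmem (on B c) z ⇨
          ⨆ y, bmem y z ⊓ Su bmem beq y (on B c) := inf_le_right.trans (iInf_le _ (on B c))
      have h3 : Id bmem beq z ≤ ⨆ y, bmem y z ⊓ Su bmem beq y (on B c) :=
        (le_inf h2 h1).trans himp_inf_le
      refine h3.trans (iSup_le fun y => ?_)
      rw [inf_comm]
      exact bmem_congr (Su_le a c hs y) (by rw [beq_refl]; exact le_top)
    · have he : ∀ d : A, ¬ d < a := fun d hd => hne ⟨d, hd⟩
      have h1 : Id bmem beq z ≤ ⨆ e, Em bmem e ⊓ bmem e z := inf_le_left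
      refine h1.trans (iSup_le fun e => ?_)
      exact bmem_congr (Em_le a he e) (by rw [beq_refl]; exact le_top)

private theorem Id_le_Sub (w : A) (hw : I0 w) (z : Nm B) :
    Id bmem beq z ≤ Sub bmem (on B w) z := by
  rw [Sub]
  refine le_iInf fun x => ?_
  rw [le_himp_iff, bmem_on, inf_iSup_eq]
  refine iSup_le fun a => ?_
  have h1 := bmem_congr (x := on B a.1) (x' := x) (y := z) (y' := z) (b := beq x (on B a.1))
    (by rw [beq_comm]) (by rw [beq_refl]; exact le_top)
  rw [inf_comm]
  exact (inf_le_inf_left _ (Id_le w hw z a.1 a.2)).trans h1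

end

theorem hOMN (_hO : StONN.{u}) : StOMN.{u} := by
  refine ⟨?_, ?_⟩
  · intro B A _ _ _ w hw
    rw [Om, Id_on w hw, top_inf_eq, eq_top_iff]
    refine le_iInf fun z => ?_
    rw [le_himp_iff, top_inf_eq]
    exact Id_le_Sub w hw z
  · intro B _ z z'
    refine le_beq_of_mem (fun x => ?_) (fun x => ?_)
    · rw [← le_himp_iff]
      exact (om_sub z z').trans (iInf_le _ x)
    · rw [← le_himp_iff, inf_comm]
      exact (om_sub z' z).trans (iInf_le _ x)

end Pool.Agent.Helper24.FR
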