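import Pool.Agent.Helper24.FR.StII

/-!
# FR, module ONN (helper4): names of ordinals and of sets of ordinals
-/

set_option autoImplicit false

universe u

namespace Pool.Agent.Helper24.FR

private theorem mem_ONN (B A : Type u) [CompleteBooleanAlgebra B] [LinearOrder A] [WellFoundedLT A]
    {a : A} {S : Set A} (h : a ∈ S) : bmem (on B a) (sn B S) = ⊤ := by
  rw [bmem_sn, eq_top_iff]
  exact le_iSup_of_le (⟨a, h⟩ : S) (by rw [beq_refl])

private theorem disc_ONN (hF : StFND.{u}) (B A : Type u) [CompleteBooleanAlgebra B] [LinearOrder A]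
    [WellFoundedLT A] : Disc (on B : A → Nm B) := by
  have key : ∀ i j : A, j < i → beq (on B i) (on B j) = ⊥ := by
    intro i j hji
    have h1 : bmem (on B j) (on B i) = ⊤ := by
      rw [on_eq (B := B) i]
      exact mem_ONN B A hji
    have h2 := bmem_congr_right (on B j) (on B i) (on B j)
    rw [h1, inf_top_eq, hF.2.2 B (on B j)] at h2
    exact le_bot_iff.mp h2
  intro i j hij
  rcases lt_or_gt_of_ne hij with h | h
  · rw [beq_comm]; exact key j i h
  · exact key i j h

private theorem notMem_ONN (hF : StFND.{u}) (B A : Type u) [CompleteBooleanAlgebra B]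
    [LinearOrder A] [WellFoundedLT A] {a : A} {S : Set A} (h : a ∉ S) :
    bmem (on B a) (sn B S) = ⊥ := by
  rw [bmem_sn, eq_bot_iff]
  refine iSup_le fun b => ?_
  rw [disc_ONN hF B A a b.1 (fun hab => h (hab ▸ b.2))]

private theorem sub_ONN (B A : Type u) [CompleteBooleanAlgebra B] [LinearOrder A] [WellFoundedLT A]
    {S T : Set A} (h : S ⊆ T) : Sub bmem (sn B S) (sn B T) = ⊤ := by
  rw [eq_top_iff, Sub]
  refine le_iInf fun z => ?_
  rw [le_himp_iff, top_inf_eq, bmem_sn, bmem_sn]
  exact iSup_le fun a => le_iSup_of_le (⟨a.1, h a.2⟩ : T) le_rfl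

private theorem ne_ONN (hF : StFND.{u}) (B A : Type u) [CompleteBooleanAlgebra B] [LinearOrder A]
    [WellFoundedLT A] {S T : Set A} (h : S ≠ T) : beq (sn B S) (sn B T) = ⊥ := by
  have key : ∀ (S T : Set A) (a : A), a ∈ S → a ∉ T → beq (sn B S) (sn B T) = ⊥ := by
    intro S T a h1 h2
    have h3 := bmem_congr_right (on B a) (sn B S) (sn B T)
    rw [mem_ONN B A h1, inf_top_eq, notMem_ONN hF B A h2] at h3
    exact le_bot_iff.mp h3
  by_contra hc
  apply h
  ext a
  constructor
  · intro h1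
    by_contra h2
    exact hc (key S T a h1 h2)
  · intro h1
    by_contra h2
    exact hc (by rw [beq_comm]; exact key T S a h1 h2)

private theorem tr_ONN (B A : Type u) [CompleteBooleanAlgebra B] [LinearOrder A] [WellFoundedLT A]
    {S : Set A} (h : ∀ a ∈ S, ∀ b < a, b ∈ S) : Tr bmem (sn B S) = ⊤ := by
  rw [eq_top_iff, Tr]
  refine le_iInf fun y => ?_
  rw [le_himp_iff, top_inf_eq, bmem_sn]
  refine iSup_le fun a => ?_
  have h1 : Sub bmem (on B a.1) (sn B S) = ⊤ := by
    rw [on_eq]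
    exact sub_ONN B A (fun b hb => h a.1 a.2 b hb)
  have h2 := Sub_congr (x := on B a.1) (y := sn B S) (x' := y) (y' := sn B S)
    (b := beq y (on B a.1)) (by rw [beq_comm]) (by rw [beq_refl]; exact le_top)
  rw [h1, inf_top_eq] at h2
  exact h2

theorem hONN (hF : StFND.{u}) : StONN.{u} := by
  refine ⟨fun B A _ _ _ => disc_ONN hF B A, fun B A _ _ _ a S => ⟨mem_ONN B A, notMem_ONN hF B A⟩,
    fun B A _ _ _ S T => ⟨sub_ONN B A, ne_ONN hF B A⟩, ?_⟩
  intro B A _ _ _ S h
  rw [eq_top_iff, Od]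
  refine le_inf (le_of_eq (tr_ONN B A h).symm) (le_iInf fun y => ?_)
  rw [le_himp_iff, top_inf_eq, bmem_sn]
  refine iSup_le fun a => ?_
  have h1 : Tr bmem (on B a.1) = ⊤ := by
    rw [on_eq]
    exact tr_ONN B A (fun b hb c hc => lt_trans hc hb)
  have h2 := Tr_congr (x := on B a.1) (x' := y) (b := beq y (on B a.1)) (by rw [beq_comm])
  rw [h1, inf_top_eq] at h2
  exact h2

end Pool.Agent.Helper24.FR
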