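import Pool.Agent.Helper24.FR.StVI

/-!
# FR, module PCB: Cantor-Bernstein in the model
-/

set_option autoImplicit false

universe u

namespace Pool.Agent.Helper24.FR

/-- The parameters. -/
private def par_PCB {N : Type u} (p q r s : N) : ℕ → N
  | 0 => p
  | 1 => p
  | 2 => q
  | 3 => r
  | 4 => s
  | _ => p

/-- The formula defining `C`. -/
private def fC_PCB : Fml :=
  fEx 5 (fAnd (cSub 5 1) (fAnd (.mem 0 5) (.all 6 (.imp (.mem 6 5) (fNot (fEx 7 (fAnd (.mem 7 2)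
    (fAnd (cRl 4 7 6) (fNot (fEx 8 (fAnd (.mem 8 5) (cRl 3 8 7))))))))))))

/-- The formula defining the bijection. -/
private def fH_PCB : Fml :=
  fOr (fAnd (.mem 0 2) (cRl 3 0 1)) (fAnd (fNot (.mem 0 2)) (cRl 4 1 0))

private def cls_PCB {N : Type u} (E : N → N → Prop) (b f g D : N) : Prop :=
  ∀ z, E z D → ¬ ∃ y, E y b ∧ PVal E g y z ∧ ¬ ∃ x', E x' D ∧ PVal E f x' y

private theorem satC_PCB (hV : StPCV.{u}) {N : Type u} (E : N → N → Prop) (a b f g x : N) :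
    Sat E fC_PCB (Function.update (par_PCB a b f g) 0 x) ↔
      ∃ D, PSub E D a ∧ E x D ∧ cls_PCB E b f g D := by
  obtain ⟨hSub, -, hRl, -⟩ := hV N E
  rw [← ev_prop]
  have e1 : par_PCB a b f g 1 = a := rfl
  have e2 : par_PCB a b f g 2 = b := rfl
  have e3 : par_PCB a b f g 3 = f := rfl
  have e4 : par_PCB a b f g 4 = g := rfl
  simp (disch := omega) only [fC_PCB, ev_ex, ev_and, ev_not, ev_imp, ev_all, ev_mem, ev_cSub,
    ev_cRl, Function.update_self, Function.update_of_ne, e1, e2, e3, e4]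
  simp only [iSup_Prop_eq, iInf_Prop_eq, inf_Prop_eq, compl_iff_not, himp_iff_imp, hSub, hRl,
    cls_PCB]

private theorem satH_PCB (hV : StPCV.{u}) {N : Type u} (E : N → N → Prop) (C f g x y w : N) :
    Sat E fH_PCB (Function.update (Function.update (par_PCB w C f g) 0 x) 1 y) ↔
      (E x C ∧ PVal E f x y) ∨ (¬ E x C ∧ PVal E g y x) := by
  obtain ⟨hSub, -, hRl, -⟩ := hV N E
  rw [← ev_prop]
  have e2 : par_PCB w C f g 2 = C := rfl
  have e3 : par_PCB w C f g 3 = f := rfl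
  have e4 : par_PCB w C f g 4 = g := rfl
  simp (disch := omega) only [fH_PCB, ev_or, ev_and, ev_not, ev_mem,
    ev_cRl, Function.update_self, Function.update_of_ne, e2, e3, e4]
  simp only [inf_Prop_eq, sup_Prop_eq, compl_iff_not, hRl]

theorem hPCB (hV : StPCV.{u}) (hB : StPSB.{u}) : StPCB.{u} := by
  intro N E hZ a b f g hf hfi hg hgi
  obtain ⟨-, hpi, hrel⟩ := hB N E hZ
  -- domains
  have hfd : ∀ x y, PVal E f x y → E x a ∧ E y b := by
    rintro x y ⟨p, hp, hxy⟩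
    obtain ⟨x', y', h1, h2, h3⟩ := hf.1 p hp
    obtain ⟨rfl, rfl⟩ := hpi p x y x' y' hxy h3
    exact ⟨h1, h2⟩
  have hgd : ∀ x y, PVal E g x y → E x b ∧ E y a := by
    rintro x y ⟨p, hp, hxy⟩
    obtain ⟨x', y', h1, h2, h3⟩ := hg.1 p hp
    obtain ⟨rfl, rfl⟩ := hpi p x y x' y' hxy h3
    exact ⟨h1, h2⟩
  -- the set `C`
  obtain ⟨C, hC⟩ := hZ.sep fC_PCB (par_PCB a b f g) a
  have hC' : ∀ x, E x C ↔ E x a ∧ ∃ D, PSub E D a ∧ E x D ∧ cls_PCB E b f g D := by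
    intro x
    rw [hC x, satC_PCB hV]
  have hCa : PSub E C a := fun x hx => ((hC' x).1 hx).1
  have hDC : ∀ D, PSub E D a → cls_PCB E b f g D → PSub E D C := by
    intro D h1 h2 x hx
    exact (hC' x).2 ⟨h1 x hx, D, h1, hx, h2⟩
  have hCc : ∀ z, E z C → ∀ y, PVal E g y z → ∃ x', E x' C ∧ PVal E f x' y := by
    intro z hz y hy
    obtain ⟨_, D, h1, h2, h3⟩ := (hC' z).1 hz
    by_contra hcon
    refine h3 z h2 ⟨y, (hgd _ _ hy).1, hy, ?_⟩
    rintro ⟨x', h4, h5⟩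
    exact hcon ⟨x', hDC D h1 h3 x' h4, h5⟩
  have hCn : ∀ x, E x a → ¬ E x C → ∃ y, E y b ∧ PVal E g y x ∧
      ¬ ∃ x', E x' C ∧ PVal E f x' y := by
    intro x hx hxC
    by_contra hcon
    obtain ⟨s, hs⟩ := hZ.pair x x
    obtain ⟨t, ht⟩ := hZ.pair C s
    obtain ⟨D, hD⟩ := hZ.union t
    have hD' : ∀ z, E z D ↔ E z C ∨ z = x := by
      intro z
      rw [hD z]
      constructor
      · rintro ⟨y, h1, h2⟩
        rcases (ht y).1 h2 with rfl | rfl
        · exact Or.inl h1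
        · rcases (hs z).1 h1 with h3 | h3
          · exact Or.inr h3
          · exact Or.inr h3
      · rintro (h | h)
        · exact ⟨C, h, (ht C).2 (Or.inl rfl)⟩
        · exact ⟨s, (hs z).2 (Or.inl h), (ht s).2 (Or.inr rfl)⟩
    refine hxC ((hC' x).2 ⟨hx, D, ?_, (hD' x).2 (Or.inr rfl), ?_⟩)
    · intro z hz
      rcases (hD' z).1 hz with h | h
      · exact hCa z h
      · rw [h]; exact hx
    · rintro z hz ⟨y, h1, h2, h3⟩
      rcases (hD' z).1 hz with h | h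
      · obtain ⟨x', h4, h5⟩ := hCc z h y h2
        exact h3 ⟨x', (hD' x').2 (Or.inl h4), h5⟩
      · subst h
        refine hcon ⟨y, h1, h2, ?_⟩
        rintro ⟨x', h4, h5⟩
        exact h3 ⟨x', (hD' x').2 (Or.inl h4), h5⟩
  -- the bijection
  obtain ⟨h, hh1, hh2⟩ := hrel fH_PCB (par_PCB a C f g) a b
  have hh : ∀ x y, PVal E h x y ↔
      E x a ∧ E y b ∧ ((E x C ∧ PVal E f x y) ∨ (¬ E x C ∧ PVal E g y x)) := by
    intro x y
    rw [hh2 x y, satH_PCB hV]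
  refine ⟨h, ⟨hh1, ?_⟩, ?_⟩
  · intro x hx
    by_cases hxC : E x C
    · obtain ⟨y, hy, hu⟩ := hf.2 x hx
      refine ⟨y, (hh x y).2 ⟨hx, (hfd _ _ hy).2, Or.inl ⟨hxC, hy⟩⟩, ?_⟩
      intro y' hy'
      rcases ((hh x y').1 hy').2.2 with h1 | h1
      · exact hu y' h1.2
      · exact absurd hxC h1.1
    · obtain ⟨y, hyb, hy, _⟩ := hCn x hx hxC
      refine ⟨y, (hh x y).2 ⟨hx, hyb, Or.inr ⟨hxC, hy⟩⟩, ?_⟩
      intro y' hy'
      rcases ((hh x y').1 hy').2.2 with h1 | h1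
      · exact absurd h1.1 hxC
      · exact hgi y' y x h1.2 hy
  · intro y hy
    by_cases hex : ∃ x, E x C ∧ PVal E f x y
    · obtain ⟨x, hxC, hx⟩ := hex
      refine ⟨x, (hh x y).2 ⟨(hfd _ _ hx).1, hy, Or.inl ⟨hxC, hx⟩⟩, ?_⟩
      intro x' hx'
      obtain ⟨h1, _, h2 | h2⟩ := (hh x' y).1 hx'
      · exact hfi x' x y h2.2 hx
      · exfalso
        obtain ⟨y', _, h3, h4⟩ := hCn x' h1 h2.1
        have h5 : y' = y := hgi y' y x' h3 h2.2
        subst h5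
        exact h4 ⟨x, hxC, hx⟩
    · obtain ⟨z, hz, hu⟩ := hg.2 y hy
      have hzC : ¬ E z C := fun hzC => hex (hCc z hzC y hz)
      refine ⟨z, (hh z y).2 ⟨(hgd _ _ hz).2, hy, Or.inr ⟨hzC, hz⟩⟩, ?_⟩
      intro x' hx'
      obtain ⟨h1, _, h2 | h2⟩ := (hh x' y).1 hx'
      · exact absurd ⟨x', h2⟩ hex
      · exact hu x' h2.2

end Pool.Agent.Helper24.FR
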