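import Pool.Agent.Helper24.FR.StVI

/-!
# FR: module PCV (conversions)
-/

set_option autoImplicit false

universe u

namespace Pool.Agent.Helper24.FR

private theorem inf_PCV (a b : Prop) : (a ⊓ b) = (a ∧ b) := rfl

private theorem sup_PCV (a b : Prop) : (a ⊔ b) = (a ∨ b) := rfl

private theorem bi_PCV (a b : Prop) : bi a b ↔ (a ↔ b) := by
  unfold bi
  rw [inf_PCV, himp_iff_imp, himp_iff_imp]
  exact ⟨fun h => ⟨h.1, h.2⟩, fun h => ⟨h.1, h.2⟩⟩

private theorem sub_PCV {N : Type u} (E : N → N → Prop) (x y : N) : Sub E x y ↔ PSub E x y := by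
  unfold Sub PSub
  rw [iInf_Prop_eq]
  exact Iff.rfl

private theorem pr_PCV {N : Type u} (E : N → N → Prop) (z x y : N) :
    Pr E (fun x y : N => x = y) z x y ↔ PPair E z x y := by
  unfold Pr PPair Sg Db
  rw [iInf_Prop_eq]
  refine forall_congr' fun w => ?_
  rw [bi_PCV, sup_PCV, iInf_Prop_eq, iInf_Prop_eq]
  refine iff_congr Iff.rfl (or_congr (forall_congr' fun z => ?_) (forall_congr' fun z => ?_))
  · exact bi_PCV _ _
  · rw [bi_PCV, sup_PCV]

private theorem rl_PCV {N : Type u} (E : N → N → Prop) (f x y : N) :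
    Rl E (fun x y : N => x = y) f x y ↔ PVal E f x y := by
  unfold Rl PVal
  rw [iSup_Prop_eq]
  refine exists_congr fun z => ?_
  rw [inf_PCV, pr_PCV]

private theorem fn_PCV {N : Type u} (E : N → N → Prop) (f : N) :
    Fn E (fun x y : N => x = y) f ↔ ∀ x y y', PVal E f x y → PVal E f x y' → y = y' := by
  unfold Fn
  simp only [iInf_Prop_eq, himp_iff_imp, inf_PCV, rl_PCV, and_imp]

private theorem le_PCV {N : Type u} (E : N → N → Prop) (b m : N) :
    Le E (fun x y : N => x = y) b m ↔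
    ∃ f, (∀ x y y', PVal E f x y → PVal E f x y' → y = y') ∧
      ∀ y, E y b → ∃ x, E x m ∧ PVal E f x y := by
  unfold Le Cov
  simp only [iInf_Prop_eq, iSup_Prop_eq, himp_iff_imp, inf_PCV, rl_PCV, fn_PCV]

private theorem tr_PCV {N : Type u} (E : N → N → Prop) (x : N) : Tr E x ↔ PTrans E x := by
  unfold Tr PTrans
  simp only [iInf_Prop_eq, himp_iff_imp, sub_PCV]

private theorem od_PCV {N : Type u} (E : N → N → Prop) (x : N) : Od E x ↔ POrd E x := by
  unfold Od POrd
  simp only [iInf_Prop_eq, himp_iff_imp, inf_PCV, tr_PCV]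

private theorem id_PCV {N : Type u} (E : N → N → Prop) (w : N) :
    Id E (fun x y : N => x = y) w ↔ PInd E w := by
  unfold Id PInd Em Su
  simp only [iInf_Prop_eq, iSup_Prop_eq, himp_iff_imp, inf_PCV, sup_PCV, compl_iff_not,
    bi_PCV]

private theorem om_PCV {N : Type u} (E : N → N → Prop) (w : N) :
    Om E (fun x y : N => x = y) w ↔ POmega E w := by
  unfold Om POmega
  simp only [iInf_Prop_eq, himp_iff_imp, inf_PCV, id_PCV, sub_PCV]

theorem hPCV : StPCV.{u} := by
  intro N E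
  refine ⟨sub_PCV E, pr_PCV E, rl_PCV E, fn_PCV E, le_PCV E, od_PCV E, om_PCV E, ?_, ?_, ?_⟩
  · intro p x
    unfold Pw
    simp only [iInf_Prop_eq, bi_PCV, sub_PCV]
  · intro f l k
    unfold Tot
    simp only [iInf_Prop_eq, iSup_Prop_eq, himp_iff_imp, inf_PCV, rl_PCV, sub_PCV, and_imp]
  · intro f X k
    unfold Omi
    simp only [iInf_Prop_eq, iSup_Prop_eq, himp_iff_imp, inf_PCV, rl_PCV, sub_PCV, and_imp,
      compl_iff_not]

end Pool.Agent.Helper24.FR
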