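import Pool.Agent.Helper24.FR.StII

/-!
# FR: module PDB (σ-closed posets are distributive)
-/

set_option autoImplicit false

universe u

namespace Pool.Agent.Helper24.FR

private theorem first_PDB {R B : Type u} [Preorder R] [CompleteBooleanAlgebra B] {e : R → B}
    (he : DE e) (p : R) (c : B) (h : e p ⊓ c ≠ ⊥) : ∃ r ≤ p, e r ≤ c := by
  obtain ⟨q, hq⟩ := he.dense _ h
  by_contra hc
  push Not at hc
  have h1 : e q ⊓ e p = ⊥ := he.inc q p fun r hr hp =>
    hc r hp ((he.mono _ _ hr).trans (hq.trans inf_le_right))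
  rw [inf_eq_left.2 (hq.trans inf_le_left)] at h1
  exact he.ne q h1

theorem hPDB : StPDB.{u} := by
  refine ⟨fun R B _ _ e he p c h => first_PDB he p c h, ?_⟩
  intro R B _ _ e he hσ I G b hb hG
  have step : ∀ (n : ℕ) (p : {p : R // e p ≤ b}), ∃ q : {p : R // e p ≤ b}, q.1 ≤ p.1 ∧
      ∃ i, e q.1 ≤ G n i := by
    intro n p
    have h1 : ∃ i, e p.1 ⊓ G n i ≠ ⊥ := by
      by_contra hc
      push Not at hc
      apply he.ne p.1
      have h2 : e p.1 ⊓ ⨆ i, G n i = ⊥ := by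
        rw [inf_iSup_eq, iSup_eq_bot]
        exact hc
      rwa [inf_eq_left.2 (p.2.trans (hG n))] at h2
    obtain ⟨i, hi⟩ := h1
    obtain ⟨r, hr, hrG⟩ := first_PDB he p.1 _ hi
    exact ⟨⟨r, (he.mono _ _ hr).trans p.2⟩, hr, i, hrG⟩
  choose g hg hg' using step
  choose i hi using hg'
  obtain ⟨p₀, hp₀⟩ := he.dense b hb
  let f : ℕ → {p : R // e p ≤ b} := fun n => Nat.rec ⟨p₀, hp₀⟩ (fun n p => g n p) n
  have hf : ∀ n, f (n + 1) = g n (f n) := fun n => rfl
  obtain ⟨r, hr⟩ := hσ (fun n => (f n).1) fun n => by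
    rw [hf]; exact hg n (f n)
  refine ⟨e r, (he.mono _ _ (hr 0)).trans hp₀, he.ne r, fun n => i n (f n), fun n => ?_⟩
  refine (he.mono _ _ (hr (n + 1))).trans ?_
  rw [hf]
  exact hi n (f n)

end Pool.Agent.Helper24.FR
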