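import Pool.Agent.Helper24.FR.StVI

/-!
# FR, module PFN: the final translation
-/

set_option autoImplicit false

universe u

namespace Pool.Agent.Helper24.FR

section

variable {N : Type u} (E : N → N → Prop)

private theorem ci_PFN (y : N) : Ci E (fun x y : N => x = y) y ↔ ∃ w,
    Om E (fun x y : N => x = y) w ∧ Le E (fun x y : N => x = y) y w ∧
      Le E (fun x y : N => x = y) w y := by
  unfold Ci
  rw [iSup_Prop_eq]
  exact Iff.rfl

private theorem cd_PFN (x : N) : Cd E (fun x y : N => x = y) x ↔ Od E x ∧ ∀ b, E b x →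
    ¬ Le E (fun x y : N => x = y) x b := by
  unfold Cd
  rw [iInf_Prop_eq]
  exact Iff.rfl

private theorem sc_PFN (m k : N) : Sc E (fun x y : N => x = y) m k ↔
    (Cd E (fun x y : N => x = y) k ∧ E m k) ∧ ∀ b, E b k → Le E (fun x y : N => x = y) b m := by
  unfold Sc
  rw [iInf_Prop_eq]
  exact Iff.rfl

private theorem ct_PFN (m : N) : Ct E (fun x y : N => x = y) m ↔
    Cd E (fun x y : N => x = y) m ∧ ∃ w, Om E (fun x y : N => x = y) w ∧ ∃ p, Pw E p w ∧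
      Le E (fun x y : N => x = y) p m ∧ Le E (fun x y : N => x = y) m p := by
  unfold Ct
  simp only [iSup_Prop_eq]
  exact Iff.rfl

private theorem posP_PFN (m k l : N) : PosP E (fun x y : N => x = y) m k l ↔
    Ct E (fun x y : N => x = y) m ∧ Sc E (fun x y : N => x = y) m k ∧
      Sc E (fun x y : N => x = y) k l ∧ ∀ f, (Fn E (fun x y : N => x = y) f ∧
        Tot E (fun x y : N => x = y) f l k) → ∃ X, Sub E X l ∧ Le E (fun x y : N => x = y) X k ∧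
          Le E (fun x y : N => x = y) k X ∧ Omi E (fun x y : N => x = y) f X k := by
  unfold PosP
  simp only [iSup_Prop_eq, iInf_Prop_eq]
  exact Iff.rfl

end

theorem hPFN (hV : StPCV.{u}) (hB : StPSB.{u}) (hI : StPIJ.{u}) (hC : StPCB.{u}) : StPFN.{u} := by
  intro N E hZ m k l hP
  obtain ⟨v1, -, -, v4, -, v6, v7, v8, v9, v10⟩ := hV N E
  obtain ⟨-, b2, -⟩ := hB N E hZ
  obtain ⟨i1, i2, i3⟩ := hI N E hZ
  have hpeq : ∀ a b, Le E (fun x y : N => x = y) a b → Le E (fun x y : N => x = y) b a →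
      PEq E a b := by
    intro a b h1 h2
    obtain ⟨f, hf, hf'⟩ := i1 a b h1
    obtain ⟨g, hg, hg'⟩ := i1 b a h2
    exact hC N E hZ a b f g hf hf' hg hg'
  have hle : ∀ a b, PEq E a b → Le E (fun x y : N => x = y) a b ∧
      Le E (fun x y : N => x = y) b a :=
    fun a b h => ⟨(i2 b a (i2 a b h).1).2, (i2 a b h).2⟩
  have hcd : ∀ x, Cd E (fun x y : N => x = y) x → PCard E x := by
    intro x hx
    rw [cd_PFN] at hx
    exact ⟨(v6 x).1 hx.1, fun y hy he => hx.2 y hy (hle x y he).1⟩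
  have hsc : ∀ m k, Sc E (fun x y : N => x = y) m k → PSucc E m k := by
    intro m k h
    rw [sc_PFN] at h
    obtain ⟨⟨h1, h2⟩, h3⟩ := h
    refine ⟨hcd k h1, h2, fun j hj hmj hc => hc.2 m hmj ?_⟩
    exact hpeq j m (h3 j hj) (i3 m j ((hcd k h1).1.2 j hj m hmj))
  have hci : ∀ y, Ci E (fun x y : N => x = y) y ↔ ∃ w, POmega E w ∧ PEq E y w := by
    intro y
    rw [ci_PFN]
    constructor
    · rintro ⟨w, h1, h2, h3⟩
      exact ⟨w, (v7 w).1 h1, hpeq y w h2 h3⟩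
    · rintro ⟨w, h1, h2⟩
      exact ⟨w, (v7 w).2 h1, hle y w h2⟩
  rw [posP_PFN] at hP
  obtain ⟨h1, h2, h3, h4⟩ := hP
  refine ⟨?_, hsc m k h2, hsc k l h3, ?_⟩
  · rw [ct_PFN] at h1
    obtain ⟨h5, w, h6, p, h7, h8, h9⟩ := h1
    exact ⟨hcd m h5, w, p, (v7 w).1 h6, (v8 p w).1 h7, hpeq m p h9 h8⟩
  · rintro ⟨L, f, hL, hf, hX⟩
    obtain ⟨X, h5, h6, h7, h8⟩ := h4 f ⟨(v4 f).2 fun x y y' hy hy' => by
        obtain ⟨p, hp, hpx⟩ := id hy
        obtain ⟨x₀, y₀, hx₀, -, hp₀⟩ := hf.1 p hp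
        obtain ⟨rfl, -⟩ := b2 p x y x₀ y₀ hpx hp₀
        exact (hf.2 x hx₀).unique hy hy', (v9 f l k).2 fun y hy hc => by
        obtain ⟨c, hc', -⟩ := hf.2 y ((hL y).2 ⟨hy, (hci y).1 hc⟩)
        obtain ⟨p, hp, hpx⟩ := id hc'
        obtain ⟨x₀, y₀, -, hy₀, hp₀⟩ := hf.1 p hp
        obtain ⟨-, rfl⟩ := b2 p y c x₀ y₀ hpx hp₀
        exact ⟨c, hy₀, hc'⟩⟩
    obtain ⟨c, hc, h9⟩ := (v10 f X k).1 h8
    obtain ⟨y, hy, hyc⟩ := hX X ((v1 X l).1 h5) (hpeq X k h6 h7) c hc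
    exact h9 y hy.1 ((hci y).2 hy.2) hyc

end Pool.Agent.Helper24.FR
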