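import Pool.Agent.Helper24.FR.StVI

/-!
# FR, module PIJ: injections and inverses in a model
-/

set_option autoImplicit false

universe u

namespace Pool.Agent.Helper24.FR

/-- An environment with given values at the places 2, 3, 4, 5. -/
private def vv_PIJ {N : Type u} (a b c d : N) : ℕ → N
  | 0 => a
  | 1 => a
  | 2 => a
  | 3 => b
  | 4 => c
  | _ => d

private theorem mem_PIJ {N : Type u} {E : N → N → Prop} (hB : StPSB.{u}) (hZ : ZFC E)
    {f a b : N} (hf : ∀ p, E p f → ∃ x y, E x a ∧ E y b ∧ PPair E p x y) {x y : N}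
    (h : PVal E f x y) : E x a ∧ E y b := by
  obtain ⟨p, hp, hxy⟩ := h
  obtain ⟨x', y', hx', hy', hxy'⟩ := hf p hp
  obtain ⟨e1, e2⟩ := (hB N E hZ).2.1 p x y x' y' hxy hxy'
  rw [e1, e2]
  exact ⟨hx', hy'⟩

theorem hPIJ (hV : StPCV.{u}) (hB : StPSB.{u}) : StPIJ.{u} := by
  intro N E hZ
  have hRl := (hV N E).2.2.1
  have hLe := (hV N E).2.2.2.2.1
  have hS := (hB N E hZ).2.2
  refine ⟨?_, ?_, ?_⟩
  · intro b m hbm
    obtain ⟨f, hf1, hf2⟩ := (hLe b m).1 hbm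
    -- fibres
    have hfib : ∀ t, ∃ S, ∀ s, E s S ↔ E s m ∧ PVal E f s t := by
      intro t
      obtain ⟨S, hS⟩ := hZ.sep (cRl 2 0 3) (vv_PIJ f t t t) m
      refine ⟨S, fun s => ?_⟩
      rw [hS s, ← ev_prop, ev_cRl]
      simp only [Function.update_apply, vv_PIJ]
      rw [← hRl]
      simp
    obtain ⟨P, hP⟩ := hZ.power m
    obtain ⟨a, ha⟩ := hZ.sep (fEx 6 (fAnd (.mem 6 2) (.all 7 (fIff (.mem 7 0)
      (fAnd (.mem 7 3) (cRl 4 7 6)))))) (vv_PIJ b m f f) P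
    have ha' : ∀ S, E S a ↔ E S P ∧ ∃ t, E t b ∧ ∀ s, E s S ↔ E s m ∧ PVal E f s t := by
      intro S
      rw [ha S, ← ev_prop]
      apply and_congr_right
      intro _
      simp only [ev_ex, ev_and, ev_mem, ev_all, ev_iff, ev_cRl, Function.update_apply, vv_PIJ,
        iSup_Prop_eq, iInf_Prop_eq, hRl, bi]
      simp
      apply exists_congr
      intro t
      apply and_congr_right
      intro _
      apply forall_congr'
      intro s
      constructor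
      · rintro ⟨h1, h2⟩; exact ⟨h1, fun h => h2 h.1 h.2⟩
      · intro h; exact ⟨h.1, fun h1 h2 => h.2 ⟨h1, h2⟩⟩
    have hne : ∀ x, E x a → ∃ z, E z x := by
      intro S hSa
      obtain ⟨_, t, ht, h1⟩ := (ha' S).1 hSa
      obtain ⟨s, hs1, hs2⟩ := hf2 t ht
      exact ⟨s, (h1 s).2 ⟨hs1, hs2⟩⟩
    have hdis : ∀ x y z, E x a → E y a → E z x → E z y → x = y := by
      intro S S' z hSa hSa' hz hz'
      obtain ⟨_, t, ht, h1⟩ := (ha' S).1 hSa
      obtain ⟨_, t', ht', h1'⟩ := (ha' S').1 hSa'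
      have e : t = t' := hf1 z t t' ((h1 z).1 hz).2 ((h1' z).1 hz').2
      apply hZ.ext
      intro s
      rw [h1, h1', e]
    obtain ⟨c, hc⟩ := hZ.choice a hne hdis
    obtain ⟨g, hg1, hg2⟩ := hS (fAnd (cRl 2 1 0) (.mem 1 3)) (vv_PIJ f c c c) b m
    have hg2' : ∀ x y, PVal E g x y ↔ E x b ∧ E y m ∧ (PVal E f y x ∧ E y c) := by
      intro x y
      rw [hg2 x y, ← ev_prop, ev_and, ev_cRl, ev_mem]
      simp only [Function.update_apply, vv_PIJ]
      rw [← hRl]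
      simp
    refine ⟨g, ⟨hg1, ?_⟩, ?_⟩
    · intro x hx
      obtain ⟨S, hSx⟩ := hfib x
      have hSa : E S a := by
        rw [ha']
        refine ⟨?_, x, hx, hSx⟩
        rw [hP]
        intro w hw
        exact ((hSx w).1 hw).1
      obtain ⟨y, ⟨hy1, hy2⟩, hy3⟩ := hc S hSa
      refine ⟨y, (hg2' x y).2 ⟨hx, ((hSx y).1 hy1).1, ((hSx y).1 hy1).2, hy2⟩, ?_⟩
      intro y' hy'
      obtain ⟨_, h1, h2, h3⟩ := (hg2' x y').1 hy'
      exact hy3 y' ⟨(hSx y').2 ⟨h1, h2⟩, h3⟩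
    · intro x x' y h h'
      exact hf1 y x x' ((hg2' x y).1 h).2.2.1 ((hg2' x' y).1 h').2.2.1
  · intro a b hab
    obtain ⟨f, ⟨hf1, hf2⟩, hf3⟩ := hab
    obtain ⟨g, hg1, hg2⟩ := hS (cRl 2 1 0) (vv_PIJ f f f f) b a
    have hg2' : ∀ y x, PVal E g y x ↔ E y b ∧ E x a ∧ PVal E f x y := by
      intro y x
      rw [hg2 y x, ← ev_prop, ev_cRl]
      simp only [Function.update_apply, vv_PIJ]
      rw [← hRl]
      simp
    refine ⟨⟨g, ⟨hg1, ?_⟩, ?_⟩, ?_⟩
    · intro y hy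
      obtain ⟨x, hx1, hx2⟩ := hf3 y hy
      have hx1' : PVal E f x y := hx1
      refine ⟨x, (hg2' y x).2 ⟨hy, (mem_PIJ hB hZ hf1 hx1').1, hx1'⟩, ?_⟩
      intro x' hx'
      exact hx2 x' ((hg2' y x').1 hx').2.2
    · intro x hx
      obtain ⟨y, hy1, hy2⟩ := hf2 x hx
      have hy1' : PVal E f x y := hy1
      refine ⟨y, (hg2' y x).2 ⟨(mem_PIJ hB hZ hf1 hy1').2, hx, hy1'⟩, ?_⟩
      intro y' hy'
      exact hy2 y' ((hg2' y' x).1 hy').2.2
    · rw [hLe]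
      refine ⟨f, ?_, ?_⟩
      · intro x y y' h h'
        exact (hf2 x (mem_PIJ hB hZ hf1 h).1).unique h h'
      · intro y hy
        obtain ⟨x, hx1, _⟩ := hf3 y hy
        have hx1' : PVal E f x y := hx1
        exact ⟨x, (mem_PIJ hB hZ hf1 hx1').1, hx1'⟩
  · intro m j hmj
    rw [hLe]
    obtain ⟨h, hh1, hh2⟩ := hS (.eq 0 1) (vv_PIJ m m m m) j m
    have hh2' : ∀ x y, PVal E h x y ↔ E x j ∧ E y m ∧ x = y := by
      intro x y
      rw [hh2 x y]
      simp [Sat, Function.update_apply]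
    refine ⟨h, ?_, ?_⟩
    · intro x y y' h1 h2
      exact ((hh2' x y).1 h1).2.2.symm.trans ((hh2' x y').1 h2).2.2
    · intro y hy
      exact ⟨y, hmj y hy, (hh2' y y).2 ⟨hmj y hy, hy, rfl⟩⟩

end Pool.Agent.Helper24.FR
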