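import Pool.Agent.Helper24.FR.Plain

/-!
# FR: the relation of Q1 is a first order sentence
-/

set_option autoImplicit false

universe u

namespace Pool.Agent.Helper24.FR.Sent

def fNot (φ : Fml) : Fml := .imp φ .bot
def fAnd (φ ψ : Fml) : Fml := fNot (.imp φ (fNot ψ))
def fOr (φ ψ : Fml) : Fml := .imp (fNot φ) ψ
def fIff (φ ψ : Fml) : Fml := fAnd (.imp φ ψ) (.imp ψ φ)
def fEx (i : ℕ) (φ : Fml) : Fml := fNot (.all i (fNot φ))
/-- Unique existence: `∃ i, ∀ j, φ' ↔ j = i` where `φ'` is `φ` with `j` for its free place. -/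
def fU (i j : ℕ) (φ : Fml) : Fml := fEx i (.all j (fIff φ (.eq j i)))

section

variable {N : Type u} (E : N → N → Prop) (v : ℕ → N)

@[simp] theorem sat_mem (i j : ℕ) : Sat E (.mem i j) v ↔ E (v i) (v j) := Iff.rfl
@[simp] theorem sat_eq (i j : ℕ) : Sat E (.eq i j) v ↔ v i = v j := Iff.rfl
@[simp] theorem sat_imp (φ ψ : Fml) : Sat E (.imp φ ψ) v ↔ (Sat E φ v → Sat E ψ v) := Iff.rfl
@[simp] theorem sat_all (i : ℕ) (φ : Fml) :
    Sat E (.all i φ) v ↔ ∀ x : N, Sat E φ (Function.update v i x) := Iff.rfl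
@[simp] theorem sat_not (φ : Fml) : Sat E (fNot φ) v ↔ ¬ Sat E φ v := Iff.rfl
@[simp] theorem sat_and (φ ψ : Fml) : Sat E (fAnd φ ψ) v ↔ Sat E φ v ∧ Sat E ψ v := by
  rw [fAnd, sat_not, sat_imp, sat_not]; tauto
@[simp] theorem sat_or (φ ψ : Fml) : Sat E (fOr φ ψ) v ↔ Sat E φ v ∨ Sat E ψ v := by
  rw [fOr, sat_imp, sat_not]; tauto
@[simp] theorem sat_iff (φ ψ : Fml) : Sat E (fIff φ ψ) v ↔ (Sat E φ v ↔ Sat E ψ v) := by
  rw [fIff, sat_and, sat_imp, sat_imp]; tauto
@[simp] theorem sat_ex (i : ℕ) (φ : Fml) :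
    Sat E (fEx i φ) v ↔ ∃ x : N, Sat E φ (Function.update v i x) := by
  rw [fEx, sat_not, sat_all]; simp only [sat_not]; push Not; rfl

end

def kSub (x y : ℕ) : Fml := .all (x + y + 1) (.imp (.mem (x + y + 1) x) (.mem (x + y + 1) y))
def kPair (p x y : ℕ) : Fml := .all (p + x + y + 1) (fIff (.mem (p + x + y + 1) p)
  (fOr (.all (p + x + y + 2) (fIff (.mem (p + x + y + 2) (p + x + y + 1)) (.eq (p + x + y + 2) x)))
    (.all (p + x + y + 2) (fIff (.mem (p + x + y + 2) (p + x + y + 1))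
      (fOr (.eq (p + x + y + 2) x) (.eq (p + x + y + 2) y))))))
def kVal (f x y : ℕ) : Fml := fEx (f + x + y + 1) (fAnd (.mem (f + x + y + 1) f) (kPair (f + x + y + 1) x y))
def kFun (f a b : ℕ) : Fml := fAnd
  (.all (f + a + b + 1) (.imp (.mem (f + a + b + 1) f) (fEx (f + a + b + 2) (fEx (f + a + b + 3)
    (fAnd (.mem (f + a + b + 2) a) (fAnd (.mem (f + a + b + 3) b)
      (kPair (f + a + b + 1) (f + a + b + 2) (f + a + b + 3))))))))
  (.all (f + a + b + 1) (.imp (.mem (f + a + b + 1) a) (fU (f + a + b + 2) (f + a + b + 3)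
    (kVal f (f + a + b + 1) (f + a + b + 3)))))
def kBij (f a b : ℕ) : Fml := fAnd (kFun f a b)
  (.all (f + a + b + 1) (.imp (.mem (f + a + b + 1) b) (fU (f + a + b + 2) (f + a + b + 3)
    (kVal f (f + a + b + 3) (f + a + b + 1)))))
def kEq (a b : ℕ) : Fml := fEx (a + b + 1) (kBij (a + b + 1) a b)
def kTrans (x : ℕ) : Fml := .all (x + 1) (.imp (.mem (x + 1) x) (kSub (x + 1) x))
def kOrd (x : ℕ) : Fml := fAnd (kTrans x) (.all (x + 1) (.imp (.mem (x + 1) x) (kTrans (x + 1))))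
def kCard (x : ℕ) : Fml := fAnd (kOrd x) (.all (x + 1) (.imp (.mem (x + 1) x) (fNot (kEq x (x + 1)))))
def kInd (w : ℕ) : Fml := fAnd
  (fEx (w + 1) (fAnd (.all (w + 2) (fNot (.mem (w + 2) (w + 1)))) (.mem (w + 1) w)))
  (.all (w + 1) (.imp (.mem (w + 1) w) (fEx (w + 2) (fAnd (.mem (w + 2) w)
    (.all (w + 3) (fIff (.mem (w + 3) (w + 2)) (fOr (.mem (w + 3) (w + 1)) (.eq (w + 3) (w + 1)))))))))
def kOmega (w : ℕ) : Fml := fAnd (kInd w) (.all (w + 1) (.imp (kInd (w + 1)) (kSub w (w + 1))))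
def kCont (m : ℕ) : Fml := fAnd (kCard m) (fEx (m + 1) (fEx (m + 2) (fAnd (kOmega (m + 1))
  (fAnd (.all (m + 3) (fIff (.mem (m + 3) (m + 2)) (kSub (m + 3) (m + 1)))) (kEq m (m + 2))))))
def kSucc (m k : ℕ) : Fml := fAnd (kCard k) (fAnd (.mem m k) (.all (m + k + 1)
  (.imp (.mem (m + k + 1) k) (.imp (.mem m (m + k + 1)) (fNot (kCard (m + k + 1)))))))
def kCtb (y x : ℕ) : Fml := fAnd (kSub y x) (fEx (y + x + 1) (fAnd (kOmega (y + x + 1)) (kEq y (y + x + 1))))
def kNeg (l k : ℕ) : Fml := fEx (l + k + 1) (fEx (l + k + 2) (fAnd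
  (.all (l + k + 3) (fIff (.mem (l + k + 3) (l + k + 1)) (kCtb (l + k + 3) l)))
  (fAnd (kFun (l + k + 2) (l + k + 1) k) (.all (l + k + 3) (.imp (kSub (l + k + 3) l)
    (.imp (kEq (l + k + 3) k) (.all (l + k + 4) (.imp (.mem (l + k + 4) k)
      (fEx (l + k + 5) (fAnd (kCtb (l + k + 5) (l + k + 3))
        (kVal (l + k + 2) (l + k + 5) (l + k + 4))))))))))))
/-- The sentence of Q1. -/
def q1 : Fml := .all 0 (.all 1 (.all 2 (.imp (kCont 0) (.imp (kSucc 0 1) (.imp (kSucc 1 2) (kNeg 2 1))))))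

section

variable {N : Type u} (E : N → N → Prop) (v : ℕ → N)

theorem exu_iff {P : N → Prop} : (∃ x, ∀ y, P y ↔ y = x) ↔ ∃! x, P x := by
  constructor
  · rintro ⟨x, hx⟩
    exact ⟨x, (hx x).2 rfl, fun y hy => (hx y).1 hy⟩
  · rintro ⟨x, hx, hu⟩
    exact ⟨x, fun y => ⟨fun h => hu y h, fun h => h ▸ hx⟩⟩

@[simp] theorem s_kSub (x y : ℕ) : Sat E (kSub x y) v ↔ PSub E (v x) (v y) := by
  simp (disch := omega) only [kSub, PSub, sat_all, sat_imp, sat_mem, Function.update_self,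
    Function.update_of_ne]

@[simp] theorem s_kPair (p x y : ℕ) : Sat E (kPair p x y) v ↔ PPair E (v p) (v x) (v y) := by
  simp (disch := omega) only [kPair, PPair, sat_all, sat_iff, sat_or, sat_eq, sat_mem,
    Function.update_self, Function.update_of_ne]

@[simp] theorem s_kVal (f x y : ℕ) : Sat E (kVal f x y) v ↔ PVal E (v f) (v x) (v y) := by
  simp (disch := omega) only [kVal, PVal, sat_ex, sat_and, sat_mem, s_kPair,
    Function.update_self, Function.update_of_ne]

@[simp] theorem s_kFun (f a b : ℕ) : Sat E (kFun f a b) v ↔ PFun E (v f) (v a) (v b) := by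
  simp (disch := omega) only [kFun, PFun, fU, sat_all, sat_ex, sat_and, sat_imp, sat_iff, sat_eq,
    sat_mem, s_kPair, s_kVal, exu_iff, Function.update_self, Function.update_of_ne]

@[simp] theorem s_kBij (f a b : ℕ) : Sat E (kBij f a b) v ↔ PBij E (v f) (v a) (v b) := by
  simp (disch := omega) only [kBij, PBij, fU, sat_all, sat_ex, sat_and, sat_imp, sat_iff, sat_eq,
    sat_mem, s_kFun, s_kVal, exu_iff, Function.update_self, Function.update_of_ne]

@[simp] theorem s_kEq (a b : ℕ) : Sat E (kEq a b) v ↔ PEq E (v a) (v b) := by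
  simp (disch := omega) only [kEq, PEq, sat_ex, s_kBij, Function.update_self,
    Function.update_of_ne]

@[simp] theorem s_kTrans (x : ℕ) : Sat E (kTrans x) v ↔ PTrans E (v x) := by
  simp (disch := omega) only [kTrans, PTrans, sat_all, sat_imp, sat_mem, s_kSub,
    Function.update_self, Function.update_of_ne]

@[simp] theorem s_kOrd (x : ℕ) : Sat E (kOrd x) v ↔ POrd E (v x) := by
  simp (disch := omega) only [kOrd, POrd, sat_all, sat_and, sat_imp, sat_mem, s_kTrans,
    Function.update_self, Function.update_of_ne]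

@[simp] theorem s_kCard (x : ℕ) : Sat E (kCard x) v ↔ PCard E (v x) := by
  simp (disch := omega) only [kCard, PCard, sat_all, sat_and, sat_imp, sat_not, sat_mem, s_kOrd,
    s_kEq, Function.update_self, Function.update_of_ne]

@[simp] theorem s_kInd (w : ℕ) : Sat E (kInd w) v ↔ PInd E (v w) := by
  simp (disch := omega) only [kInd, PInd, sat_all, sat_ex, sat_and, sat_imp, sat_not, sat_iff,
    sat_or, sat_eq, sat_mem, Function.update_self, Function.update_of_ne]

@[simp] theorem s_kOmega (w : ℕ) : Sat E (kOmega w) v ↔ POmega E (v w) := by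
  simp (disch := omega) only [kOmega, POmega, sat_all, sat_and, sat_imp, s_kInd, s_kSub,
    Function.update_self, Function.update_of_ne]

@[simp] theorem s_kCont (m : ℕ) : Sat E (kCont m) v ↔ PCont E (v m) := by
  simp (disch := omega) only [kCont, PCont, sat_all, sat_ex, sat_and, sat_iff, sat_mem, s_kCard,
    s_kOmega, s_kSub, s_kEq, Function.update_self, Function.update_of_ne]

@[simp] theorem s_kSucc (m k : ℕ) : Sat E (kSucc m k) v ↔ PSucc E (v m) (v k) := by
  simp (disch := omega) only [kSucc, PSucc, sat_all, sat_and, sat_imp, sat_not, sat_mem, s_kCard,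
    Function.update_self, Function.update_of_ne]

@[simp] theorem s_kCtb (y x : ℕ) : Sat E (kCtb y x) v ↔ PCtb E (v y) (v x) := by
  simp (disch := omega) only [kCtb, PCtb, sat_ex, sat_and, s_kSub, s_kOmega, s_kEq,
    Function.update_self, Function.update_of_ne]

@[simp] theorem s_kNeg (l k : ℕ) : Sat E (kNeg l k) v ↔ PNeg E (v l) (v k) := by
  simp (disch := omega) only [kNeg, PNeg, sat_all, sat_ex, sat_and, sat_imp, sat_iff, sat_mem,
    s_kSub, s_kCtb, s_kFun, s_kVal, s_kEq, Function.update_self, Function.update_of_ne]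

/-- The relation of Q1 is expressed by the first order sentence `q1`. -/
theorem sat_q1 : Sat E q1 v ↔ Q1Rel E := by
  simp (disch := omega) only [q1, Q1Rel, sat_all, sat_imp, s_kCont, s_kSucc, s_kNeg,
    Function.update_self, Function.update_of_ne]

end

end Pool.Agent.Helper24.FR.Sent
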