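import Pool.Agent.Helper24.FR.StVII
import Pool.Agent.Helper24.FR.Sent

/-!
# FR, module PMO: monotonicity inside the model
-/

set_option autoImplicit false

universe u

namespace Pool.Agent.Helper24.FR

theorem hPMO (hV : StPCV.{u}) (hB : StPSB.{u}) (hT : StPTR.{u}) : StPMO.{u} := by
  have _ := hV
  intro N E hZ k l l' hs hl' hkl' hneg
  obtain ⟨-, hb2, hb3⟩ := hB N E hZ
  obtain ⟨L', f', hL', ⟨hf1, hf2⟩, hX⟩ := hneg
  have hsub : PSub E l l' := by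
    rcases hT N E hZ l l' hs.1.1 hl'.1 with h | h | h
    · exact hl'.1.1 l h
    · rw [h]; exact fun z hz => hz
    · exact absurd hl' (hs.2.2 l' h hkl')
  obtain ⟨L, hL⟩ := hZ.sep (Sent.kSub 0 1) (fun _ => l) L'
  have hL2 : ∀ y, E y L ↔ E y L' ∧ PSub E y l := by
    intro y
    rw [hL y, Sent.s_kSub]
    simp
  have hLc : ∀ y, E y L ↔ PCtb E y l := by
    intro y
    rw [hL2 y, hL' y]
    constructor
    · rintro ⟨⟨_, h2⟩, h3⟩
      exact ⟨h3, h2⟩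
    · rintro ⟨h1, h2⟩
      exact ⟨⟨fun z hz => hsub z (h1 z hz), h2⟩, h1⟩
  obtain ⟨f, hfa, hfb⟩ := hb3 (Sent.kVal 2 0 1) (fun _ => f') L k
  have hfv : ∀ x y, PVal E f x y ↔ E x L ∧ E y k ∧ PVal E f' x y := by
    intro x y
    rw [hfb x y, Sent.s_kVal]
    simp
  have hval : ∀ x y, PVal E f' x y → E y k := by
    rintro x y ⟨p, hp, hpp⟩
    obtain ⟨x', y', _, hy', hpp'⟩ := hf1 p hp
    rw [(hb2 p x y x' y' hpp hpp').2]
    exact hy'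
  refine ⟨L, f, hLc, ⟨hfa, ?_⟩, ?_⟩
  · intro x hx
    obtain ⟨y, hy, hu⟩ := hf2 x ((hL2 x).1 hx).1
    exact ⟨y, (hfv x y).2 ⟨hx, hval x y hy, hy⟩, fun z hz => hu z ((hfv x z).1 hz).2.2⟩
  · intro X hXl hXk c hc
    obtain ⟨y, hy, hyc⟩ := hX X (fun z hz => hsub z (hXl z hz)) hXk c hc
    refine ⟨y, hy, (hfv y c).2 ⟨(hLc y).2 ⟨fun z hz => hXl z (hy.1 z hz), hy.2⟩, hc, hyc⟩⟩

end Pool.Agent.Helper24.FR
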