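import Pool.Agent.Helper24.FR.StI

/-!
# FR: module POW (power set)
-/

set_option autoImplicit false

universe u

namespace Pool.Agent.Helper24.FR

section

variable {B : Type u} [CompleteBooleanAlgebra B]

private def sub_POW (x : Nm B) (f : x.ix → B) : Nm B :=
  Nm.mk x.ix x.el fun i => f i ⊓ x.vl i

private def pow_POW (x : Nm B) : Nm B :=
  Nm.mk (x.ix → B) (fun f => sub_POW x f) (fun _ => ⊤)

private theorem bmem_sub_POW (x : Nm B) (f : x.ix → B) (z : Nm B) :
    bmem z (sub_POW x f) = ⨆ i : x.ix, (f i ⊓ x.vl i) ⊓ beq z (x.el i) := by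
  rw [bmem_def]; rfl

private theorem bmem_pow_POW (x z : Nm B) :
    bmem z (pow_POW x) = ⨆ f : x.ix → B, beq z (sub_POW x f) := by
  rw [bmem_def]
  change (⨆ f : x.ix → B, ⊤ ⊓ beq z (sub_POW x f)) = _
  simp only [top_inf_eq]

private theorem sub_le_POW (x : Nm B) (f : x.ix → B) (z : Nm B) :
    bmem z (sub_POW x f) ≤ bmem z x := by
  rw [bmem_sub_POW, bmem_def z x]
  exact iSup_mono fun i => inf_le_inf_right _ inf_le_right

private theorem main_POW (x z : Nm B) : bmem z (pow_POW x) = Sub bmem z x := by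
  apply le_antisymm
  · rw [bmem_pow_POW]
    refine iSup_le fun f => ?_
    rw [Sub]
    refine le_iInf fun w => ?_
    rw [le_himp_iff]
    exact (bmem_congr_right w z (sub_POW x f)).trans (sub_le_POW x f w)
  · rw [bmem_pow_POW]
    refine le_iSup_of_le (fun i => bmem (x.el i) z) ?_
    refine le_beq_of_mem (fun w => ?_) (fun w => ?_)
    · have h1 : Sub bmem z x ⊓ bmem w z ≤ bmem w x := by
        rw [Sub]
        exact (inf_le_inf_right _ (iInf_le _ w)).trans himp_inf_le
      calc Sub bmem z x ⊓ bmem w z ≤ bmem w x ⊓ bmem w z := le_inf h1 inf_le_right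
        _ = ⨆ i : x.ix, (x.vl i ⊓ beq w (x.el i)) ⊓ bmem w z := by
            rw [bmem_def w x, iSup_inf_eq]
        _ ≤ bmem w (sub_POW x fun i => bmem (x.el i) z) := by
            rw [bmem_sub_POW]
            refine iSup_mono fun i => ?_
            refine le_inf (le_inf ?_ (inf_le_left.trans inf_le_left)) (inf_le_left.trans inf_le_right)
            exact (inf_le_inf_right _ inf_le_right).trans (bmem_congr_left w (x.el i) z)
    · refine inf_le_right.trans ?_
      rw [bmem_sub_POW]
      refine iSup_le fun i => ?_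
      refine le_trans (le_inf ?_ (inf_le_left.trans inf_le_left)) (bmem_congr_left (x.el i) w z)
      rw [beq_comm (x.el i) w]
      exact inf_le_right

private theorem ex_POW (z x : Nm B) : Ex fun w => bmem w z ⇨ bmem w x := by
  intro w w'
  rw [le_himp_iff]
  calc beq w w' ⊓ (bmem w z ⇨ bmem w x) ⊓ bmem w' z
      ≤ beq w w' ⊓ ((bmem w z ⇨ bmem w x) ⊓ bmem w z) := by
        refine le_inf (inf_le_left.trans inf_le_left) (le_inf (inf_le_left.trans inf_le_right) ?_)
        refine le_trans (le_inf ?_ inf_le_right) (bmem_congr_left w' w z)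
        rw [beq_comm w' w]
        exact inf_le_left.trans inf_le_left
    _ ≤ beq w w' ⊓ bmem w x := inf_le_inf_left _ himp_inf_le
    _ ≤ bmem w' x := bmem_congr_left w w' x

end

theorem hPOW : StPOW.{u} := by
  refine ⟨fun B _ x => ⟨pow_POW x, main_POW x⟩, fun B _ W x => ?_⟩
  revert x
  rw [QN_forall]
  intro x
  refine ⟨QN.mk W (pow_POW x), ?_⟩
  rw [QN_forall]
  intro z
  rw [QE_mk, main_POW, Sub, W.iInf_iff _ (ex_POW z x), QN_forall]
  exact forall_congr' fun w => W.himp_iff _ _

end Pool.Agent.Helper24.FR
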