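import Pool.Agent.Helper24.FR.StIV

/-!
# FR, module PRJ: the projection
-/

set_option autoImplicit false

open Cardinal Set

namespace Pool.Agent.Helper24.FR

section defs

variable {A : Type} [LinearOrder A]

/-- the projection -/
private noncomputable def pt_PRJ (κ δ : A) (e : A → A) (s : A → A → Na A) (p : Ra A) : Ta A := by
  classical exact fun z => if z.1 < κ ∧ ∃ n, isN δ z.1 n then (p (δ, e z.1, z.2)).map (s z.1)
    else none

private theorem pt_some_PRJ {κ δ : A} {e : A → A} {s : A → A → Na A} {p : Ra A} {z : A × A}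
    {n : Na A} (h : pt_PRJ κ δ e s p z = some n) :
    z.1 < κ ∧ (∃ n, isN δ z.1 n) ∧ ∃ v, p (δ, e z.1, z.2) = some v ∧ s z.1 v = n := by
  unfold pt_PRJ at h
  split_ifs at h with h1
  obtain ⟨v, hv, hvn⟩ := Option.map_eq_some_iff.1 h
  exact ⟨h1.1, h1.2, v, hv, hvn⟩

private theorem pt_of_PRJ {κ δ : A} {e : A → A} {s : A → A → Na A} {p : Ra A} {z : A × A}
    {v : A} (h : p (δ, e z.1, z.2) = some v) (h1 : z.1 < κ) (h2 : ∃ n, isN δ z.1 n) :
    pt_PRJ κ δ e s p z = some (s z.1 v) := by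
  unfold pt_PRJ
  rw [if_pos ⟨h1, h2⟩, h]
  rfl

/-- the part at `δ` of the lifted condition -/
private noncomputable def q_PRJ (κ : A) (e : A → A) (s : A → A → Na A) (t : Ta A)
    (β η : A) : Option A := by
  classical exact if h : ∃ v, ∃ α, α < κ ∧ e α = β ∧ ∃ n, t (α, η) = some n ∧ v < β ∧ s α v = n
    then some h.choose else none

private theorem q_spec_PRJ {κ : A} {e : A → A} {s : A → A → Na A} {t : Ta A} {β η v : A}
    (h : q_PRJ κ e s t β η = some v) :
    ∃ α, α < κ ∧ e α = β ∧ ∃ n, t (α, η) = some n ∧ v < β ∧ s α v = n := by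
  unfold q_PRJ at h
  split_ifs at h with h1
  have h2 := h1.choose_spec
  rw [Option.some.inj h] at h2
  exact h2

private theorem q_ex_PRJ {κ : A} {e : A → A} {s : A → A → Na A} {t : Ta A} {β η : A}
    (h : ∃ v, ∃ α, α < κ ∧ e α = β ∧ ∃ n, t (α, η) = some n ∧ v < β ∧ s α v = n) :
    ∃ v, q_PRJ κ e s t β η = some v := by
  unfold q_PRJ
  rw [dif_pos h]
  exact ⟨_, rfl⟩

/-- the lifted condition -/
private noncomputable def lf_PRJ (κ δ : A) (e : A → A) (s : A → A → Na A) (p r : Ra A) (t : Ta A) :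
    Ra A := by
  classical exact fun w => if w.1 < δ ∧ w.2.1 < δ then r w else if p w ≠ none then p w else
    if w.1 = δ then q_PRJ κ e s t w.2.1 w.2.2 else none

end defs

theorem hPRJ (_hR : StRES) (hU : StCNU) : StPRJ := by
  classical
  intro A _ _ κ δ hB hδ hδκ
  obtain ⟨e, s, he, hinj, hs⟩ := hU.2.2.2 A κ δ hB hδκ
  refine ⟨pt_PRJ κ δ e s, ?_, ?_, ?_, ?_⟩
  · -- pT
    intro p hp
    refine ⟨?_, ?_, ?_⟩
    · intro α η n hn
      obtain ⟨h1, h2, v, hv, rfl⟩ := pt_some_PRJ hn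
      obtain ⟨_, _, _, h3, h4⟩ := hp.dom _ _ _ _ hv
      exact ⟨h1, h3, (hs α h1 h2).1 v h4⟩
    · refine le_trans ?_ (hp.siz δ)
      have hmap : ∀ z : {z : A × A | pt_PRJ κ δ e s p z ≠ none},
          (e z.1.1, z.1.2) ∈ {z : A × A | p (δ, z.1, z.2) ≠ none} := by
        rintro ⟨z, hz⟩
        obtain ⟨n, hn⟩ := Option.ne_none_iff_exists'.1 hz
        obtain ⟨_, _, v, hv, _⟩ := pt_some_PRJ hn
        change p (δ, e z.1, z.2) ≠ none
        rw [hv]
        simp
      refine mk_le_of_injective (f := fun z => ⟨_, hmap z⟩) ?_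
      rintro ⟨z, hz⟩ ⟨z', hz'⟩ h
      obtain ⟨n, hn⟩ := Option.ne_none_iff_exists'.1 hz
      obtain ⟨n', hn'⟩ := Option.ne_none_iff_exists'.1 hz'
      have h1 := (pt_some_PRJ hn).1
      have h2 := (pt_some_PRJ hn').1
      have h3 := congrArg (fun q => q.1.1) h
      have h4 := congrArg (fun q => q.1.2) h
      exact Subtype.ext (Prod.ext (hinj _ h1 _ h2 h3) h4)
    · obtain ⟨ξ, hξ, h1⟩ := hp.hgt δ hδ
      refine ⟨ξ, hξ, fun α η hn => ?_⟩
      obtain ⟨n, hn⟩ := Option.ne_none_iff_exists'.1 hn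
      obtain ⟨_, _, v, hv, _⟩ := pt_some_PRJ hn
      exact h1 (e α) η (by rw [hv]; simp)
  · -- zero
    intro p z hp
    by_contra h
    obtain ⟨n, hn⟩ := Option.ne_none_iff_exists'.1 h
    obtain ⟨_, _, v, hv, _⟩ := pt_some_PRJ hn
    exact lt_irrefl _ (hp.dom _ _ _ _ hv).2.1
  · -- mono
    intro p p' _ _ hx z n hn
    obtain ⟨h1, h2, v, hv, rfl⟩ := pt_some_PRJ hn
    exact pt_of_PRJ (hx _ _ hv) h1 h2
  · -- lift
    intro p r t hp hr ht hle
    have hl1 : ∀ w : A × A × A, w.1 < δ ∧ w.2.1 < δ → lf_PRJ κ δ e s p r t w = r w := by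
      intro w hw
      simp only [lf_PRJ, if_pos hw]
    have hl2 : ∀ w : A × A × A, ¬ (w.1 < δ ∧ w.2.1 < δ) → p w ≠ none →
        lf_PRJ κ δ e s p r t w = p w := by
      intro w hw hpw
      simp only [lf_PRJ, if_neg hw, if_pos hpw]
    have hl3 : ∀ w : A × A × A, ¬ (w.1 < δ ∧ w.2.1 < δ) → p w = none → w.1 = δ →
        lf_PRJ κ δ e s p r t w = q_PRJ κ e s t w.2.1 w.2.2 := by
      intro w hw hpw h1
      have h2 : ¬ p w ≠ none := fun h => h hpw
      simp only [lf_PRJ, if_neg hw, if_neg h2, if_pos h1]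
    have hl4 : ∀ w : A × A × A, ¬ (w.1 < δ ∧ w.2.1 < δ) → p w = none → w.1 ≠ δ →
        lf_PRJ κ δ e s p r t w = none := by
      intro w hw hpw h1
      have h2 : ¬ p w ≠ none := fun h => h hpw
      simp only [lf_PRJ, if_neg hw, if_neg h2, if_neg h1]
    have hcase : ∀ w v, lf_PRJ κ δ e s p r t w = some v →
        (w.1 < δ ∧ w.2.1 < δ ∧ r w = some v) ∨ p w = some v ∨
          (w.1 = δ ∧ q_PRJ κ e s t w.2.1 w.2.2 = some v) := by
      intro w v hv
      by_cases h1 : w.1 < δ ∧ w.2.1 < δ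
      · rw [hl1 w h1] at hv
        exact Or.inl ⟨h1.1, h1.2, hv⟩
      · by_cases h2 : p w = none
        · by_cases h3 : w.1 = δ
          · rw [hl3 w h1 h2 h3] at hv
            exact Or.inr (Or.inr ⟨h3, hv⟩)
          · rw [hl4 w h1 h2 h3] at hv
            simp at hv
        · rw [hl2 w h1 h2] at hv
          exact Or.inr (Or.inl hv)
    have hxt : Xt (lf_PRJ κ δ e s p r t) p := by
      intro w v hv
      by_cases h1 : w.1 < δ ∧ w.2.1 < δ
      · rw [hl1 w h1]
        refine hle.1 w v ?_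
        simp only [rs, if_pos h1]
        exact hv
      · rw [hl2 w h1 (by rw [hv]; simp)]
        exact hv
    have hdom : ∀ γ β η v, lf_PRJ κ δ e s p r t (γ, β, η) = some v →
        Rg γ ∧ γ < κ ∧ β < κ ∧ η < γ ∧ v < β := by
      intro γ β η v hv
      rcases hcase _ _ hv with ⟨_, _, h3⟩ | h3 | ⟨h3, h4⟩
      · obtain ⟨h5, h6, h7, h8, h9⟩ := hr.dom _ _ _ _ h3
        exact ⟨h5, h6.trans hδκ, h7.trans hδκ, h8, h9⟩
      · exact hp.dom _ _ _ _ h3
      · obtain ⟨α, hα, hαβ, n, hn, hv', _⟩ := q_spec_PRJ h4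
        have h3' : γ = δ := h3
        have h5 := (ht.dom _ _ _ hn).2.1
        subst h3'
        have hαβ' : e α = β := hαβ
        exact ⟨hδ, hδκ, hαβ' ▸ he α hα, h5, hv'⟩
    refine ⟨lf_PRJ κ δ e s p r t, ⟨hdom, ?_, ?_, ?_⟩, hxt, ?_, ?_⟩
    · -- cnt
      refine ((hr.cnt.union hp.cnt).union (countable_singleton δ)).mono ?_
      rintro γ ⟨β, η, hn⟩
      obtain ⟨v, hv⟩ := Option.ne_none_iff_exists'.1 hn
      rcases hcase _ _ hv with ⟨_, _, h3⟩ | h3 | ⟨h3, _⟩
      · exact Or.inl (Or.inl ⟨β, η, by rw [h3]; simp⟩)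
      · exact Or.inl (Or.inr ⟨β, η, by rw [h3]; simp⟩)
      · exact Or.inr h3
    · -- siz
      intro γ
      by_cases hne : {z : A × A | lf_PRJ κ δ e s p r t (γ, z.1, z.2) ≠ none} = ∅
      · rw [hne, mk_emptyCollection]
        exact zero_le
      · obtain ⟨z, hz⟩ := nonempty_iff_ne_empty.2 hne
        obtain ⟨v, hv⟩ := Option.ne_none_iff_exists'.1 hz
        have hγ : Rg γ := (hdom _ _ _ _ hv).1
        have hγ0 : ℵ₀ ≤ #(Iio γ) := hγ.1.le
        have hq : #{z : A × A | γ = δ ∧ q_PRJ κ e s t z.1 z.2 ≠ none} ≤ #(Iio γ) := by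
          by_cases hγδ : γ = δ
          · subst hγδ
            have hsub : {z : A × A | γ = γ ∧ q_PRJ κ e s t z.1 z.2 ≠ none} ⊆
                (fun z : A × A => (e z.1, z.2)) '' {z : A × A | t z ≠ none} := by
              rintro ⟨β, η⟩ ⟨_, hz⟩
              obtain ⟨v, hv⟩ := Option.ne_none_iff_exists'.1 hz
              obtain ⟨α, _, hαβ, n, hn, _⟩ := q_spec_PRJ hv
              refine ⟨(α, η), ?_, ?_⟩
              · change t (α, η) ≠ none
                rw [hn]
                simp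
              · exact Prod.ext hαβ rfl
            exact (mk_le_mk_of_subset hsub).trans (mk_image_le.trans ht.siz)
          · have : {z : A × A | γ = δ ∧ q_PRJ κ e s t z.1 z.2 ≠ none} = ∅ := by
              ext z
              simp [hγδ]
            rw [this, mk_emptyCollection]
            exact zero_le
        have hsub : {z : A × A | lf_PRJ κ δ e s p r t (γ, z.1, z.2) ≠ none} ⊆
            ({z : A × A | r (γ, z.1, z.2) ≠ none} ∪ {z : A × A | p (γ, z.1, z.2) ≠ none}) ∪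
              {z : A × A | γ = δ ∧ q_PRJ κ e s t z.1 z.2 ≠ none} := by
          intro z hz
          obtain ⟨v, hv⟩ := Option.ne_none_iff_exists'.1 hz
          rcases hcase _ _ hv with ⟨_, _, h3⟩ | h3 | ⟨h3, h4⟩
          · exact Or.inl (Or.inl (by change r _ ≠ none; rw [h3]; simp))
          · exact Or.inl (Or.inr (by change p _ ≠ none; rw [h3]; simp))
          · refine Or.inr ⟨h3, ?_⟩
            change q_PRJ κ e s t z.1 z.2 = some v at h4
            rw [h4]
            simp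
        calc #{z : A × A | lf_PRJ κ δ e s p r t (γ, z.1, z.2) ≠ none}
            ≤ _ := mk_le_mk_of_subset hsub
          _ ≤ #({z : A × A | r (γ, z.1, z.2) ≠ none} ∪ {z : A × A | p (γ, z.1, z.2) ≠ none} :
                Set (A × A)) + #{z : A × A | γ = δ ∧ q_PRJ κ e s t z.1 z.2 ≠ none} :=
              mk_union_le _ _
          _ ≤ (#(Iio γ) + #(Iio γ)) + #(Iio γ) := by
              refine add_le_add ((mk_union_le _ _).trans (add_le_add (hr.siz γ) (hp.siz γ))) hq
          _ = #(Iio γ) := by rw [add_eq_self hγ0, add_eq_self hγ0]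
    · -- hgt
      intro γ hγ
      obtain ⟨ξ₁, hξ₁, h1⟩ := hr.hgt γ hγ
      obtain ⟨ξ₂, hξ₂, h2⟩ := hp.hgt γ hγ
      have h3 : ∃ ξ₃ < γ, γ = δ → ∀ α η, t (α, η) ≠ none → η < ξ₃ := by
        by_cases hγδ : γ = δ
        · subst hγδ
          obtain ⟨ξ, hξ, h⟩ := ht.hgt
          exact ⟨ξ, hξ, fun _ => h⟩
        · exact ⟨ξ₁, hξ₁, fun h => absurd h hγδ⟩
      obtain ⟨ξ₃, hξ₃, h3⟩ := h3
      refine ⟨max (max ξ₁ ξ₂) ξ₃, max_lt (max_lt hξ₁ hξ₂) hξ₃, ?_⟩
      intro β η hn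
      obtain ⟨v, hv⟩ := Option.ne_none_iff_exists'.1 hn
      rcases hcase _ _ hv with ⟨_, _, h4⟩ | h4 | ⟨h4, h5⟩
      · exact (h1 β η (by rw [h4]; simp)).trans_le ((le_max_left _ _).trans (le_max_left _ _))
      · exact (h2 β η (by rw [h4]; simp)).trans_le ((le_max_right _ _).trans (le_max_left _ _))
      · obtain ⟨α, _, _, n, hn', _⟩ := q_spec_PRJ h5
        exact (h3 h4 α η (by rw [hn']; simp)).trans_le (le_max_right _ _)
    · -- restriction
      funext w
      by_cases h1 : w.1 < δ ∧ w.2.1 < δ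
      · simp only [rs, if_pos h1]
        exact hl1 w h1
      · simp only [rs, if_neg h1]
        by_contra h
        obtain ⟨v, hv⟩ := Option.ne_none_iff_exists'.1 (Ne.symm h)
        obtain ⟨γ, β, η⟩ := w
        obtain ⟨_, h2, h3, _⟩ := hr.dom _ _ _ _ hv
        exact h1 ⟨h2, h3⟩
    · -- order
      refine ⟨Xt.refl _, ?_⟩
      rintro ⟨α, η⟩ n hn
      obtain ⟨hα, hη, hN⟩ := ht.dom _ _ _ hn
      have hreg : ¬ (((δ, e α, η) : A × A × A).1 < δ ∧ ((δ, e α, η) : A × A × A).2.1 < δ) :=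
        fun h => lt_irrefl _ h.1
      by_cases h2 : p (δ, e α, η) = none
      · obtain ⟨v₀, hv₀, hv₀n⟩ := (hs α hα ⟨n, hN⟩).2 n hN
        obtain ⟨v, hv⟩ := q_ex_PRJ (κ := κ) (e := e) (s := s) (t := t) (β := e α) (η := η)
          ⟨v₀, α, hα, rfl, n, hn, hv₀, hv₀n⟩
        obtain ⟨α', hα', hee, n', hn', _, hsn⟩ := q_spec_PRJ hv
        have h3 : α' = α := hinj _ hα' _ hα hee
        subst h3
        have h4 : n' = n := by
          have h5 := hn'.symm.trans hn
          exact Option.some.inj h5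
        subst h4
        have h5 : lf_PRJ κ δ e s p r t (δ, e α', η) = some v := by
          rw [hl3 _ hreg h2 rfl]
          exact hv
        refine ⟨n', ?_, Feq.refl _ _ _⟩
        have h6 := pt_of_PRJ (κ := κ) (s := s) (z := (α', η)) h5 hα ⟨n', hN⟩
        exact h6.trans (congrArg some hsn)
      · obtain ⟨v, hv⟩ := Option.ne_none_iff_exists'.1 h2
        have h3 : pt_PRJ κ δ e s p (α, η) = some (s α v) :=
          pt_of_PRJ (z := (α, η)) hv hα ⟨n, hN⟩
        obtain ⟨n', hn', hfe⟩ := hle.2 (α, η) (s α v) h3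
        have h4 : n' = n := by
          have h5 := hn'.symm.trans hn
          exact Option.some.inj h5
        subst h4
        refine ⟨s α v, ?_, hfe.symm⟩
        exact pt_of_PRJ (κ := κ) (s := s) (z := (α, η)) (hxt _ _ hv) hα ⟨n', hN⟩

end Pool.Agent.Helper24.FR
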