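import Pool.Agent.Helper24.FR.StII

/-!
# FR, module PRN: pairs
-/

set_option autoImplicit false

universe u

namespace Pool.Agent.Helper24.FR

private theorem sg_PRN {B : Type u} [CompleteBooleanAlgebra B] (w x : Nm B) :
    Sg bmem beq w x = beq w (sgN x) := by
  rw [beq_eq_iInf, Sg]
  refine iInf_congr fun z => ?_
  rw [bmem_sgN, bi]

private theorem db_PRN {B : Type u} [CompleteBooleanAlgebra B] (w x y : Nm B) :
    Db bmem beq w x y = beq w (dbN x y) := by
  rw [beq_eq_iInf, Db]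
  refine iInf_congr fun z => ?_
  rw [bmem_dbN, bi]

private theorem pr_PRN {B : Type u} [CompleteBooleanAlgebra B] (z x y : Nm B) :
    Pr bmem beq z x y = beq z (opN x y) := by
  rw [beq_eq_iInf, Pr]
  refine iInf_congr fun w => ?_
  rw [opN, bmem_dbN, bi, sg_PRN, db_PRN]

/-- Kuratowski pairs in a two valued structure. -/
private theorem kur_PRN {N : Type*} (E : N → N → Prop) {p s d s' d' x y x' y' : N}
    (hs : ∀ z, E z s ↔ z = x) (hd : ∀ z, E z d ↔ z = x ∨ z = y)
    (hs' : ∀ z, E z s' ↔ z = x') (hd' : ∀ z, E z d' ↔ z = x' ∨ z = y')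
    (hp : ∀ z, E z p ↔ z = s ∨ z = d) (hp' : ∀ z, E z p ↔ z = s' ∨ z = d') :
    x = x' ∧ y = y' := by
  have hx : x = x' := by
    have h1 : E s p := (hp s).2 (Or.inl rfl)
    rcases (hp' s).1 h1 with h | h
    · have h2 : E x' s' := (hs' x').2 rfl
      rw [← h] at h2
      exact ((hs x').1 h2).symm
    · have h2 : E x' d' := (hd' x').2 (Or.inl rfl)
      rw [← h] at h2
      exact ((hs x').1 h2).symm
  refine ⟨hx, ?_⟩
  have h1 : E d p := (hp d).2 (Or.inr rfl)
  rcases (hp' d).1 h1 with h | h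
  · have h2 : E y d := (hd y).2 (Or.inr rfl)
    rw [h] at h2
    have hy : y = x' := (hs' y).1 h2
    have h3 : E d' p := (hp' d').2 (Or.inr rfl)
    have h4 : E y' d' := (hd' y').2 (Or.inr rfl)
    rcases (hp d').1 h3 with h5 | h5
    · rw [h5] at h4
      rw [hy, ← hx]
      exact ((hs y').1 h4).symm
    · rw [h5, h] at h4
      rw [hy]
      exact ((hs' y').1 h4).symm
  · have h2 : E y d := (hd y).2 (Or.inr rfl)
    rw [h] at h2
    rcases (hd' y).1 h2 with h3 | h3
    · have h4 : E y' d' := (hd' y').2 (Or.inr rfl)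
      rw [← h] at h4
      rcases (hd y').1 h4 with h5 | h5
      · rw [h3, ← hx, h5]
      · exact h5.symm
    · exact h3

private theorem op_PRN (hE : StEXT.{u}) {B : Type u} [CompleteBooleanAlgebra B] (x y x' y' : Nm B) :
    beq (opN x y) (opN x' y') = beq x x' ⊓ beq y y' := by
  have msg : ∀ (W : UF B) (a : Nm B) (z : QN W), QE W z (QN.mk W (sgN a)) ↔ z = QN.mk W a := by
    intro W a
    rw [QN_forall]
    intro z
    rw [QE_mk, bmem_sgN, QN_eq]
  have mdb : ∀ (W : UF B) (a b : Nm B) (z : QN W),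
      QE W z (QN.mk W (dbN a b)) ↔ z = QN.mk W a ∨ z = QN.mk W b := by
    intro W a b
    rw [QN_forall]
    intro z
    rw [QE_mk, bmem_dbN, W.sup_iff, QN_eq, QN_eq]
  apply le_antisymm
  · refine hE.2 B _ _ fun W h => ?_
    rw [← QN_eq] at h
    rw [W.inf_iff, ← QN_eq, ← QN_eq]
    have hp : ∀ z, QE W z (QN.mk W (opN x y)) ↔
        z = QN.mk W (sgN x') ∨ z = QN.mk W (dbN x' y') := by
      intro z
      rw [h]
      exact mdb W _ _ z
    exact kur_PRN (QE W) (msg W x) (mdb W x y) (msg W x') (mdb W x' y')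
      (mdb W (sgN x) (dbN x y)) hp
  · refine hE.2 B _ _ fun W h => ?_
    rw [W.inf_iff, ← QN_eq, ← QN_eq] at h
    rw [← QN_eq]
    have h1 : QN.mk W (sgN x) = QN.mk W (sgN x') :=
      hE.1 B W _ _ fun z => by rw [msg, msg, h.1]
    have h2 : QN.mk W (dbN x y) = QN.mk W (dbN x' y') :=
      hE.1 B W _ _ fun z => by rw [mdb, mdb, h.1, h.2]
    refine hE.1 B W _ _ fun z => ?_
    have e1 := mdb W (sgN x) (dbN x y) z
    have e2 := mdb W (sgN x') (dbN x' y') z
    rw [h1, h2] at e1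
    exact e1.trans e2.symm

private theorem rl_PRN {B : Type u} [CompleteBooleanAlgebra B] (f x y : Nm B) :
    Rl bmem beq f x y = bmem (opN x y) f := by
  rw [Rl]
  apply le_antisymm
  · refine iSup_le fun z => ?_
    rw [pr_PRN, inf_comm]
    exact bmem_congr_left _ _ _
  · refine le_iSup_of_le (opN x y) ?_
    rw [pr_PRN, beq_refl, inf_top_eq]

theorem hPRN (hE : StEXT.{u}) : StPRN.{u} :=
  ⟨fun _ _ w x => sg_PRN w x, fun _ _ w x y => db_PRN w x y, fun _ _ z x y => pr_PRN z x y,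
    fun _ _ x y x' y' => op_PRN hE x y x' y', fun _ _ f x y => rl_PRN f x y⟩

end Pool.Agent.Helper24.FR
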