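import Pool.Agent.Helper24.FR.StVI

set_option autoImplicit false

universe u

namespace Pool.Agent.Helper24.FR

/-- finite support of satisfaction -/
private theorem supp_PSB {N : Type u} (E : N → N → Prop) (φ : Fml) :
    ∃ n : ℕ, ∀ v w : ℕ → N, (∀ i < n, v i = w i) → (Sat E φ v ↔ Sat E φ w) := by
  induction φ with
  | mem i j =>
    refine ⟨i + j + 1, fun v w h => ?_⟩
    unfold Sat
    rw [h i (by omega), h j (by omega)]
  | eq i j =>
    refine ⟨i + j + 1, fun v w h => ?_⟩
    unfold Sat
    rw [h i (by omega), h j (by omega)]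
  | bot => exact ⟨0, fun v w _ => Iff.rfl⟩
  | imp φ ψ h1 h2 =>
    obtain ⟨n, hn⟩ := h1
    obtain ⟨m, hm⟩ := h2
    refine ⟨n + m, fun v w h => ?_⟩
    unfold Sat
    rw [hn v w (fun i hi => h i (by omega)), hm v w (fun i hi => h i (by omega))]
  | all i φ h =>
    obtain ⟨n, hn⟩ := h
    refine ⟨n, fun v w h => ?_⟩
    unfold Sat
    refine forall_congr' fun x => hn _ _ fun k hk => ?_
    by_cases hki : k = i
    · subst hki
      rw [Function.update_self, Function.update_self]
    · rw [Function.update_of_ne hki, Function.update_of_ne hki, h k hk]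

private theorem pair_PSB {N : Type u} {E : N → N → Prop} (hZ : ZFC E) (x y : N) :
    ∃ p, PPair E p x y := by
  obtain ⟨s, hs⟩ := hZ.pair x x
  obtain ⟨d, hd⟩ := hZ.pair x y
  obtain ⟨p, hp⟩ := hZ.pair s d
  refine ⟨p, fun w => (hp w).trans (or_congr ?_ ?_)⟩
  · constructor
    · rintro rfl z
      rw [hs z]
      exact or_self_iff
    · intro h
      refine hZ.ext _ _ fun z => ?_
      rw [h z, hs z]
      exact or_self_iff.symm
  · constructor
    · rintro rfl z
      exact hd z
    · intro h
      refine hZ.ext _ _ fun z => ?_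
      rw [h z, hd z]

private theorem inj_PSB {N : Type u} {E : N → N → Prop} (hZ : ZFC E) (p x y x' y' : N)
    (h : PPair E p x y) (h' : PPair E p x' y') : x = x' ∧ y = y' := by
  obtain ⟨s, hs⟩ := hZ.pair x x
  obtain ⟨d, hd⟩ := hZ.pair x y
  obtain ⟨d', hd'⟩ := hZ.pair x' y'
  have hx : x = x' := by
    have h1 : E s p := (h s).2 (Or.inl fun z => by rw [hs z]; exact or_self_iff)
    have h2 : E x' s := by
      rcases (h' s).1 h1 with h3 | h3
      · exact (h3 x').2 rfl
      · exact (h3 x').2 (Or.inl rfl)
    rcases (hs x').1 h2 with h3 | h3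
    · exact h3.symm
    · exact h3.symm
  subst hx
  refine ⟨rfl, ?_⟩
  have h1 : y = x ∨ y = y' := by
    have h2 : E d p := (h d).2 (Or.inr hd)
    have h3 : E y d := (hd y).2 (Or.inr rfl)
    rcases (h' d).1 h2 with h4 | h4
    · exact Or.inl ((h4 y).1 h3)
    · exact (h4 y).1 h3
  have h1' : y' = x ∨ y' = y := by
    have h2 : E d' p := (h' d').2 (Or.inr hd')
    have h3 : E y' d' := (hd' y').2 (Or.inr rfl)
    rcases (h d').1 h2 with h4 | h4
    · exact Or.inl ((h4 y').1 h3)
    · exact (h4 y').1 h3
  rcases h1 with h1 | h1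
  · rcases h1' with h2 | h2
    · rw [h1, h2]
    · exact h2.symm
  · exact h1

theorem hPSB (hV : StPCV.{u}) : StPSB.{u} := by
  intro N E hZ
  refine ⟨pair_PSB hZ, inj_PSB hZ, fun φ v a b => ?_⟩
  obtain ⟨n, hn⟩ := supp_PSB E φ
  obtain ⟨c, hc⟩ := hZ.pair a b
  obtain ⟨t, ht⟩ := hZ.union c
  obtain ⟨r, hr⟩ := hZ.power t
  obtain ⟨q, hq⟩ := hZ.power r
  have hta : ∀ x, E x a → E x t := fun x hx => (ht x).2 ⟨a, hx, (hc a).2 (Or.inl rfl)⟩
  have htb : ∀ x, E x b → E x t := fun x hx => (ht x).2 ⟨b, hx, (hc b).2 (Or.inr rfl)⟩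
  have hpq : ∀ p x y, E x a → E y b → PPair E p x y → E p q := by
    intro p x y hx hy hp
    refine (hq p).2 fun w hw => (hr w).2 fun z hz => ?_
    rcases (hp w).1 hw with h1 | h1
    · rw [(h1 z).1 hz]; exact hta x hx
    · rcases (h1 z).1 hz with h2 | h2
      · rw [h2]; exact hta x hx
      · rw [h2]; exact htb y hy
  set s : ℕ := n + 2 with hs
  set s' : ℕ := n + 3 with hs'
  set s'' : ℕ := n + 4 with hs''
  set v' : ℕ → N := Function.update (Function.update v s' a) s'' b with hv'
  obtain ⟨f, hf⟩ := hZ.sep (fEx s (fAnd (.eq s 0) (fEx 0 (fEx 1 (fAnd (.mem 0 s')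
    (fAnd (.mem 1 s'') (fAnd (cPr s 0 1) φ))))))) v' q
  have key : ∀ p, E p f ↔ ∃ x y, E x a ∧ E y b ∧ PPair E p x y ∧
      Sat E φ (Function.update (Function.update v 0 x) 1 y) := by
    intro p
    rw [hf p, ← ev_prop]
    have hval : ∀ x y : N, Sat E φ (Function.update (Function.update (Function.update
        (Function.update v' 0 p) s p) 0 x) 1 y) ↔
        Sat E φ (Function.update (Function.update v 0 x) 1 y) := by
      intro x y
      refine hn _ _ fun i hi => ?_
      by_cases h1 : i = 1
      · subst h1; rw [Function.update_self, Function.update_self]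
      rw [Function.update_of_ne h1, Function.update_of_ne h1]
      by_cases h0 : i = 0
      · subst h0; rw [Function.update_self, Function.update_self]
      rw [Function.update_of_ne h0, Function.update_of_ne h0,
        Function.update_of_ne (by omega : i ≠ s), Function.update_of_ne h0, hv',
        Function.update_of_ne (by omega : i ≠ s''), Function.update_of_ne (by omega : i ≠ s')]
    have e1 : ∀ (m x y : N), (Function.update (Function.update (Function.update
        (Function.update v' 0 p) s m) 0 x) 1 y) s = m := by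
      intro m x y
      rw [Function.update_of_ne (by omega : s ≠ 1), Function.update_of_ne (by omega : s ≠ 0),
        Function.update_self]
    have e2 : ∀ (m x y : N), (Function.update (Function.update (Function.update
        (Function.update v' 0 p) s m) 0 x) 1 y) s' = a := by
      intro m x y
      rw [Function.update_of_ne (by omega : s' ≠ 1), Function.update_of_ne (by omega : s' ≠ 0),
        Function.update_of_ne (by omega : s' ≠ s), Function.update_of_ne (by omega : s' ≠ 0), hv',
        Function.update_of_ne (by omega : s' ≠ s''), Function.update_self]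
    have e3 : ∀ (m x y : N), (Function.update (Function.update (Function.update
        (Function.update v' 0 p) s m) 0 x) 1 y) s'' = b := by
      intro m x y
      rw [Function.update_of_ne (by omega : s'' ≠ 1), Function.update_of_ne (by omega : s'' ≠ 0),
        Function.update_of_ne (by omega : s'' ≠ s), Function.update_of_ne (by omega : s'' ≠ 0), hv',
        Function.update_self]
    have e4 : ∀ (m x y : N), (Function.update (Function.update (Function.update
        (Function.update v' 0 p) s m) 0 x) 1 y) 0 = x := by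
      intro m x y
      rw [Function.update_of_ne (by omega : (0 : ℕ) ≠ 1), Function.update_self]
    have e5 : ∀ (m x y : N), (Function.update (Function.update (Function.update
        (Function.update v' 0 p) s m) 0 x) 1 y) 1 = y := by
      intro m x y
      rw [Function.update_self]
    have e6 : ∀ m : N, (Function.update (Function.update v' 0 p) s m) s = m := by
      intro m
      rw [Function.update_self]
    have e7 : ∀ m : N, (Function.update (Function.update v' 0 p) s m) 0 = p := by
      intro m
      rw [Function.update_of_ne (by omega : (0 : ℕ) ≠ s), Function.update_self]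
    simp only [ev_ex, ev_and, ev_eq, ev_mem, ev_cPr, e1, e2, e3, e4, e5, e6, e7, ev_prop,
      iSup_Prop_eq, inf_Prop_eq]
    constructor
    · rintro ⟨-, m, rfl, x, y, hx, hy, hp, hφ⟩
      exact ⟨x, y, hx, hy, ((hV N E).2.1 _ _ _).1 hp, (hval x y).1 hφ⟩
    · rintro ⟨x, y, hx, hy, hp, hφ⟩
      exact ⟨hpq p x y hx hy hp, p, rfl, x, y, hx, hy, ((hV N E).2.1 _ _ _).2 hp,
        (hval x y).2 hφ⟩
  refine ⟨f, fun p hp => ?_, fun x y => ?_⟩
  · obtain ⟨x, y, hx, hy, hpp, -⟩ := (key p).1 hp
    exact ⟨x, y, hx, hy, hpp⟩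
  · constructor
    · rintro ⟨p, hp, hpp⟩
      obtain ⟨x', y', hx, hy, hpp', hφ⟩ := (key p).1 hp
      obtain ⟨rfl, rfl⟩ := inj_PSB hZ p x' y' x y hpp' hpp
      exact ⟨hx, hy, hφ⟩
    · rintro ⟨hx, hy, hφ⟩
      obtain ⟨p, hp⟩ := pair_PSB hZ x y
      exact ⟨p, (key p).2 ⟨x, y, hx, hy, hp, hφ⟩, hp⟩

end Pool.Agent.Helper24.FR
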