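import Pool.Agent.Helper24.FR.StII

/-!
# FR, module PTN: assembly of part II
-/

set_option autoImplicit false

universe u

namespace Pool.Agent.Helper24.FR

private theorem le_of_inf_compl_PTN {B : Type u} [CompleteBooleanAlgebra B] {a b : B}
    (h : a ⊓ bᶜ = ⊥) : a ≤ b := by
  rw [← disjoint_compl_right_iff, disjoint_iff_inf_le]
  exact h.le

private theorem disc_sub_PTN (hO : StONN.{u}) (B A : Type u) [CompleteBooleanAlgebra B]
    [LinearOrder A] [WellFoundedLT A] (S : Set A) : Disc fun a : S => on B a.1 := by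
  intro i j hij
  exact hO.1 B A i.1 j.1 (fun h => hij (Subtype.ext h))

theorem hPTN (hL : StLEN.{u}) (hO : StONN.{u}) (hC : StCLF.{u}) (hI : StCIN.{u}) (hD : StDCI.{u})
    (hN : StCDN.{u}) : StPTN.{u} := by
  intro B A _ _ _ w₀ w₁ k h0 h1 hwk hDi hk hl hb1 hb2 hb3 hcore
  have e1 : Ct bmem beq (on B w₁) = ⊤ := hN.2.2 B A w₀ w₁ h0 h1 hDi hb2
  have e2 : Sc bmem beq (on B w₁) (on B k) = ⊤ := by
    have h := hN.2.1 B A (Set.Iio k) w₁ hwk (fun a ha b hb => lt_trans hb ha)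
      (fun b hb β hβ => hk b hb β hβ) (fun β hβ => hb1 β hβ)
    rw [on_eq k]
    exact h
  have e3 : Sc bmem beq (on B k) (sn B (Set.univ : Set A)) = ⊤ :=
    hN.2.1 B A Set.univ k trivial (fun a _ b _ => trivial)
      (fun b hb β _ => hl b hb β) (fun β _ => hb3 β)
  rw [PosP, e1, e2, e3, top_inf_eq, top_inf_eq, top_inf_eq, eq_top_iff]
  refine le_iInf fun f => ?_
  rw [le_himp_iff, top_inf_eq]
  apply le_of_inf_compl_PTN
  by_contra hb0
  generalize hS : (⨆ X, Sub bmem X (sn B (Set.univ : Set A)) ⊓ (Le bmem beq X (on B k) ⊓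
    (Le bmem beq (on B k) X ⊓ Omi bmem beq f X (on B k)))) = S at hb0
  generalize hb : (Fn bmem beq f ⊓ Tot bmem beq f (sn B (Set.univ : Set A)) (on B k)) ⊓ Sᶜ = b₀
    at hb0
  have hFn : b₀ ≤ Fn bmem beq f := by
    rw [← hb]; exact inf_le_left.trans inf_le_left
  have hTot : b₀ ≤ Tot bmem beq f (sn B (Set.univ : Set A)) (on B k) := by
    rw [← hb]; exact inf_le_left.trans inf_le_right
  have hSc : b₀ ≤ Sᶜ := by
    rw [← hb]; exact inf_le_right
  have hG1 : ∀ (y : {y : Set A // y.Countable ∧ y.Infinite}) (c c' : Set.Iio k), c ≠ c' →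
      (b₀ ⊓ Rl bmem beq f (sn B y.1) (on B c.1)) ⊓ (b₀ ⊓ Rl bmem beq f (sn B y.1) (on B c'.1))
        = ⊥ := by
    intro y c c' hcc
    rw [eq_bot_iff]
    have h3 : beq (on B c.1) (on B c'.1) = ⊥ := hO.1 B A c.1 c'.1 (fun h => hcc (Subtype.ext h))
    rw [← h3]
    have h4 : b₀ ≤ Rl bmem beq f (sn B y.1) (on B c.1) ⊓ Rl bmem beq f (sn B y.1) (on B c'.1) ⇨
        beq (on B c.1) (on B c'.1) :=
      hFn.trans ((iInf_le _ (sn B y.1)).trans ((iInf_le _ (on B c.1)).trans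
        (iInf_le _ (on B c'.1))))
    rw [le_himp_iff] at h4
    exact (le_inf (inf_le_left.trans inf_le_left)
      (le_inf (inf_le_left.trans inf_le_right) (inf_le_right.trans inf_le_right))).trans h4
  have hG2 : ∀ (y : {y : Set A // y.Countable ∧ y.Infinite}),
      b₀ ≤ ⨆ c : Set.Iio k, b₀ ⊓ Rl bmem beq f (sn B y.1) (on B c.1) := by
    intro y
    have h3 : b₀ ≤ Sub bmem (sn B y.1) (sn B (Set.univ : Set A)) ⊓ Ci bmem beq (sn B y.1) ⇨
        ⨆ c, bmem c (on B k) ⊓ Rl bmem beq f (sn B y.1) c := hTot.trans (iInf_le _ (sn B y.1))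
    rw [(hO.2.2.1 B A y.1 Set.univ).1 (Set.subset_univ _), hI B A w₀ h0 y.1 y.2.1 y.2.2,
      top_inf_eq, le_himp_iff, inf_top_eq] at h3
    rw [← inf_iSup_eq]
    refine le_inf le_rfl (h3.trans (iSup_le fun c => ?_))
    rw [bmem_on, iSup_inf_eq]
    refine iSup_le fun j => le_iSup_of_le j ?_
    exact Rl_congr (by rw [beq_refl]; exact le_top) (by rw [beq_refl]; exact le_top) le_rfl
  obtain ⟨b', hb', hne', X, d, ⟨eX⟩, hX⟩ := hcore b₀ hb0
    (fun y c => b₀ ⊓ Rl bmem beq f (sn B y.1) (on B c.1)) hG1 hG2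
  apply hne'
  rw [eq_bot_iff]
  suffices hs : b' ≤ S by
    calc b' ≤ S ⊓ Sᶜ := le_inf hs (hb'.trans hSc)
      _ = ⊥ := inf_compl_self _
      _ ≤ ⊥ := le_rfl
  rw [← hS]
  refine le_iSup_of_le (sn B X) ?_
  refine le_inf ?_ (le_inf ?_ (le_inf ?_ ?_))
  · rw [(hO.2.2.1 B A X Set.univ).1 (Set.subset_univ _)]; exact le_top
  · rw [on_eq]
    exact (hL B (Set.Iio k) X (fun a => on B a.1) (fun a => on B a.1) b' (disc_sub_PTN hO B A _)
      (disc_sub_PTN hO B A _)).2 (hC.2.2.1 B b' _ _ eX.symm eX.symm.surjective)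
  · rw [on_eq]
    exact (hL B X (Set.Iio k) (fun a => on B a.1) (fun a => on B a.1) b' (disc_sub_PTN hO B A _)
      (disc_sub_PTN hO B A _)).2 (hC.2.2.1 B b' _ _ eX eX.surjective)
  · rw [Omi]
    refine le_iSup_of_le (on B d.1) (le_inf ?_ (le_iInf fun z => ?_))
    · rw [on_eq k, (hO.2.1 B A d.1 (Set.Iio k)).1 d.2]; exact le_top
    · rw [le_himp_iff, le_compl_iff_disjoint_right, disjoint_iff]
      by_contra hne
      obtain ⟨b3, hb3', hne3, y, hyX, hyc, hyi, hyz⟩ := hD B A hDi w₀ h0 X z _ hne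
        (inf_le_left.trans inf_le_right)
      apply hne3
      rw [eq_bot_iff]
      have h5 := hX ⟨y, hyc, hyi⟩ d hyX le_rfl
      rw [← h5]
      have h6 : b3 ≤ b' := hb3'.trans (inf_le_left.trans inf_le_left)
      refine le_inf h6 (le_inf (h6.trans hb') ?_)
      have h7 : b3 ≤ Rl bmem beq f z (on B d.1) := hb3'.trans inf_le_right
      have h8 := Rl_congr (f := f) (f' := f) (x := z) (x' := sn B y) (y := on B d.1)
        (y' := on B d.1) (b := b3) (by rw [beq_refl]; exact le_top) hyz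
        (by rw [beq_refl]; exact le_top)
      exact (le_inf le_rfl h7).trans h8

end Pool.Agent.Helper24.FR
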