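import Pool.Agent.Helper24.FR.StVII

/-!
# FR: module PTR (ordinals are comparable)
-/

set_option autoImplicit false

universe u

namespace Pool.Agent.Helper24.FR

section

variable {N : Type u} {E : N → N → Prop}

/-- `x` and `y` are comparable. -/
private def Co_PTR (E : N → N → Prop) (x y : N) : Prop := E x y ∨ x = y ∨ E y x

private theorem succ_PTR (hZ : ZFC E) (x : N) : ∃ s, ∀ z, E z s ↔ E z x ∨ z = x := by
  obtain ⟨a, ha⟩ := hZ.pair x x
  obtain ⟨b, hb⟩ := hZ.pair x a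
  obtain ⟨u, hu⟩ := hZ.union b
  refine ⟨u, fun z => ?_⟩
  rw [hu]
  constructor
  · rintro ⟨y, h1, h2⟩
    rcases (hb y).1 h2 with rfl | rfl
    · exact Or.inl h1
    · rcases (ha z).1 h1 with h | h
      · exact Or.inr h
      · exact Or.inr h
  · rintro (h | rfl)
    · exact ⟨x, h, (hb x).2 (Or.inl rfl)⟩
    · exact ⟨a, (ha z).2 (Or.inl rfl), (hb a).2 (Or.inr rfl)⟩

private theorem sepA_PTR (hZ : ZFC E) (a b : N) :
    ∃ c, ∀ x, E x c ↔ E x a ∧ ∃ y, E y b ∧ ¬ Co_PTR E x y := by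
  obtain ⟨c, hc⟩ := hZ.sep (.imp (.all 2 (.imp (.mem 2 1) (.imp (.imp (.mem 0 2) .bot)
    (.imp (.imp (.eq 0 2) .bot) (.mem 2 0))))) .bot) (fun _ => b) a
  refine ⟨c, fun x => ?_⟩
  rw [hc]
  refine and_congr Iff.rfl ?_
  have h1 : ∀ y : N, Function.update (Function.update (fun _ : ℕ => b) 0 x) 2 y 2 = y := by
    intro y; rw [Function.update_self]
  have h2 : ∀ y : N, Function.update (Function.update (fun _ : ℕ => b) 0 x) 2 y 1 = b := by
    intro y; rw [Function.update_of_ne (by omega), Function.update_of_ne (by omega)]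
  have h3 : ∀ y : N, Function.update (Function.update (fun _ : ℕ => b) 0 x) 2 y 0 = x := by
    intro y; rw [Function.update_of_ne (by omega), Function.update_self]
  simp only [Sat, h1, h2, h3]
  constructor
  · intro h
    by_contra hcon
    apply h
    intro y hy hxy hxy'
    by_contra hyx
    exact hcon ⟨y, hy, fun h4 => h4.elim hxy fun h5 => h5.elim hxy' hyx⟩
  · rintro ⟨y, hy, hco⟩ h
    apply hco
    by_cases hxy : E x y
    · exact Or.inl hxy
    · by_cases hxy' : x = y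
      · exact Or.inr (Or.inl hxy')
      · exact Or.inr (Or.inr (h y hy hxy hxy'))

private theorem sepB_PTR (hZ : ZFC E) (a b : N) :
    ∃ c, ∀ y, E y c ↔ E y a ∧ ¬ Co_PTR E b y := by
  obtain ⟨c, hc⟩ := hZ.sep (.imp (.imp (.imp (.mem 1 0) .bot)
    (.imp (.imp (.eq 1 0) .bot) (.mem 0 1))) .bot) (fun _ => b) a
  refine ⟨c, fun y => ?_⟩
  rw [hc]
  refine and_congr Iff.rfl ?_
  have h1 : Function.update (fun _ : ℕ => b) 0 y 0 = y := by rw [Function.update_self]
  have h2 : Function.update (fun _ : ℕ => b) 0 y 1 = b := by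
    rw [Function.update_of_ne (by omega)]
  simp only [Sat, h1, h2]
  constructor
  · intro h h4
    exact h fun h5 h6 => h4.elim (fun h7 => (h5 h7).elim) fun h7 => h7.elim (fun h8 => (h6 h8).elim) id
  · intro hco h
    apply hco
    by_cases hxy : E b y
    · exact Or.inl hxy
    · by_cases hxy' : b = y
      · exact Or.inr (Or.inl hxy')
      · exact Or.inr (Or.inr (h hxy hxy'))

private theorem trans_PTR {x s : N} (hx : POrd E x) (hs : E s x ∨ s = x) : PTrans E s := by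
  rcases hs with h | rfl
  · exact hx.2 s h
  · exact hx.1

private theorem mem_PTR {x s t : N} (hx : POrd E x) (hs : E s x ∨ s = x) (ht : E t s) :
    E t x ∨ t = x := by
  rcases hs with h | rfl
  · exact Or.inl (hx.1 s h t ht)
  · exact Or.inl ht

end

theorem hPTR : StPTR.{u} := by
  intro N E hZ x₀ y₀ hx₀ hy₀
  by_contra hcon
  obtain ⟨xp, hxp⟩ := succ_PTR hZ x₀
  obtain ⟨yp, hyp⟩ := succ_PTR hZ y₀
  obtain ⟨A, hA⟩ := sepA_PTR hZ xp yp
  obtain ⟨x₁, hx₁, hmin⟩ := hZ.found A ⟨x₀, (hA x₀).2 ⟨(hxp x₀).2 (Or.inr rfl), y₀,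
    (hyp y₀).2 (Or.inr rfl), hcon⟩⟩
  obtain ⟨hx₁p, y', hy', hco'⟩ := (hA x₁).1 hx₁
  obtain ⟨B, hB⟩ := sepB_PTR hZ yp x₁
  obtain ⟨y₁, hy₁, hmin'⟩ := hZ.found B ⟨y', (hB y').2 ⟨hy', hco'⟩⟩
  obtain ⟨hy₁p, hco⟩ := (hB y₁).1 hy₁
  have hx₁q := (hxp x₁).1 hx₁p
  have hy₁q := (hyp y₁).1 hy₁p
  have htx := trans_PTR hx₀ hx₁q
  have hty := trans_PTR hy₀ hy₁q
  apply hco
  refine Or.inr (Or.inl (hZ.ext _ _ fun s => ⟨fun hs => ?_, fun ht => ?_⟩))
  · have h1 : E s xp := (hxp s).2 (mem_PTR hx₀ hx₁q hs)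
    have h2 : Co_PTR E s y₁ := by
      by_contra h3
      exact hmin s hs ((hA s).2 ⟨h1, y₁, hy₁p, h3⟩)
    rcases h2 with h | h | h
    · exact h
    · rw [h] at hs
      exact absurd (Or.inr (Or.inr hs)) hco
    · exact absurd (Or.inr (Or.inr (htx s hs y₁ h))) hco
  · have h1 : E s yp := (hyp s).2 (mem_PTR hy₀ hy₁q ht)
    have h2 : Co_PTR E x₁ s := by
      by_contra h3
      exact hmin' s ht ((hB s).2 ⟨h1, h3⟩)
    rcases h2 with h | h | h
    · exact absurd (Or.inl (hty s ht x₁ h)) hco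
    · rw [← h] at ht
      exact absurd (Or.inl ht) hco
    · exact h

end Pool.Agent.Helper24.FR
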