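import Pool.Agent.Helper24.FR.StI

/-!
# FR, module PUN (helper4): pairing and union
-/

set_option autoImplicit false

universe u

namespace Pool.Agent.Helper24.FR

private theorem ex_PUN {B : Type u} [CompleteBooleanAlgebra B] (z x : Nm B) :
    Ex fun y => bmem z y ⊓ bmem y x := by
  intro y y'
  refine le_inf ?_ ?_
  · exact (le_inf inf_le_left (inf_le_right.trans inf_le_left)).trans (bmem_congr_right z y y')
  · exact (le_inf inf_le_left (inf_le_right.trans inf_le_right)).trans (bmem_congr_left y y' x)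

private theorem union_PUN (B : Type u) [CompleteBooleanAlgebra B] (x : Nm B) :
    ∃ t, ∀ z, bmem z t = ⨆ y, bmem z y ⊓ bmem y x := by
  refine ⟨Nm.mk (Σ i : x.ix, (x.el i).ix) (fun s => (x.el s.1).el s.2)
    (fun s => x.vl s.1 ⊓ (x.el s.1).vl s.2), fun z => ?_⟩
  rw [bmem]
  apply le_antisymm
  · refine iSup_le fun s => le_iSup_of_le (x.el s.1) ?_
    refine le_inf ?_ ?_
    · conv_rhs => rw [bmem_def]
      exact le_iSup_of_le s.2 (le_inf (inf_le_left.trans inf_le_right) inf_le_right)
    · exact (inf_le_left.trans inf_le_left).trans (vl_le_bmem x s.1)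
  · refine iSup_le fun y => ?_
    conv_lhs => rw [bmem_def y x]
    rw [inf_iSup_eq]
    refine iSup_le fun i => ?_
    have h1 : bmem z y ⊓ (x.vl i ⊓ beq y (x.el i)) ≤ x.vl i ⊓ bmem z (x.el i) :=
      le_inf (inf_le_right.trans inf_le_left)
        ((le_inf (inf_le_right.trans inf_le_right) inf_le_left).trans
          (bmem_congr_right z y (x.el i)))
    refine h1.trans ?_
    rw [bmem_def, inf_iSup_eq]
    refine iSup_le fun j => le_iSup_of_le (⟨i, j⟩ : Σ i : x.ix, (x.el i).ix) ?_
    exact le_inf (le_inf inf_le_left (inf_le_right.trans inf_le_left))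
      (inf_le_right.trans inf_le_right)

theorem hPUN : StPUN.{u} := by
  refine ⟨?_, union_PUN, ?_⟩
  · intro B _ W x y
    induction x using QN.ind' with
    | h x =>
    induction y using QN.ind' with
    | h y =>
    refine ⟨QN.mk W (dbN x y), ?_⟩
    rw [QN_forall]
    intro w
    rw [QE_mk, bmem_dbN, W.sup_iff, QN_eq, QN_eq]
  · intro B _ W x
    induction x using QN.ind' with
    | h x =>
    obtain ⟨t, ht⟩ := union_PUN B x
    refine ⟨QN.mk W t, ?_⟩
    rw [QN_forall]
    intro z
    rw [QE_mk, ht, W.iSup_iff _ (ex_PUN z x), QN_exists]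
    refine exists_congr fun y => ?_
    rw [W.inf_iff, QE_mk, QE_mk]

end Pool.Agent.Helper24.FR
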