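import Pool.Agent.Helper24.FR.StII

/-!
# FR, module PWN: the power set of `ω`
-/

set_option autoImplicit false

universe u

namespace Pool.Agent.Helper24.FR

theorem hPWN (hO : StONN.{u}) (hD : StDSU.{u}) : StPWN.{u} := by
  intro B A _ _ _ hDi w hw
  have hcount : (Set.Iio w).Countable := by
    have h2 : ∀ a ∈ Set.Iio w, (Set.Iio a).Finite := fun a ha => hw.2 a ha
    -- the rank function `a ↦ card (Iio a)` is injective on `Iio w`
    rw [Set.countable_iff_exists_injOn]
    refine ⟨fun a => (Set.Iio a).ncard, ?_⟩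
    intro a ha b hb hab
    by_contra hne
    rcases lt_or_gt_of_ne hne with h | h
    · have h3 : (Set.Iio a).ncard < (Set.Iio b).ncard := by
        apply Set.ncard_lt_ncard _ (h2 b hb)
        refine ⟨fun x hx => lt_trans hx h, fun hs => ?_⟩
        exact lt_irrefl a (hs h)
      exact absurd hab h3.ne
    · have h3 : (Set.Iio b).ncard < (Set.Iio a).ncard := by
        apply Set.ncard_lt_ncard _ (h2 a ha)
        refine ⟨fun x hx => lt_trans hx h, fun hs => ?_⟩
        exact lt_irrefl b (hs h)
      exact absurd hab h3.ne'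
  constructor
  · rw [Pw, eq_top_iff]
    refine le_iInf fun z => ?_
    rw [bi, bmem_fam]
    refine le_inf ?_ ?_
    · rw [le_himp_iff, top_inf_eq]
      refine iSup_le fun S => ?_
      have h1 : Sub bmem (sn B S.1) (sn B (Set.Iio w)) = ⊤ := (hO.2.2.1 B A S.1 (Set.Iio w)).1 S.2
      have h2 := Sub_congr (x := sn B S.1) (y := sn B (Set.Iio w)) (x' := z) (y' := on B w)
        (b := beq z (sn B S.1)) (by rw [beq_comm]) (by rw [← on_eq, beq_refl]; exact le_top)
      rw [h1, inf_top_eq] at h2
      exact h2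
    · rw [le_himp_iff, top_inf_eq]
      by_contra hc
      have hne : Sub bmem z (on B w) ⊓
          (⨆ S : {S : Set A // S ⊆ Set.Iio w}, beq z (sn B S.1))ᶜ ≠ ⊥ := by
        intro h0
        apply hc
        rw [← disjoint_compl_right_iff, disjoint_iff_inf_le]
        exact h0.le
      obtain ⟨b', hb', hne', y, hy, hby⟩ := hD B A hDi (Set.Iio w) z _ hne hcount
        (by rw [← on_eq]; exact inf_le_left)
      apply hne'
      rw [eq_bot_iff]
      have h3 : b' ≤ ⨆ S : {S : Set A // S ⊆ Set.Iio w}, beq z (sn B S.1) :=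
        hby.trans (le_iSup (fun S : {S : Set A // S ⊆ Set.Iio w} => beq z (sn B S.1)) ⟨y, hy⟩)
      calc b' ≤ (⨆ S : {S : Set A // S ⊆ Set.Iio w}, beq z (sn B S.1)) ⊓
            (⨆ S : {S : Set A // S ⊆ Set.Iio w}, beq z (sn B S.1))ᶜ :=
            le_inf h3 (hb'.trans inf_le_right)
        _ = ⊥ := inf_compl_self _
        _ ≤ ⊥ := le_rfl
  · intro S T hST
    exact (hO.2.2.1 B A S.1 T.1).2 (fun h => hST (Subtype.ext h))

end Pool.Agent.Helper24.FR
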