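import Pool.Agent.Helper24.FR.StV

/-!
# FR, module R31
-/

set_option autoImplicit false

open Cardinal Set Filter

namespace Pool.Agent.Helper24.FR

theorem hR31 (hR : StRES) (hN : StCNT) (hC : StCNU) (hS : StUSE) (hL : StULR) : StR31 := by
  intro A _ _ κ U d i hu hd f hf
  classical
  let ξ : Set A → A := fun x => if h : ∃ ξ, ξ < d x ∧ isP ξ (f x) then h.choose else κ
  have h1 : ∀ᶠ x in (U : Filter (Set A)), ξ x < d x ∧ isP (ξ x) (f x) := by
    filter_upwards [hd.good, hf] with x hg hx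
    obtain ⟨η, hη, hη'⟩ := hR.2.2.2.2.2 A (d x) (f x) hg.rg hx
    have h : ∃ ξ, ξ < d x ∧ isP ξ (f x) := ⟨η, hη, hη' η le_rfl⟩
    have e : ξ x = h.choose := dif_pos h
    rw [e]
    exact h.choose_spec
  have h2 : ∀ᶠ x in (U : Filter (Set A)), ξ x ∈ x ∧ ξ x < κ := by
    filter_upwards [hd.good, h1] with x hg hx
    have h3 : ξ x ∈ x ∩ Iio κ := by
      rw [hg.cap]; exact hx.1
    exact ⟨h3.1, h3.2⟩
  obtain ⟨a, ha⟩ := hu.norm ξ (h2.mono fun x hx => hx.1)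
  have haκ : a < κ := by
    obtain ⟨x, hx1, hx2⟩ := (ha.and h2).exists
    rw [← hx1]; exact hx2.2
  have hcard : #{p : Ra A | isP a p} < #(Iio κ) :=
    hN.1 A #(Iio κ) hu.unc.le (hC.1 A κ (hL A κ U hu)) a (hu.kini a haκ)
  obtain ⟨p, hp, hpe⟩ := hS.2.2.1 A κ U hu (Ra A) {p : Ra A | isP a p} hcard f (by
    filter_upwards [ha, h1] with x hx hx1
    rw [← hx]; exact hx1.2)
  exact ⟨p, hR.2.2.2.2.1 A κ a p hp haκ.le, hpe⟩

end Pool.Agent.Helper24.FR
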