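import Pool.Agent.Helper24.FR.StV

/-!
# FR, part V: module R32
-/

set_option autoImplicit false

open Cardinal Set Filter

namespace Pool.Agent.Helper24.FR

/-- normality for triples `(α, η, p)` -/
theorem dec_R32 (h1 : StR31) {A : Type} [LinearOrder A] [WellFoundedLT A] {κ : A}
    {U : Ultrafilter (Set A)} {d : Set A → A} {i : Set A → A → A} (hH : Hu κ U) (hD : Dat κ U d i)
    (P : Set A → A → A → Ra A → Prop)
    (hP : ∀ α η p, η < κ → isP κ p → ∀ᶠ x in (U : Filter (Set A)), P x α η p) :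
    ∀ᶠ x in (U : Filter (Set A)), ∀ α ∈ x, ∀ η < d x, ∀ p, isP (d x) p → P x α η p := by
  classical
  by_contra hc
  rw [← Ultrafilter.eventually_not] at hc
  have hc' : ∀ᶠ x in (U : Filter (Set A)), ∃ a : A × A × Ra A, a.1 ∈ x ∧ a.2.1 < d x ∧
      isP (d x) a.2.2 ∧ ¬ P x a.1 a.2.1 a.2.2 := by
    filter_upwards [hc] with x hx
    push Not at hx
    obtain ⟨α, hα, η, hη, p, hp, h⟩ := hx
    exact ⟨⟨α, η, p⟩, hα, hη, hp, h⟩
  have hne : Nonempty (A × A × Ra A) := by
    obtain ⟨x, a, _⟩ := hc'.exists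
    exact ⟨a⟩
  obtain ⟨f, hf⟩ : ∃ f : Set A → A × A × Ra A, ∀ᶠ x in (U : Filter (Set A)), (f x).1 ∈ x ∧
      (f x).2.1 < d x ∧ isP (d x) (f x).2.2 ∧ ¬ P x (f x).1 (f x).2.1 (f x).2.2 := by
    refine ⟨fun x => if h : ∃ a : A × A × Ra A, a.1 ∈ x ∧ a.2.1 < d x ∧
      isP (d x) a.2.2 ∧ ¬ P x a.1 a.2.1 a.2.2 then h.choose else hne.some, ?_⟩
    filter_upwards [hc'] with x hx
    have := hx.choose_spec
    simpa only [dif_pos hx] using this
  obtain ⟨α, hα⟩ := hH.norm (fun x => (f x).1) (hf.mono fun x hx => hx.1)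
  obtain ⟨η, hη⟩ := hH.norm (fun x => (f x).2.1) (by
    filter_upwards [hf, hD.good] with x hx hg
    have : (f x).2.1 ∈ x ∩ Iio κ := by rw [hg.cap]; exact hx.2.1
    exact this.1)
  obtain ⟨p, hpκ, hp⟩ := h1 A κ U d i hH hD (fun x => (f x).2.2) (hf.mono fun x hx => hx.2.2.1)
  have hηκ : η < κ := by
    obtain ⟨x, hx1, hx2, hx3⟩ := (hf.and (hη.and hD.good)).exists
    rw [← hx2]
    exact hx1.2.1.trans hx3.lt
  obtain ⟨x, hx1, hx2, hx3, hx4, hx5⟩ := (hf.and (hα.and (hη.and (hp.and (hP α η p hηκ hpκ))))).exists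
  apply hx1.2.2.2
  rw [hx2, hx3, hx4]
  exact hx5

/-- the inverse of `i` on `Iio κ` -/
noncomputable def inv_R32 {A : Type} [LinearOrder A] (κ : A) (i : A → A) (z : A) : Option A := by
  classical exact if h : ∃ z', z' < κ ∧ i z' = z then some h.choose else none

theorem inv_some_R32 {A : Type} [LinearOrder A] {κ : A} {i : A → A} {z v : A}
    (h : inv_R32 κ i z = some v) : v < κ ∧ i v = z := by
  unfold inv_R32 at h
  split_ifs at h with hc
  rw [Option.some.injEq] at h
  rw [← h]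
  exact hc.choose_spec

theorem inv_of_R32 {A : Type} [LinearOrder A] {κ : A} {i : A → A} (hi : StrictMonoOn i (Iio κ))
    {v : A} (hv : v < κ) : inv_R32 κ i (i v) = some v := by
  have hc : ∃ z', z' < κ ∧ i z' = i v := ⟨v, hv, rfl⟩
  unfold inv_R32
  rw [dif_pos hc, Option.some.injEq]
  exact hi.injOn hc.choose_spec.1 hv hc.choose_spec.2

/-- the collapsed name -/
noncomputable def tr_R32 {A : Type} [LinearOrder A] (κ δ : A) (i : A → A) (n : Na A) : Na A := by
  classical exact fun p => if isP δ p then (n p).bind (inv_R32 κ i) else none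

/-- the collapsed term condition -/
noncomputable def cs_R32 {A : Type} [LinearOrder A] (κ δ : A) (i : A → A) (t : Ta A) : Ta A := by
  classical exact fun z => if z.1 < κ ∧ z.2 < δ then (t (i z.1, z.2)).map (tr_R32 κ δ i) else none

theorem cs_some_R32 {A : Type} [LinearOrder A] {κ δ : A} {i : A → A} {t : Ta A} {α η : A} {n' : Na A}
    (h : cs_R32 κ δ i t (α, η) = some n') :
    α < κ ∧ η < δ ∧ ∃ n, t (i α, η) = some n ∧ n' = tr_R32 κ δ i n := by
  unfold cs_R32 at h
  split_ifs at h with hc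
  rw [Option.map_eq_some_iff] at h
  obtain ⟨n, hn, he⟩ := h
  exact ⟨hc.1, hc.2, n, hn, he.symm⟩

theorem hR32 (hR : StRES) (hS : StUSE) (hL : StULR) (h1 : StR31) : StR32 := by
  classical
  intro A _ _ κ U d i hH hD t ht
  obtain ⟨-, -, -, -, R5, R6⟩ := hR
  have hrg : Rg κ := (hL A κ U hH).rg
  -- (i)
  have f1 := dec_R32 h1 hH hD (fun x α η p => ∀ n z, t (α, η) = some n → n p = some z → z ∈ x) (by
    intro α η p _ _
    by_cases hc : ∃ n z, t (α, η) = some n ∧ n p = some z
    · obtain ⟨n, z, h2, h3⟩ := hc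
      filter_upwards [hH.fine z] with x hx n' z' h4 h5
      rw [h2, Option.some.injEq] at h4
      subst h4
      rw [h3, Option.some.injEq] at h5
      rw [← h5]; exact hx
    · exact Filter.Eventually.of_forall fun x n z h2 h3 => absurd ⟨n, z, h2, h3⟩ hc)
  -- (ii)
  have f2 := dec_R32 h1 hH hD (fun x α η p => ∀ n, t (α, η) = some n →
      ∃ p', isP (d x) p' ∧ Xt p' p ∧ n p' ≠ none) (by
    intro α η p _ hp
    by_cases hc : ∃ n, t (α, η) = some n
    · obtain ⟨n, h2⟩ := hc
      obtain ⟨p', hp', hx', hn'⟩ := (ht.dom α η n h2).2.2.den p hp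
      obtain ⟨ξ, hξ, hξ'⟩ := R6 A κ p' hrg hp'
      filter_upwards [hD.big ξ hξ] with x hx n' h4
      rw [h2, Option.some.injEq] at h4
      subst h4
      exact ⟨p', hξ' _ hx.le, hx', hn'⟩
    · exact Filter.Eventually.of_forall fun x n h2 => absurd ⟨n, h2⟩ hc)
  -- (iii)
  obtain ⟨e⟩ : Nonempty ({z : A × A | t z ≠ none} ↪ Iio κ) := by
    have := ht.siz
    rwa [Cardinal.le_def] at this
  have f3 : ∀ᶠ x in (U : Filter (Set A)), ∀ α ∈ x, ∀ η < d x, ∀ h : t (α, η) ≠ none,
      ((e ⟨(α, η), h⟩ : Iio κ) : A) < d x := by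
    have hne : ∃ p : Ra A, ∀ k : A, isP k p := by
      refine ⟨fun _ => none, fun k => ⟨?_, ?_, ?_, ?_⟩⟩
      · intro γ β η v h; cases h
      · simp
      · intro γ; simp
      · intro γ hγ
        have : (Iio γ).Nonempty := by
          by_contra hne
          rw [Set.not_nonempty_iff_eq_empty] at hne
          have := hγ.1
          rw [hne] at this
          simp at this
        obtain ⟨ξ, hξ⟩ := this
        exact ⟨ξ, hξ, fun β η h => absurd rfl h⟩
    obtain ⟨p₀, hp₀⟩ := hne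
    have := dec_R32 h1 hH hD (fun x α η _ => ∀ h : t (α, η) ≠ none,
      ((e ⟨(α, η), h⟩ : Iio κ) : A) < d x) (by
      intro α η p _ _
      by_cases hc : t (α, η) ≠ none
      · filter_upwards [hD.big _ (e ⟨(α, η), hc⟩).2] with x hx h
        exact hx
      · exact Filter.Eventually.of_forall fun x h => absurd h hc)
    filter_upwards [this] with x hx α hα η hη h
    exact hx α hα η hη p₀ (hp₀ _) h
  -- (iv)
  obtain ⟨ξ, hξ, hξt⟩ := ht.hgt
  filter_upwards [f1, f2, f3, hD.big ξ hξ, hD.good] with x g1 g2 g3 g4 hg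
  have hmem : ∀ {α : A}, α < κ → i x α ∈ x := by
    intro α hα
    have h2 : i x α ∈ i x '' Iio κ := Set.mem_image_of_mem _ (Set.mem_Iio.2 hα)
    rwa [hg.img] at h2
  -- the collapsed names
  have hname : ∀ {α η : A} {n : Na A}, α < κ → η < d x → t (i x α, η) = some n →
      (∀ p, isP (d x) p → n p = (tr_R32 κ (d x) (i x) n p).map (i x)) ∧
      isN (d x) α (tr_R32 κ (d x) (i x) n) := by
    intro α η n hα hη hn
    have hN := (ht.dom _ _ _ hn).2.2
    have hv : ∀ p, isP (d x) p → ∀ z, n p = some z → ∃ z', z' < κ ∧ i x z' = z := by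
      intro p hp z hz
      have := g1 _ (hmem hα) η hη p hp n z hn hz
      rw [← hg.img] at this
      obtain ⟨z', h2, h3⟩ := this
      exact ⟨z', h2, h3⟩
    have htr : ∀ p, isP (d x) p → tr_R32 κ (d x) (i x) n p = (n p).bind (inv_R32 κ (i x)) := by
      intro p hp
      unfold tr_R32
      rw [if_pos hp]
    have hmap : ∀ p, isP (d x) p → n p = (tr_R32 κ (d x) (i x) n p).map (i x) := by
      intro p hp
      rw [htr p hp]
      cases hnp : n p with
      | none => rfl
      | some z =>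
        obtain ⟨z', hz', rfl⟩ := hv p hp z hnp
        rw [Option.bind_some, inv_of_R32 hg.mono hz']
        rfl
    refine ⟨hmap, ⟨?_, ?_, ?_⟩⟩
    · intro p v hpv
      have hp : isP (d x) p := by
        by_contra hc
        unfold tr_R32 at hpv
        rw [if_neg hc] at hpv
        cases hpv
      refine ⟨hp, ?_⟩
      have h2 := hpv
      rw [htr p hp, Option.bind_eq_some_iff] at h2
      obtain ⟨z, _, hz⟩ := h2
      have hvκ := (inv_some_R32 hz).1
      have h3 := hmap p hp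
      rw [hpv] at h3
      have h4 := (hN.dom p (i x v) h3).2
      exact (hg.mono.lt_iff_lt hvκ hα).1 h4
    · intro p p' v hpv hp' hxt
      have hp : isP (d x) p := by
        by_contra hc
        unfold tr_R32 at hpv
        rw [if_neg hc] at hpv
        cases hpv
      have h2 := hpv
      rw [htr p hp, Option.bind_eq_some_iff] at h2
      obtain ⟨z, _, hz⟩ := h2
      have hvκ := (inv_some_R32 hz).1
      have h3 := hmap p hp
      rw [hpv] at h3
      have h4 := hN.mon p p' (i x v) h3 (R5 A κ (d x) p' hp' hg.lt.le) hxt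
      rw [htr p' hp', h4, Option.bind_some, inv_of_R32 hg.mono hvκ]
    · intro p hp
      obtain ⟨p', hp', hx', hn'⟩ := g2 _ (hmem hα) η hη p hp n hn
      refine ⟨p', hp', hx', ?_⟩
      intro hc
      apply hn'
      rw [hmap p' hp', hc]
      rfl
  refine ⟨cs_R32 κ (d x) (i x) t, ⟨?_, ?_, ?_⟩, ?_⟩
  · intro α η n' h
    obtain ⟨hα, hη, n, hn, rfl⟩ := cs_some_R32 h
    exact ⟨hα, hη, (hname hα hη hn).2⟩
  · -- size
    have key : ∀ z : {z : A × A | cs_R32 κ (d x) (i x) t z ≠ none}, z.1.1 < κ ∧ z.1.2 < d x ∧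
        t (i x z.1.1, z.1.2) ≠ none := by
      rintro ⟨⟨α, η⟩, hz⟩
      obtain ⟨n', hn'⟩ := Option.ne_none_iff_exists'.1 hz
      obtain ⟨hα, hη, n, hn, -⟩ := cs_some_R32 hn'
      refine ⟨hα, hη, ?_⟩
      rw [hn]; simp
    rw [Cardinal.le_def]
    refine ⟨⟨fun z => ⟨(e ⟨(i x z.1.1, z.1.2), (key z).2.2⟩ : Iio κ), ?_⟩, ?_⟩⟩
    · exact g3 _ (hmem (key z).1) _ (key z).2.1 (key z).2.2
    · intro z z' hzz
      rw [Subtype.mk.injEq] at hzz
      have h2 := e.injective (Subtype.ext hzz)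
      rw [Subtype.mk.injEq, Prod.mk.injEq] at h2
      apply Subtype.ext
      apply Prod.ext
      · exact hg.mono.injOn (key z).1 (key z').1 h2.1
      · exact h2.2
  · refine ⟨ξ, g4, ?_⟩
    intro α η h
    obtain ⟨n', hn'⟩ := Option.ne_none_iff_exists'.1 h
    obtain ⟨hα, hη, n, hn, -⟩ := cs_some_R32 hn'
    apply hξt (i x α) η
    rw [hn]; simp
  · intro α hα η hη
    have hcs : cs_R32 κ (d x) (i x) t (α, η) =
        (t (i x α, η)).map (tr_R32 κ (d x) (i x)) := by
      unfold cs_R32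
      exact if_pos ⟨hα, hη⟩
    refine ⟨?_, ?_⟩
    · rw [hcs, Option.map_eq_none_iff]
    · intro n n' hn hn' p hp
      rw [hcs, hn, Option.map_some, Option.some.injEq] at hn'
      rw [← hn']
      exact (hname hα hη hn).1 p hp

end Pool.Agent.Helper24.FR
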