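import Pool.Agent.Helper24.FR.StV

/-!
# FR, module R33 (helper42)
-/

set_option autoImplicit false

open Cardinal Set Filter

namespace Pool.Agent.Helper24.FR

private theorem sk {X Y : Type} {l : Filter X} {P : X → Y → Prop} (h : ∀ᶠ x in l, ∃ y, P x y)
    (y0 : Y) : ∃ g : X → Y, ∀ᶠ x in l, P x (g x) := by
  classical
  refine ⟨fun x => if h : ∃ y, P x y then h.choose else y0, ?_⟩
  filter_upwards [h] with x hx
  rw [dif_pos hx]
  exact hx.choose_spec

section

variable {A : Type} [LinearOrder A]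

private def DD (κ : A) (i : Set A → A → A) (f : Set A → Ta A) (α η : A) (x : Set A) : Prop :=
  ∃ α' < κ, i x α' = α ∧ f x (α', η) ≠ none

private def VV (κ : A) (i : Set A → A → A) (f : Set A → Ta A) (α η : A) (p : Ra A) (z : A)
    (x : Set A) : Prop :=
  ∃ α' n' z', α' < κ ∧ z' < κ ∧ i x α' = α ∧ f x (α', η) = some n' ∧ n' p = some z' ∧ i x z' = z

private noncomputable def NN (κ : A) (U : Ultrafilter (Set A)) (i : Set A → A → A)
    (f : Set A → Ta A) (α η : A) : Na A :=
  open Classical in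
  fun p => if h : ∃ z, ∀ᶠ x in (U : Filter (Set A)), VV κ i f α η p z x then
    some h.choose else none

private noncomputable def TT (κ : A) (U : Ultrafilter (Set A)) (i : Set A → A → A)
    (f : Set A → Ta A) : Ta A :=
  open Classical in
  fun z => if z.2 < κ ∧ ∀ᶠ x in (U : Filter (Set A)), DD κ i f z.1 z.2 x then
    some (NN κ U i f z.1 z.2) else none

private theorem TT_ne {κ : A} {U : Ultrafilter (Set A)} {i : Set A → A → A} {f : Set A → Ta A}
    {α η : A} : TT κ U i f (α, η) ≠ none ↔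
      η < κ ∧ ∀ᶠ x in (U : Filter (Set A)), DD κ i f α η x := by
  unfold TT
  by_cases h : η < κ ∧ ∀ᶠ x in (U : Filter (Set A)), DD κ i f α η x
  · simp [h]
  · simp only [if_neg h, ne_eq, not_true_eq_false, false_iff]
    exact h

private theorem TT_some {κ : A} {U : Ultrafilter (Set A)} {i : Set A → A → A} {f : Set A → Ta A}
    {α η : A} {n : Na A} (h : TT κ U i f (α, η) = some n) :
    η < κ ∧ (∀ᶠ x in (U : Filter (Set A)), DD κ i f α η x) ∧ n = NN κ U i f α η := by
  have h1 := TT_ne.1 (by rw [h]; simp : TT κ U i f (α, η) ≠ none)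
  refine ⟨h1.1, h1.2, ?_⟩
  unfold TT at h
  rw [if_pos h1] at h
  exact (Option.some.inj h).symm

private theorem VV_uniq {κ : A} {i : Set A → A → A} {f : Set A → Ta A} {α η : A} {p : Ra A}
    {z z₂ : A} {x : Set A} (hm : StrictMonoOn (i x) (Iio κ)) (h1 : VV κ i f α η p z x)
    (h2 : VV κ i f α η p z₂ x) : z = z₂ := by
  obtain ⟨a, n, y, ha, hy, e1, e2, e3, e4⟩ := h1
  obtain ⟨b, m, w, hb, hw, e5, e6, e7, e8⟩ := h2
  have : a = b := hm.injOn ha hb (e1.trans e5.symm)
  subst this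
  rw [e2] at e6
  have := Option.some.inj e6
  subst this
  rw [e3] at e7
  have := Option.some.inj e7
  subst this
  exact e4.symm.trans e8

private theorem NN_some {κ : A} {U : Ultrafilter (Set A)} {i : Set A → A → A} {f : Set A → Ta A}
    (hm : ∀ᶠ x in (U : Filter (Set A)), StrictMonoOn (i x) (Iio κ)) {α η : A} {p : Ra A} {z : A} :
    NN κ U i f α η p = some z ↔ ∀ᶠ x in (U : Filter (Set A)), VV κ i f α η p z x := by
  unfold NN
  constructor
  · intro h
    by_cases h1 : ∃ z, ∀ᶠ x in (U : Filter (Set A)), VV κ i f α η p z x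
    · rw [dif_pos h1] at h
      rw [← Option.some.inj h]
      exact h1.choose_spec
    · rw [dif_neg h1] at h
      exact absurd h (by simp)
  · intro h
    have h1 : ∃ z, ∀ᶠ x in (U : Filter (Set A)), VV κ i f α η p z x := ⟨z, h⟩
    rw [dif_pos h1]
    congr 1
    obtain ⟨x, h2, h3, h4⟩ := (h1.choose_spec.and (h.and hm)).exists
    exact VV_uniq h4 h2 h3

end

theorem hR33 (hR : StRES) (hS : StUSE) (hL : StULR) (h1 : StR31) : StR33 := by
  intro A _ _ κ U d i hU hD f hf
  classical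
  obtain ⟨-, -, -, -, hR5, hR6⟩ := hR
  have hBig := hL A κ U hU
  have hm : ∀ᶠ x in (U : Filter (Set A)), StrictMonoOn (i x) (Iio κ) :=
    hD.good.mono fun x h => h.mono
  -- conditions of `P_κ` are conditions of `P_{d x}`
  have hP : ∀ p, isP κ p → ∀ᶠ x in (U : Filter (Set A)), isP (d x) p := by
    intro p hp
    obtain ⟨ξ, hξ, h⟩ := hR6 A κ p hBig.rg hp
    filter_upwards [hD.big ξ hξ] with x hx
    exact h _ hx.le
  -- elements of `Iio (d x)` are constant
  have hcd : ∀ g : Set A → A, (∀ᶠ x in (U : Filter (Set A)), g x < d x) →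
      ∃ a < κ, ∀ᶠ x in (U : Filter (Set A)), g x = a := by
    intro g hg
    obtain ⟨a, ha⟩ := hU.norm g (by
      filter_upwards [hg, hD.good] with x h1 h2
      have : g x ∈ x ∩ Iio κ := by rw [h2.cap]; exact h1
      exact this.1)
    refine ⟨a, ?_, ha⟩
    obtain ⟨x, h1, h2, h3⟩ := (ha.and (hg.and hD.good)).exists
    rw [← h1]
    exact h2.trans h3.lt
  have hci : ∀ g : Set A → A, (∀ᶠ x in (U : Filter (Set A)), g x < κ) →
      ∃ a, ∀ᶠ x in (U : Filter (Set A)), i x (g x) = a := by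
    intro g hg
    refine hU.norm (fun x => i x (g x)) ?_
    filter_upwards [hg, hD.good] with x h1 h2
    have : i x (g x) ∈ i x '' Iio κ := ⟨g x, h1, rfl⟩
    rw [h2.img] at this
    exact this
  set t := TT κ U i f with ht
  have htT : isT κ Set.univ t := by
    refine ⟨?_, ?_, ?_⟩
    · intro α η n hn
      obtain ⟨hη, hDD, rfl⟩ := TT_some hn
      refine ⟨Set.mem_univ _, hη, ?_, ?_, ?_⟩
      · intro p v hv
        rw [NN_some hm] at hv
        obtain ⟨x, ⟨α', n', z', hα', hz', e1, e2, e3, e4⟩, hg, hT⟩ :=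
          (hv.and (hD.good.and hf)).exists
        have hN := (hT.dom α' η n' e2).2.2
        have hd := hN.dom p z' e3
        refine ⟨hR5 A κ (d x) p hd.1 hg.lt.le, ?_⟩
        rw [← e4, ← e1]
        exact hg.mono hz' hα' hd.2
      · intro p p' v hv hp' hX
        rw [NN_some hm] at hv ⊢
        filter_upwards [hv, hf, hP p' hp'] with x hx hT hp
        obtain ⟨α', n', z', hα', hz', e1, e2, e3, e4⟩ := hx
        exact ⟨α', n', z', hα', hz', e1, e2, (hT.dom α' η n' e2).2.2.mon p p' z' e3 hp hX, e4⟩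
      · intro p hp
        have : ∀ᶠ x in (U : Filter (Set A)), ∃ y : Ra A × A × A × Na A, isP (d x) y.1 ∧ Xt y.1 p ∧
            y.2.1 < κ ∧ y.2.2.1 < κ ∧ i x y.2.1 = α ∧ f x (y.2.1, η) = some y.2.2.2 ∧
            y.2.2.2 y.1 = some y.2.2.1 := by
          filter_upwards [hDD, hf, hP p hp] with x hx hT hpx
          obtain ⟨α', hα', e1, e2⟩ := hx
          obtain ⟨n', e3⟩ := Option.ne_none_iff_exists'.1 e2
          have hN := (hT.dom α' η n' e3).2.2
          obtain ⟨p', hp', hX, hn'⟩ := hN.den p hpx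
          obtain ⟨z', e4⟩ := Option.ne_none_iff_exists'.1 hn'
          exact ⟨(p', α', z', n'), hp', hX, hα', (hN.dom _ _ e4).2.trans hα', e1, e3, e4⟩
        obtain ⟨g, hg⟩ := sk this (p, α, α, fun _ => none)
        obtain ⟨p', hp', hc⟩ := h1 A κ U d i hU hD (fun x => (g x).1) (hg.mono fun x h => h.1)
        obtain ⟨z, hz⟩ := hci (fun x => (g x).2.2.1) (hg.mono fun x h => h.2.2.2.1)
        refine ⟨p', hp', ?_, ?_⟩
        · obtain ⟨x, h1, h2⟩ := (hg.and hc).exists
          rw [← h2]; exact h1.2.1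
        · have : NN κ U i f α η p' = some z := by
            rw [NN_some hm]
            filter_upwards [hg, hc, hz] with x h1 h2 h3
            refine ⟨(g x).2.1, (g x).2.2.2, (g x).2.2.1, h1.2.2.1, h1.2.2.2.1, h1.2.2.2.2.1,
              h1.2.2.2.2.2.1, ?_, h3⟩
            rw [← h2]; exact h1.2.2.2.2.2.2
          rw [this]; simp
    · -- size
      have hinj : ∀ᶠ x in (U : Filter (Set A)), ∃ e : A × A → A,
          (∀ z, f x z ≠ none → e z < d x) ∧
          ∀ z z', f x z ≠ none → f x z' ≠ none → e z = e z' → z = z' := by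
        filter_upwards [hf] with x hT
        obtain ⟨e⟩ := Cardinal.le_def _ _ |>.1 hT.siz
        refine ⟨fun z => if h : f x z ≠ none then (e ⟨z, h⟩).1 else κ, ?_, ?_⟩
        · intro z hz
          simp only [dif_pos hz]
          exact (e ⟨z, hz⟩).2
        · intro z z' hz hz' h
          simp only [dif_pos hz, dif_pos hz'] at h
          have := e.injective (Subtype.ext h)
          exact congrArg Subtype.val this
      obtain ⟨e, he⟩ := sk hinj (fun _ => κ)
      have hζ : ∀ z : A × A, t z ≠ none → ∃ ζ < κ, ∀ᶠ x in (U : Filter (Set A)),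
          ∃ α' < κ, i x α' = z.1 ∧ f x (α', z.2) ≠ none ∧ e x (α', z.2) = ζ := by
        rintro ⟨α, η⟩ hz
        obtain ⟨-, hDD⟩ := TT_ne.1 hz
        obtain ⟨a, ha⟩ := sk (Y := A) hDD κ
        obtain ⟨ζ, hζ, hc⟩ := hcd (fun x => e x (a x, η)) (by
          filter_upwards [ha, he] with x h1 h2
          exact h2.1 _ h1.2.2)
        refine ⟨ζ, hζ, ?_⟩
        filter_upwards [ha, hc] with x h1 h2
        exact ⟨a x, h1.1, h1.2.1, h1.2.2, h2⟩
      have : Nonempty A := ⟨κ⟩
      choose! ζ hζ1 hζ2 using hζ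
      rw [Cardinal.le_def]
      refine ⟨⟨fun z => ⟨ζ z.1, hζ1 z.1 z.2⟩, ?_⟩⟩
      rintro ⟨z, hz⟩ ⟨z', hz'⟩ h
      have h' : ζ z = ζ z' := congrArg Subtype.val h
      have h2 := hζ2 z hz
      have h3 := hζ2 z' hz'
      obtain ⟨x, ⟨a, ha, e1, e2, e3⟩, ⟨b, hb, e4, e5, e6⟩, e7⟩ := (h2.and (h3.and he)).exists
      have := e7.2 _ _ e2 e5 (e3.trans (h'.trans e6.symm))
      have h4 : a = b := (Prod.ext_iff.1 this).1
      have h5 : z.2 = z'.2 := (Prod.ext_iff.1 this).2
      apply Subtype.ext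
      refine Prod.ext ?_ h5
      rw [← e1, ← e4, h4]
    · -- height
      have hh : ∀ᶠ x in (U : Filter (Set A)), ∃ ξ, ξ < d x ∧ ∀ α η, f x (α, η) ≠ none → η < ξ := by
        filter_upwards [hf] with x hT
        obtain ⟨ξ, h1, h2⟩ := hT.hgt
        exact ⟨ξ, h1, h2⟩
      obtain ⟨g, hg⟩ := sk hh κ
      obtain ⟨ξ, hξ, hc⟩ := hcd g (hg.mono fun x h => h.1)
      refine ⟨ξ, hξ, fun α η hz => ?_⟩
      obtain ⟨-, hDD⟩ := TT_ne.1 hz
      obtain ⟨x, ⟨a, ha, e1, e2⟩, h1, h2⟩ := (hDD.and (hg.and hc)).exists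
      rw [← h2]
      exact h1.2 _ _ e2
  refine ⟨t, htT, ?_⟩
  -- first part: definedness
  have hA1 : ∀ᶠ x in (U : Filter (Set A)), ∀ α < κ, ∀ η < d x,
      (f x (α, η) = none ↔ t (i x α, η) = none) := by
    by_contra hcon
    rw [← Ultrafilter.eventually_not] at hcon
    have hcon' : ∀ᶠ x in (U : Filter (Set A)), ∃ y : A × A, y.1 < κ ∧ y.2 < d x ∧
        ¬ (f x (y.1, y.2) = none ↔ t (i x y.1, y.2) = none) := by
      filter_upwards [hcon] with x hx
      push Not at hx
      by_contra h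
      push Not at h
      apply absurd hx
      push Not
      intro α hα η hη
      have := h (α, η) hα hη
      simp only at this
      tauto
    obtain ⟨g, hg⟩ := sk hcon' (κ, κ)
    obtain ⟨α, hα⟩ := hci (fun x => (g x).1) (hg.mono fun x h => h.1)
    obtain ⟨η, hηκ, hη⟩ := hcd (fun x => (g x).2) (hg.mono fun x h => h.2.1)
    by_cases hcase : ∀ᶠ x in (U : Filter (Set A)), f x ((g x).1, η) = none
    · have h2 : t (α, η) = none := by
        by_contra h
        obtain ⟨-, hDD⟩ := TT_ne.1 h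
        obtain ⟨x, ⟨a, ha, e1, e2⟩, e3, e4, e5, e6⟩ :=
          (hDD.and (hcase.and (hα.and (hg.and hm)))).exists
        have : a = (g x).1 := e6.injOn ha e5.1 (e1.trans e4.symm)
        rw [this] at e2
        exact e2 e3
      obtain ⟨x, e1, e2, e3, e4⟩ := (hcase.and (hα.and (hη.and hg))).exists
      apply e4.2.2
      rw [e3, e2, e1, h2]
    · rw [← Ultrafilter.eventually_not] at hcase
      have h2 : t (α, η) ≠ none := by
        rw [ht, TT_ne]
        refine ⟨hηκ, ?_⟩
        filter_upwards [hcase, hg, hα] with x e1 e2 e3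
        exact ⟨(g x).1, e2.1, e3, e1⟩
      obtain ⟨x, e1, e2, e3, e4⟩ := (hcase.and (hα.and (hη.and hg))).exists
      apply e4.2.2
      rw [e3, e2]
      exact ⟨fun h => absurd h e1, fun h => absurd h h2⟩
  have hA2 : ∀ᶠ x in (U : Filter (Set A)), ∀ α < κ, ∀ η < d x, ∀ n n', t (i x α, η) = some n →
      f x (α, η) = some n' → ∀ p, isP (d x) p → n p = (n' p).map (i x) := by
    by_contra hcon
    rw [← Ultrafilter.eventually_not] at hcon
    have hcon' : ∀ᶠ x in (U : Filter (Set A)), ∃ y : A × A × Na A × Na A × Ra A, y.1 < κ ∧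
        y.2.1 < d x ∧ t (i x y.1, y.2.1) = some y.2.2.1 ∧ f x (y.1, y.2.1) = some y.2.2.2.1 ∧
        isP (d x) y.2.2.2.2 ∧ y.2.2.1 y.2.2.2.2 ≠ (y.2.2.2.1 y.2.2.2.2).map (i x) := by
      filter_upwards [hcon] with x hx
      push Not at hx
      obtain ⟨α, hα, η, hη, n, n', h1, h2, p, hp, h3⟩ := hx
      exact ⟨(α, η, n, n', p), hα, hη, h1, h2, hp, h3⟩
    obtain ⟨g, hg⟩ := sk hcon' (κ, κ, fun _ => none, fun _ => none, fun _ => none)
    obtain ⟨α, hα⟩ := hci (fun x => (g x).1) (hg.mono fun x h => h.1)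
    obtain ⟨η, hηκ, hη⟩ := hcd (fun x => (g x).2.1) (hg.mono fun x h => h.2.1)
    obtain ⟨p, hp, hpc⟩ := h1 A κ U d i hU hD (fun x => (g x).2.2.2.2)
      (hg.mono fun x h => h.2.2.2.2.1)
    by_cases hcase : ∀ᶠ x in (U : Filter (Set A)), (g x).2.2.2.1 p = none
    · have h2 : NN κ U i f α η p = none := by
        by_contra h
        obtain ⟨z, hz⟩ := Option.ne_none_iff_exists'.1 h
        rw [NN_some hm] at hz
        obtain ⟨x, ⟨a, n', z', ha, hz', e1, e2, e3, e4⟩, e5, e6, e7, e8, e9⟩ :=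
          (hz.and (hcase.and (hα.and (hη.and (hg.and hm))))).exists
        have : a = (g x).1 := e9.injOn ha e8.1 (e1.trans e6.symm)
        have h5 := e8.2.2.2.1
        rw [e7, ← this, e2] at h5
        rw [← Option.some.inj h5, e3] at e5
        simp at e5
      obtain ⟨x, e1, e2, e3, e4, e5⟩ := (hcase.and (hα.and (hη.and (hpc.and hg)))).exists
      have h6 := e5.2.2.1
      rw [e2, e3] at h6
      have h7 := (TT_some h6).2.2
      apply e5.2.2.2.2.2
      rw [e4, h7, h2, e1]
      rfl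
    · rw [← Ultrafilter.eventually_not] at hcase
      obtain ⟨zz, hzz⟩ := sk (P := fun x (z : A) => (g x).2.2.2.1 p = some z)
        (hcase.mono fun x h => by
          obtain ⟨z, hz⟩ := Option.ne_none_iff_exists'.1 h
          exact ⟨z, hz⟩) κ
      have hzk : ∀ᶠ x in (U : Filter (Set A)), zz x < κ := by
        filter_upwards [hzz, hg, hf, hpc] with x e1 e2 e3 e4
        exact ((e3.dom _ _ _ e2.2.2.2.1).2.2.dom _ _ e1).2.trans e2.1
      obtain ⟨z, hz⟩ := hci zz hzk
      have h2 : NN κ U i f α η p = some z := by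
        rw [NN_some hm]
        filter_upwards [hzz, hg, hz, hα, hη, hzk] with x e1 e2 e3 e4 e5 e6
        refine ⟨(g x).1, (g x).2.2.2.1, zz x, e2.1, e6, e4, ?_, e1, e3⟩
        rw [← e5]; exact e2.2.2.2.1
      obtain ⟨x, e1, e2, e3, e4, e5, e6⟩ :=
        (hzz.and (hα.and (hη.and (hpc.and (hg.and hz))))).exists
      have h6 := e5.2.2.1
      rw [e2, e3] at h6
      have h7 := (TT_some h6).2.2
      apply e5.2.2.2.2.2
      rw [e4, h7, h2, e1, Option.map_some, e6]
  filter_upwards [hf, hA1, hA2] with x h1 h2 h3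
  exact ⟨h1, fun α hα η hη => ⟨h2 α hα η hη, h3 α hα η hη⟩⟩

end Pool.Agent.Helper24.FR
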