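import Pool.Agent.Helper24.FR.StV

/-!
# FR, module R34 (helper1)
-/

set_option autoImplicit false

open Cardinal Set Filter

namespace Pool.Agent.Helper24.FR

private theorem aeP_R34 (hR : StRES) {A : Type} [LinearOrder A] [WellFoundedLT A] {κ : A}
    {U : Ultrafilter (Set A)} {d : Set A → A} {i : Set A → A → A} (hκ : Rg κ)
    (hd : Dat κ U d i) {r : Ra A} (hr : isP κ r) :
    ∀ᶠ x in (U : Filter (Set A)), isP (d x) r := by
  obtain ⟨ξ, hξ, h⟩ := hR.2.2.2.2.2 A κ r hκ hr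
  filter_upwards [hd.big ξ hξ] with x hx
  exact h _ hx.le

private theorem fwd_R34 (hR : StRES) {A : Type} [LinearOrder A] [WellFoundedLT A] {κ δ : A}
    {i : A → A} {x : Set A} (hg : Gd κ x δ i) {t₁ t₂ s₁ s₂ : Ta A} {r₁ r₂ : Ra A}
    (h1 : CrX κ δ i t₁ s₁) (h2 : CrX κ δ i t₂ s₂) (h : Rle κ (r₁, t₁) (r₂, t₂)) :
    Rle δ (r₁, s₁) (r₂, s₂) := by
  refine ⟨h.1, ?_⟩
  rintro ⟨α', η⟩ n₂' hn₂'
  have hn₂'' : s₂ (α', η) = some n₂' := hn₂'
  obtain ⟨hα, hη, hN2⟩ := h2.1.dom α' η n₂' hn₂'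
  have hα' : α' < κ := hα
  have e2 := h2.2 α' hα' η hη
  have ne2 : t₂ (i α', η) ≠ none := fun h0 => by
    rw [e2.1.2 h0] at hn₂''
    exact Option.some_ne_none _ hn₂''.symm
  obtain ⟨n₂, hn₂⟩ := Option.ne_none_iff_exists'.1 ne2
  obtain ⟨n₁, hn₁, hF⟩ := h.2 (i α', η) n₂ hn₂
  have hn₁' : t₁ (i α', η) = some n₁ := hn₁
  have e1 := h1.2 α' hα' η hη
  have ne1 : s₁ (α', η) ≠ none := fun h0 => by
    rw [e1.1.1 h0] at hn₁'
    exact Option.some_ne_none _ hn₁'.symm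
  obtain ⟨n₁', hs₁⟩ := Option.ne_none_iff_exists'.1 ne1
  refine ⟨n₁', hs₁, ?_⟩
  intro q v v' hq hx hv hv'
  have hqκ : isP κ q := hR.2.2.2.2.1 A κ δ q hq hg.lt.le
  have f1 := e1.2 n₁ n₁' hn₁' hs₁ q hq
  have f2 := e2.2 n₂ n₂' hn₂ hn₂'' q hq
  rw [hv] at f1
  rw [hv'] at f2
  have f3 : i v = i v' := hF q (i v) (i v') hqκ hx f1 f2
  obtain ⟨-, -, hN1⟩ := h1.1.dom α' η n₁' hs₁
  have g1 : v < κ := (hN1.dom q v hv).2.trans hα'
  have g2 : v' < κ := (hN2.dom q v' hv').2.trans hα'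
  exact hg.mono.injOn g1 g2 f3

theorem hR34 (hR : StRES) (_hS : StUSE) (hL : StULR) : StR34 := by
  intro A _ _ κ U d i hu hd t₁ t₂ r₁ r₂ ht₁ ht₂ hr₁ hr₂
  have hκ : Rg κ := (hL A κ U hu).rg
  by_cases hle : Rle κ (r₁, t₁) (r₂, t₂)
  · filter_upwards [hd.good] with x hg s₁ s₂ h1 h2
    exact ⟨fun _ => fwd_R34 hR hg h1 h2 hle, fun _ => hle⟩
  · by_cases hX : Xt r₁ r₂
    · have hex : ∃ z n₂, t₂ z = some n₂ ∧ ∀ n', t₁ z = some n' → ¬ Feq κ r₁ n' n₂ := by
        by_contra hcon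
        push Not at hcon
        apply hle
        exact ⟨hX, fun z n hz => hcon z n hz⟩
      obtain ⟨⟨α, η⟩, n₂, hn₂, hbad⟩ := hex
      obtain ⟨-, hη, -⟩ := ht₂.dom α η n₂ hn₂
      rcases hc : t₁ (α, η) with _ | n₁
      · filter_upwards [hd.good, hu.fine α, hd.big η hη] with x hg hαx hηd s₁ s₂ h1 h2
        refine ⟨fun h => absurd h hle, fun h => ?_⟩
        exfalso
        rw [← hg.img] at hαx
        obtain ⟨α', hα', rfl⟩ := hαx
        have e1 := h1.2 α' hα' η hηd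
        have e2 := h2.2 α' hα' η hηd
        have ne2 : s₂ (α', η) ≠ none := fun h0 => by
          rw [e2.1.1 h0] at hn₂
          exact Option.some_ne_none _ hn₂.symm
        obtain ⟨n₂', hn₂'⟩ := Option.ne_none_iff_exists'.1 ne2
        obtain ⟨n', hn', -⟩ := h.2 (α', η) n₂' hn₂'
        have hn'' : s₁ (α', η) = some n' := hn'
        rw [e1.1.2 hc] at hn''
        exact Option.some_ne_none _ hn''.symm
      · have hF := hbad n₁ hc
        have hex : ∃ q v v', isP κ q ∧ Xt q r₁ ∧ n₁ q = some v ∧ n₂ q = some v' ∧ v ≠ v' := by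
          by_contra hcon
          push Not at hcon
          apply hF
          intro q v v' hq hx h1 h2
          exact hcon q v v' hq hx h1 h2
        obtain ⟨q, v, v', hq, hx, hv, hv', hne⟩ := hex
        filter_upwards [hd.good, hu.fine α, hd.big η hη, aeP_R34 hR hκ hd hq] with x hg hαx hηd hqd
          s₁ s₂ h1 h2
        refine ⟨fun h => absurd h hle, fun h => ?_⟩
        exfalso
        rw [← hg.img] at hαx
        obtain ⟨α', hα', rfl⟩ := hαx
        have e1 := h1.2 α' hα' η hηd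
        have e2 := h2.2 α' hα' η hηd
        have ne2 : s₂ (α', η) ≠ none := fun h0 => by
          rw [e2.1.1 h0] at hn₂
          exact Option.some_ne_none _ hn₂.symm
        obtain ⟨n₂', hn₂'⟩ := Option.ne_none_iff_exists'.1 ne2
        obtain ⟨n', hn', hF'⟩ := h.2 (α', η) n₂' hn₂'
        have hn'' : s₁ (α', η) = some n' := hn'
        have f1 := e1.2 n₁ n' hc hn'' q hqd
        have f2 := e2.2 n₂ n₂' hn₂ hn₂' q hqd
        rw [hv] at f1
        rw [hv'] at f2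
        obtain ⟨u, hu1, hu2⟩ := Option.map_eq_some_iff.1 f1.symm
        obtain ⟨u', hu1', hu2'⟩ := Option.map_eq_some_iff.1 f2.symm
        have := hF' q u u' hqd hx hu1 hu1'
        apply hne
        rw [← hu2, ← hu2', this]
    · exact Eventually.of_forall fun x s₁ s₂ _ _ =>
        ⟨fun h => absurd h hle, fun h => absurd h.1 hX⟩

end Pool.Agent.Helper24.FR
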