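import Pool.Agent.Helper24.FR.StI

/-!
# FR, module REP: replacement in the quotient of the Boolean valued universe
-/

set_option autoImplicit false

universe u

namespace Pool.Agent.Helper24.FR

section REP

variable {B : Type u} [CompleteBooleanAlgebra B]

private theorem ex_iInf_REP {I : Sort*} {P : I → Nm B → B} (h : ∀ i, Ex (P i)) :
    Ex fun x => ⨅ i, P i x := by
  intro x y
  refine le_iInf fun i => ?_
  exact (inf_le_inf_left _ (iInf_le _ i)).trans (h i x y)

private theorem ex_himp_REP {P Q : Nm B → B} (hP : Ex P) (hQ : Ex Q) :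
    Ex fun x => P x ⇨ Q x := by
  intro x y
  rw [le_himp_iff]
  have h1 : beq x y ⊓ (P x ⇨ Q x) ⊓ P y ≤ P x := by
    refine le_trans ?_ (hP y x)
    rw [beq_comm y x]
    exact le_inf (inf_le_left.trans inf_le_left) inf_le_right
  have h2 : beq x y ⊓ (P x ⇨ Q x) ⊓ P y ≤ Q x :=
    (le_inf (inf_le_left.trans inf_le_right) h1).trans himp_inf_le
  exact (le_inf (inf_le_left.trans inf_le_left) h2).trans (hQ x y)

private theorem ex_inf_REP {P Q : Nm B → B} (hP : Ex P) (hQ : Ex Q) :
    Ex fun x => P x ⊓ Q x := by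
  intro x y
  exact le_inf ((inf_le_inf_left _ inf_le_left).trans (hP x y))
    ((inf_le_inf_left _ inf_le_right).trans (hQ x y))

/-- The value of `φ` at `x, y`. -/
private noncomputable def F_REP (φ : Fml) (v : ℕ → Nm B) (x y : Nm B) : B :=
  ev bmem beq φ (Function.update (Function.update v 0 x) 1 y)

private theorem F_congr_REP (φ : Fml) (v : ℕ → Nm B) {x y x' y' : Nm B} {b : B}
    (h1 : b ≤ beq x x') (h2 : b ≤ beq y y') : b ⊓ F_REP φ v x y ≤ F_REP φ v x' y' := by
  refine ev_congr φ _ _ _ fun n => ?_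
  by_cases hn : n = 1
  · subst hn
    rw [Function.update_self, Function.update_self]
    exact h2
  · rw [Function.update_of_ne hn, Function.update_of_ne hn]
    by_cases hn0 : n = 0
    · subst hn0
      rw [Function.update_self, Function.update_self]
      exact h1
    · rw [Function.update_of_ne hn0, Function.update_of_ne hn0, beq_refl]
      exact le_top

private theorem sat_REP (W : UF B) (φ : Fml) (v : ℕ → Nm B) (x y : Nm B) :
    Sat (QE W) φ (Function.update (Function.update (fun n => QN.mk W (v n)) 0 (QN.mk W x)) 1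
      (QN.mk W y)) ↔ F_REP φ v x y ∈ W.s := by
  rw [F_REP, ← los]
  have : Function.update (Function.update (fun n => QN.mk W (v n)) 0 (QN.mk W x)) 1
      (QN.mk W y) =
      fun n => QN.mk W (Function.update (Function.update v 0 x) 1 y n) := by
    funext n
    by_cases hn : n = 1
    · subst hn
      rw [Function.update_self, Function.update_self]
    · rw [Function.update_of_ne hn, Function.update_of_ne hn]
      by_cases hn0 : n = 0
      · subst hn0
        rw [Function.update_self, Function.update_self]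
      · rw [Function.update_of_ne hn0, Function.update_of_ne hn0]
  rw [this]

private theorem core_REP (W : UF B) (φ : Fml) (v : ℕ → Nm B) (a : Nm B)
    (hu : ∀ x, bmem x a ∈ W.s → ∀ y y', F_REP φ v x y ∈ W.s → F_REP φ v x y' ∈ W.s →
      beq y y' ∈ W.s) :
    ∃ b : Nm B, ∀ y, bmem y b ∈ W.s ↔ ∃ x, bmem x a ∈ W.s ∧ F_REP φ v x y ∈ W.s := by
  have hfull : ∀ i : a.ix, ∃ c, F_REP φ v (a.el i) c = ⨆ y, F_REP φ v (a.el i) y := by
    intro i
    exact full _ (ex_ev φ (Function.update v 0 (a.el i)) 1)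
  choose c hc using hfull
  let D : B := ⨅ x, ⨅ y, ⨅ y', bmem x a ⊓ F_REP φ v x y ⊓ F_REP φ v x y' ⇨ beq y y'
  have hmemL : ∀ z : Nm B, Ex fun x => bmem x z := fun z x y => bmem_congr_left x y z
  have hF1 : ∀ y : Nm B, Ex fun x => F_REP φ v x y := fun y x x' =>
    F_congr_REP φ v le_rfl (by rw [beq_refl]; exact le_top)
  have hF2 : ∀ x : Nm B, Ex fun y => F_REP φ v x y := fun x y y' =>
    F_congr_REP φ v (by rw [beq_refl]; exact le_top) le_rfl
  have hcst : ∀ b : B, Ex fun _ => b := fun b x y => inf_le_right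
  have hD : D ∈ W.s := by
    refine (W.iInf_iff _ ?_).2 fun x => ?_
    · exact ex_iInf_REP fun y => ex_iInf_REP fun y' =>
        ex_himp_REP (ex_inf_REP (ex_inf_REP (hmemL a) (hF1 y)) (hF1 y')) (hcst _)
    · refine (W.iInf_iff _ ?_).2 fun y => ?_
      · refine ex_iInf_REP fun y' =>
          ex_himp_REP (ex_inf_REP (ex_inf_REP (hcst _) (hF2 x)) (hcst _)) ?_
        intro z z'
        refine (beq_congr (b := beq z z') le_rfl ?_)
        rw [beq_refl]; exact le_top
      · refine (W.iInf_iff _ ?_).2 fun y' => ?_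
        · refine ex_himp_REP (ex_inf_REP (hcst _) (hF2 x)) ?_
          intro z z'
          refine (beq_congr (b := beq z z') ?_ le_rfl)
          rw [beq_refl]; exact le_top
        · rw [W.himp_iff, W.inf_iff, W.inf_iff]
          rintro ⟨⟨h1, h2⟩, h3⟩
          exact hu x h1 y y' h2 h3
  refine ⟨Nm.mk a.ix c fun i => a.vl i ⊓ F_REP φ v (a.el i) (c i), fun y => ⟨fun h => ?_, ?_⟩⟩
  · have hex : Ex fun x => bmem x a ⊓ F_REP φ v x y := ex_inf_REP (hmemL a) (hF1 y)
    have h2 : (⨆ x, bmem x a ⊓ F_REP φ v x y) ∈ W.s := by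
      refine W.up _ _ h ?_
      rw [bmem_def]
      refine iSup_le fun i => ?_
      refine le_iSup_of_le (a.el i) ?_
      change a.vl i ⊓ F_REP φ v (a.el i) (c i) ⊓ beq y (c i) ≤ _
      refine le_inf ((inf_le_left.trans inf_le_left).trans (vl_le_bmem a i)) ?_
      refine le_trans ?_ (hF2 (a.el i) (c i) y)
      rw [beq_comm (c i) y]
      exact le_inf inf_le_right (inf_le_left.trans inf_le_right)
    obtain ⟨x, hx⟩ := (W.iSup_iff _ hex).1 h2
    exact ⟨x, (W.inf_iff _ _).1 hx⟩
  · rintro ⟨x, hx, hF⟩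
    refine W.up _ _ (W.inf _ _ hD (W.inf _ _ hx hF)) ?_
    conv_lhs => rw [bmem_def x a]
    rw [iSup_inf_eq, inf_iSup_eq]
    refine iSup_le fun i => ?_
    rw [bmem_def y]
    refine le_iSup_of_le i ?_
    change _ ≤ a.vl i ⊓ F_REP φ v (a.el i) (c i) ⊓ beq y (c i)
    have e0 : D ⊓ (a.vl i ⊓ beq x (a.el i) ⊓ F_REP φ v x y) ≤ D := inf_le_left
    have e1 : D ⊓ (a.vl i ⊓ beq x (a.el i) ⊓ F_REP φ v x y) ≤ a.vl i :=
      inf_le_right.trans (inf_le_left.trans inf_le_left)
    have e2 : D ⊓ (a.vl i ⊓ beq x (a.el i) ⊓ F_REP φ v x y) ≤ F_REP φ v (a.el i) y := by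
      refine le_trans ?_ (hF1 y x (a.el i))
      exact inf_le_right.trans (le_inf (inf_le_left.trans inf_le_right) inf_le_right)
    have e3 : D ⊓ (a.vl i ⊓ beq x (a.el i) ⊓ F_REP φ v x y) ≤ F_REP φ v (a.el i) (c i) := by
      rw [hc i]
      exact e2.trans (le_iSup (fun y => F_REP φ v (a.el i) y) y)
    have e4 : D ≤ bmem (a.el i) a ⊓ F_REP φ v (a.el i) y ⊓ F_REP φ v (a.el i) (c i) ⇨
        beq y (c i) :=
      (iInf_le _ (a.el i)).trans ((iInf_le _ y).trans (iInf_le _ (c i)))
    have e5 : D ⊓ (a.vl i ⊓ beq x (a.el i) ⊓ F_REP φ v x y) ≤ beq y (c i) :=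
      (le_inf (e0.trans e4) (le_inf (le_inf (e1.trans (vl_le_bmem a i)) e2) e3)).trans
        himp_inf_le
    exact le_inf (le_inf e1 e3) e5

theorem hREP : StREP.{u} := by
  intro B _ W φ v a ha
  have hv : ∀ n, ∃ x, QN.mk W x = v n := fun n => by
    exact QN.ind' W (p := fun q => ∃ x, QN.mk W x = q) (fun x => ⟨x, rfl⟩) (v n)
  choose v' hv' using hv
  have hvv : v = fun n => QN.mk W (v' n) := funext fun n => (hv' n).symm
  subst hvv
  revert ha
  refine QN.ind' W (p := fun a => (∀ x, QE W x a → ∃! y, Sat (QE W) φ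
    (Function.update (Function.update (fun n => QN.mk W (v' n)) 0 x) 1 y)) →
      ∃ b, ∀ y, QE W y b ↔ ∃ x, QE W x a ∧ Sat (QE W) φ
        (Function.update (Function.update (fun n => QN.mk W (v' n)) 0 x) 1 y)) (fun a ha => ?_) a
  obtain ⟨b, hb⟩ := core_REP W φ v' a (by
    intro x hx y y' h1 h2
    obtain ⟨z, -, hz⟩ := ha (QN.mk W x) hx
    have g1 := hz (QN.mk W y) ((sat_REP W φ v' x y).2 h1)
    have g2 := hz (QN.mk W y') ((sat_REP W φ v' x y').2 h2)
    exact (QN_eq W _ _).1 (g1.trans g2.symm))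
  refine ⟨QN.mk W b, ?_⟩
  rw [QN_forall]
  intro y
  rw [QE_mk, hb y, QN_exists]
  refine exists_congr fun x => ?_
  rw [QE_mk, sat_REP]

end REP

end Pool.Agent.Helper24.FR
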