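import Pool.Agent.Helper24.FR.StIV

/-!
# FR, module RES: restrictions, boundedness
-/

set_option autoImplicit false

open Cardinal Set

namespace Pool.Agent.Helper24.FR

private theorem rs_some_RES {A : Type} [LinearOrder A] {δ : A} {p : Ra A} {z : A × A × A} {v : A}
    (h : rs δ p z = some v) : (z.1 < δ ∧ z.2.1 < δ) ∧ p z = some v := by
  unfold rs at h
  split_ifs at h with h1
  exact ⟨h1, h⟩

private theorem rs_of_RES {A : Type} [LinearOrder A] {δ : A} {p : Ra A} {z : A × A × A}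
    (h : z.1 < δ ∧ z.2.1 < δ) : rs δ p z = p z := by
  unfold rs
  rw [if_pos h]

private theorem rs_ne_RES {A : Type} [LinearOrder A] {δ : A} {p : Ra A} {z : A × A × A}
    (h : rs δ p z ≠ none) : p z ≠ none := by
  obtain ⟨v, hv⟩ := Option.ne_none_iff_exists'.1 h
  rw [(rs_some_RES hv).2]
  exact Option.some_ne_none v

private theorem bdd_RES {A : Type} [LinearOrder A] (κ : A) (p : Ra A) (hκ : Rg κ)
    (hp : isP κ p) : ∃ ξ < κ, ∀ δ, ξ ≤ δ → isP δ p := by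
  set Γ : Set A := {γ | ∃ β η, p (γ, β, η) ≠ none} with hΓ
  have h1 : Γ ⊆ Iio κ := by
    rintro γ ⟨β, η, h⟩
    obtain ⟨v, hv⟩ := Option.ne_none_iff_exists'.1 h
    exact (hp.dom γ β η v hv).2.1
  have h2 : #Γ ≤ ℵ₀ := hp.cnt.le_aleph0
  obtain ⟨ξ₁, hξ₁, h3⟩ := hκ.2.2 Γ h1 (h2.trans_lt hκ.1)
  set Z : A → Set (A × A) := fun γ => {z : A × A | p (γ, z.1, z.2) ≠ none} with hZ
  set E : Set A := Prod.fst '' (⋃ γ ∈ Γ, Z γ) with hE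
  have h4 : E ⊆ Iio κ := by
    rintro β ⟨z, hz, rfl⟩
    rw [mem_iUnion₂] at hz
    obtain ⟨γ, -, hz⟩ := hz
    obtain ⟨v, hv⟩ := Option.ne_none_iff_exists'.1 hz
    exact (hp.dom _ _ _ v hv).2.2.1
  have h5 : #E < #(Iio κ) := by
    calc #E ≤ #(⋃ γ ∈ Γ, Z γ : Set (A × A)) := mk_image_le
      _ ≤ #Γ * ⨆ x : Γ, #(Z x.1) := mk_biUnion_le Z Γ
      _ ≤ ℵ₀ * #(Iio ξ₁) := by
          refine mul_le_mul' h2 (ciSup_le' fun x => (hp.siz x.1).trans ?_)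
          exact mk_le_mk_of_subset (Iio_subset_Iio (h3 x.1 x.2).le)
      _ ≤ max ℵ₀ #(Iio ξ₁) := mul_le_max_of_aleph0_le_left le_rfl
      _ < #(Iio κ) := max_lt hκ.1 (hκ.2.1 ξ₁ hξ₁)
  obtain ⟨ξ₂, hξ₂, h6⟩ := hκ.2.2 E h4 h5
  refine ⟨max ξ₁ ξ₂, max_lt hξ₁ hξ₂, fun δ hδ => ⟨fun γ β η v h => ?_, hp.cnt, hp.siz, hp.hgt⟩⟩
  obtain ⟨a1, -, -, a2, a3⟩ := hp.dom γ β η v h
  have hne : p (γ, β, η) ≠ none := by
    rw [h]
    exact Option.some_ne_none v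
  have hγ : γ ∈ Γ := ⟨β, η, hne⟩
  have hβ : β ∈ E := ⟨(β, η), mem_iUnion₂.2 ⟨γ, hγ, hne⟩, rfl⟩
  exact ⟨a1, (h3 γ hγ).trans_le ((le_max_left _ _).trans hδ),
    (h6 β hβ).trans_le ((le_max_right _ _).trans hδ), a2, a3⟩

theorem hRES : StRES := by
  refine ⟨fun A _ _ κ δ p hp => ⟨fun γ β η v h => ?_, ?_, fun γ => ?_, fun γ hγ => ?_⟩,
    fun A _ _ δ p z v h => (rs_some_RES h).2, fun A _ _ δ p p' hx z v h => ?_,
    fun A _ _ δ p hp => ?_, fun A _ _ κ δ p hp hδ => ?_,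
    fun A _ _ κ p hκ hp => bdd_RES κ p hκ hp⟩
  · obtain ⟨h1, h2⟩ := rs_some_RES h
    obtain ⟨a1, -, -, a2, a3⟩ := hp.dom γ β η v h2
    exact ⟨a1, h1.1, h1.2, a2, a3⟩
  · refine hp.cnt.mono ?_
    rintro γ ⟨β, η, h⟩
    exact ⟨β, η, rs_ne_RES h⟩
  · exact (mk_le_mk_of_subset fun z hz => rs_ne_RES hz).trans (hp.siz γ)
  · obtain ⟨ξ, hξ, h⟩ := hp.hgt γ hγ
    exact ⟨ξ, hξ, fun β η hne => h β η (rs_ne_RES hne)⟩
  · obtain ⟨h1, h2⟩ := rs_some_RES h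
    rw [rs_of_RES h1]
    exact hx z v h2
  · funext z
    by_cases hz : p z = none
    · by_contra hne
      rw [hz] at hne
      exact rs_ne_RES hne hz
    · obtain ⟨v, hv⟩ := Option.ne_none_iff_exists'.1 hz
      obtain ⟨γ, β, η⟩ := z
      obtain ⟨-, a1, a2, -⟩ := hp.dom γ β η v hv
      exact rs_of_RES ⟨a1, a2⟩
  · refine ⟨fun γ β η v h => ?_, hp.cnt, hp.siz, hp.hgt⟩
    obtain ⟨a1, a2, a3, a4, a5⟩ := hp.dom γ β η v h
    exact ⟨a1, a2.trans_le hδ, a3.trans_le hδ, a4, a5⟩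

end Pool.Agent.Helper24.FR
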