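import Pool.Agent.Helper24.FR.StV

/-!
# FR, part V, module RFX: reflection
-/

set_option autoImplicit false

open Cardinal Set Filter

namespace Pool.Agent.Helper24.FR

theorem hRFX (hS : StUSE) (h1 : StR31) (h2 : StR32) (h3 : StR33) (h4 : StR34) : StRFX := by
  intro A _ _ κ U d i g hU hD hg
  classical
  have hg' : ∀ z ∈ {t : Ta A | isT κ Set.univ t}, ∀ z' ∈ {t : Ta A | isT κ Set.univ t},
      g z = g z' → z = z' := fun z hz z' hz' h => hg z z' hz hz' h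
  have ha := hS.2.1 A κ U hU (Ta A) {t | isT κ Set.univ t} g hg'
    (fun x t => ∃ s, CrX κ (d x) (i x) t s) (fun t ht => h2 A κ U d i hU hD t ht)
  have hh := hS.2.1 A κ U hU (Ta A) {t | isT κ Set.univ t} g hg'
    (fun x t => ∀ α η, t (α, η) ≠ none → η < d x) (fun t ht => by
      obtain ⟨ξ, hξ, hb⟩ := (ht : isT κ Set.univ t).hgt
      filter_upwards [hD.big ξ hξ] with x hx α η hne
      exact (hb α η hne).trans hx)
  have hb : ∀ᶠ x in (U : Filter (Set A)), ∀ s, isT (d x) (Iio κ) s →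
      ∃ t, (isT κ Set.univ t ∧ g t ∈ x) ∧ CrX κ (d x) (i x) t s := by
    by_contra hno
    rw [← Ultrafilter.eventually_not] at hno
    have hex : ∀ x, ∃ s : Ta A, (¬ ∀ s, isT (d x) (Iio κ) s →
        ∃ t, (isT κ Set.univ t ∧ g t ∈ x) ∧ CrX κ (d x) (i x) t s) →
        isT (d x) (Iio κ) s ∧ ¬ ∃ t, (isT κ Set.univ t ∧ g t ∈ x) ∧
          CrX κ (d x) (i x) t s := by
      intro x
      by_cases h : ∀ s, isT (d x) (Iio κ) s →
        ∃ t, (isT κ Set.univ t ∧ g t ∈ x) ∧ CrX κ (d x) (i x) t s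
      · exact ⟨fun _ => none, fun h' => absurd h h'⟩
      · have h' := h
        rw [not_forall] at h'
        obtain ⟨s, hs⟩ := h'
        rw [Classical.not_imp] at hs
        exact ⟨s, fun _ => hs⟩
    choose f hf using hex
    have hf1 : ∀ᶠ x in (U : Filter (Set A)), isT (d x) (Iio κ) (f x) :=
      hno.mono fun x hx => (hf x hx).1
    obtain ⟨t, ht, htc⟩ := h3 A κ U d i hU hD f hf1
    obtain ⟨x, hx1, hx2, hx3⟩ := (hno.and (htc.and (hU.fine (g t)))).exists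
    exact (hf x hx1).2 ⟨t, ⟨ht, hx3⟩, hx2⟩
  -- constancy of a selected member of `Y x`
  have hconst : ∀ f : Set A → Ta A, (∀ᶠ x in (U : Filter (Set A)), isT κ Set.univ (f x) ∧
      g (f x) ∈ x) → ∃ t, isT κ Set.univ t ∧ ∀ᶠ x in (U : Filter (Set A)), f x = t := by
    intro f hf
    obtain ⟨a, ha'⟩ := hU.norm (fun x => g (f x)) (hf.mono fun x hx => hx.2)
    obtain ⟨x0, hx0, hx0'⟩ := (hf.and ha').exists
    refine ⟨f x0, hx0.1, ?_⟩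
    filter_upwards [hf, ha'] with x hx hx'
    exact hg (f x) (f x0) hx.1 hx0.1 (hx'.trans hx0'.symm)
  have hc : ∀ᶠ x in (U : Filter (Set A)), ∀ t₁ t₂ s₁ s₂ r₁ r₂,
      (isT κ Set.univ t₁ ∧ g t₁ ∈ x) → (isT κ Set.univ t₂ ∧ g t₂ ∈ x) →
      CrX κ (d x) (i x) t₁ s₁ → CrX κ (d x) (i x) t₂ s₂ → isP (d x) r₁ → isP (d x) r₂ →
      (Rle κ (r₁, t₁) (r₂, t₂) ↔ Rle (d x) (r₁, s₁) (r₂, s₂)) := by
    by_contra hno
    rw [← Ultrafilter.eventually_not] at hno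
    have hex : ∀ x, ∃ (t₁ t₂ s₁ s₂ : Ta A) (r₁ r₂ : Ra A), (¬ ∀ t₁ t₂ s₁ s₂ r₁ r₂,
        (isT κ Set.univ t₁ ∧ g t₁ ∈ x) → (isT κ Set.univ t₂ ∧ g t₂ ∈ x) →
        CrX κ (d x) (i x) t₁ s₁ → CrX κ (d x) (i x) t₂ s₂ → isP (d x) r₁ → isP (d x) r₂ →
        (Rle κ (r₁, t₁) (r₂, t₂) ↔ Rle (d x) (r₁, s₁) (r₂, s₂))) →
        ((isT κ Set.univ t₁ ∧ g t₁ ∈ x) ∧ (isT κ Set.univ t₂ ∧ g t₂ ∈ x) ∧
        CrX κ (d x) (i x) t₁ s₁ ∧ CrX κ (d x) (i x) t₂ s₂ ∧ isP (d x) r₁ ∧ isP (d x) r₂ ∧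
        ¬ (Rle κ (r₁, t₁) (r₂, t₂) ↔ Rle (d x) (r₁, s₁) (r₂, s₂))) := by
      intro x
      by_cases h : ∀ t₁ t₂ s₁ s₂ r₁ r₂,
        (isT κ Set.univ t₁ ∧ g t₁ ∈ x) → (isT κ Set.univ t₂ ∧ g t₂ ∈ x) →
        CrX κ (d x) (i x) t₁ s₁ → CrX κ (d x) (i x) t₂ s₂ → isP (d x) r₁ → isP (d x) r₂ →
        (Rle κ (r₁, t₁) (r₂, t₂) ↔ Rle (d x) (r₁, s₁) (r₂, s₂))
      · exact ⟨fun _ => none, fun _ => none, fun _ => none, fun _ => none, fun _ => none,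
          fun _ => none, fun h' => absurd h h'⟩
      · have h' := h
        rw [not_forall] at h'
        obtain ⟨t₁, h'⟩ := h'
        rw [not_forall] at h'
        obtain ⟨t₂, h'⟩ := h'
        rw [not_forall] at h'
        obtain ⟨s₁, h'⟩ := h'
        rw [not_forall] at h'
        obtain ⟨s₂, h'⟩ := h'
        rw [not_forall] at h'
        obtain ⟨r₁, h'⟩ := h'
        rw [not_forall] at h'
        obtain ⟨r₂, h'⟩ := h'
        refine ⟨t₁, t₂, s₁, s₂, r₁, r₂, fun _ => ?_⟩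
        by_contra hcon
        refine h' fun a1 a2 a3 a4 a5 a6 => ?_
        by_contra a7
        exact hcon ⟨a1, a2, a3, a4, a5, a6, a7⟩
    choose t₁ t₂ s₁ s₂ r₁ r₂ hf using hex
    have hf' := hno.mono fun x hx => hf x hx
    obtain ⟨T₁, hT₁, e1⟩ := hconst t₁ (hf'.mono fun x hx => hx.1)
    obtain ⟨T₂, hT₂, e2⟩ := hconst t₂ (hf'.mono fun x hx => hx.2.1)
    obtain ⟨R₁, hR₁, e3⟩ := h1 A κ U d i hU hD r₁ (hf'.mono fun x hx => hx.2.2.2.2.1)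
    obtain ⟨R₂, hR₂, e4⟩ := h1 A κ U d i hU hD r₂ (hf'.mono fun x hx => hx.2.2.2.2.2.1)
    have h5 := h4 A κ U d i hU hD T₁ T₂ R₁ R₂ hT₁ hT₂ hR₁ hR₂
    obtain ⟨x, hx, y1, y2, y3, y4, y5⟩ :=
      (hf'.and (e1.and (e2.and (e3.and (e4.and h5))))).exists
    obtain ⟨-, -, c1, c2, -, -, hbad⟩ := hx
    rw [y1] at c1 hbad
    rw [y2] at c2 hbad
    rw [y3, y4] at hbad
    exact hbad (y5 _ _ c1 c2)
  filter_upwards [ha, hh, hb, hc, hD.good] with x xa xh xb xc xg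
  refine ⟨xg.lt, xg.rg, fun t s h => h.1, ?_, fun t ht => ht.1, fun t ht => xa t ht.1 ht.2,
    fun s hs => ?_, fun t₁ ht₁ t₂ ht₂ s₁ s₂ r₁ r₂ => xc t₁ t₂ s₁ s₂ r₁ r₂ ht₁ ht₂,
    fun t ht => xh t ht.1 ht.2⟩
  · have hle : #{t : Ta A | isT κ Set.univ t ∧ g t ∈ x} ≤ #x := by
      refine Cardinal.mk_le_of_injective
        (f := fun t : {t : Ta A | isT κ Set.univ t ∧ g t ∈ x} => (⟨g t.1, t.2.2⟩ : x)) ?_
      intro t t' h
      have h' := Subtype.mk.inj h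
      exact Subtype.ext (hg t.1 t'.1 t.2.1 t'.2.1 h')
    refine hle.trans ?_
    rw [← xg.img]
    exact Cardinal.mk_image_le
  · obtain ⟨t, ht, hct⟩ := xb s hs
    exact ⟨t, ht, hct⟩

end Pool.Agent.Helper24.FR
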