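import Pool.Agent.Helper24.FR.StII

/-!
# FR, module RLN: named relations
-/

set_option autoImplicit false

universe u

namespace Pool.Agent.Helper24.FR

private theorem Rl_rlN_RLN (hP : StPRN.{u}) {B : Type u} [CompleteBooleanAlgebra B] {I J : Type u}
    (a : I → Nm B) (c : J → Nm B) (G : I → J → B) (x y : Nm B) :
    Rl bmem beq (rlN a c G) x y = ⨆ i, ⨆ j, G i j ⊓ (beq x (a i) ⊓ beq y (c j)) := by
  rw [hP.2.2.2.2 B (rlN a c G) x y, bmem_def]
  have h : (⨆ p : I × J, G p.1 p.2 ⊓ beq (opN x y) (opN (a p.1) (c p.2))) =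
      ⨆ i, ⨆ j, G i j ⊓ (beq x (a i) ⊓ beq y (c j)) := by
    rw [iSup_prod]
    refine iSup_congr fun i => iSup_congr fun j => ?_
    rw [hP.2.2.2.1]
  exact h

/-- Named relations. -/
theorem hRLN (hP : StPRN.{u}) : StRLN.{u} := by
  refine ⟨?_, ?_, ?_⟩
  · intro B _ I J a c G x y
    exact Rl_rlN_RLN hP a c G x y
  · intro B _ I J a c G ha hc i j
    rw [Rl_rlN_RLN hP]
    apply le_antisymm
    · refine iSup_le fun i' => iSup_le fun j' => ?_
      by_cases hi : i = i'
      · by_cases hj : j = j'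
        · subst hi hj
          exact inf_le_left
        · rw [hc j j' hj, inf_bot_eq, inf_bot_eq]
          exact bot_le
      · rw [ha i i' hi, bot_inf_eq, inf_bot_eq]
        exact bot_le
    · refine le_iSup_of_le i (le_iSup_of_le j ?_)
      rw [beq_refl, beq_refl, inf_top_eq, inf_top_eq]
  · intro B _ I J a c G ha hG
    rw [Fn, eq_top_iff]
    refine le_iInf fun x => le_iInf fun y => le_iInf fun y' => ?_
    rw [le_himp_iff, top_inf_eq, Rl_rlN_RLN hP, Rl_rlN_RLN hP, iSup_inf_eq]
    refine iSup_le fun i => ?_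
    rw [iSup_inf_eq]
    refine iSup_le fun j => ?_
    rw [inf_iSup_eq]
    refine iSup_le fun i' => ?_
    rw [inf_iSup_eq]
    refine iSup_le fun j' => ?_
    by_cases hi : i = i'
    · subst hi
      by_cases hj : j = j'
      · subst hj
        calc G i j ⊓ (beq x (a i) ⊓ beq y (c j)) ⊓ (G i j ⊓ (beq x (a i) ⊓ beq y' (c j)))
            ≤ beq y (c j) ⊓ beq (c j) y' := by
              rw [beq_comm (c j) y']
              exact inf_le_inf (inf_le_right.trans inf_le_right) (inf_le_right.trans inf_le_right)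
          _ ≤ beq y y' := beq_trans _ _ _
      · calc G i j ⊓ (beq x (a i) ⊓ beq y (c j)) ⊓ (G i j' ⊓ (beq x (a i) ⊓ beq y' (c j')))
            ≤ G i j ⊓ G i j' := inf_le_inf inf_le_left inf_le_left
          _ = ⊥ := hG i j j' hj
          _ ≤ _ := bot_le
    · calc G i j ⊓ (beq x (a i) ⊓ beq y (c j)) ⊓ (G i' j' ⊓ (beq x (a i') ⊓ beq y' (c j')))
          ≤ beq (a i) x ⊓ beq x (a i') := by
            rw [beq_comm (a i) x]
            exact inf_le_inf (inf_le_right.trans inf_le_left) (inf_le_right.trans inf_le_left)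
        _ ≤ beq (a i) (a i') := beq_trans _ _ _
        _ = ⊥ := ha i i' hi
        _ ≤ _ := bot_le

end Pool.Agent.Helper24.FR
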