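import Pool.Agent.Helper24.FR.StII

/-!
# FR, module ROA: the regular open algebra of a poset
-/

set_option autoImplicit false

universe u

namespace Pool.Agent.Helper24.FR

/-- The regular elements of a frame are a complete Boolean algebra. -/
@[reducible] noncomputable def cbaROA (α : Type u) [Order.Frame α] :
    CompleteBooleanAlgebra (Heyting.Regular α) :=
  { (inferInstance : BooleanAlgebra (Heyting.Regular α)) with
    sSup := fun s => Heyting.Regular.toRegular (sSup ((fun a : Heyting.Regular α => (a : α)) '' s))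
    isLUB_sSup := fun _ => (Heyting.Regular.gi (α := α)).isLUB_of_u_image (isLUB_sSup _)
    sInf := fun s => (Heyting.Regular.gi (α := α)).choice
        (sInf ((fun a : Heyting.Regular α => (a : α)) '' s)) <|
          (isGLB_sInf _).2 <| (Heyting.Regular.gi (α := α)).gc.monotone_u.mem_lowerBounds_image
            ((Heyting.Regular.gi (α := α)).isGLB_of_u_image <| isGLB_sInf _).1
    isGLB_sInf := fun _ => by
      rw [(Heyting.Regular.gi (α := α)).choice_eq]
      exact (Heyting.Regular.gi (α := α)).isGLB_of_u_image (isGLB_sInf _) }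

theorem hROA : StROA.{u} := by
  intro R _
  refine ⟨Heyting.Regular (LowerSet R), cbaROA (LowerSet R),
    fun p => Heyting.Regular.toRegular (LowerSet.Iic p), ?_⟩
  let _ := cbaROA (LowerSet R)
  refine ⟨fun p h => ?_, fun p q hpq => ?_, fun b hb => ?_, fun p q hpq => ?_⟩
  · have h1 : (LowerSet.Iic p : LowerSet R)ᶜᶜ = ⊥ := congrArg Heyting.Regular.val h
    have h2 : LowerSet.Iic p ≤ (⊥ : LowerSet R) := h1 ▸ le_compl_compl
    exact (h2 (LowerSet.mem_Iic_iff.2 le_rfl) : p ∈ (⊥ : LowerSet R))
  · exact Heyting.Regular.toRegular.monotone (LowerSet.Iic_le.2 (LowerSet.mem_Iic_iff.2 hpq))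
  · have h1 : (b : LowerSet R) ≠ ⊥ := fun h => hb (Heyting.Regular.coe_injective h)
    obtain ⟨p, hp⟩ : ∃ p, p ∈ (b : LowerSet R) := by
      by_contra hc
      push Not at hc
      apply h1
      rw [eq_bot_iff]
      intro p hp
      exact absurd hp (hc p)
    refine ⟨p, ?_⟩
    have h2 : Heyting.Regular.toRegular (LowerSet.Iic p) ≤
        Heyting.Regular.toRegular (b : LowerSet R) :=
      Heyting.Regular.toRegular.monotone (LowerSet.Iic_le.2 hp)
    rw [Heyting.Regular.toRegular_coe] at h2
    exact h2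
  · have h1 : LowerSet.Iic p ⊓ LowerSet.Iic q = (⊥ : LowerSet R) := by
      rw [eq_bot_iff]
      rintro r ⟨h2, h3⟩
      exact absurd (LowerSet.mem_Iic_iff.1 h3) (hpq r (LowerSet.mem_Iic_iff.1 h2))
    apply Heyting.Regular.coe_injective
    change (LowerSet.Iic p : LowerSet R)ᶜᶜ ⊓ (LowerSet.Iic q : LowerSet R)ᶜᶜ = ⊥
    rw [← compl_compl_inf_distrib, h1, compl_bot, compl_top]

end Pool.Agent.Helper24.FR
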