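import Pool.Agent.Helper24.FR.StI

/-!
# FR, module SEP: separation
-/

set_option autoImplicit false

universe u

namespace Pool.Agent.Helper24.FR

private theorem aux1_SEP (B : Type u) [CompleteBooleanAlgebra B] (P : Nm B → B) (hP : Ex P)
    (a : Nm B) : ∃ b, ∀ x, bmem x b = bmem x a ⊓ P x := by
  refine ⟨Nm.mk a.ix a.el fun i => a.vl i ⊓ P (a.el i), fun x => ?_⟩
  rw [bmem_def, bmem_def, iSup_inf_eq]
  refine iSup_congr fun j => ?_
  change a.vl j ⊓ P (a.el j) ⊓ beq x (a.el j) = a.vl j ⊓ beq x (a.el j) ⊓ P x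
  apply le_antisymm
  · refine le_inf (le_inf (inf_le_left.trans inf_le_left) inf_le_right) ?_
    refine le_trans ?_ (hP (a.el j) x)
    rw [beq_comm (a.el j) x]
    exact le_inf inf_le_right (inf_le_left.trans inf_le_right)
  · refine le_inf (le_inf (inf_le_left.trans inf_le_left) ?_) (inf_le_left.trans inf_le_right)
    refine le_trans ?_ (hP x (a.el j))
    exact le_inf (inf_le_left.trans inf_le_right) inf_le_right

private theorem aux2_SEP (B : Type u) [CompleteBooleanAlgebra B] (W : UF B) (φ : Fml)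
    (v : ℕ → QN W) (a : QN W) :
    ∃ b, ∀ x, QE W x b ↔ QE W x a ∧ Sat (QE W) φ (Function.update v 0 x) := by
  have hv : ∀ n, ∃ y, QN.mk W y = v n := fun n =>
    QN.ind' W (p := fun q => ∃ y, QN.mk W y = q) (fun y => ⟨y, rfl⟩) (v n)
  choose v' hv' using hv
  obtain ⟨a', ha'⟩ : ∃ y, QN.mk W y = a :=
    QN.ind' W (p := fun q => ∃ y, QN.mk W y = q) (fun y => ⟨y, rfl⟩) a
  obtain ⟨b', hb'⟩ := aux1_SEP B (fun x => ev bmem beq φ (Function.update v' 0 x))
    (ex_ev φ v' 0) a'
  refine ⟨QN.mk W b', (QN_forall W).2 fun x => ?_⟩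
  rw [← ha', QE_mk, QE_mk, hb' x, W.inf_iff, ← los]
  have h : (fun n => QN.mk W (Function.update v' 0 x n)) = Function.update v 0 (QN.mk W x) := by
    funext n
    by_cases hn : n = 0
    · subst hn
      rw [Function.update_self, Function.update_self]
    · rw [Function.update_of_ne hn, Function.update_of_ne hn, hv' n]
  rw [h]

theorem hSEP : StSEP.{u} :=
  ⟨fun B _ P hP a => aux1_SEP B P hP a, fun B _ W φ v a => aux2_SEP B W φ v a⟩

end Pool.Agent.Helper24.FR
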