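import Pool.Agent.Helper24.FR.StIV

set_option autoImplicit false

open Cardinal Set

namespace Pool.Agent.Helper24.FR

open Classical in
/-- the first defined value -/
private noncomputable def un_SIG {Z B : Type} (g : ℕ → Z → Option B) (z : Z) : Option B :=
  if h : ∃ n, g n z ≠ none then g (Nat.find h) z else none

private theorem un_some_SIG {Z B : Type} {g : ℕ → Z → Option B} {z : Z}
    (hz : un_SIG g z ≠ none) : ∃ n, g n z = un_SIG g z ∧ g n z ≠ none := by
  classical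
  unfold un_SIG at hz ⊢
  by_cases h : ∃ n, g n z ≠ none
  · rw [dif_pos h]
    exact ⟨Nat.find h, rfl, Nat.find_spec h⟩
  · rw [dif_neg h] at hz
    exact absurd rfl hz

private theorem un_le_SIG {Z B : Type} {g : ℕ → Z → Option B} {z : Z} {n : ℕ}
    (hz : g n z ≠ none) : ∃ m ≤ n, un_SIG g z = g m z ∧ g m z ≠ none := by
  classical
  have h : ∃ n, g n z ≠ none := ⟨n, hz⟩
  refine ⟨Nat.find h, Nat.find_min' h hz, ?_, Nat.find_spec h⟩
  unfold un_SIG
  rw [dif_pos h]

private theorem card_SIG {Z A : Type} [LinearOrder A] {γ : A} (hγ : Rg γ) (S : ℕ → Set Z) (T : Set Z)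
    (hT : T ⊆ ⋃ n, S n) (hS : ∀ n, #(S n) ≤ #(Iio γ)) : #T ≤ #(Iio γ) := by
  calc #T ≤ #(⋃ n, S n : Set Z) := Cardinal.mk_le_mk_of_subset hT
    _ ≤ Cardinal.sum fun n => #(S n) := Cardinal.mk_iUnion_le_sum_mk
    _ ≤ Cardinal.sum fun _ : ℕ => #(Iio γ) := Cardinal.sum_le_sum _ _ hS
    _ = ℵ₀ * #(Iio γ) := by
      rw [Cardinal.sum_const]
      simp
    _ ≤ #(Iio γ) := by
      rw [Cardinal.mul_eq_right hγ.1.le hγ.1.le Cardinal.aleph0_ne_zero]

private theorem bd_SIG {A : Type} [LinearOrder A] {γ : A} (hγ : Rg γ) (x : ℕ → A)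
    (hx : ∀ n, x n < γ) : ∃ ξ < γ, ∀ n, x n < ξ := by
  obtain ⟨ξ, h1, h2⟩ := hγ.2.2 (Set.range x) (by rintro _ ⟨n, rfl⟩; exact hx n)
    (lt_of_le_of_lt (Cardinal.mk_le_aleph0_iff.2 (Set.countable_range x).to_subtype) hγ.1)
  exact ⟨ξ, h1, fun n => h2 _ ⟨n, rfl⟩⟩

theorem hSIG : StSIG := by
  intro A _ _ κ hκ f hf
  have hle : ∀ n m, n ≤ m → f m ≤ f n := by
    intro n m h
    induction m, h using Nat.le_induction with
    | base => exact le_refl _
    | succ m _ ih => exact le_trans (hf m) ih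
  set P : ℕ → Ra A := fun n => (f n).1.1 with hPd
  set T : ℕ → Ta A := fun n => (f n).1.2 with hTd
  have hP : ∀ n, isP κ (P n) := fun n => (f n).2.1
  have hT : ∀ n, isT κ Set.univ (T n) := fun n => (f n).2.2
  have hR : ∀ n m, n ≤ m → Rle κ (P m, T m) (P n, T n) := fun n m h => hle n m h
  -- the union of the first parts
  have hpx : ∀ n, Xt (un_SIG P) (P n) := by
    intro n z v hz
    obtain ⟨m, hm, e1, e2⟩ := un_le_SIG (g := P) (z := z) (n := n) (by rw [hz]; simp)
    obtain ⟨v', hv'⟩ := Option.ne_none_iff_exists'.1 e2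
    have h1 := (hR m n hm).1 z v' hv'
    rw [e1, hv', ← h1]
    exact hz
  have hiP : isP κ (un_SIG P) := by
    refine ⟨?_, ?_, ?_, ?_⟩
    · intro γ β η v hv
      obtain ⟨n, h1, -⟩ := un_some_SIG (g := P) (z := (γ, β, η)) (by rw [hv]; simp)
      exact (hP n).dom γ β η v (h1.trans hv)
    · refine (Set.countable_iUnion fun n => (hP n).cnt).mono ?_
      rintro γ ⟨β, η, h⟩
      obtain ⟨n, -, h2⟩ := un_some_SIG h
      exact mem_iUnion.2 ⟨n, β, η, h2⟩
    · intro γ
      by_cases hγ : Rg γ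
      · refine card_SIG hγ (fun n => {z : A × A | P n (γ, z.1, z.2) ≠ none}) _ ?_
          fun n => (hP n).siz γ
        intro z hz
        obtain ⟨n, -, h2⟩ := un_some_SIG (g := P) hz
        exact mem_iUnion.2 ⟨n, h2⟩
      · have : {z : A × A | un_SIG P (γ, z.1, z.2) ≠ none} = ∅ := by
          ext z
          simp only [mem_setOf_eq, mem_empty_iff_false, iff_false, not_not]
          by_contra h
          obtain ⟨n, -, h2⟩ := un_some_SIG (g := P) h
          obtain ⟨v, hv⟩ := Option.ne_none_iff_exists'.1 h2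
          exact hγ ((hP n).dom _ _ _ _ hv).1
        rw [this]
        simp
    · intro γ hγ
      choose x hx hx' using fun n => (hP n).hgt γ hγ
      obtain ⟨ξ, h1, h2⟩ := bd_SIG hγ x hx
      refine ⟨ξ, h1, fun β η h => ?_⟩
      obtain ⟨n, -, h3⟩ := un_some_SIG (g := P) h
      exact lt_trans (hx' n β η h3) (h2 n)
  have hiT : isT κ Set.univ (un_SIG T) := by
    refine ⟨?_, ?_, ?_⟩
    · intro α η n hn
      obtain ⟨i, h1, -⟩ := un_some_SIG (g := T) (z := (α, η)) (by rw [hn]; simp)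
      exact (hT i).dom α η n (h1.trans hn)
    · refine card_SIG hκ (fun n => {z : A × A | T n z ≠ none}) _ ?_ fun n => (hT n).siz
      intro z hz
      obtain ⟨n, -, h2⟩ := un_some_SIG (g := T) hz
      exact mem_iUnion.2 ⟨n, h2⟩
    · choose x hx hx' using fun n => (hT n).hgt
      obtain ⟨ξ, h1, h2⟩ := bd_SIG hκ x hx
      refine ⟨ξ, h1, fun β η h => ?_⟩
      obtain ⟨n, -, h3⟩ := un_some_SIG (g := T) h
      exact lt_trans (hx' n β η h3) (h2 n)
  refine ⟨⟨(un_SIG P, un_SIG T), hiP, hiT⟩, fun n => ?_⟩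
  show Rle κ (un_SIG P, un_SIG T) (P n, T n)
  refine ⟨hpx n, fun z a ha => ?_⟩
  have ha' : T n z = some a := ha
  obtain ⟨m, hm, e1, e2⟩ := un_le_SIG (g := T) (z := z) (n := n) (by rw [ha']; simp)
  obtain ⟨a', hv'⟩ := Option.ne_none_iff_exists'.1 e2
  refine ⟨a', e1.trans hv', ?_⟩
  obtain ⟨n', h1, h2⟩ := (hR m n hm).2 z a' hv'
  have h1' : T n z = some n' := h1
  rw [ha'] at h1'
  obtain rfl := Option.some.inj h1'
  exact h2.symm.mono (hpx n)

end Pool.Agent.Helper24.FR
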