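import Pool.Agent.Helper24.FR.StV

set_option autoImplicit false

open Cardinal Set Filter

namespace Pool.Agent.Helper24.FR

/-- the least element which is not in `x` -/
private noncomputable def dd_UDE {A : Type} [LinearOrder A] [WellFoundedLT A] (κ : A)
    (x : Set A) : A := by
  classical exact if h : {z | z ∉ x}.Nonempty then
    (wellFounded_lt (α := A)).min {z | z ∉ x} h else κ

private theorem ord_UDE {A : Type} [LinearOrder A] [WellFoundedLT A] (d : A) (c : Cardinal)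
    (h : ∀ β < d, #(Iio β) < c) : #(Iio d) ≤ c := by
  have h0 : ∀ a : A, (Ordinal.typein (α := A) (· < ·) a).card = #(Iio a) := fun a =>
    Ordinal.card_typein (r := fun x y : A => x < y) a
  by_contra hc
  have hc' : c < #(Iio d) := not_le.1 hc
  have h1 : c.ord < Ordinal.typein (α := A) (· < ·) d := by
    by_contra h2
    have h3 : Ordinal.typein (α := A) (· < ·) d ≤ c.ord := not_lt.1 h2
    have h4 := Ordinal.card_le_card h3
    rw [h0, Cardinal.card_ord] at h4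
    exact hc h4
  have h2 : c.ord < Ordinal.type (α := A) (· < ·) := h1.trans (Ordinal.typein_lt_type _ d)
  obtain ⟨b, hb⟩ := Ordinal.typein_surj (α := A) (· < ·) h2
  have hb' : Ordinal.typein (α := A) (· < ·) b = c.ord := hb
  have hbd : b < d := (Ordinal.typein_lt_typein (α := A) (· < ·)).1 (by rw [hb']; exact h1)
  have h5 := h b hbd
  rw [← h0, hb', Cardinal.card_ord] at h5
  exact lt_irrefl _ h5

private theorem sur_UDE {A : Type} [LinearOrder A] (d β : A) (hβ : β < d) (T : Set A)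
    (hT : T ⊆ Iio d) (hc : #T ≤ #(Iio β)) :
    ∃ g : A → A, (∀ η, g η < d) ∧ ∀ s ∈ T, ∃ η < β, g η = s := by
  classical
  obtain ⟨e⟩ := hc
  refine ⟨fun η => if h : ∃ s : T, (e s : A) = η then (h.choose : A) else β, ?_, ?_⟩
  · intro η
    by_cases h : ∃ s : T, (e s : A) = η
    · simp only [dif_pos h]
      exact hT h.choose.2
    · simp only [dif_neg h]
      exact hβ
  · intro s hs
    refine ⟨e ⟨s, hs⟩, (e ⟨s, hs⟩).2, ?_⟩
    have h : ∃ s' : T, (e s' : A) = (e ⟨s, hs⟩ : A) := ⟨⟨s, hs⟩, rfl⟩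
    simp only [dif_pos h]
    have h2 : e h.choose = e ⟨s, hs⟩ := Subtype.ext h.choose_spec
    have h3 := e.injective h2
    rw [h3]

private theorem le_UDE {A : Type} [LinearOrder A] [WellFoundedLT A] (κ : A) (i : A → A)
    (hi : StrictMonoOn i (Iio κ)) : ∀ z < κ, z ≤ i z := by
  intro z
  induction z using WellFoundedLT.induction with
  | ind z ih =>
    intro hz
    by_contra h
    have h1 : i z < z := not_le.1 h
    have h2 := ih (i z) h1 (h1.trans hz)
    have h3 : i (i z) < i z := hi (h1.trans hz) hz h1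
    exact absurd h2 (not_le.2 h3)

private theorem fix_UDE {A : Type} [LinearOrder A] [WellFoundedLT A] (κ : A) (i : A → A)
    (x : Set A) (hi : StrictMonoOn i (Iio κ)) (hx : i '' Iio κ = x) (δ : A)
    (hs : Iio δ ⊆ x) : ∀ z < δ, i z = z := by
  intro z
  induction z using WellFoundedLT.induction with
  | ind z ih =>
    intro hz
    have h1 : z ∈ i '' Iio κ := hx ▸ hs hz
    obtain ⟨y, hy, hyz⟩ := h1
    have h2 : y ≤ z := hyz ▸ le_UDE κ i hi y hy
    rcases h2.lt_or_eq with h3 | h3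
    · have h4 := ih y h3 (h3.trans hz)
      rw [h4] at hyz
      exact absurd hyz h3.ne
    · rw [h3] at hyz
      exact hyz

theorem hUDE (hS : StUSE) (hK : StUKR) : StUDE := by
  intro A _ _ κ U hU
  obtain ⟨hrg, hsl⟩ := hK A κ U hU
  have hS1 := hS.1 A κ U hU
  have : Nonempty A := ⟨κ⟩
  classical
  set d : Set A → A := dd_UDE κ with hd
  have hdn : ∀ (x : Set A) (z : A), z ∉ x → d x ∉ x ∧ d x ≤ z := by
    intro x z hz
    have h : {z | z ∉ x}.Nonempty := ⟨z, hz⟩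
    have h1 : d x = (wellFounded_lt (α := A)).min {z | z ∉ x} h := by
      rw [hd]; unfold dd_UDE; rw [dif_pos h]
    rw [h1]
    exact ⟨(wellFounded_lt (α := A)).min_mem _ h,
      not_lt.1 ((wellFounded_lt (α := A)).not_lt_min _ hz)⟩
  -- (1)
  have h1 : ∀ᶠ x in (U : Filter (Set A)), ∀ a ∈ x, a < κ → Iio a ⊆ x := by
    refine hS1 (fun x a => a < κ → Iio a ⊆ x) fun a => ?_
    by_cases ha : a < κ
    · have := hU.comp (Iio a) (fun z x => z.1 ∈ x) (hU.kini a ha) fun z => hU.fine z.1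
      filter_upwards [this] with x hx _ z hz
      exact hx ⟨z, hz⟩
    · exact Filter.Eventually.of_forall fun x h => absurd h ha
  -- (2)
  have h2 : ∀ᶠ x in (U : Filter (Set A)), ∃ i : A → A, StrictMonoOn i (Iio κ) ∧
      i '' Iio κ = x ∧ d x < κ ∧ x ∩ Iio κ = Iio (d x) ∧ ∀ z < d x, i z = z := by
    filter_upwards [h1, hU.typ, hU.fine κ] with x hx ⟨i, hi, hix⟩ hκ
    have hnot : ¬ Iio κ ⊆ x := by
      intro hs
      have h3 := fix_UDE κ i x hi hix κ hs
      rw [← hix] at hκ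
      obtain ⟨g, hg, hgκ⟩ := hκ
      rw [h3 g hg] at hgκ
      exact absurd hg (by rw [hgκ]; exact lt_irrefl κ)
    obtain ⟨z, hzκ, hzx⟩ := Set.not_subset.1 hnot
    obtain ⟨h3, h4⟩ := hdn x z hzx
    have h5 : d x < κ := lt_of_le_of_lt h4 hzκ
    have h6 : Iio (d x) ⊆ x := by
      intro y hy
      by_contra hyx
      exact absurd (hdn x y hyx).2 (not_le.2 hy)
    refine ⟨i, hi, hix, h5, ?_, fix_UDE κ i x hi hix (d x) h6⟩
    ext a
    constructor
    · rintro ⟨ha, haκ⟩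
      by_contra hlt
      have h7 : d x ≤ a := not_lt.1 hlt
      rcases h7.lt_or_eq with h8 | h8
      · exact h3 (hx a ha haκ h8)
      · rw [h8] at h3
        exact h3 ha
    · intro ha
      exact ⟨h6 ha, lt_trans ha h5⟩
  have hbig : ∀ ξ < κ, ∀ᶠ x in (U : Filter (Set A)), ξ < d x := by
    intro ξ hξ
    filter_upwards [h2, hU.fine ξ] with x ⟨i, _, _, _, h3, _⟩ h4
    have : ξ ∈ x ∩ Iio κ := ⟨h4, hξ⟩
    rw [h3] at this
    exact this
  -- (3) uncountable
  have hunc : ∀ᶠ x in (U : Filter (Set A)), ℵ₀ < #(Iio (d x)) := by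
    obtain ⟨S, hS, hSc⟩ := Cardinal.le_mk_iff_exists_subset.1 hrg.1.le
    obtain ⟨ξ, hξ, hb⟩ := hrg.2.2 S hS (by rw [hSc]; exact hrg.1)
    have hξ0 : ℵ₀ ≤ #(Iio ξ) := by
      rw [← hSc]
      exact Cardinal.mk_le_mk_of_subset fun s hs => hb s hs
    have h3 : (2 : Cardinal) ^ ℵ₀ < #(Iio κ) :=
      lt_of_le_of_lt (Cardinal.power_le_power_left two_ne_zero hξ0) (hsl ξ hξ)
    obtain ⟨S', hS', hSc'⟩ := Cardinal.le_mk_iff_exists_subset.1 h3.le
    obtain ⟨ξ', hξ', hb'⟩ := hrg.2.2 S' hS' (by rw [hSc']; exact h3)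
    filter_upwards [hbig ξ' hξ'] with x hx
    calc ℵ₀ < 2 ^ ℵ₀ := Cardinal.cantor _
      _ = #S' := hSc'.symm
      _ ≤ #(Iio (d x)) := Cardinal.mk_le_mk_of_subset fun s hs => (hb' s hs).trans hx
  -- (C)
  have hC : ∀ᶠ x in (U : Filter (Set A)), ¬ ∃ β < d x, ∃ g : A → A, (∀ η, g η < d x) ∧
      ∀ ξ < d x, ∃ η < β, ξ ≤ g η := by
    rw [Ultrafilter.eventually_not]
    intro hcon
    choose! β hβ g hg hg' using fun (x : Set A) (h : ∃ β < d x, ∃ g : A → A, (∀ η, g η < d x) ∧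
      ∀ ξ < d x, ∃ η < β, ξ ≤ g η) => h
    have hin : ∀ᶠ x in (U : Filter (Set A)), Iio (d x) ⊆ x ∧ d x < κ := by
      filter_upwards [h2] with x ⟨i, _, _, h4, h3, _⟩
      exact ⟨h3 ▸ inter_subset_left, h4⟩
    obtain ⟨b, hb⟩ := hU.norm β (by
      filter_upwards [hcon, hin] with x hx h4
      exact h4.1 (hβ x hx))
    have hbκ : b < κ := by
      obtain ⟨x, hx, h4, h5⟩ := (hcon.and (hin.and hb)).exists
      rw [← h5]
      exact (hβ x hx).trans h4.2
    have hGG : ∀ η : A, ∃ a, ∀ᶠ x in (U : Filter (Set A)), g x η = a := by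
      intro η
      refine hU.norm (fun x => g x η) ?_
      filter_upwards [hcon, hin] with x hx h4
      exact h4.1 (hg x hx η)
    choose G hG using hGG
    have hGκ : ∀ η, G η < κ := by
      intro η
      obtain ⟨x, hx, h4, h5⟩ := (hcon.and (hin.and (hG η))).exists
      rw [← h5]
      exact (hg x hx η).trans h4.2
    have hall := hU.comp (Iio b) (fun η x => g x η.1 = G η.1) (hU.kini b hbκ) fun η => hG η.1
    obtain ⟨ξ, hξ, hξb⟩ := hrg.2.2 (G '' Iio b) (by
      rintro _ ⟨η, _, rfl⟩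
      exact hGκ η) (lt_of_le_of_lt Cardinal.mk_image_le (hU.kini b hbκ))
    obtain ⟨x, hx, h4, h5, h6⟩ := (hcon.and (hall.and (hb.and (hbig ξ hξ)))).exists
    obtain ⟨η, hη, hle⟩ := hg' x hx ξ h6
    rw [h5] at hη
    rw [h4 ⟨η, hη⟩] at hle
    exact absurd (hξb (G η) ⟨η, hη, rfl⟩) (not_lt.2 hle)
  have hrgd : ∀ᶠ x in (U : Filter (Set A)), Rg (d x) := by
    filter_upwards [hunc, hC] with x hx hCx
    have hini : ∀ ξ < d x, #(Iio ξ) < #(Iio (d x)) := by
      intro ξ hξ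
      by_contra hcon
      obtain ⟨g, hg, hg'⟩ := sur_UDE (d x) ξ hξ (Iio (d x)) (Subset.refl _) (not_lt.1 hcon)
      exact hCx ⟨ξ, hξ, g, hg, fun ζ hζ => by
        obtain ⟨η, h3, h4⟩ := hg' ζ hζ
        exact ⟨η, h3, h4.ge⟩⟩
    refine ⟨hx, hini, ?_⟩
    intro S hSd hSc
    by_contra hcon
    push Not at hcon
    have h3 : ∃ β < d x, #S ≤ #(Iio β) := by
      by_contra h4
      push Not at h4
      exact absurd hSc (not_lt.2 (ord_UDE (d x) #S h4))
    obtain ⟨β, hβ, hSβ⟩ := h3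
    obtain ⟨g, hg, hg'⟩ := sur_UDE (d x) β hβ S hSd hSβ
    refine hCx ⟨β, hβ, g, hg, fun ζ hζ => ?_⟩
    obtain ⟨s, hs, hζs⟩ := hcon ζ hζ
    obtain ⟨η, h3, h4⟩ := hg' s hs
    exact ⟨η, h3, by rw [h4]; exact hζs⟩
  refine ⟨d, fun x => if h : ∃ i : A → A, StrictMonoOn i (Iio κ) ∧
      i '' Iio κ = x ∧ d x < κ ∧ x ∩ Iio κ = Iio (d x) ∧ ∀ z < d x, i z = z then h.choose
      else id, ?_, hbig⟩
  filter_upwards [h2, hrgd] with x hx hr
  simp only [dif_pos hx]
  obtain ⟨k1, k2, k3, k4, k5⟩ := hx.choose_spec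
  exact ⟨k1, k2, k3, k4, hr, k5⟩

end Pool.Agent.Helper24.FR
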