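import Pool.Agent.Helper24.FR.StI

/-!
# FR, module UFX: ultrafilters exist
-/

set_option autoImplicit false

universe u

namespace Pool.Agent.Helper24.FR

theorem hUFX : StUFX.{u} := by
  intro B _ b hb
  let S : Set (Set B) := {s | ⊤ ∈ s ∧ (∀ x y, x ∈ s → y ∈ s → x ⊓ y ∈ s) ∧
    (∀ x y, x ∈ s → x ≤ y → y ∈ s) ∧ ⊥ ∉ s}
  have h0 : {a | b ≤ a} ∈ S := by
    refine ⟨?_, ?_, ?_, ?_⟩
    · show b ≤ ⊤
      exact le_top
    · intro x y hx hy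
      exact le_inf hx hy
    · intro x y hx hxy
      exact le_trans hx hxy
    · intro h
      exact hb (le_bot_iff.1 h)
  have hch : ∀ c ⊆ S, IsChain (· ⊆ ·) c → c.Nonempty → ∃ ub ∈ S, ∀ s ∈ c, s ⊆ ub := by
    intro c hc hchain hne
    refine ⟨⋃₀ c, ⟨?_, ?_, ?_, ?_⟩, fun s hs => Set.subset_sUnion_of_mem hs⟩
    · obtain ⟨s, hs⟩ := hne
      exact ⟨s, hs, (hc hs).1⟩
    · rintro x y ⟨s, hs, hx⟩ ⟨t, ht, hy⟩
      rcases hchain.total hs ht with h | h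
      · exact ⟨t, ht, (hc ht).2.1 x y (h hx) hy⟩
      · exact ⟨s, hs, (hc hs).2.1 x y hx (h hy)⟩
    · rintro x y ⟨s, hs, hx⟩ hxy
      exact ⟨s, hs, (hc hs).2.2.1 x y hx hxy⟩
    · rintro ⟨s, hs, h⟩
      exact (hc hs).2.2.2 h
  obtain ⟨m, hbm, hmax⟩ := zorn_subset_nonempty S hch _ h0
  have hm : m ∈ S := hmax.prop
  obtain ⟨h1, h2, h3, h4⟩ := hm
  have key : ∀ a, a ∉ m → aᶜ ∈ m := by
    intro a ha
    let s' : Set B := {c | ∃ d ∈ m, d ⊓ a ≤ c}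
    have hms : m ⊆ s' := fun d hd => ⟨d, hd, inf_le_left⟩
    have has : a ∈ s' := ⟨⊤, h1, inf_le_right⟩
    have hns : s' ∉ S := by
      intro hs
      exact ha (hmax.2 hs hms has)
    have hbot : ⊥ ∈ s' := by
      by_contra hcon
      refine hns ⟨hms h1, ?_, ?_, hcon⟩
      · rintro x y ⟨d, hd, hx⟩ ⟨e, he, hy⟩
        refine ⟨d ⊓ e, h2 d e hd he, le_inf ?_ ?_⟩
        · exact le_trans (inf_le_inf_right a inf_le_left) hx
        · exact le_trans (inf_le_inf_right a inf_le_right) hy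
      · rintro x y ⟨d, hd, hx⟩ hxy
        exact ⟨d, hd, le_trans hx hxy⟩
    obtain ⟨d, hd, hda⟩ := hbot
    exact h3 d aᶜ hd (le_compl_iff_disjoint_right.2 (disjoint_iff_inf_le.2 hda))
  refine ⟨⟨m, h1, h2, h3, fun a => ⟨fun h ha => ?_, key a⟩⟩, hbm (le_refl b)⟩
  have h5 := h2 _ _ ha h
  rw [inf_compl_self] at h5
  exact h4 h5

end Pool.Agent.Helper24.FR
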