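import Pool.Agent.Helper24.FR.StV

/-!
# FR, module UKR: `κ` is inaccessible
-/

set_option autoImplicit false

open Cardinal Set Filter

namespace Pool.Agent.Helper24.FR

section

variable {A : Type} [LinearOrder A] [WellFoundedLT A] {κ : A} {U : Ultrafilter (Set A)}

/-- `κ` is a limit. -/
theorem lim_UKR (hH : Hu κ U) {ξ : A} (hξ : ξ < κ) : ∃ ζ, ξ < ζ ∧ ζ < κ := by
  by_contra hcon
  push Not at hcon
  have hsub : Iio κ ⊆ Iio ξ ∪ {ξ} := by
    intro z hz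
    rcases lt_trichotomy z ξ with h | h | h
    · exact Or.inl h
    · exact Or.inr h
    · exact absurd (hcon z h) (not_le.2 hz)
  have h1 : #(Iio κ) ≤ #(Iio ξ) + 1 := by
    refine (Cardinal.mk_le_mk_of_subset hsub).trans ?_
    refine (Cardinal.mk_union_le _ _).trans ?_
    rw [Cardinal.mk_singleton]
  have h2 := hH.kini ξ hξ
  rcases lt_or_ge #(Iio ξ) ℵ₀ with h3 | h3
  · have h4 : #(Iio ξ) + 1 < ℵ₀ := Cardinal.add_lt_aleph0 h3 Cardinal.one_lt_aleph0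
    exact absurd (h1.trans_lt h4) (not_lt.2 hH.unc.le)
  · rw [Cardinal.add_one_eq h3] at h1
    exact absurd h2 (not_lt.2 h1)

/-- the preimage of `κ` -/
theorem pre_UKR (hH : Hu κ U) : ∃ g : Set A → A, (∀ᶠ x in (U : Filter (Set A)), g x < κ) ∧
    ∀ ξ < κ, ∀ᶠ x in (U : Filter (Set A)), ξ ≤ g x := by
  have h1 : ∀ᶠ x in (U : Filter (Set A)), ∃ g, g < κ ∧ ∃ i : A → A, StrictMonoOn i (Iio κ) ∧
      i '' Iio κ = x ∧ i g = κ := by
    filter_upwards [hH.typ, hH.fine κ] with x hx hκ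
    obtain ⟨i, hi1, hi2⟩ := hx
    rw [← hi2] at hκ
    obtain ⟨g, hg, hg'⟩ := hκ
    exact ⟨g, hg, i, hi1, hi2, hg'⟩
  obtain ⟨g, hg⟩ := h1.choice
  refine ⟨g, hg.mono fun x hx => hx.1, ?_⟩
  intro ξ hξ
  have h2 : ∀ᶠ x in (U : Filter (Set A)), ∀ z : Iio ξ, z.1 ∈ x :=
    hH.comp (Iio ξ) (fun z x => z.1 ∈ x) (hH.kini ξ hξ) fun z => hH.fine z.1
  filter_upwards [hg, h2] with x hx hsub
  obtain ⟨hgκ, i, hi1, hi2, hi3⟩ := hx
  by_contra hlt
  push Not at hlt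
  -- preimages are not smaller
  have key : ∀ z : A, z < ξ → ∀ z' < κ, i z' = z → z ≤ z' := by
    intro z
    induction z using WellFoundedLT.induction with
    | ind z ih =>
      intro hz z' hz' hiz
      by_contra hcon
      push Not at hcon
      have h3 : z' ∈ x := hsub ⟨z', hcon.trans hz⟩
      rw [← hi2] at h3
      obtain ⟨z'', hz'', hi''⟩ := h3
      have h4 := ih z' hcon (hcon.trans hz) z'' hz'' hi''
      have h5 : i z'' < i z' := by rw [hi'', hiz]; exact hcon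
      exact absurd ((hi1.lt_iff_lt hz'' hz').1 h5) (not_lt.2 h4)
  have h3 : g x ∈ x := hsub ⟨g x, hlt⟩
  have h3' : g x ∈ i '' Iio κ := by rw [hi2]; exact h3
  obtain ⟨g', hg'1, hg'2⟩ := h3'
  have h4 := key (g x) hlt g' hg'1 hg'2
  have h5 : i g' < i (g x) := by rw [hg'2, hi3]; exact hgκ
  exact absurd ((hi1.lt_iff_lt hg'1 hgκ).1 h5) (not_lt.2 h4)

theorem nc_UKR (hH : Hu κ U) {g : Set A → A}
    (h : ∀ ξ < κ, ∀ᶠ x in (U : Filter (Set A)), ξ ≤ g x) {c : A} (hc : c < κ)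
    (hle : ∀ᶠ x in (U : Filter (Set A)), g x ≤ c) : False := by
  obtain ⟨ξ, h1, h2⟩ := lim_UKR hH hc
  obtain ⟨x, hx1, hx2⟩ := (hle.and (h ξ h2)).exists
  exact absurd (hx2.trans hx1) (not_le.2 h1)

end

theorem hUKR (hS : StUSE) : StUKR := by
  intro A _ _ κ U hH
  obtain ⟨g, hgκ, hgξ⟩ := pre_UKR hH
  refine ⟨⟨hH.unc, hH.kini, ?_⟩, ?_⟩
  · intro S hSκ hSc
    by_contra hcon
    push Not at hcon
    have h1 : ∀ᶠ x in (U : Filter (Set A)), ∃ s, s ∈ S ∧ g x ≤ s := by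
      filter_upwards [hgκ] with x hx
      exact hcon (g x) hx
    obtain ⟨s, hs⟩ := h1.choice
    obtain ⟨z, hz, hz'⟩ := hS.2.2.1 A κ U hH A S hSc s (hs.mono fun x hx => hx.1)
    refine nc_UKR hH hgξ (hSκ hz) ?_
    filter_upwards [hs, hz'] with x h2 h3
    rw [← h3]; exact h2.2
  · intro a ha
    by_contra hcon
    push Not at hcon
    rw [← Cardinal.mk_set] at hcon
    obtain ⟨h⟩ := hcon
    obtain ⟨C, hC⟩ : ∃ C : Set (Iio a), ∀ η, η ∈ C ↔ ∀ᶠ x in (U : Filter (Set A)),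
        ∃ hx : g x < κ, η ∈ h ⟨g x, hx⟩ := ⟨{η | _}, fun η => Iff.rfl⟩
    have h1 : ∀ᶠ x in (U : Filter (Set A)), ∀ η : Iio a,
        ((∃ hx : g x < κ, η ∈ h ⟨g x, hx⟩) ↔ η ∈ C) := by
      refine hH.comp (Iio a) (fun η x => ((∃ hx : g x < κ, η ∈ h ⟨g x, hx⟩) ↔ η ∈ C))
        (hH.kini a ha) ?_
      intro η
      by_cases hη : η ∈ C
      · filter_upwards [(hC η).1 hη] with x hx
        exact ⟨fun _ => hη, fun _ => hx⟩
      · have h2 : ¬ ∀ᶠ x in (U : Filter (Set A)), ∃ hx : g x < κ, η ∈ h ⟨g x, hx⟩ :=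
          fun h3 => hη ((hC η).2 h3)
        rw [← Ultrafilter.eventually_not] at h2
        filter_upwards [h2] with x hx
        exact ⟨fun h3 => absurd h3 hx, fun h3 => absurd h3 hη⟩
    have h2 : ∀ x (hx : g x < κ), (∀ η : Iio a, ((∃ hx : g x < κ, η ∈ h ⟨g x, hx⟩) ↔ η ∈ C)) →
        h ⟨g x, hx⟩ = C := by
      intro x hx h3
      ext η
      rw [← h3 η]
      exact ⟨fun h4 => ⟨hx, h4⟩, fun ⟨_, h4⟩ => h4⟩
    obtain ⟨x₀, hx₀, hx₀'⟩ := (hgκ.and h1).exists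
    refine nc_UKR hH hgξ hx₀ ?_
    filter_upwards [hgκ, h1] with x hx hx'
    have h3 := h.injective ((h2 x hx hx').trans (h2 x₀ hx₀ hx₀').symm)
    exact (congrArg Subtype.val h3).le

end Pool.Agent.Helper24.FR
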