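import Pool.Agent.Helper24.FR.StV

/-!
# FR, module ULR: the target is inaccessible
-/

set_option autoImplicit false

open Cardinal Set Filter

namespace Pool.Agent.Helper24.FR

private theorem exists_Iio_ULR {A : Type} [LinearOrder A] [WellFoundedLT A] (c : Cardinal.{0})
    (hc : c < #A) : ∃ β : A, c ≤ #(Iio β) := by
  by_contra hcon
  push Not at hcon
  have h1 : Ordinal.type (fun a b : A => a < b) ≤ c.ord := by
    by_contra h2
    rw [not_le] at h2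
    obtain ⟨β, hβ⟩ := Ordinal.typein_surj (fun a b : A => a < b) h2
    have h3 : (Ordinal.typein (fun a b : A => a < b) β).card = c := by
      rw [hβ, card_ord]
    rw [Ordinal.card_typein] at h3
    exact absurd h3 (ne_of_lt (hcon β))
  have h2 := Ordinal.card_le_card h1
  rw [Ordinal.card_type, card_ord] at h2
  exact absurd hc (not_lt.2 h2)

private theorem small_ULR {A : Type} [LinearOrder A] {κ β : A} {x : Set A} {i : A → A}
    (hm : StrictMonoOn i (Iio κ)) (hi : i '' Iio κ = x) (hβ : β ∈ x) :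
    ∃ b < κ, #(x ∩ Iio β : Set A) ≤ #(Iio b) := by
  rw [← hi] at hβ
  obtain ⟨b, hb, rfl⟩ := hβ
  refine ⟨b, hb, ?_⟩
  have h1 : x ∩ Iio (i b) ⊆ i '' Iio b := by
    rintro y ⟨hy, hy'⟩
    rw [← hi] at hy
    obtain ⟨t, ht, rfl⟩ := hy
    exact ⟨t, (hm.lt_iff_lt ht hb).1 hy', rfl⟩
  exact (mk_le_mk_of_subset h1).trans mk_image_le

private theorem lreg_ULR (hS : StUSE) {A : Type} [LinearOrder A] [WellFoundedLT A] (κ : A)
    (U : Ultrafilter (Set A)) (hU : Hu κ U) (hκ : Rg κ) (S : Set A) (hSA : #S < #A) :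
    ∃ ξ, ∀ s ∈ S, s < ξ := by
  classical
  have : Nonempty A := ⟨κ⟩
  by_contra hcon
  push Not at hcon
  obtain ⟨β, hβ⟩ := exists_Iio_ULR _ hSA
  obtain ⟨s₀, hs₀, -⟩ := hcon κ
  obtain ⟨e⟩ := (Cardinal.le_def _ _).1 hβ
  obtain ⟨g, hg⟩ : ∃ g : A → A, ∀ a, ∃ η < β, a ≤ g η := by
    refine ⟨fun a => if h : ∃ s : S, ((e s : Iio β) : A) = a then (h.choose : A) else s₀,
      fun a => ?_⟩
    obtain ⟨s, hs, has⟩ := hcon a
    refine ⟨(e ⟨s, hs⟩ : Iio β), (e ⟨s, hs⟩).2, ?_⟩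
    have h : ∃ s' : S, ((e s' : Iio β) : A) = (e ⟨s, hs⟩ : Iio β) := ⟨⟨s, hs⟩, rfl⟩
    simp only
    rw [dif_pos h]
    have h1 : h.choose = ⟨s, hs⟩ := e.injective (Subtype.ext h.choose_spec)
    rw [h1]
    exact has
  have h1 := hS.1 A κ U hU (fun x a => g a ∈ x) (fun a => hU.fine (g a))
  have h2 := hS.1 A κ U hU (fun x a => ∃ η ∈ x, η < β ∧ a ≤ g η) (fun a => by
    obtain ⟨η, hη, ha⟩ := hg a
    filter_upwards [hU.fine η] with x hx
    exact ⟨η, hx, hη, ha⟩)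
  obtain ⟨x, hx1, hx2, hx3, i, hm, hi⟩ := (h1.and (h2.and ((hU.fine β).and hU.typ))).exists
  obtain ⟨b, hb, hcard⟩ := small_ULR hm hi hx3
  set T : Set A := {t | t < κ ∧ i t ∈ g '' (x ∩ Iio β)} with hT
  have hT1 : T ⊆ Iio κ := fun t ht => ht.1
  have hT2 : #T < #(Iio κ) := by
    refine lt_of_le_of_lt ?_ (hU.kini b hb)
    have h3 : T ⊆ (Function.invFunOn i (Iio κ)) '' (g '' (x ∩ Iio β)) := fun t ht =>
      ⟨i t, ht.2, hm.injOn.leftInvOn_invFunOn ht.1⟩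
    calc #T ≤ #((Function.invFunOn i (Iio κ)) '' (g '' (x ∩ Iio β)) : Set A) :=
          mk_le_mk_of_subset h3
      _ ≤ #(g '' (x ∩ Iio β) : Set A) := mk_image_le
      _ ≤ #(x ∩ Iio β : Set A) := mk_image_le
      _ ≤ #(Iio b) := hcard
  obtain ⟨ξ, hξ, hb2⟩ := hκ.2.2 T hT1 hT2
  have hix : i ξ ∈ x := by
    rw [← hi]
    exact ⟨ξ, hξ, rfl⟩
  obtain ⟨η, hηx, hηβ, hle⟩ := hx2 _ hix
  have hgx := hx1 η hηx
  rw [← hi] at hgx
  obtain ⟨t, ht, hgt⟩ := hgx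
  have htT : t ∈ T := ⟨ht, by rw [hgt]; exact ⟨η, ⟨hηx, hηβ⟩, rfl⟩⟩
  rw [← hgt] at hle
  exact absurd ((hm.le_iff_le hξ ht).1 hle) (not_le.2 (hb2 t htT))

private theorem lsl_ULR (hS : StUSE) {A : Type} [LinearOrder A] [WellFoundedLT A] (κ : A)
    (U : Ultrafilter (Set A)) (hU : Hu κ U) (hsl : ∀ a < κ, 2 ^ #(Iio a) < #(Iio κ)) (β : A) :
    2 ^ #(Iio β) < #A := by
  classical
  by_contra hcon
  rw [not_lt, ← mk_set] at hcon
  obtain ⟨e⟩ := (Cardinal.le_def _ _).1 hcon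
  have hne : ∀ a a' : A, a ≠ a' → ∃ η : Iio β, ¬ (η ∈ e a ↔ η ∈ e a') := by
    intro a a' haa
    by_contra hc
    push Not at hc
    exact haa (e.injective (Set.ext hc))
  have h1 := hS.1 A κ U hU (fun x a => ∀ a' ∈ x, a ≠ a' → ∃ η : Iio β, (η : A) ∈ x ∧
    ¬ (η ∈ e a ↔ η ∈ e a')) (fun a => hS.1 A κ U hU (fun x a' => a ≠ a' → ∃ η : Iio β,
      (η : A) ∈ x ∧ ¬ (η ∈ e a ↔ η ∈ e a')) (fun a' => by
        by_cases haa : a = a'
        · exact Eventually.of_forall fun x h => absurd haa h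
        · obtain ⟨η, hη⟩ := hne a a' haa
          filter_upwards [hU.fine (η : A)] with x hx
          exact fun _ => ⟨η, hx, hη⟩))
  obtain ⟨x, hx1, hx3, i, hm, hi⟩ := (h1.and ((hU.fine β).and hU.typ)).exists
  obtain ⟨b, hb, hcard⟩ := small_ULR hm hi hx3
  have hmem : ∀ t : Iio κ, i t ∈ x := fun t => by
    rw [← hi]
    exact ⟨t, t.2, rfl⟩
  have hinj : Function.Injective (fun t : Iio κ =>
      ({η : (x ∩ Iio β : Set A) | (⟨η.1, η.2.2⟩ : Iio β) ∈ e (i t)} :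
        Set (x ∩ Iio β : Set A))) := by
    intro t t' htt
    by_contra hne'
    have h2 : i t ≠ i t' := fun h => hne' (Subtype.ext (hm.injOn t.2 t'.2 h))
    obtain ⟨η, hη, h3⟩ := hx1 _ (hmem t) _ (hmem t') h2
    have h4 := Set.ext_iff.1 htt ⟨η.1, hη, η.2⟩
    exact h3 h4
  have h5 : #(Iio κ) ≤ #(Set (x ∩ Iio β : Set A)) := mk_le_of_injective hinj
  rw [mk_set] at h5
  exact absurd (h5.trans (power_le_power_left two_ne_zero hcard)) (not_le.2 (hsl b hb))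

theorem hULR (hS : StUSE) (hK : StUKR) : StULR := fun A _ _ κ U hU =>
  { rg := (hK A κ U hU).1
    sl := (hK A κ U hU).2
    lreg := lreg_ULR hS κ U hU (hK A κ U hU).1
    lsl := lsl_ULR hS κ U hU (hK A κ U hU).2 }

end Pool.Agent.Helper24.FR
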