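import Pool.Agent.Helper24.FR.StV

/-!
# FR, module UML (helper1): the main lemma
-/

set_option autoImplicit false

open Cardinal Set Filter

namespace Pool.Agent.Helper24.FR

/-- the sets `D'` -/
private def DD_UML {A : Type} [LinearOrder A] (κ : A) {Z : Type} (D : Z → Iio κ → Set (RC κ))
    (z : Z) (c : A) : Set (Ra A × Ta A) :=
  {a | ∃ (h : isP κ a.1 ∧ isT κ Set.univ a.2) (hc : c < κ), (⟨a, h⟩ : RC κ) ∈ D z ⟨c, hc⟩}

/-- the situation (d) at `x` -/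
private def PP_UML {A : Type} [LinearOrder A] (κ : A) {Z : Type} (AX : Set A → Set Z)
    (D : Z → Iio κ → Set (RC κ)) (g : Ta A → A) (p : RC κ) (δ : A) (x : Set A) (z : Z)
    (r : Ra A) (t : Ta A) : Prop :=
  z ∈ AX x → isP δ r → (isT κ Set.univ t ∧ g t ∈ x) → Rle κ (r, t) p.1 →
    ∃ r₁ t₁ c, isP δ r₁ ∧ (isT κ Set.univ t₁ ∧ g t₁ ∈ x) ∧ c < δ ∧ Rle κ (r₁, t₁) (r, t) ∧
      (r₁, t₁) ∈ DD_UML κ D z c

private theorem aeP_UML (hR : StRES) {A : Type} [LinearOrder A] [WellFoundedLT A] {κ : A}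
    {U : Ultrafilter (Set A)} {d : Set A → A} {i : Set A → A → A} (hκ : Rg κ)
    (hd : Dat κ U d i) {r : Ra A} (hr : isP κ r) :
    ∀ᶠ x in (U : Filter (Set A)), isP (d x) r := by
  obtain ⟨ξ, hξ, h⟩ := hR.2.2.2.2.2 A κ r hκ hr
  filter_upwards [hd.big ξ hξ] with x hx
  exact h _ hx.le

private theorem dens_UML (hR : StRES) (h1 : StR31) {A : Type} [LinearOrder A] [WellFoundedLT A]
    {κ : A} {U : Ultrafilter (Set A)} (hu : Hu κ U) {d : Set A → A} {i : Set A → A → A}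
    (hκ : Rg κ) (hd : Dat κ U d i) {Z : Type} (AX : Set A → Set Z)
    (hAX : ∀ f : Set A → Z, (∀ᶠ x in (U : Filter (Set A)), f x ∈ AX x) →
        ∃ z, ∀ᶠ x in (U : Filter (Set A)), f x = z)
    (p : RC κ) (D : Z → Iio κ → Set (RC κ)) (hdn : ∀ z, ∀ q ≤ p, ∃ r ≤ q, ∃ c, r ∈ D z c)
    (g : Ta A → A)
    (hg : ∀ t t', isT κ Set.univ t → isT κ Set.univ t' → g t = g t' → t = t') :
    ∀ᶠ x in (U : Filter (Set A)), ∀ z r t, PP_UML κ AX D g p (d x) x z r t := by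
  by_contra hcon
  rw [← Ultrafilter.eventually_not] at hcon
  obtain ⟨x0, hx0⟩ := hcon.exists
  push Not at hx0
  obtain ⟨z0, r0, t0, -⟩ := hx0
  have hch : ∀ x : Set A, ∃ (z : Z) (r : Ra A) (t : Ta A),
      ¬ (∀ z r t, PP_UML κ AX D g p (d x) x z r t) → ¬ PP_UML κ AX D g p (d x) x z r t := by
    intro x
    by_cases hx : ∀ z r t, PP_UML κ AX D g p (d x) x z r t
    · exact ⟨z0, r0, t0, fun h => absurd hx h⟩
    · push Not at hx
      obtain ⟨z, r, t, h⟩ := hx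
      exact ⟨z, r, t, fun _ => h⟩
  choose z r t hzrt using hch
  have hbad : ∀ᶠ x in (U : Filter (Set A)), ¬ PP_UML κ AX D g p (d x) x (z x) (r x) (t x) := by
    filter_upwards [hcon] with x hx
    exact hzrt x hx
  have hb : ∀ᶠ x in (U : Filter (Set A)), z x ∈ AX x ∧ isP (d x) (r x) ∧
      (isT κ Set.univ (t x) ∧ g (t x) ∈ x) ∧ Rle κ (r x, t x) p.1 ∧
      ¬ ∃ r₁ t₁ c, isP (d x) r₁ ∧ (isT κ Set.univ t₁ ∧ g t₁ ∈ x) ∧ c < d x ∧
        Rle κ (r₁, t₁) (r x, t x) ∧ (r₁, t₁) ∈ DD_UML κ D (z x) c := by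
    filter_upwards [hbad] with x hx
    unfold PP_UML at hx
    push Not at hx
    obtain ⟨a1, a2, a3, a4, a5⟩ := hx
    refine ⟨a1, a2, a3, a4, ?_⟩
    push Not
    exact a5
  obtain ⟨z', hz'⟩ := hAX z (hb.mono fun x hx => hx.1)
  obtain ⟨r', hr', hrr'⟩ := h1 A κ U d i hu hd r (hb.mono fun x hx => hx.2.1)
  obtain ⟨a, ha⟩ := hu.norm (fun x => g (t x)) (hb.mono fun x hx => hx.2.2.1.2)
  obtain ⟨x1, hx1, hx2, hx3⟩ := (hb.and (ha.and hrr')).exists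
  have htt : ∀ᶠ x in (U : Filter (Set A)), t x = t x1 := by
    filter_upwards [hb, ha] with x hx hxa
    exact hg _ _ hx.2.2.1.1 hx1.2.2.1.1 (by rw [hxa, hx2])
  have hTt : isT κ Set.univ (t x1) := hx1.2.2.1.1
  have hle : Rle κ (r', t x1) p.1 := by
    rw [← hx3]
    exact hx1.2.2.2.1
  obtain ⟨q, hq, c, hqc⟩ := hdn z' (⟨(r', t x1), hr', hTt⟩ : RC κ) hle
  obtain ⟨x, hx, hxz, hxr, hxt, hxq, hxg, hxc⟩ := (hb.and (hz'.and (hrr'.and (htt.and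
    ((aeP_UML hR hκ hd q.2.1).and ((hu.fine (g q.1.2)).and (hd.big c.1 c.2))))))).exists
  apply hx.2.2.2.2
  refine ⟨q.1.1, q.1.2, c.1, hxq, ⟨q.2.2, hxg⟩, hxc, ?_, ?_⟩
  · rw [hxr, hxt]
    exact hq
  · rw [hxz]
    exact ⟨q.2, c.2, hqc⟩

theorem hUML (hR : StRES) (hC : StCNU) (hP : StPRJ) (hM : StMLX) (_hS : StUSE) (hD : StUDE)
    (hL : StULR) (h1 : StR31) (hF : StRFX) : StUML := by
  classical
  intro A _ _ κ U hu Z AX hAX p D hop hdis hdn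
  obtain ⟨d, i, hd⟩ := hD A κ U hu
  have hB : Big κ := hL A κ U hu
  have hκ : Rg κ := hB.rg
  obtain ⟨e⟩ := (Cardinal.le_def _ _).1 (hC.2.2.1 A κ hB)
  let g : Ta A → A := fun t => if h : isT κ Set.univ t then e ⟨t, h⟩ else κ
  have hg : ∀ t t', isT κ Set.univ t → isT κ Set.univ t' → g t = g t' → t = t' := by
    intro t t' ht ht' h
    simp only [g, ht, ht', dif_pos] at h
    have := e.injective h
    simpa using this
  have hdens := dens_UML hR h1 hu hκ hd AX hAX p D hdn g hg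
  have hFx := hF A κ U d i g hu hd hg
  obtain ⟨x, hx, hxF, hxp, hxt, hxg⟩ := (hdens.and (hFx.and ((aeP_UML hR hκ hd p.2.1).and
    ((hu.fine (g p.1.2)).and hd.good)))).exists
  obtain ⟨pt, hpt⟩ := hP A κ (d x) hB hxg.rg hxg.lt
  obtain ⟨q, m, hq, hm, hle, hfin⟩ := hM A κ (d x) _ _ pt hκ hxF hpt Z (AX x) (DD_UML κ D)
    p.1.1 p.1.2 hxp ⟨p.2.2, hxt⟩ (by
      rintro z c a a' h3 h4 ⟨h5, hc, h6⟩ h7
      exact ⟨⟨h3, h4⟩, hc, hop z ⟨c, hc⟩ _ _ h6 h7⟩) (by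
      rintro z c c' a ⟨h3, hc, h4⟩ ⟨h5, hc', h6⟩
      by_contra hne
      exact hdis z ⟨c, hc⟩ ⟨c', hc'⟩ _ (fun h => hne (congrArg Subtype.val h)) h4 h6) (by
      intro z hz r t hr ht hrt
      exact hx z r t hz hr ht hrt)
  refine ⟨⟨(q, m), hq, hm⟩, hle, x, ⟨d x, hxg.lt⟩, ?_, ?_⟩
  · have hbij : BijOn (i x) (Iio κ) x := by
      have := hxg.mono.injOn.bijOn_image
      rwa [hxg.img] at this
    exact ⟨(hbij.equiv _).symm⟩
  · intro z hz c hc r hr hrD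
    exact hfin z hz c.1 hc r.1 r.2.1 r.2.2 hr ⟨r.2, c.2, hrD⟩

end Pool.Agent.Helper24.FR
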