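import Pool.Agent.Helper24.FR.StV

/-!
# FR, module USE: normality in usable form
-/

set_option autoImplicit false

open Cardinal Set Filter

namespace Pool.Agent.Helper24.FR

private theorem use1 {A : Type} [LinearOrder A] (κ : A) (U : Ultrafilter (Set A)) (hU : Hu κ U)
    (P : Set A → A → Prop) (hP : ∀ a, ∀ᶠ x in (U : Filter (Set A)), P x a) :
    ∀ᶠ x in (U : Filter (Set A)), ∀ a ∈ x, P x a := by
  classical
  by_contra hcon
  rw [← Ultrafilter.eventually_not] at hcon
  have h1 : ∀ x : Set A, ∃ a : A, (¬ ∀ a ∈ x, P x a) → a ∈ x ∧ ¬ P x a := by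
    intro x
    by_cases h : ∀ a ∈ x, P x a
    · exact ⟨κ, fun h' => absurd h h'⟩
    · push Not at h
      obtain ⟨a, ha, ha'⟩ := h
      exact ⟨a, fun _ => ⟨ha, ha'⟩⟩
  choose f hf using h1
  have h2 : ∀ᶠ x in (U : Filter (Set A)), f x ∈ x := hcon.mono fun x hx => (hf x hx).1
  obtain ⟨a, ha⟩ := hU.norm f h2
  have h3 : ∀ᶠ x in (U : Filter (Set A)), False := by
    filter_upwards [hcon, ha, hP a] with x hx1 hx2 hx3
    have h4 := (hf x hx1).2
    rw [hx2] at h4
    exact h4 hx3
  rw [Filter.eventually_false_iff_eq_bot] at h3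
  exact U.neBot.ne h3

private theorem use3 {A : Type} [LinearOrder A] (κ : A) (U : Ultrafilter (Set A)) (hU : Hu κ U)
    (Z : Type) (S : Set Z) (hS : #S < #(Iio κ)) (f : Set A → Z)
    (hf : ∀ᶠ x in (U : Filter (Set A)), f x ∈ S) :
    ∃ z ∈ S, ∀ᶠ x in (U : Filter (Set A)), f x = z := by
  by_contra hcon
  push Not at hcon
  have h1 : ∀ z : S, ∀ᶠ x in (U : Filter (Set A)), ¬ f x = z.1 := by
    intro z
    exact hcon z.1 z.2
  have h2 := hU.comp S (fun z x => ¬ f x = z.1) hS h1
  have h3 : ∀ᶠ x in (U : Filter (Set A)), False := by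
    filter_upwards [hf, h2] with x hx1 hx2
    exact hx2 ⟨f x, hx1⟩ rfl
  rw [Filter.eventually_false_iff_eq_bot] at h3
  exact U.neBot.ne h3

private theorem use4 {A : Type} [LinearOrder A] (κ : A) (U : Ultrafilter (Set A)) (hU : Hu κ U)
    (f : Set A → Set A) (hf : ∀ᶠ x in (U : Filter (Set A)), (f x).Countable ∧ f x ⊆ x) :
    ∃ y, ∀ᶠ x in (U : Filter (Set A)), f x = y := by
  classical
  have h1 : ∀ x : Set A, ∃ e : ℕ → Option A, (f x).Countable → ∀ a, a ∈ f x ↔ ∃ n, e n = some a := by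
    intro x
    by_cases h : (f x).Countable
    · let E : Encodable (f x) := h.toEncodable
      refine ⟨fun n => (Encodable.decode (α := f x) n).map Subtype.val, fun _ a => ?_⟩
      constructor
      · intro ha
        refine ⟨Encodable.encode (⟨a, ha⟩ : f x), ?_⟩
        simp
      · rintro ⟨n, hn⟩
        rw [Option.map_eq_some_iff] at hn
        obtain ⟨b, _, hb⟩ := hn
        rw [← hb]
        exact b.2
    · exact ⟨fun _ => none, fun h' => absurd h' h⟩
  choose e he using h1
  have h2 : ∀ n : ℕ, ∃ c : Option A, ∀ᶠ x in (U : Filter (Set A)), e x n = c := by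
    intro n
    by_cases h : ∀ᶠ x in (U : Filter (Set A)), e x n = none
    · exact ⟨none, h⟩
    · rw [← Ultrafilter.eventually_not] at h
      have h3 : ∀ᶠ x in (U : Filter (Set A)), (e x n).getD κ ∈ x := by
        filter_upwards [h, hf] with x hx1 hx2
        obtain ⟨a, ha⟩ := Option.ne_none_iff_exists'.1 hx1
        rw [ha, Option.getD_some]
        exact hx2.2 ((he x hx2.1 a).2 ⟨n, ha⟩)
      obtain ⟨a, ha⟩ := hU.norm _ h3
      refine ⟨some a, ?_⟩
      filter_upwards [h, ha] with x hx1 hx2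
      obtain ⟨b, hb⟩ := Option.ne_none_iff_exists'.1 hx1
      rw [hb, Option.getD_some] at hx2
      rw [hb, hx2]
  choose c hc using h2
  have h3 := hU.comp ℕ (fun n x => e x n = c n) (by rw [Cardinal.mk_nat]; exact hU.unc) hc
  refine ⟨{a | ∃ n, c n = some a}, ?_⟩
  filter_upwards [h3, hf] with x hx1 hx2
  ext a
  rw [he x hx2.1 a]
  simp only [Set.mem_ofPred_eq, hx1]

theorem hUSE : StUSE := by
  refine ⟨?_, ?_, ?_, ?_⟩
  · intro A _ _ κ U hU P hP
    exact use1 κ U hU P hP
  · intro A _ _ κ U hU Z T g hg P hP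
    have h := use1 κ U hU (fun x a => ∀ z ∈ T, g z = a → P x z) (by
      intro a
      by_cases hz : ∃ z ∈ T, g z = a
      · obtain ⟨z, hz, hza⟩ := hz
        filter_upwards [hP z hz] with x hx z' hz' hza'
        rw [hg z' hz' z hz (hza'.trans hza.symm)]
        exact hx
      · exact Filter.Eventually.of_forall fun x z hz' hza' => absurd ⟨z, hz', hza'⟩ hz)
    filter_upwards [h] with x hx z hz hgz
    exact hx (g z) hgz z hz rfl
  · intro A _ _ κ U hU Z S hS f hf
    exact use3 κ U hU Z S hS f hf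
  · intro A _ _ κ U hU f hf
    exact use4 κ U hU f hf

end Pool.Agent.Helper24.FR
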