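import Pool.Agent.Helper24.FR.StIV

set_option autoImplicit false

open Cardinal Set

namespace Pool.Agent.Helper24.FR

private theorem countable_WOO {A : Type} [LinearOrder A] {w : A}
    (h : ∀ a < w, (Set.Iio a).Finite) : (Set.Iio w).Countable := by
  have hinj : Function.Injective (fun a : Set.Iio w => (Set.Iio (a : A)).ncard) := by
    intro a b hab
    rcases lt_trichotomy (a : A) (b : A) with hlt | heq | hlt
    · exact absurd hab (Set.ncard_lt_ncard (Set.Iio_ssubset_Iio hlt) (h _ b.2)).ne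
    · exact Subtype.ext heq
    · exact absurd hab.symm (Set.ncard_lt_ncard (Set.Iio_ssubset_Iio hlt) (h _ a.2)).ne
  exact (hinj.countable : Countable (Set.Iio w))

theorem hWOO : StWOO := by
  intro A _ _ κ hB
  have hwf : WellFounded ((· < ·) : A → A → Prop) := wellFounded_lt
  -- `w₀`
  have hinf : (Set.Iio κ).Infinite := by
    intro hfin
    exact absurd (hfin.lt_aleph0) (not_lt.2 hB.rg.1.le)
  have hne0 : ({w : A | (Set.Iio w).Infinite}).Nonempty := ⟨κ, hinf⟩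
  obtain ⟨w₀, hw₀, hmin0⟩ : ∃ w₀ : A, (Set.Iio w₀).Infinite ∧
      ∀ a, (Set.Iio a).Infinite → ¬ a < w₀ :=
    ⟨hwf.min _ hne0, hwf.min_mem _ hne0, fun a ha => hwf.not_lt_min _ ha⟩
  have hfin0 : ∀ a < w₀, (Set.Iio a).Finite := by
    intro a ha
    by_contra hc
    exact hmin0 a hc ha
  have hcnt0 : (Set.Iio w₀).Countable := countable_WOO hfin0
  have hlt0 : w₀ < κ := by
    rcases lt_trichotomy w₀ κ with h | h | h
    · exact h
    · subst h
      exact absurd hcnt0.le_aleph0 (not_le.2 hB.rg.1)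
    · exact absurd h (hmin0 κ hinf)
  have hcard0 : #(Set.Iio w₀) = ℵ₀ :=
    le_antisymm hcnt0.le_aleph0 (Cardinal.aleph0_le_mk_iff.2 hw₀.to_subtype)
  have hpow : (2 : Cardinal) ^ ℵ₀ < #(Set.Iio κ) := by
    have := hB.sl w₀ hlt0
    rwa [hcard0] at this
  obtain ⟨S, hS, hSc⟩ := Cardinal.le_mk_iff_exists_subset.1 hpow.le
  obtain ⟨β, hβ, hSβ⟩ := hB.rg.2.2 S hS (by rw [hSc]; exact hpow)
  have hle : (2 : Cardinal) ^ ℵ₀ ≤ #(Set.Iio β) := by
    rw [← hSc]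
    exact Cardinal.mk_le_mk_of_subset fun s hs => hSβ s hs
  have hncβ : ¬ (Set.Iio β).Countable := by
    intro hc
    exact absurd (hle.trans hc.le_aleph0) (not_le.2 (Cardinal.cantor ℵ₀))
  have hne1 : ({w : A | ¬ (Set.Iio w).Countable}).Nonempty := ⟨β, hncβ⟩
  obtain ⟨w₁, hw₁, hmin1⟩ : ∃ w₁ : A, ¬ (Set.Iio w₁).Countable ∧
      ∀ a, ¬ (Set.Iio a).Countable → ¬ a < w₁ :=
    ⟨hwf.min _ hne1, hwf.min_mem _ hne1, fun a ha => hwf.not_lt_min _ ha⟩
  refine ⟨w₀, w₁, ⟨hw₀, hfin0⟩, ⟨hw₁, fun a ha => ?_⟩, ?_, β, hβ, ?_⟩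
  · by_contra hc
    exact hmin1 a hc ha
  · exact lt_of_le_of_lt (not_lt.1 (hmin1 β hncβ)) hβ
  · have hcard : #{S : Set A // S ⊆ Set.Iio w₀} ≤ #(Set.Iio β) := by
      have h1 : #{S : Set A // S ⊆ Set.Iio w₀} = 2 ^ #(Set.Iio w₀) :=
        Cardinal.mk_powerset (Set.Iio w₀)
      rw [h1, hcard0]
      exact hle
    obtain ⟨e⟩ := hcard
    have : Nonempty {S : Set A // S ⊆ Set.Iio w₀} := ⟨⟨∅, Set.empty_subset _⟩⟩
    exact ⟨Function.invFun e, Function.invFun_surjective e.injective⟩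

end Pool.Agent.Helper24.FR
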