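import Pool.Agent.Helper24.FR.M_CAP
import Pool.Agent.Helper24.FR.M_CCP
import Pool.Agent.Helper24.FR.M_CDN
import Pool.Agent.Helper24.FR.M_CHN
import Pool.Agent.Helper24.FR.M_CHO
import Pool.Agent.Helper24.FR.M_CIN
import Pool.Agent.Helper24.FR.M_CLF
import Pool.Agent.Helper24.FR.M_CLP
import Pool.Agent.Helper24.FR.M_CNT
import Pool.Agent.Helper24.FR.M_CNU
import Pool.Agent.Helper24.FR.M_CO1
import Pool.Agent.Helper24.FR.M_CO2
import Pool.Agent.Helper24.FR.M_CRP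
import Pool.Agent.Helper24.FR.M_DCI
import Pool.Agent.Helper24.FR.M_DSU
import Pool.Agent.Helper24.FR.M_EXT
import Pool.Agent.Helper24.FR.M_FND
import Pool.Agent.Helper24.FR.M_HUG
import Pool.Agent.Helper24.FR.M_INF
import Pool.Agent.Helper24.FR.M_LEN
import Pool.Agent.Helper24.FR.M_MAS
import Pool.Agent.Helper24.FR.M_MLX
import Pool.Agent.Helper24.FR.M_OMN
import Pool.Agent.Helper24.FR.M_ONN
import Pool.Agent.Helper24.FR.M_PCB
import Pool.Agent.Helper24.FR.M_PCV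
import Pool.Agent.Helper24.FR.M_PDB
import Pool.Agent.Helper24.FR.M_PFN
import Pool.Agent.Helper24.FR.M_PIJ
import Pool.Agent.Helper24.FR.M_PMO
import Pool.Agent.Helper24.FR.M_POW
import Pool.Agent.Helper24.FR.M_PRJ
import Pool.Agent.Helper24.FR.M_PRN
import Pool.Agent.Helper24.FR.M_PSB
import Pool.Agent.Helper24.FR.M_PTN
import Pool.Agent.Helper24.FR.M_PTR
import Pool.Agent.Helper24.FR.M_PUN
import Pool.Agent.Helper24.FR.M_PWN
import Pool.Agent.Helper24.FR.M_R31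
import Pool.Agent.Helper24.FR.M_R32
import Pool.Agent.Helper24.FR.M_R33
import Pool.Agent.Helper24.FR.M_R34
import Pool.Agent.Helper24.FR.M_REP
import Pool.Agent.Helper24.FR.M_RES
import Pool.Agent.Helper24.FR.M_RFX
import Pool.Agent.Helper24.FR.M_RLN
import Pool.Agent.Helper24.FR.M_ROA
import Pool.Agent.Helper24.FR.M_SEP
import Pool.Agent.Helper24.FR.M_SIG
import Pool.Agent.Helper24.FR.M_UDE
import Pool.Agent.Helper24.FR.M_UFX
import Pool.Agent.Helper24.FR.M_UKR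
import Pool.Agent.Helper24.FR.M_ULR
import Pool.Agent.Helper24.FR.M_UML
import Pool.Agent.Helper24.FR.M_USE
import Pool.Agent.Helper24.FR.M_WOO
import Pool.Agent.Helper24.FR.Asm
import Pool.Agent.Helper24.FR.Sent

/-!
# FR: the main theorem

`zfc_quotient`: the quotient of the universe of names over a complete Boolean algebra by an ultrafilter satisfies ZFC.
`model`: a huge cardinal gives a model of ZFC with `μ⁺⁺ → [μ⁺] ^ ω _ {μ⁺}`, `μ = 2 ^ ω`.
-/

set_option autoImplicit false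

universe u

open Cardinal Set

namespace Pool.Agent.Helper24.FR

theorem hZFC : StZFC.{u} :=
  hZFC_of (hEXT hUFX) hFND hPUN hPOW hINF hSEP hREP hCHO

/-- The Boolean valued model modulo an ultrafilter satisfies ZFC. -/
theorem zfc_quotient {B : Type u} [CompleteBooleanAlgebra B] (W : UF B) : ZFC (QE W) := hZFC B W

theorem hhPRN : StPRN.{u} := hPRN (hEXT hUFX)
theorem hhRLN : StRLN.{u} := hRLN hhPRN
theorem hhLEN : StLEN.{u} := hLEN hhRLN
theorem hhONN : StONN.{u} := hONN hFND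
theorem hhOMN : StOMN.{u} := hOMN hhONN
theorem hhCIN : StCIN.{u} := hCIN hhLEN hhONN hhOMN hCLF
theorem hhDSU : StDSU.{u} := hDSU hhONN
theorem hhDCI : StDCI.{u} := hDCI hhLEN hhONN hhOMN hCLF
theorem hhPWN : StPWN.{u} := hPWN hhONN hhDSU
theorem hhCDN : StCDN.{u} := hCDN hhLEN hhONN hhOMN hCLF hhPWN
theorem hhPTN : StPTN.{u} := hPTN hhLEN hhONN hCLF hhCIN hhDCI hhCDN
theorem hhCLP : StCLP.{u} := hCLP hPDB

theorem hhCNU : StCNU := hCNU hCNT
theorem hhCHN : StCHN := hCHN hCNT hhCNU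
theorem hhCCP : StCCP := hCCP hhCHN
theorem hhPRJ : StPRJ := hPRJ hRES hhCNU
theorem hhMAS : StMAS := hMAS hRES (hCAP hRES)
theorem hhMLX : StMLX := hMLX hRES hhMAS

theorem hhUKR : StUKR := hUKR hUSE
theorem hhUDE : StUDE := hUDE hUSE hhUKR
theorem hhULR : StULR := hULR hUSE hhUKR
theorem hhR31 : StR31 := hR31 hRES hCNT hhCNU hUSE hhULR
theorem hhR32 : StR32 := hR32 hRES hUSE hhULR hhR31
theorem hhR33 : StR33 := hR33 hRES hUSE hhULR hhR31
theorem hhR34 : StR34 := hR34 hRES hUSE hhULR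
theorem hhRFX : StRFX := hRFX hUSE hhR31 hhR32 hhR33 hhR34
theorem hhUML : StUML := hUML hRES hhCNU hhPRJ hhMLX hUSE hhUDE hhULR hhR31 hhRFX
theorem hhCRP : StCRP := hCRP hUSE hhUML

theorem hhPSB : StPSB.{u} := hPSB hPCV
theorem hhPIJ : StPIJ.{u} := hPIJ hPCV hhPSB
theorem hhPCB : StPCB.{u} := hPCB hPCV hhPSB
theorem hhPFN : StPFN.{u} := hPFN hPCV hhPSB hhPIJ hhPCB
theorem hhPMO : StPMO.{u} := hPMO hPCV hhPSB hPTR

/-- The model. -/
theorem model (h : ∃ κ : Cardinal.{0}, IsHuge κ) :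
    ∃ (N : Type 1) (E : N → N → Prop), ZFC E ∧ ∃ m k l : N,
      PCont E m ∧ PSucc E m k ∧ PSucc E k l ∧ ∀ l', PCard E l' → E k l' → ¬ PNeg E l' k := by
  obtain ⟨κ, hκ⟩ := h
  obtain ⟨A, i1, i2, κ', U, hU⟩ := hHUG κ hκ
  obtain ⟨N, E, hE, m, k, l, h1, h2, h3, h4⟩ := fromHu hZFC hUFX hhPTN hROA hPDB hhCLP hSIG hCO1
    hCO2 hWOO hhCCP hhULR hhCRP hhPFN A κ' U hU
  exact ⟨N, E, hE, m, k, l, h1, h2, h3, fun l' h5 h6 h7 => h4 (hhPMO N E hE k l l' h3 h5 h6 h7)⟩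

end Pool.Agent.Helper24.FR
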