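import Pool.Agent.Helper24.FR.Bv

/-!
# FR: notions of set theory with values in a complete Boolean algebra, and their codes

`O = Prop` gives the usual notions for a structure `(N, E)`, `O = B` the Boolean values in the universe of names.
-/

set_option autoImplicit false

universe u v w

namespace Pool.Agent.Helper24.FR

section notions

variable {O : Type u} [CompleteBooleanAlgebra O] {M : Type v} (E Q : M → M → O)

/-- Equivalence. -/
def bi (a b : O) : O := (a ⇨ b) ⊓ (b ⇨ a)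

/-- `x ⊆ y`. -/
def Sub (x y : M) : O := ⨅ z, E z x ⇨ E z y

/-- `w = {x}`. -/
def Sg (w x : M) : O := ⨅ z, bi (E z w) (Q z x)

/-- `w = {x, y}`. -/
def Db (w x y : M) : O := ⨅ z, bi (E z w) (Q z x ⊔ Q z y)

/-- `z = (x, y) = {{x}, {x, y}}`. -/
def Pr (z x y : M) : O := ⨅ w, bi (E w z) (Sg E Q w x ⊔ Db E Q w x y)

/-- `(x, y) ∈ f`. -/
def Rl (f x y : M) : O := ⨆ z, E z f ⊓ Pr E Q z x y

/-- `f` is functional: `(x, y), (x, y') ∈ f` implies `y = y'`. -/
def Fn (f : M) : O := ⨅ x, ⨅ y, ⨅ y', Rl E Q f x y ⊓ Rl E Q f x y' ⇨ Q y y'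

/-- `f` is functional, and all elements of `b` are values at elements of `m`. -/
def Cov (f m b : M) : O := Fn E Q f ⊓ ⨅ y, E y b ⇨ ⨆ x, E x m ⊓ Rl E Q f x y

/-- `|b| ≤ |m|`. -/
def Le (b m : M) : O := ⨆ f, Cov E Q f m b

/-- `x` is transitive. -/
def Tr (x : M) : O := ⨅ y, E y x ⇨ Sub E y x

/-- `x` is an ordinal. -/
def Od (x : M) : O := Tr E x ⊓ ⨅ y, E y x ⇨ Tr E y

/-- `x` is a cardinal: an ordinal with `¬ |x| ≤ |b|` for `b ∈ x`. -/
def Cd (x : M) : O := Od E x ⊓ ⨅ b, E b x ⇨ (Le E Q x b)ᶜ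

/-- `k = m⁺`. -/
def Sc (m k : M) : O := Cd E Q k ⊓ E m k ⊓ ⨅ b, E b k ⇨ Le E Q b m

/-- `e` is empty. -/
def Em (e : M) : O := ⨅ z, (E z e)ᶜ

/-- `y = x ∪ {x}`. -/
def Su (y x : M) : O := ⨅ z, bi (E z y) (E z x ⊔ Q z x)

/-- `w` is inductive. -/
def Id (w : M) : O := (⨆ e, Em E e ⊓ E e w) ⊓ ⨅ x, E x w ⇨ ⨆ y, E y w ⊓ Su E Q y x

/-- `w = ω`, the least inductive set. -/
def Om (w : M) : O := Id E Q w ⊓ ⨅ z, Id E Q z ⇨ Sub E w z

/-- `y` is countably infinite. -/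
def Ci (y : M) : O := ⨆ w, Om E Q w ⊓ (Le E Q y w ⊓ Le E Q w y)

/-- `p` is the power set of `x`. -/
def Pw (p x : M) : O := ⨅ z, bi (E z p) (Sub E z x)

/-- `m = 2^ω`. -/
def Ct (m : M) : O := Cd E Q m ⊓ ⨆ w, Om E Q w ⊓ ⨆ p, Pw E p w ⊓ (Le E Q p m ⊓ Le E Q m p)

/-- `f` has a value in `k` at all countably infinite subsets of `l`. -/
def Tot (f l k : M) : O := ⨅ y, Sub E y l ⊓ Ci E Q y ⇨ ⨆ c, E c k ⊓ Rl E Q f y c

/-- `f` omits some value `c ∈ k` on the countably infinite subsets of `X`. -/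
def Omi (f X k : M) : O := ⨆ c, E c k ⊓ ⨅ y, Sub E y X ⊓ Ci E Q y ⇨ (Rl E Q f y c)ᶜ

/-- `m = 2^ω`, `k = m⁺`, `l = m⁺⁺`, and every `f : [l]^ω → k` omits a value on `[X]^ω` for some `X ⊆ l` with `|X| = k`. -/
def PosP (m k l : M) : O :=
  Ct E Q m ⊓ (Sc E Q m k ⊓ (Sc E Q k l ⊓ ⨅ f, Fn E Q f ⊓ Tot E Q f l k ⇨
    ⨆ X, Sub E X l ⊓ (Le E Q X k ⊓ (Le E Q k X ⊓ Omi E Q f X k))))

end notions

/-! ### Codes -/

/-- Negation. -/
def fNot (φ : Fml) : Fml := .imp φ .bot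
/-- Conjunction. -/
def fAnd (φ ψ : Fml) : Fml := fNot (.imp φ (fNot ψ))
/-- Disjunction. -/
def fOr (φ ψ : Fml) : Fml := .imp (fNot φ) ψ
/-- Equivalence. -/
def fIff (φ ψ : Fml) : Fml := fAnd (.imp φ ψ) (.imp ψ φ)
/-- Existence. -/
def fEx (i : ℕ) (φ : Fml) : Fml := fNot (.all i (fNot φ))

section ev

variable {O : Type u} [CompleteBooleanAlgebra O] {M : Type v} (E Q : M → M → O) (v : ℕ → M)

@[simp] theorem ev_mem (i j : ℕ) : ev E Q (.mem i j) v = E (v i) (v j) := rfl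
@[simp] theorem ev_eq (i j : ℕ) : ev E Q (.eq i j) v = Q (v i) (v j) := rfl
@[simp] theorem ev_bot : ev E Q .bot v = ⊥ := rfl
@[simp] theorem ev_imp (φ ψ : Fml) : ev E Q (.imp φ ψ) v = (ev E Q φ v ⇨ ev E Q ψ v) := rfl
@[simp] theorem ev_all (i : ℕ) (φ : Fml) :
    ev E Q (.all i φ) v = ⨅ x : M, ev E Q φ (Function.update v i x) := rfl
@[simp] theorem ev_not (φ : Fml) : ev E Q (fNot φ) v = (ev E Q φ v)ᶜ := by
  rw [fNot, ev_imp, ev_bot, himp_bot]
@[simp] theorem ev_and (φ ψ : Fml) : ev E Q (fAnd φ ψ) v = ev E Q φ v ⊓ ev E Q ψ v := by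
  rw [fAnd, ev_not, ev_imp, ev_not, himp_eq, compl_sup, compl_compl, compl_compl, inf_comm]
@[simp] theorem ev_or (φ ψ : Fml) : ev E Q (fOr φ ψ) v = ev E Q φ v ⊔ ev E Q ψ v := by
  rw [fOr, ev_imp, ev_not, himp_eq, compl_compl, sup_comm]
@[simp] theorem ev_iff (φ ψ : Fml) : ev E Q (fIff φ ψ) v = bi (ev E Q φ v) (ev E Q ψ v) := by
  rw [fIff, ev_and, ev_imp, ev_imp, bi]
@[simp] theorem ev_ex (i : ℕ) (φ : Fml) :
    ev E Q (fEx i φ) v = ⨆ x : M, ev E Q φ (Function.update v i x) := by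
  rw [fEx, ev_not, ev_all, compl_iInf]
  simp only [ev_not, compl_compl]

end ev

def cSub (x y : ℕ) : Fml := .all (x + y + 1) (.imp (.mem (x + y + 1) x) (.mem (x + y + 1) y))
def cSg (w x : ℕ) : Fml := .all (w + x + 1) (fIff (.mem (w + x + 1) w) (.eq (w + x + 1) x))
def cDb (w x y : ℕ) : Fml := .all (w + x + y + 1)
  (fIff (.mem (w + x + y + 1) w) (fOr (.eq (w + x + y + 1) x) (.eq (w + x + y + 1) y)))
def cPr (z x y : ℕ) : Fml := .all (z + x + y + 1)
  (fIff (.mem (z + x + y + 1) z) (fOr (cSg (z + x + y + 1) x) (cDb (z + x + y + 1) x y)))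
def cRl (f x y : ℕ) : Fml := fEx (f + x + y + 1)
  (fAnd (.mem (f + x + y + 1) f) (cPr (f + x + y + 1) x y))
def cFn (f : ℕ) : Fml := .all (f + 1) (.all (f + 2) (.all (f + 3)
  (.imp (fAnd (cRl f (f + 1) (f + 2)) (cRl f (f + 1) (f + 3))) (.eq (f + 2) (f + 3)))))
def cCov (f m b : ℕ) : Fml := fAnd (cFn f) (.all (f + m + b + 1) (.imp (.mem (f + m + b + 1) b)
  (fEx (f + m + b + 2) (fAnd (.mem (f + m + b + 2) m) (cRl f (f + m + b + 2) (f + m + b + 1))))))
def cLe (b m : ℕ) : Fml := fEx (b + m + 1) (cCov (b + m + 1) m b)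
def cTr (x : ℕ) : Fml := .all (x + 1) (.imp (.mem (x + 1) x) (cSub (x + 1) x))
def cOd (x : ℕ) : Fml := fAnd (cTr x) (.all (x + 1) (.imp (.mem (x + 1) x) (cTr (x + 1))))
def cCd (x : ℕ) : Fml := fAnd (cOd x) (.all (x + 1) (.imp (.mem (x + 1) x) (fNot (cLe x (x + 1)))))
def cSc (m k : ℕ) : Fml := fAnd (fAnd (cCd k) (.mem m k))
  (.all (m + k + 1) (.imp (.mem (m + k + 1) k) (cLe (m + k + 1) m)))
def cEm (e : ℕ) : Fml := .all (e + 1) (fNot (.mem (e + 1) e))
def cSu (y x : ℕ) : Fml := .all (y + x + 1)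
  (fIff (.mem (y + x + 1) y) (fOr (.mem (y + x + 1) x) (.eq (y + x + 1) x)))
def cId (w : ℕ) : Fml := fAnd (fEx (w + 1) (fAnd (cEm (w + 1)) (.mem (w + 1) w)))
  (.all (w + 1) (.imp (.mem (w + 1) w) (fEx (w + 2) (fAnd (.mem (w + 2) w) (cSu (w + 2) (w + 1))))))
def cOm (w : ℕ) : Fml := fAnd (cId w) (.all (w + 1) (.imp (cId (w + 1)) (cSub w (w + 1))))
def cCi (y : ℕ) : Fml := fEx (y + 1) (fAnd (cOm (y + 1)) (fAnd (cLe y (y + 1)) (cLe (y + 1) y)))
def cPw (p x : ℕ) : Fml := .all (p + x + 1) (fIff (.mem (p + x + 1) p) (cSub (p + x + 1) x))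
def cCt (m : ℕ) : Fml := fAnd (cCd m) (fEx (m + 1) (fAnd (cOm (m + 1))
  (fEx (m + 2) (fAnd (cPw (m + 2) (m + 1)) (fAnd (cLe (m + 2) m) (cLe m (m + 2)))))))
def cTot (f l k : ℕ) : Fml := .all (f + l + k + 1) (.imp (fAnd (cSub (f + l + k + 1) l)
  (cCi (f + l + k + 1))) (fEx (f + l + k + 2)
    (fAnd (.mem (f + l + k + 2) k) (cRl f (f + l + k + 1) (f + l + k + 2)))))
def cOmi (f x k : ℕ) : Fml := fEx (f + x + k + 1) (fAnd (.mem (f + x + k + 1) k)
  (.all (f + x + k + 2) (.imp (fAnd (cSub (f + x + k + 2) x) (cCi (f + x + k + 2)))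
    (fNot (cRl f (f + x + k + 2) (f + x + k + 1))))))
def cPosP (m k l : ℕ) : Fml := fAnd (cCt m) (fAnd (cSc m k) (fAnd (cSc k l)
  (.all (m + k + l + 1) (.imp (fAnd (cFn (m + k + l + 1)) (cTot (m + k + l + 1) l k))
    (fEx (m + k + l + 2) (fAnd (cSub (m + k + l + 2) l) (fAnd (cLe (m + k + l + 2) k)
      (fAnd (cLe k (m + k + l + 2)) (cOmi (m + k + l + 1) (m + k + l + 2) k)))))))))

section ev

variable {O : Type u} [CompleteBooleanAlgebra O] {M : Type v} (E Q : M → M → O) (v : ℕ → M)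

@[simp] theorem ev_cSub (x y : ℕ) : ev E Q (cSub x y) v = Sub E (v x) (v y) := by
  simp (disch := omega) only [cSub, Sub, ev_all, ev_imp, ev_mem, Function.update_self,
    Function.update_of_ne]

@[simp] theorem ev_cSg (w x : ℕ) : ev E Q (cSg w x) v = Sg E Q (v w) (v x) := by
  simp (disch := omega) only [cSg, Sg, ev_all, ev_iff, ev_eq, ev_mem, Function.update_self,
    Function.update_of_ne]

@[simp] theorem ev_cDb (w x y : ℕ) : ev E Q (cDb w x y) v = Db E Q (v w) (v x) (v y) := by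
  simp (disch := omega) only [cDb, Db, ev_all, ev_iff, ev_or, ev_eq, ev_mem, Function.update_self,
    Function.update_of_ne]

@[simp] theorem ev_cPr (z x y : ℕ) : ev E Q (cPr z x y) v = Pr E Q (v z) (v x) (v y) := by
  simp (disch := omega) only [cPr, Pr, ev_all, ev_iff, ev_or, ev_mem, ev_cSg, ev_cDb,
    Function.update_self, Function.update_of_ne]

@[simp] theorem ev_cRl (f x y : ℕ) : ev E Q (cRl f x y) v = Rl E Q (v f) (v x) (v y) := by
  simp (disch := omega) only [cRl, Rl, ev_ex, ev_and, ev_mem, ev_cPr,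
    Function.update_self, Function.update_of_ne]

@[simp] theorem ev_cFn (f : ℕ) : ev E Q (cFn f) v = Fn E Q (v f) := by
  simp (disch := omega) only [cFn, Fn, ev_all, ev_and, ev_imp, ev_eq, ev_cRl,
    Function.update_self, Function.update_of_ne]

@[simp] theorem ev_cCov (f m b : ℕ) : ev E Q (cCov f m b) v = Cov E Q (v f) (v m) (v b) := by
  simp (disch := omega) only [cCov, Cov, ev_all, ev_ex, ev_and, ev_imp, ev_mem, ev_cRl, ev_cFn,
    Function.update_self, Function.update_of_ne]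

@[simp] theorem ev_cLe (b m : ℕ) : ev E Q (cLe b m) v = Le E Q (v b) (v m) := by
  simp (disch := omega) only [cLe, Le, ev_ex, ev_cCov, Function.update_self,
    Function.update_of_ne]

@[simp] theorem ev_cTr (x : ℕ) : ev E Q (cTr x) v = Tr E (v x) := by
  simp (disch := omega) only [cTr, Tr, ev_all, ev_imp, ev_mem, ev_cSub, Function.update_self,
    Function.update_of_ne]

@[simp] theorem ev_cOd (x : ℕ) : ev E Q (cOd x) v = Od E (v x) := by
  simp (disch := omega) only [cOd, Od, ev_all, ev_and, ev_imp, ev_mem, ev_cTr,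
    Function.update_self, Function.update_of_ne]

@[simp] theorem ev_cCd (x : ℕ) : ev E Q (cCd x) v = Cd E Q (v x) := by
  simp (disch := omega) only [cCd, Cd, ev_all, ev_and, ev_imp, ev_not, ev_mem, ev_cOd, ev_cLe,
    Function.update_self, Function.update_of_ne]

@[simp] theorem ev_cSc (m k : ℕ) : ev E Q (cSc m k) v = Sc E Q (v m) (v k) := by
  simp (disch := omega) only [cSc, Sc, ev_all, ev_and, ev_imp, ev_mem, ev_cCd, ev_cLe,
    Function.update_self, Function.update_of_ne]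

@[simp] theorem ev_cEm (e : ℕ) : ev E Q (cEm e) v = Em E (v e) := by
  simp (disch := omega) only [cEm, Em, ev_all, ev_not, ev_mem, Function.update_self,
    Function.update_of_ne]

@[simp] theorem ev_cSu (y x : ℕ) : ev E Q (cSu y x) v = Su E Q (v y) (v x) := by
  simp (disch := omega) only [cSu, Su, ev_all, ev_iff, ev_or, ev_eq, ev_mem, Function.update_self,
    Function.update_of_ne]

@[simp] theorem ev_cId (w : ℕ) : ev E Q (cId w) v = Id E Q (v w) := by
  simp (disch := omega) only [cId, Id, ev_all, ev_ex, ev_and, ev_imp, ev_mem, ev_cEm, ev_cSu,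
    Function.update_self, Function.update_of_ne]

@[simp] theorem ev_cOm (w : ℕ) : ev E Q (cOm w) v = Om E Q (v w) := by
  simp (disch := omega) only [cOm, Om, ev_all, ev_and, ev_imp, ev_cId, ev_cSub,
    Function.update_self, Function.update_of_ne]

@[simp] theorem ev_cCi (y : ℕ) : ev E Q (cCi y) v = Ci E Q (v y) := by
  simp (disch := omega) only [cCi, Ci, ev_ex, ev_and, ev_cOm, ev_cLe, Function.update_self,
    Function.update_of_ne]

@[simp] theorem ev_cPw (p x : ℕ) : ev E Q (cPw p x) v = Pw E (v p) (v x) := by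
  simp (disch := omega) only [cPw, Pw, ev_all, ev_iff, ev_mem, ev_cSub, Function.update_self,
    Function.update_of_ne]

@[simp] theorem ev_cCt (m : ℕ) : ev E Q (cCt m) v = Ct E Q (v m) := by
  simp (disch := omega) only [cCt, Ct, ev_ex, ev_and, ev_cCd, ev_cOm, ev_cPw, ev_cLe,
    Function.update_self, Function.update_of_ne]

@[simp] theorem ev_cTot (f l k : ℕ) : ev E Q (cTot f l k) v = Tot E Q (v f) (v l) (v k) := by
  simp (disch := omega) only [cTot, Tot, ev_all, ev_ex, ev_and, ev_imp, ev_mem, ev_cSub, ev_cCi,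
    ev_cRl, Function.update_self, Function.update_of_ne]

@[simp] theorem ev_cOmi (f x k : ℕ) : ev E Q (cOmi f x k) v = Omi E Q (v f) (v x) (v k) := by
  simp (disch := omega) only [cOmi, Omi, ev_all, ev_ex, ev_and, ev_imp, ev_not, ev_mem, ev_cSub,
    ev_cCi, ev_cRl, Function.update_self, Function.update_of_ne]

@[simp] theorem ev_cPosP (m k l : ℕ) :
    ev E Q (cPosP m k l) v = PosP E Q (v m) (v k) (v l) := by
  simp (disch := omega) only [cPosP, PosP, ev_all, ev_ex, ev_and, ev_imp, ev_cSub, ev_cCt, ev_cSc,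
    ev_cLe, ev_cFn, ev_cTot, ev_cOmi, Function.update_self, Function.update_of_ne]

end ev

end Pool.Agent.Helper24.FR
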