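import Pool.Agent.Helper24.FR.Base
import Pool.Agent.Helper24.FR.Notions

/-!
# FR: special names: pairs, families, relations, ordinals, subsets of a well order; congruence of the notions
-/

set_option autoImplicit false

universe u v w

namespace Pool.Agent.Helper24.FR

section names

variable {B : Type u} [CompleteBooleanAlgebra B]

/-- The full name with the elements `a i`. -/
def fam {I : Type u} (a : I → Nm B) : Nm B := .mk I a fun _ => ⊤

/-- `{x}`. -/
def sgN (x : Nm B) : Nm B := fam fun _ : PUnit.{u + 1} => x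

/-- `{x, y}`. -/
def dbN (x y : Nm B) : Nm B := fam fun i : ULift.{u} Bool => if i.down then x else y

/-- `(x, y)`. -/
def opN (x y : Nm B) : Nm B := dbN (sgN x) (dbN x y)

/-- The relation with `(a i, c j)` of value `G i j`. -/
def rlN {I J : Type u} (a : I → Nm B) (c : J → Nm B) (G : I → J → B) : Nm B :=
  .mk (I × J) (fun p => opN (a p.1) (c p.2)) fun p => G p.1 p.2

/-- The `a i` are different. -/
def Disc {I : Type u} (a : I → Nm B) : Prop := ∀ i j, i ≠ j → beq (a i) (a j) = ⊥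

/-- `b` forces that a function maps (a part of) `I` onto `J`. -/
def Cl {B : Type u} [CompleteBooleanAlgebra B] (b : B) (I J : Type v) : Prop :=
  ∃ G : I → J → B, (∀ i j j', j ≠ j' → G i j ⊓ G i j' = ⊥) ∧ ∀ j, b ≤ ⨆ i, G i j

/-- `B` is `(ω, ∞)`-distributive. -/
def Dist (B : Type u) [CompleteBooleanAlgebra B] : Prop :=
  ∀ (I : Type u) (G : ℕ → I → B) (b : B), b ≠ ⊥ → (∀ n, b ≤ ⨆ i, G n i) →
    ∃ b' ≤ b, b' ≠ ⊥ ∧ ∃ h : ℕ → I, ∀ n, b' ≤ G n (h n)

variable {A : Type u} [LinearOrder A] [WellFoundedLT A]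

/-- The name of an element of a well order as an ordinal: the set of the names of the smaller elements. -/
noncomputable def on (B : Type u) [CompleteBooleanAlgebra B] : A → Nm B :=
  (wellFounded_lt (α := A)).fix fun a rec => .mk {b // b < a} (fun b => rec b.1 b.2) fun _ => ⊤

/-- The name of a subset of a well order. -/
noncomputable def sn (B : Type u) [CompleteBooleanAlgebra B] (S : Set A) : Nm B :=
  fam fun a : S => on B a.1

theorem on_eq (a : A) : on B a = sn B (Set.Iio a) := by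
  rw [on, WellFounded.fix_eq]
  rfl

@[simp] theorem bmem_fam {I : Type u} (a : I → Nm B) (x : Nm B) : bmem x (fam a) = ⨆ i, beq x (a i) := by
  rw [bmem_def]
  exact iSup_congr fun i => top_inf_eq _

theorem bmem_sn (x : Nm B) (S : Set A) : bmem x (sn B S) = ⨆ a : S, beq x (on B a.1) := bmem_fam _ _

theorem bmem_on (x : Nm B) (a : A) : bmem x (on B a) = ⨆ b : Set.Iio a, beq x (on B b.1) := by
  rw [on_eq, bmem_sn]

@[simp] theorem bmem_sgN (x y : Nm B) : bmem x (sgN y) = beq x y := by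
  rw [sgN, bmem_fam, iSup_const]

@[simp] theorem bmem_dbN (x y z : Nm B) : bmem x (dbN y z) = beq x y ⊔ beq x z := by
  rw [dbN, bmem_fam]
  apply le_antisymm
  · refine iSup_le fun i => ?_
    split_ifs
    · exact le_sup_left
    · exact le_sup_right
  · refine sup_le (le_iSup_of_le ⟨true⟩ ?_) (le_iSup_of_le ⟨false⟩ ?_)
    · simp
    · simp

/-! ### Congruence -/

/-- The environment `x, y, z, z, ...`. -/
def env (x y z : Nm B) : ℕ → Nm B
  | 0 => x
  | 1 => y
  | _ => z

theorem congr3 (φ : Fml) {x y z x' y' z' : Nm B} {b : B} (h1 : b ≤ beq x x') (h2 : b ≤ beq y y')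
    (h3 : b ≤ beq z z') : b ⊓ ev bmem beq φ (env x y z) ≤ ev bmem beq φ (env x' y' z') :=
  ev_congr φ _ _ b fun n => by
    match n with
    | 0 => exact h1
    | 1 => exact h2
    | n + 2 => exact h3

theorem Sub_congr {x y x' y' : Nm B} {b : B} (h1 : b ≤ beq x x') (h2 : b ≤ beq y y') :
    b ⊓ Sub bmem x y ≤ Sub bmem x' y' := by
  simpa [env] using congr3 (cSub 0 1) h1 h2 h2

theorem Pr_congr {z x y z' x' y' : Nm B} {b : B} (h1 : b ≤ beq z z') (h2 : b ≤ beq x x')
    (h3 : b ≤ beq y y') : b ⊓ Pr bmem beq z x y ≤ Pr bmem beq z' x' y' := by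
  simpa [env] using congr3 (cPr 0 1 2) h1 h2 h3

theorem Rl_congr {f x y f' x' y' : Nm B} {b : B} (h1 : b ≤ beq f f') (h2 : b ≤ beq x x')
    (h3 : b ≤ beq y y') : b ⊓ Rl bmem beq f x y ≤ Rl bmem beq f' x' y' := by
  simpa [env] using congr3 (cRl 0 1 2) h1 h2 h3

theorem Fn_congr {f f' : Nm B} {b : B} (h1 : b ≤ beq f f') :
    b ⊓ Fn bmem beq f ≤ Fn bmem beq f' := by
  simpa [env] using congr3 (cFn 0) h1 h1 h1

theorem Cov_congr {f m c f' m' c' : Nm B} {b : B} (h1 : b ≤ beq f f') (h2 : b ≤ beq m m')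
    (h3 : b ≤ beq c c') : b ⊓ Cov bmem beq f m c ≤ Cov bmem beq f' m' c' := by
  simpa [env] using congr3 (cCov 0 1 2) h1 h2 h3

theorem Le_congr {x y x' y' : Nm B} {b : B} (h1 : b ≤ beq x x') (h2 : b ≤ beq y y') :
    b ⊓ Le bmem beq x y ≤ Le bmem beq x' y' := by
  simpa [env] using congr3 (cLe 0 1) h1 h2 h2

theorem Tr_congr {x x' : Nm B} {b : B} (h1 : b ≤ beq x x') :
    b ⊓ Tr bmem x ≤ Tr bmem x' := by
  simpa [env] using congr3 (cTr 0) h1 h1 h1

theorem Od_congr {x x' : Nm B} {b : B} (h1 : b ≤ beq x x') :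
    b ⊓ Od bmem x ≤ Od bmem x' := by
  simpa [env] using congr3 (cOd 0) h1 h1 h1

theorem Id_congr {x x' : Nm B} {b : B} (h1 : b ≤ beq x x') :
    b ⊓ Id bmem beq x ≤ Id bmem beq x' := by
  simpa [env] using congr3 (cId 0) h1 h1 h1

theorem Om_congr {x x' : Nm B} {b : B} (h1 : b ≤ beq x x') :
    b ⊓ Om bmem beq x ≤ Om bmem beq x' := by
  simpa [env] using congr3 (cOm 0) h1 h1 h1

theorem Ci_congr {x x' : Nm B} {b : B} (h1 : b ≤ beq x x') :
    b ⊓ Ci bmem beq x ≤ Ci bmem beq x' := by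
  simpa [env] using congr3 (cCi 0) h1 h1 h1

theorem Pw_congr {p x p' x' : Nm B} {b : B} (h1 : b ≤ beq p p') (h2 : b ≤ beq x x') :
    b ⊓ Pw bmem p x ≤ Pw bmem p' x' := by
  simpa [env] using congr3 (cPw 0 1) h1 h2 h2

theorem bmem_congr {x y x' y' : Nm B} {b : B} (h1 : b ≤ beq x x') (h2 : b ≤ beq y y') :
    b ⊓ bmem x y ≤ bmem x' y' := by
  simpa [env] using congr3 (.mem 0 1) h1 h2 h2

theorem beq_congr {x y x' y' : Nm B} {b : B} (h1 : b ≤ beq x x') (h2 : b ≤ beq y y') :
    b ⊓ beq x y ≤ beq x' y' := by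
  simpa [env] using congr3 (.eq 0 1) h1 h2 h2

/-- Fullness for formulas with one free place. -/
theorem full_ev (φ : Fml) (v : ℕ → Nm B) (i : ℕ) :
    ∃ x, ev bmem beq φ (Function.update v i x) = ⨆ y, ev bmem beq φ (Function.update v i y) :=
  full _ (ex_ev φ v i)

theorem full_Le (x y : Nm B) : ∃ f, Cov bmem beq f y x = Le bmem beq x y := by
  have h := full_ev (cCov 2 1 0) (env x y x) 2
  simp (disch := omega) only [ev_cCov, Function.update_self, Function.update_of_ne] at h
  exact h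

end names

end Pool.Agent.Helper24.FR
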