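import Pool.Agent.Helper24.FR.Fml

/-!
# FR: set theory inside a structure `(N, E)`: the square bracket relation of MP_f663dd_lc in plain words

Everything is relative to a structure `(N, E)`; a set is an element of `N`, and `x ∈ y` means `E x y`.
-/

set_option autoImplicit false

universe u

namespace Pool.Agent.Helper24.FR

variable {N : Type u} (E : N → N → Prop)

/-- `x ⊆ y`. -/
def PSub (x y : N) : Prop := ∀ z, E z x → E z y

/-- `p` is the ordered pair `(x, y) = {{x}, {x, y}}`. -/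
def PPair (p x y : N) : Prop := ∀ w, E w p ↔ ((∀ z, E z w ↔ z = x) ∨ ∀ z, E z w ↔ z = x ∨ z = y)

/-- `(x, y) ∈ f`. -/
def PVal (f x y : N) : Prop := ∃ p, E p f ∧ PPair E p x y

/-- `f` is a function from `a` to `b` (a set of ordered pairs). -/
def PFun (f a b : N) : Prop :=
  (∀ p, E p f → ∃ x y, E x a ∧ E y b ∧ PPair E p x y) ∧ ∀ x, E x a → ∃! y, PVal E f x y

/-- `f` is a bijection from `a` to `b`. -/
def PBij (f a b : N) : Prop := PFun E f a b ∧ ∀ y, E y b → ∃! x, PVal E f x y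

/-- `|a| = |b|`. -/
def PEq (a b : N) : Prop := ∃ f, PBij E f a b

/-- `x` is transitive. -/
def PTrans (x : N) : Prop := ∀ y, E y x → PSub E y x

/-- `x` is an ordinal: a transitive set of transitive sets. -/
def POrd (x : N) : Prop := PTrans E x ∧ ∀ y, E y x → PTrans E y

/-- `x` is a cardinal: an ordinal which is not equinumerous with any smaller ordinal. -/
def PCard (x : N) : Prop := POrd E x ∧ ∀ y, E y x → ¬ PEq E x y

/-- `w` is inductive: `∅ ∈ w` and `x ∪ {x} ∈ w` for `x ∈ w`. -/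
def PInd (w : N) : Prop :=
  (∃ e, (∀ z, ¬ E z e) ∧ E e w) ∧ ∀ x, E x w → ∃ y, E y w ∧ ∀ z, E z y ↔ E z x ∨ z = x

/-- `w = ω`, the least inductive set. -/
def POmega (w : N) : Prop := PInd E w ∧ ∀ z, PInd E z → PSub E w z

/-- `m` is the cardinal `2 ^ ω`: a cardinal equinumerous with the power set of `ω`. -/
def PCont (m : N) : Prop :=
  PCard E m ∧ ∃ w p, POmega E w ∧ (∀ z, E z p ↔ PSub E z w) ∧ PEq E m p

/-- `k = m⁺`: `k` is a cardinal, `m ∈ k`, and there is no cardinal strictly between. -/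
def PSucc (m k : N) : Prop := PCard E k ∧ E m k ∧ ∀ j, E j k → E m j → ¬ PCard E j

/-- `y ∈ [x] ^ ω`: `y ⊆ x` and `|y| = ω`. -/
def PCtb (y x : N) : Prop := PSub E y x ∧ ∃ w, POmega E w ∧ PEq E y w

/-- The negative relation `l ↛ [k] ^ ω _ k`: there is a function `f` from `[l] ^ ω` to `k` such that for all `X ⊆ l` with `|X| = k`
every `c ∈ k` is a value of `f` on `[X] ^ ω`. -/
def PNeg (l k : N) : Prop :=
  ∃ L f, (∀ y, E y L ↔ PCtb E y l) ∧ PFun E f L k ∧
    ∀ X, PSub E X l → PEq E X k → ∀ c, E c k → ∃ y, PCtb E y X ∧ PVal E f y c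

/-- The sentence of Q1: `μ⁺⁺ ↛ [μ⁺] ^ ω _ {μ⁺}` for `μ = 2 ^ ω`. -/
def Q1Rel : Prop := ∀ m k l, PCont E m → PSucc E m k → PSucc E k l → PNeg E l k

end Pool.Agent.Helper24.FR
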