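import Pool.Agent.Helper24.FR.StII

/-!
# FR, part IV: the poset (definitions and the preorder)

`A` is a well order (in the application the set of the ordinals below the target `lam` of the huge cardinal), `k : A`.
`isP k`: the countable support product of the collapses `S(γ, k)`, `γ < k` regular uncountable, as a set of partial functions on
triples `(γ, β, η)`, `γ, β < k`, `η < γ`, with values `< β`.
`isN k α`: names of elements of `α`: partial functions from the set of the conditions `isP k` to `α`, monotone and densely defined.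
`isT k S`: partial functions on `S × k` whose values are names (the term part of the collapse `S(k, S)`).
`RC k`: the poset `P_k * S(k, A)`.
-/

set_option autoImplicit false

open Cardinal Set

namespace Pool.Agent.Helper24.FR

section defs

variable {A : Type} [LinearOrder A]

/-- Raw conditions. -/
abbrev Ra (A : Type) := A × A × A → Option A
/-- Raw names. -/
abbrev Na (A : Type) := Ra A → Option A
/-- Raw term conditions. -/
abbrev Ta (A : Type) := A × A → Option (Na A)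

/-- `p'` extends `p`. -/
def Xt (p' p : Ra A) : Prop := ∀ z v, p z = some v → p' z = some v

/-- `γ` is a regular uncountable cardinal (an initial ordinal). -/
def Rg (γ : A) : Prop :=
  ℵ₀ < #(Iio γ) ∧ (∀ ξ < γ, #(Iio ξ) < #(Iio γ)) ∧
    ∀ S : Set A, S ⊆ Iio γ → #S < #(Iio γ) → ∃ ξ < γ, ∀ s ∈ S, s < ξ

/-- The conditions `P_k`. -/
structure isP (k : A) (p : Ra A) : Prop where
  dom : ∀ γ β η v, p (γ, β, η) = some v → Rg γ ∧ γ < k ∧ β < k ∧ η < γ ∧ v < β
  cnt : {γ | ∃ β η, p (γ, β, η) ≠ none}.Countable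
  siz : ∀ γ, #{z : A × A | p (γ, z.1, z.2) ≠ none} ≤ #(Iio γ)
  hgt : ∀ γ, Rg γ → ∃ ξ < γ, ∀ β η, p (γ, β, η) ≠ none → η < ξ

/-- The names of elements of `α`. -/
structure isN (k α : A) (n : Na A) : Prop where
  dom : ∀ p v, n p = some v → isP k p ∧ v < α
  mon : ∀ p p' v, n p = some v → isP k p' → Xt p' p → n p' = some v
  den : ∀ p, isP k p → ∃ p', isP k p' ∧ Xt p' p ∧ n p' ≠ none

/-- The term conditions `T(k, S)`. -/
structure isT (k : A) (S : Set A) (t : Ta A) : Prop where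
  dom : ∀ α η n, t (α, η) = some n → α ∈ S ∧ η < k ∧ isN k α n
  siz : #{z : A × A | t z ≠ none} ≤ #(Iio k)
  hgt : ∃ ξ < k, ∀ α η, t (α, η) ≠ none → η < ξ

/-- `r` forces `n = n'`. -/
def Feq (k : A) (r : Ra A) (n n' : Na A) : Prop :=
  ∀ q v v', isP k q → Xt q r → n q = some v → n' q = some v' → v = v'

/-- The order of `R(k, S)`. -/
def Rle (k : A) (a b : Ra A × Ta A) : Prop :=
  Xt a.1 b.1 ∧ ∀ z n, b.2 z = some n → ∃ n', a.2 z = some n' ∧ Feq k a.1 n' n

/-- The restriction of a condition to `γ, β < δ`. -/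
noncomputable def rs (δ : A) (p : Ra A) : Ra A := by
  classical exact fun z => if z.1 < δ ∧ z.2.1 < δ then p z else none

end defs

section lemmas

variable {A : Type} [LinearOrder A]

omit [LinearOrder A] in
theorem Xt.refl (p : Ra A) : Xt p p := fun _ _ h => h

omit [LinearOrder A] in
theorem Xt.trans {p q r : Ra A} (h1 : Xt p q) (h2 : Xt q r) : Xt p r := fun _ _ h => h1 _ _ (h2 _ _ h)

theorem Feq.refl (k : A) (r : Ra A) (n : Na A) : Feq k r n n := fun _ v v' _ _ h h' => by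
  rw [h] at h'; exact Option.some.inj h'

theorem Feq.symm {k : A} {r : Ra A} {n n' : Na A} (h : Feq k r n n') : Feq k r n' n :=
  fun q v v' hq hx h1 h2 => (h q v' v hq hx h2 h1).symm

theorem Feq.mono {k : A} {r r' : Ra A} {n n' : Na A} (h : Feq k r n n') (hr : Xt r' r) :
    Feq k r' n n' := fun q v v' hq hx h1 h2 => h q v v' hq (hx.trans hr) h1 h2

/-- Transitivity of forced equality; the middle name is densely defined. -/
theorem Feq.trans {k α : A} {r : Ra A} {n n' n'' : Na A} (h1 : Feq k r n n') (h2 : Feq k r n' n'')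
    (hn : ∀ p p' v, n p = some v → isP k p' → Xt p' p → n p' = some v) (hn' : isN k α n')
    (hn'' : ∀ p p' v, n'' p = some v → isP k p' → Xt p' p → n'' p' = some v) : Feq k r n n'' := by
  intro q v v'' hq hx e1 e2
  obtain ⟨q', hq', hx', hd⟩ := hn'.den q hq
  obtain ⟨v', hv'⟩ := Option.ne_none_iff_exists'.1 hd
  exact (h1 q' v v' hq' (hx'.trans hx) (hn _ _ _ e1 hq' hx') hv').trans
    (h2 q' v' v'' hq' (hx'.trans hx) hv' (hn'' _ _ _ e2 hq' hx'))

theorem Rle.refl (k : A) (a : Ra A × Ta A) : Rle k a a :=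
  ⟨Xt.refl _, fun _ n h => ⟨n, h, Feq.refl _ _ _⟩⟩

theorem Rle.trans {k : A} {S S' S'' : Set A} {a b c : Ra A × Ta A} (ha : isT k S a.2)
    (hb : isT k S' b.2) (hc : isT k S'' c.2) (h1 : Rle k a b) (h2 : Rle k b c) : Rle k a c := by
  refine ⟨h1.1.trans h2.1, fun z n hz => ?_⟩
  obtain ⟨n', hn', h3⟩ := h2.2 z n hz
  obtain ⟨n'', hn'', h4⟩ := h1.2 z n' hn'
  refine ⟨n'', hn'', ?_⟩
  obtain ⟨α, η⟩ := z
  exact h4.trans (h3.mono h1.1) (ha.dom _ _ _ hn'').2.2.mon (hb.dom _ _ _ hn').2.2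
    (hc.dom _ _ _ hz).2.2.mon

theorem Rle.left {k : A} {p p' : Ra A} {t : Ta A} {b : Ra A × Ta A} (h : Rle k (p, t) b)
    (hx : Xt p' p) : Rle k (p', t) b :=
  ⟨hx.trans h.1, fun z n hz => by
    obtain ⟨n', hn', h3⟩ := h.2 z n hz
    exact ⟨n', hn', h3.mono hx⟩⟩

theorem Rle.left' {k : A} {p p' : Ra A} (t : Ta A) (hx : Xt p' p) : Rle k (p', t) (p, t) :=
  (Rle.refl k (p, t)).left hx

/-- The poset `P_k * S(k, A)`. -/
def RC (k : A) : Type := {a : Ra A × Ta A // isP k a.1 ∧ isT k Set.univ a.2}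

instance (k : A) : Preorder (RC k) where
  le a b := Rle k a.1 b.1
  le_refl a := Rle.refl k a.1
  le_trans a b c h1 h2 := Rle.trans a.2.2 b.2.2 c.2.2 h1 h2

theorem RC.le_iff {k : A} (a b : RC k) : a ≤ b ↔ Rle k a.1 b.1 := Iff.rfl

end lemmas

/-- The hypotheses on `κ` and `A`: `κ` is inaccessible, and the order type of `A` is inaccessible. -/
structure Big {A : Type} [LinearOrder A] (κ : A) : Prop where
  rg : Rg κ
  sl : ∀ a < κ, 2 ^ #(Iio a) < #(Iio κ)
  lreg : ∀ S : Set A, #S < #A → ∃ ξ, ∀ s ∈ S, s < ξ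
  lsl : ∀ a : A, 2 ^ #(Iio a) < #A

/-- The situation for a fixed `x`: `δ = δ_x`, `Y = Y_x`, `Cr t s` means `s = c_x(t)`. -/
structure Fx {A : Type} [LinearOrder A] (κ δ : A) (Y : Set (Ta A)) (Cr : Ta A → Ta A → Prop) :
    Prop where
  lt : δ < κ
  rg : Rg δ
  crT : ∀ t s, Cr t s → isT δ (Iio κ) s
  card : #Y ≤ #(Iio κ)
  yT : ∀ t ∈ Y, isT κ Set.univ t
  a : ∀ t ∈ Y, ∃ s, Cr t s
  b : ∀ s, isT δ (Iio κ) s → ∃ t ∈ Y, Cr t s
  c : ∀ t₁ ∈ Y, ∀ t₂ ∈ Y, ∀ s₁ s₂ r₁ r₂, Cr t₁ s₁ → Cr t₂ s₂ → isP δ r₁ → isP δ r₂ →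
    (Rle κ (r₁, t₁) (r₂, t₂) ↔ Rle δ (r₁, s₁) (r₂, s₂))
  h : ∀ t ∈ Y, ∀ α η, t (α, η) ≠ none → η < δ

/-- `p ↦ (rs δ p, pt p)` is a projection of `P_κ` to `R(δ, κ)`. -/
structure Pj {A : Type} [LinearOrder A] (κ δ : A) (pt : Ra A → Ta A) : Prop where
  pT : ∀ p, isP κ p → isT δ (Iio κ) (pt p)
  zero : ∀ p z, isP δ p → pt p z = none
  mono : ∀ p p', isP κ p → isP κ p' → Xt p' p → ∀ z n, pt p z = some n → pt p' z = some n
  lift : ∀ p r s, isP κ p → isP δ r → isT δ (Iio κ) s → Rle δ (r, s) (rs δ p, pt p) →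
    ∃ p', isP κ p' ∧ Xt p' p ∧ rs δ p' = r ∧ Rle δ (r, pt p') (r, s)

/-- `p` captures `t`. -/
def Cp {A : Type} [LinearOrder A] (δ : A) (pt : Ra A → Ta A) (Cr : Ta A → Ta A → Prop)
    (p : Ra A) (t : Ta A) : Prop :=
  ∃ s, Cr t s ∧ Rle δ (rs δ p, pt p) (rs δ p, s)

end Pool.Agent.Helper24.FR
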