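import Pool.Agent.Helper24.FR.Base

/-!
# FR: the quotient of the Boolean valued universe by an ultrafilter, Los' theorem
-/

set_option autoImplicit false

universe u v w

namespace Pool.Agent.Helper24.FR

variable {B : Type u} [CompleteBooleanAlgebra B]

/-- Ultrafilters of a Boolean algebra. -/
structure UF (B : Type u) [CompleteBooleanAlgebra B] where
  s : Set B
  top : ⊤ ∈ s
  inf : ∀ a b, a ∈ s → b ∈ s → a ⊓ b ∈ s
  up : ∀ a b, a ∈ s → a ≤ b → b ∈ s
  not : ∀ a, aᶜ ∈ s ↔ a ∉ s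

variable (W : UF B)

theorem UF.inf_iff (a b : B) : a ⊓ b ∈ W.s ↔ a ∈ W.s ∧ b ∈ W.s :=
  ⟨fun h => ⟨W.up _ _ h inf_le_left, W.up _ _ h inf_le_right⟩, fun h => W.inf _ _ h.1 h.2⟩

theorem UF.bot_notMem : (⊥ : B) ∉ W.s := by
  have h := (W.not (⊥ : B)).1
  rw [compl_bot] at h
  exact h W.top

theorem UF.himp_iff (a b : B) : a ⇨ b ∈ W.s ↔ (a ∈ W.s → b ∈ W.s) := by
  constructor
  · intro h ha
    exact W.up _ _ (W.inf _ _ h ha) himp_inf_le
  · intro h
    by_cases ha : a ∈ W.s
    · exact W.up _ _ (h ha) le_himp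
    · have h1 := (W.not a).2 ha
      refine W.up _ _ h1 ?_
      rw [le_himp_iff, compl_inf_self]
      exact bot_le

theorem UF.sup_iff (a b : B) : a ⊔ b ∈ W.s ↔ a ∈ W.s ∨ b ∈ W.s := by
  constructor
  · intro h
    by_contra hc
    push Not at hc
    have h1 := W.inf _ _ ((W.not a).2 hc.1) ((W.not b).2 hc.2)
    rw [← compl_sup] at h1
    exact (W.not _).1 h1 h
  · rintro (h | h)
    · exact W.up _ _ h le_sup_left
    · exact W.up _ _ h le_sup_right

theorem UF.iSup_iff (P : Nm B → B) (hP : Ex P) : (⨆ x, P x) ∈ W.s ↔ ∃ x, P x ∈ W.s := by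
  constructor
  · intro h
    obtain ⟨x, hx⟩ := full P hP
    exact ⟨x, by rw [hx]; exact h⟩
  · rintro ⟨x, hx⟩
    exact W.up _ _ hx (le_iSup P x)

theorem Ex.compl {P : Nm B → B} (hP : Ex P) : Ex fun x => (P x)ᶜ := by
  intro x y
  rw [le_compl_iff_disjoint_right, disjoint_iff_inf_le]
  have h := hP y x
  calc beq x y ⊓ (P x)ᶜ ⊓ P y ≤ (beq y x ⊓ P y) ⊓ (P x)ᶜ := by
        rw [beq_comm y x]
        exact le_inf (le_inf (inf_le_left.trans inf_le_left) inf_le_right)
          (inf_le_left.trans inf_le_right)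
    _ ≤ P x ⊓ (P x)ᶜ := inf_le_inf_right _ h
    _ ≤ ⊥ := by rw [inf_compl_self]

theorem UF.iInf_iff (P : Nm B → B) (hP : Ex P) : (⨅ x, P x) ∈ W.s ↔ ∀ x, P x ∈ W.s := by
  have h := W.iSup_iff _ hP.compl
  rw [← compl_iInf, W.not] at h
  constructor
  · intro h1 x
    exact W.up _ _ h1 (iInf_le P x)
  · intro h1
    by_contra hc
    obtain ⟨x, hx⟩ := h.1 hc
    exact (W.not _).1 hx (h1 x)

/-- The equivalence of names modulo `W`. -/
def st : Setoid (Nm B) where
  r x y := beq x y ∈ W.s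
  iseqv :=
    { refl := fun x => by rw [beq_refl]; exact W.top
      symm := fun {x y} h => by rw [beq_comm]; exact h
      trans := fun {x y z} h1 h2 => W.up _ _ (W.inf _ _ h1 h2) (beq_trans x y z) }

/-- The quotient. -/
def QN : Type (u + 1) := Quotient (st W)

/-- The class of a name. -/
def QN.mk (x : Nm B) : QN W := Quotient.mk (st W) x

/-- Membership in the quotient. -/
def QE : QN W → QN W → Prop :=
  Quotient.lift₂ (fun x y => bmem x y ∈ W.s) (by
    intro x y x' y' h1 h2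
    have h1 : beq x x' ∈ W.s := h1
    have h2 : beq y y' ∈ W.s := h2
    apply propext
    constructor
    · intro h
      refine W.up _ _ (W.inf _ _ h1 (W.inf _ _ h2 h)) ?_
      exact (inf_le_inf_left _ (bmem_congr_right _ _ _)).trans (bmem_congr_left _ _ _)
    · intro h
      rw [beq_comm] at h1 h2
      refine W.up _ _ (W.inf _ _ h1 (W.inf _ _ h2 h)) ?_
      exact (inf_le_inf_left _ (bmem_congr_right _ _ _)).trans (bmem_congr_left _ _ _))

theorem QE_mk (x y : Nm B) : QE W (QN.mk W x) (QN.mk W y) ↔ bmem x y ∈ W.s := Iff.rfl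

theorem QN_eq (x y : Nm B) : QN.mk W x = QN.mk W y ↔ beq x y ∈ W.s :=
  ⟨fun h => Quotient.exact h, fun h => Quotient.sound h⟩

theorem QN.ind' {p : QN W → Prop} (h : ∀ x, p (QN.mk W x)) (q : QN W) : p q :=
  Quotient.inductionOn q h

theorem QN_forall {p : QN W → Prop} : (∀ q, p q) ↔ ∀ x, p (QN.mk W x) :=
  ⟨fun h x => h _, fun h q => QN.ind' W h q⟩

theorem QN_exists {p : QN W → Prop} : (∃ q, p q) ↔ ∃ x, p (QN.mk W x) :=
  ⟨fun ⟨q, hq⟩ => by
    revert hq
    exact QN.ind' W (p := fun q => p q → ∃ x, p (QN.mk W x)) (fun x hx => ⟨x, hx⟩) q,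
    fun ⟨x, hx⟩ => ⟨_, hx⟩⟩

/-- Los' theorem. -/
theorem los (φ : Fml) (v : ℕ → Nm B) :
    Sat (QE W) φ (fun n => QN.mk W (v n)) ↔ ev bmem beq φ v ∈ W.s := by
  induction φ generalizing v with
  | mem i j => exact QE_mk W _ _
  | eq i j => exact QN_eq W _ _
  | bot => exact ⟨fun h => h.elim, fun h => (W.bot_notMem h).elim⟩
  | imp φ ψ h1 h2 => rw [Sat, ev, W.himp_iff, h1, h2]
  | all i φ ih =>
    rw [Sat, ev, W.iInf_iff _ (ex_ev φ v i), QN_forall]
    refine forall_congr' fun x => ?_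
    rw [← ih]
    have : Function.update (fun n => QN.mk W (v n)) i (QN.mk W x) =
        fun n => QN.mk W (Function.update v i x n) := by
      funext n
      by_cases hn : n = i
      · subst hn; rw [Function.update_self, Function.update_self]
      · rw [Function.update_of_ne hn, Function.update_of_ne hn]
    rw [this]

end Pool.Agent.Helper24.FR
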