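import Pool.Agent.Helper24.FR.Quo
import Pool.Agent.Helper24.FR.Names

/-!
# FR, part I: the quotient of the universe of names by an ultrafilter satisfies ZFC (statements)

General hints.  `QN_forall`, `QN_exists`, `QE_mk`, `QN_eq` turn a statement on the quotient into one on names; `UF.himp_iff`,
`UF.inf_iff`, `UF.sup_iff`, `UF.iSup_iff`, `UF.iInf_iff` turn the latter into `(value) ∈ W.s` (for `iSup_iff`, `iInf_iff` one needs
`Ex P`, which `ex_ev` gives for values of formulas; or prove `Ex P` directly by congruence: `bmem_congr`, `beq_congr`, ...).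
A function `v : ℕ → QN W` is `fun n => QN.mk W (v' n)` for some `v'` (choice), and `los` computes `Sat (QE W) φ`.
-/

set_option autoImplicit false

universe u

namespace Pool.Agent.Helper24.FR

/-- MODULE UFX (ultrafilters exist).  Written proof: Zorn's lemma for the sets `s ∋ b` with `⊤ ∈ s`, closed under `⊓`, upward closed,
`⊥ ∉ s` (the set `{a | b ≤ a}` is one); a maximal one satisfies `a ∈ s ∨ aᶜ ∈ s`: if `a ∉ s` then `{c | ∃ d ∈ s, d ⊓ a ≤ c}` is bigger, so it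
contains `⊥`: `d ⊓ a = ⊥` for some `d ∈ s`, so `d ≤ aᶜ ∈ s`. -/
def StUFX : Prop := ∀ (B : Type u) [CompleteBooleanAlgebra B] (b : B), b ≠ ⊥ → ∃ W : UF B, b ∈ W.s

/-- MODULE EXT (extensionality, and transfer).  Written proof. First part: `beq_eq_iInf` and `UF.iInf_iff`.
Second part: if not `a ≤ b` then `a ⊓ bᶜ ≠ ⊥`, take an ultrafilter containing it (hypothesis `StUFX`). -/
def StEXT : Prop :=
  (∀ (B : Type u) [CompleteBooleanAlgebra B] (W : UF B) (x y : QN W),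
    (∀ z, QE W z x ↔ QE W z y) → x = y) ∧
  (∀ (B : Type u) [CompleteBooleanAlgebra B] (a b : B), (∀ W : UF B, a ∈ W.s → b ∈ W.s) → a ≤ b)

/-- MODULE FND (foundation).  Written proof. First part: let `P y = bmem y x ⊓ ⨅ z, bmem z y ⇨ (bmem z x)ᶜ` and `c = (⨆ y, P y)ᶜ`.  By
induction on the name `y` one shows `bmem y x ⊓ c = ⊥`: by induction `bmem (y.el i) x ⊓ c = ⊥` for all `i`, so
`bmem z y ⊓ bmem z x ⊓ c ≤ ⨆ i, beq z (y.el i) ⊓ bmem z x ⊓ c ≤ ⨆ i, bmem (y.el i) x ⊓ c = ⊥`, so `bmem y x ⊓ c ≤ P y`.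
Third part: take `x := sgN y`: `bmem y (sgN y) = ⊤`, so `⊤ = ⨆ z, beq z y ⊓ ⨅ w, bmem w z ⇨ (beq w y)ᶜ`, and each term is disjoint from
`bmem y y` (or by a direct induction on `y`).  Second part: `UF.iSup_iff` etc. -/
def StFND : Prop :=
  (∀ (B : Type u) [CompleteBooleanAlgebra B] (x : Nm B),
    (⨆ y, bmem y x) ≤ ⨆ y, bmem y x ⊓ ⨅ z, bmem z y ⇨ (bmem z x)ᶜ) ∧
  (∀ (B : Type u) [CompleteBooleanAlgebra B] (W : UF B) (x : QN W),
    (∃ y, QE W y x) → ∃ y, QE W y x ∧ ∀ z, QE W z y → ¬ QE W z x) ∧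
  (∀ (B : Type u) [CompleteBooleanAlgebra B] (y : Nm B), bmem y y = ⊥)

/-- MODULE PUN (pairing and union).  Written proof. Pairing: `dbN x y`, `bmem_dbN`, `UF.sup_iff`.  Union:
`u := Nm.mk (Σ i : x.ix, (x.el i).ix) (fun s => (x.el s.1).el s.2) (fun s => x.vl s.1 ⊓ (x.el s.1).vl s.2)`; then
`bmem z u = ⨆ i, x.vl i ⊓ bmem z (x.el i) = ⨆ y, bmem z y ⊓ bmem y x`. -/
def StPUN : Prop :=
  (∀ (B : Type u) [CompleteBooleanAlgebra B] (W : UF B) (x y : QN W), ∃ z, ∀ w, QE W w z ↔ w = x ∨ w = y) ∧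
  (∀ (B : Type u) [CompleteBooleanAlgebra B] (x : Nm B), ∃ t, ∀ z, bmem z t = ⨆ y, bmem z y ⊓ bmem y x) ∧
  (∀ (B : Type u) [CompleteBooleanAlgebra B] (W : UF B) (x : QN W),
    ∃ t, ∀ z, QE W z t ↔ ∃ y, QE W z y ∧ QE W y x)

/-- MODULE POW (power set).  Written proof. `p := Nm.mk (x.ix → B) (fun f => Nm.mk x.ix x.el fun i => f i ⊓ x.vl i) (fun _ => ⊤)`.  Every element of `p` is a
subset of `x` with value `⊤`, so `bmem z p ≤ Sub bmem z x` (congruence `Sub_congr`).  Conversely for `z` let `f i := bmem (x.el i) z`,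
`z' := Nm.mk x.ix x.el fun i => f i ⊓ x.vl i`; then `Sub bmem z x ≤ beq z z'` (`le_beq_of_mem`), and `bmem z' p = ⊤`. -/
def StPOW : Prop :=
  (∀ (B : Type u) [CompleteBooleanAlgebra B] (x : Nm B), ∃ p, ∀ z, bmem z p = Sub bmem z x) ∧
  (∀ (B : Type u) [CompleteBooleanAlgebra B] (W : UF B) (x : QN W),
    ∃ p, ∀ z, QE W z p ↔ ∀ w, QE W w z → QE W w x)

/-- MODULE INF (infinity).  Written proof. `w := sn B (Set.univ : Set (ULift ℕ))`.  The empty set is `on B (ULift.up 0)` (`bmem_on`: empty supremum).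
`bmem x w = ⨆ n, beq x (on B n)`; below `beq x (on B n)` take `y := on B (n+1)`:
`bmem z (on B (n+1)) = bmem z (on B n) ⊔ beq z (on B n)` by `bmem_on`.  So `bmem x w ≤ ⨆ y, bmem y w ⊓ Su bmem beq y x`; then pass to the quotient. -/
def StINF : Prop :=
  ∀ (B : Type u) [CompleteBooleanAlgebra B] (W : UF B), ∃ w : QN W,
    (∃ e, (∀ z, ¬ QE W z e) ∧ QE W e w) ∧
      ∀ x, QE W x w → ∃ y, QE W y w ∧ ∀ z, QE W z y ↔ QE W z x ∨ z = x

/-- MODULE SEP (separation).  Written proof. First part: `b := Nm.mk a.ix a.el fun i => a.vl i ⊓ P (a.el i)`; `bmem x b = ⨆ i, a.vl i ⊓ P (a.el i) ⊓ beq x (a.el i)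
= ⨆ i, a.vl i ⊓ beq x (a.el i) ⊓ P x` by `hP`.  Second part: the first with `P x := ev bmem beq φ (Function.update v' 0 x)`, `ex_ev`, `los`. -/
def StSEP : Prop :=
  (∀ (B : Type u) [CompleteBooleanAlgebra B] (P : Nm B → B), Ex P → ∀ a : Nm B,
    ∃ b, ∀ x, bmem x b = bmem x a ⊓ P x) ∧
  (∀ (B : Type u) [CompleteBooleanAlgebra B] (W : UF B) (φ : Fml) (v : ℕ → QN W) (a : QN W),
    ∃ b, ∀ x, QE W x b ↔ QE W x a ∧ Sat (QE W) φ (Function.update v 0 x))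

/-- MODULE REP (replacement).  Written proof. Let `v = fun n => QN.mk W (v' n)`, `a` a name, `F x y := ev bmem beq φ (update (update v' 0 x) 1 y)`; `F` is
a congruence in both variables (`ev_congr`).  For `i : a.ix` choose by `full` a name `c i` with `F (a.el i) (c i) = ⨆ y, F (a.el i) y`.
`b := Nm.mk a.ix c fun i => a.vl i ⊓ F (a.el i) (c i)`.  (→) `bmem y b = ⨆ i, a.vl i ⊓ F (a.el i) (c i) ⊓ beq y (c i) ≤ ⨆ x, bmem x a ⊓ F x y`, then `UF.iSup_iff`.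
(←) Let `D := ⨅ x, ⨅ y, ⨅ y', bmem x a ⊓ F x y ⊓ F x y' ⇨ beq y y'`; `D ∈ W.s` by the hypothesis on `a` (three times `UF.iInf_iff`, or Los' theorem
for the formula expressing it).  `D ⊓ bmem x a ⊓ F x y ≤ ⨆ i, D ⊓ a.vl i ⊓ beq x (a.el i) ⊓ F (a.el i) y ≤ ⨆ i, D ⊓ a.vl i ⊓ F (a.el i) y ⊓ F (a.el i) (c i)
≤ ⨆ i, a.vl i ⊓ F (a.el i) (c i) ⊓ beq y (c i) = bmem y b`. -/
def StREP : Prop :=
  ∀ (B : Type u) [CompleteBooleanAlgebra B] (W : UF B) (φ : Fml) (v : ℕ → QN W) (a : QN W),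
    (∀ x, QE W x a → ∃! y, Sat (QE W) φ (Function.update (Function.update v 0 x) 1 y)) →
      ∃ b, ∀ y, QE W y b ↔
        ∃ x, QE W x a ∧ Sat (QE W) φ (Function.update (Function.update v 0 x) 1 y)

/-- MODULE CHO (choice).  Written proof. Let `a` be a name, `J := Σ i : a.ix, (a.el i).ix`, `t j := (a.el j.1).el j.2`; then for all `x`:
`bmem x a ⊓ ⨆ z, bmem z x ≤ ⨆ j, bmem (t j) x` (as `x = a.el i` for some `i`, with value `a.vl i ⊓ beq x (a.el i)`, and `z = (a.el i).el k`).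
Well-order `J` (`WellOrderingRel`, written `<`).  `M j x := bmem (t j) x ⊓ ⨅ j' < j, (bmem (t j') x)ᶜ` (`t j` is the first element of `x`).  As in the proof of `full`:
`⨆ j, bmem (t j) x ≤ ⨆ j, M j x` (well-founded induction on `j`), and `M j x ⊓ M j' x = ⊥` for `j ≠ j'`.
`c := Nm.mk J t fun j => ⨆ x, bmem x a ⊓ M j x`.
Existence: `bmem x a ⊓ M j x ≤ bmem (t j) x ⊓ bmem (t j) c` (`vl_le_bmem`).
Uniqueness: let `D := ⨅ x, ⨅ y, ⨅ z, bmem x a ⊓ bmem y a ⊓ bmem z x ⊓ bmem z y ⇨ beq x y ∈ W.s` (hypothesis).  `D ⊓ bmem x a ⊓ bmem z x ⊓ bmem z c ≤ ⨆ j, beq z (t j) ⊓ M j x`: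
`bmem z c = ⨆ j, (⨆ x', bmem x' a ⊓ M j x') ⊓ beq z (t j)`, and `M j x' ≤ bmem (t j) x'`, so `z ∈ x, x'` and `D` gives `beq x x'`, and `M j` is a congruence.
So for `z, z'` both in `x` and `c`: `≤ ⨆ j, ⨆ j', beq z (t j) ⊓ M j x ⊓ beq z' (t j') ⊓ M j' x ≤ beq z z'`. -/
def StCHO : Prop :=
  ∀ (B : Type u) [CompleteBooleanAlgebra B] (W : UF B) (a : QN W),
    (∀ x, QE W x a → ∃ z, QE W z x) →
    (∀ x y z, QE W x a → QE W y a → QE W z x → QE W z y → x = y) →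
      ∃ c, ∀ x, QE W x a → ∃! z, QE W z x ∧ QE W z c

/-- Assembly of part I. -/
def StZFC : Prop := ∀ (B : Type u) [CompleteBooleanAlgebra B] (W : UF B), ZFC (QE W)

theorem hZFC_of (h1 : StEXT.{u}) (h2 : StFND.{u}) (h3 : StPUN.{u}) (h4 : StPOW.{u}) (h5 : StINF.{u})
    (h6 : StSEP.{u}) (h7 : StREP.{u}) (h8 : StCHO.{u}) : StZFC.{u} := fun B _ W =>
  { nonempty := ⟨QN.mk W (fam fun i : PEmpty.{u + 1} => i.elim)⟩
    ext := h1.1 B W
    found := h2.2.1 B W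
    pair := h3.1 B W
    union := h3.2.2 B W
    power := h4.2 B W
    inf := h5 B W
    sep := h6.2 B W
    repl := h7 B W
    choice := h8 B W }

end Pool.Agent.Helper24.FR
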