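import Pool.Agent.Helper24.FR.Po

/-!
# FR, part IV: the poset (statements)

See `Po.lean` for the definitions.  In all statements `A` is a well order.  Sections refer to /team-store/MP_f663dd-FR-proof.md.
-/

set_option autoImplicit false

open Cardinal Set

namespace Pool.Agent.Helper24.FR

/-- MODULE RES (restrictions, boundedness).  Written proof.  The first items are immediate from the definitions (`isP.dom`: a condition in `P_δ` has only triples with `γ, β < δ`).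
Boundedness: the set of the `γ` which occur is countable and `⊆ Iio κ`, so bounded by some `ξ₁ < κ` (`Rg κ`, `ℵ₀ < #(Iio κ)`); the number of triples in the domain is
`≤ ℵ₀ * #(Iio ξ₁) < #(Iio κ)` (for each `γ` at most `#(Iio γ)` of them), so also the `β` which occur are bounded by some `ξ₂ < κ`. `ξ = max ξ₁ ξ₂`. -/
def StRES : Prop :=
  (∀ (A : Type) [LinearOrder A] [WellFoundedLT A] (κ δ : A) (p : Ra A), isP κ p → isP δ (rs δ p)) ∧
  (∀ (A : Type) [LinearOrder A] [WellFoundedLT A] (δ : A) (p : Ra A), Xt p (rs δ p)) ∧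
  (∀ (A : Type) [LinearOrder A] [WellFoundedLT A] (δ : A) (p p' : Ra A), Xt p' p → Xt (rs δ p') (rs δ p)) ∧
  (∀ (A : Type) [LinearOrder A] [WellFoundedLT A] (δ : A) (p : Ra A), isP δ p → rs δ p = p) ∧
  (∀ (A : Type) [LinearOrder A] [WellFoundedLT A] (κ δ : A) (p : Ra A), isP δ p → δ ≤ κ → isP κ p) ∧
  (∀ (A : Type) [LinearOrder A] [WellFoundedLT A] (κ : A) (p : Ra A), Rg κ → isP κ p →
    ∃ ξ < κ, ∀ δ, ξ ≤ δ → isP δ p)

/-- MODULE SIG (the posets are `σ`-closed, (1.2)).  Written proof.  `f n = (p n, t n)`.  `p z := p n z` for the least `n` with `p n z ≠ none` (so `p` extends all `p n`, since the `p n` are increasing), and `t z := t n z` for the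
least `n` with `t n z ≠ none`.  `isP`: countable unions; `ℵ₀ * #(Iio γ) ≤ #(Iio γ)`; the bounds `ξ n < γ` have an upper bound `< γ` as `γ` is regular and uncountable.  `isT`: the same.
`Rle κ (p, t) (f n)`: if `t n z = some a`, let `n₀ ≤ n` be the least index with `t n₀ z ≠ none`, `t z = t n₀ z = some a'`; `Rle κ (f n) (f n₀)` (transitivity) gives `Feq κ (p n) a a'`, so `Feq κ p a' a`. -/
def StSIG : Prop :=
  ∀ (A : Type) [LinearOrder A] [WellFoundedLT A] (κ : A), Rg κ →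
    ∀ f : ℕ → RC κ, (∀ n, f (n + 1) ≤ f n) → ∃ r : RC κ, ∀ n, r ≤ f n

/-- MODULE CO1 (`P_κ` collapses).  Written proof.  `D η ζ := {r | r.1.1 (w, β, η) = some ζ}` for `η < w`, `ζ < β`: open since stronger conditions extend, disjoint.  Dense: given `q = (p, t)` and `ζ < β`:
`Rg w` (`w` is the `ω₁`-th element: uncountable, its proper initial segments are countable, countable sets are bounded); `isP.hgt` gives `ξ < w` such that `p (w, β, η) = none` for `η ≥ ξ`; let `η = ξ`, `p'` the extension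
of `p` by `p' (w, β, ξ) = ζ`; `isP κ p'` (height bound: an element of `Iio w` above `ξ`); `(p', t) ≤ (p, t)` by `Rle.left'`. -/
def StCO1 : Prop :=
  (∀ (A : Type) [LinearOrder A] [WellFoundedLT A] (w : A), I1 w → Rg w) ∧
  (∀ (A : Type) [LinearOrder A] [WellFoundedLT A] (κ w : A), Rg κ → I1 w → w < κ →
    ∀ β < κ, ClT (RC κ) (Iio w) (Iio β))

/-- MODULE CO2 (the term part collapses).  Written proof.  `D η ζ := {r | ∃ n, r.1.2 (α, η) = some n ∧ ∀ q v, isP κ q → Xt q r.1.1 → n q = some v → v = ζ}` for `η < κ`, `ζ < α`.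
Open: `(p', t') ≤ (p, t)`, `t' (α, η) = some n'`, `Feq κ p' n' n`; if `n' q = some v`, `Xt q p'`, choose `q'` extending `q` with `n q'` defined (`isN.den`), so `n q' = some ζ`, `n' q' = some v` (`isN.mon`), so `v = ζ`.
Disjoint: `n` is defined at some extension of `p`.  Dense: given `(p, t)`, `ζ < α`: let `ξ < κ` be the bound of `isT.hgt`; put `t' (α, ξ) = ` the constant name (`q ↦ some ζ` if `isP κ q`, else `none`);
`isT` (size: `κ` is infinite; height: `Rg κ` gives a bound above `ξ`). -/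
def StCO2 : Prop :=
  ∀ (A : Type) [LinearOrder A] [WellFoundedLT A] (κ : A), Rg κ →
    ∀ α : A, ClT (RC κ) (Iio κ) (Iio α)

/-- MODULE WOO (`ω`, `ω₁`, and CH).  Written proof.  `w₀` = the least element with `(Iio w₀).Infinite`, `w₁` = the least element with `Iio w₁` not countable (both exist: `κ`); `2 ^ ℵ₀ < #(Iio κ)` (apply `sl` to
`w₀ < κ`, `#(Iio w₀) = ℵ₀`).  So `w₁ < κ`: otherwise `κ = w₁` and with a subset `S ⊆ Iio κ` of cardinality `2 ^ ℵ₀`, bounded by some `β < κ` (`Rg`), `Iio β` is uncountable, a contradiction to minimality.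
The same `S`, `β` give `#{S // S ⊆ Iio w₀} = 2 ^ ℵ₀ ≤ #(Iio β)`, so a surjection. -/
def StWOO : Prop :=
  ∀ (A : Type) [LinearOrder A] [WellFoundedLT A] (κ : A), Big κ →
    ∃ w₀ w₁ : A, I0 w₀ ∧ I1 w₁ ∧ w₁ < κ ∧ ∃ β < κ, ∃ g : Iio β → {S : Set A // S ⊆ Iio w₀},
      Function.Surjective g

/-- MODULE CNT (counting).  Written proof.  General remark: if `X₀ : Set X`, `Y₀ : Set Y`, the functions `f : X → Option Y` with `f x = some y → x ∈ X₀ ∧ y ∈ Y₀` inject into `X₀ → Option Y₀`, so there are at most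
`(#Y₀ + 1) ^ #X₀` of them; if `μ` is a strong limit and `#X₀, #Y₀ < μ` this is `< μ`.  First: `X₀ = Iio k ×ˢ Iio k ×ˢ Iio k`, `Y₀ = Iio k`.  Second: `X₀ = {p | isP k p}`, `Y₀ = Iio α`.  Third: `X₀ = Iio θ ×ˢ Iio k`, `Y₀ = {n | isN k θ n}`
(`isN k α n` implies `isN k θ n` for `α ≤ θ`). -/
def StCNT : Prop :=
  (∀ (A : Type) [LinearOrder A] [WellFoundedLT A] (μ : Cardinal.{0}), ℵ₀ ≤ μ → (∀ c < μ, 2 ^ c < μ) →
    ∀ k : A, #(Iio k) < μ → #{p : Ra A | isP k p} < μ) ∧
  (∀ (A : Type) [LinearOrder A] [WellFoundedLT A] (μ : Cardinal.{0}), ℵ₀ ≤ μ → (∀ c < μ, 2 ^ c < μ) →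
    ∀ k α : A, #(Iio k) < μ → #(Iio α) < μ → #{n : Na A | isN k α n} < μ) ∧
  (∀ (A : Type) [LinearOrder A] [WellFoundedLT A] (μ : Cardinal.{0}), ℵ₀ ≤ μ → (∀ c < μ, 2 ^ c < μ) →
    ∀ k θ : A, #(Iio k) < μ → #(Iio θ) < μ → #{t : Ta A | isT k (Iio θ) t} < μ)

/-- MODULE CNU (counting, second part).  Written proof.  First: for `c < #(Iio κ)` take `S ⊆ Iio κ` with `#S = c`, bounded by `ξ < κ` (`Rg`): `c ≤ #(Iio ξ)`, so `2 ^ c ≤ 2 ^ #(Iio ξ) < #(Iio κ)`.
Second: the same with `lreg`: for `c < #A` there is `ξ` with `c ≤ #(Iio ξ)`, so `2 ^ c < #A`.  Third: each `t` with `isT κ univ t` has at most `#(Iio κ) < #A` columns, so (`lreg`) they are bounded by some `θ` and `isT κ (Iio θ) t`; so there are at most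
`#A * #A = #A` such `t` (`StCNT.3` with `μ = #A`). Fourth: for `c = #{n | isN δ α n} < #(Iio κ)` (`StCNT.2`, `μ = #(Iio κ)`) there is `ν < κ` with `c ≤ #(Iio ν)`.  By well-founded recursion on `α < κ` choose `e α < κ`
larger than all `e α'`, `α' < α` (they are fewer than `#(Iio κ)`, `Rg`), and larger than this `ν`.  `s α` is a surjection of `Iio (e α)` onto the set of the names if it is not empty. -/
def StCNU : Prop :=
  (∀ (A : Type) [LinearOrder A] [WellFoundedLT A] (κ : A), Big κ → ∀ c < #(Iio κ), 2 ^ c < #(Iio κ)) ∧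
  (∀ (A : Type) [LinearOrder A] [WellFoundedLT A] (κ : A), Big κ → ∀ c < #A, 2 ^ c < #A) ∧
  (∀ (A : Type) [LinearOrder A] [WellFoundedLT A] (κ : A), Big κ →
    #{t : Ta A | isT κ Set.univ t} ≤ #A) ∧
  (∀ (A : Type) [LinearOrder A] [WellFoundedLT A] (κ δ : A), Big κ → δ < κ →
    ∃ (e : A → A) (s : A → A → Na A), (∀ α < κ, e α < κ) ∧ (∀ α < κ, ∀ α' < κ, e α = e α' → α = α') ∧
      ∀ α < κ, (∃ n, isN δ α n) → (∀ v < e α, isN δ α (s α v)) ∧ ∀ n, isN δ α n → ∃ v < e α, s α v = n)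

/-- MODULE CHN (chain condition, (1.4)).  Written proof.  Let `κ⁺` = `succ #(Iio κ)`, `#A > κ⁺` (`lsl`, `2 ^ κ`).  For `θ : A` there are fewer than `#A` pairs `ρ = (p, s)`, `isP κ p`, `isT κ (Iio θ) s` (`StCNT` with `μ = #A`, `StCNU.2`).
For such a pair let `ν(ρ)` be some `ν ∈ J` with `(r ν).1 = p` and `(r ν).2` restricted to the columns `< θ` equal to `s`, if there is one.  By `lreg` there is `F θ` such that the columns of all these `r (ν(ρ))` are
`< F θ`.  Let `I` be a well order of type `κ⁺` (`(succ #(Iio κ)).ord.ToType`); by recursion choose `θ j`, `j : I`, with `θ j > θ i` and `θ j > F (θ i)` for all `i < j` (`lreg`).  `M = ⋃ j, Iio (θ j)` is bounded by some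
`θ* : A` (`lreg`).  If all `r ν`, `ν ∈ J`, have all their columns in `M`, they are pairs `isP`, `isT κ (Iio θ*)`: fewer than `#A = #J` many, so `r ν = r ν'` for some `ν ≠ ν'`, done with `a = r ν`.
Otherwise let `ν ∈ J` have a column not in `M`.  The columns of `r ν` in `M` are at most `κ` many, so (regularity of `κ⁺`) they are all in `Iio (θ j)` for one `j`.  Let `ρ = ((r ν).1, (r ν).2 restricted to columns < θ j)`,
`ν' = ν(ρ)`; it exists, as `ν` is a candidate.  All columns of `r ν'` are `< F (θ j) < θ (j+1)`, so in `M`; so `ν' ≠ ν`.  `(r ν).1 = (r ν').1 =: p`, and `t = (r ν).2`, `t' = (r ν').2` agree on their common domain (such a column is in `M`, so `< θ j`).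
`a = (p, t ∪ t')`. -/
def StCHN : Prop :=
  ∀ (A : Type) [LinearOrder A] [WellFoundedLT A] (κ : A), Big κ →
    ∀ (J : Set A) (r : A → RC κ), #J = #A → ∃ ν ∈ J, ∃ ν' ∈ J, ν ≠ ν' ∧ ∃ a : RC κ, a ≤ r ν ∧ a ≤ r ν'

/-- MODULE CCP (`lam` is preserved).  Written proof.  Suppose `ClP p (Iio α) univ` with `D`.  For each `j : A` choose `r j ≤ p` and `i j ∈ Iio α` with `r j ∈ D (i j) j`.  `#(Iio α) < #A` and `#A` is regular (`lreg`: if all
fibres of `i` had fewer than `#A` elements, each would be bounded by some `ξ i`, and the `ξ i` would be bounded, so `A` would be bounded by some `ξ`, and `#A = #(Iic ξ) < #A`),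
so some fibre `J` has `#A` elements.  `StCHN`: `ν ≠ ν'` in `J` and `a ≤ r ν, r ν'`; `a ∈ D i ν ∩ D i ν'`, a contradiction. -/
def StCCP : Prop :=
  ∀ (A : Type) [LinearOrder A] [WellFoundedLT A] (κ : A), Big κ →
    ∀ (p : RC κ) (α : A), ¬ ClP p (Iio α) (Set.univ : Set A)

/-- MODULE PRJ (the projection, section 2).  Written proof.  `e`, `s` as in `StCNU.4`.  `pt p (α, η) := (p (δ, e α, η)).map (s α)` if `α < κ` and there is a name `isN δ α`, else `none`.
`pT`: the domain injects into `{z | p (δ, z.1, z.2) ≠ none}` by `(α, η) ↦ (e α, η)`; heights from `isP.hgt`; values: `isP.dom` gives `v < e α`.  `zero`: `δ` is not `< δ`.  `mono`: clear.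
`lift`: define `p'` by: `r z` if `z = (γ, β, η)` with `γ, β < δ`; otherwise `p z` if this is defined; otherwise, if `z = (δ, e α, η)` with `α < κ` and `s (α, η) = some n`: some `v < e α` with `s α v = n`;
otherwise `none`.  `Xt p' p`: in the region `γ, β < δ` since `Xt r (rs δ p)`.  `isP κ p'`: for `γ < δ`: at most `#(Iio γ) + #(Iio γ)` triples; for `γ = δ`: at most `#(Iio δ)` from `p` and at most `#(Iio δ)` from the domain of `s`; countably many `γ`;
heights: maxima.  `rs δ p' = r` (`isP.dom` for `r`).  `Rle δ (r, pt p') (r, s)`: if `s (α, η) = some n`: either `p (δ, e α, η) = some v`, then `pt p (α, η) = some (s α v) = pt p' (α, η)`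
and `Rle δ (r, s) (rs δ p, pt p)` gives `Feq δ r n (s α v)`; or `pt p' (α, η) = some n`. -/
def StPRJ : Prop :=
  ∀ (A : Type) [LinearOrder A] [WellFoundedLT A] (κ δ : A), Big κ → Rg δ → δ < κ →
    ∃ pt : Ra A → Ta A, Pj κ δ pt

/-- MODULE CAP (capturing).  Written proof.  First (capturing is inherited): if `Rle δ (rs δ p, pt p) (rs δ p, s)` and `p'` extends `p`: `Rle δ (rs δ p', pt p') (rs δ p', s)` : `s z = some n` gives `pt p z = some n'`, `Feq δ (rs δ p) n' n`, and `pt p' z = some n'` (`Pj.mono`), `rs δ p'`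
extends `rs δ p`.  Second (two captured conditions agree): let `pt p = s''`, `Cr t'' s''` with `t'' ∈ Y` (`Fx.b`); `t` captured by `s`: `Rle δ (rs δ p, s'') (rs δ p, s)` so by `Fx.c` (`isP δ (rs δ p)`, StRES) `Rle κ (rs δ p, t'') (rs δ p, t)`; the same for
`t'`.  If `t z = some n`, `t' z = some n'`, then `t'' z = some n''` with `Feq κ (rs δ p) n'' n`, `Feq κ (rs δ p) n'' n'`.  Given `n p = some v`, `n' p = some v'`, choose `q` extending `p` with `n'' q = some v''` (`isN.den`, `isT.dom`); `v'' = v`, `v'' = v'`. -/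
def StCAP : Prop :=
  (∀ (A : Type) [LinearOrder A] [WellFoundedLT A] (κ δ : A) (Y : Set (Ta A)) (Cr : Ta A → Ta A → Prop)
    (pt : Ra A → Ta A), Fx κ δ Y Cr → Pj κ δ pt → ∀ p p' t, isP κ p → isP κ p' → Xt p' p →
      Cp δ pt Cr p t → Cp δ pt Cr p' t) ∧
  (∀ (A : Type) [LinearOrder A] [WellFoundedLT A] (κ δ : A) (Y : Set (Ta A)) (Cr : Ta A → Ta A → Prop)
    (pt : Ra A → Ta A), Fx κ δ Y Cr → Pj κ δ pt → ∀ p t t' z n n' v v', isP κ p → t ∈ Y → t' ∈ Y →
      Cp δ pt Cr p t → Cp δ pt Cr p t' → t z = some n → t' z = some n' → n p = some v →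
      n' p = some v' → v = v')

/-- MODULE MAS (the master condition, section 4).  Written proof.  `m z ≠ none` iff `t z ≠ none` for some `t ∈ Y`; for such `z = (α, η)`, `m z` is the name `ν` with `ν p = some v` iff `isP κ p` and either (i) `p` captures some
`t ∈ Y` with `t z = some n`, `n p = some v`, or (ii) `v` is the least element of `A` and no `p'` extending `p` (`isP κ p'`) captures a `t ∈ Y` with `t z ≠ none`.  By `StCAP.2` the value is unique.
`isN κ α ν`: `dom`: in case (ii) the least element is `< α` since there is a name `isN κ α n` (`n = ` the value of a `t ∈ Y`) and its values are `< α`; `mon`: `StCAP.1` and `isN.mon` in case (i), clear in case (ii); `den`: if some `p'` extending `p` captures `t ∈ Y`,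
`t z = some n`, choose `p''` extending `p'` with `n p'' ≠ none`; otherwise (ii) holds at `p`.  `isT κ univ m`: the domain is a union of `≤ #(Iio κ)` sets of size `≤ #(Iio κ)` (`Fx.card`, `isT.siz`), the heights are `< δ < κ` (`Fx.h`).
If `p` captures `t ∈ Y` and `t z = some n`: `m z = some ν` and `Feq κ p ν n`: for `q` extending `p` with `ν q = some v`, `n q = some v'`: `q` captures `t` (`StCAP.1`), so case (ii) is impossible, and `v = v'` by `StCAP.2`. -/
def StMAS : Prop :=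
  ∀ (A : Type) [LinearOrder A] [WellFoundedLT A] (κ δ : A) (Y : Set (Ta A)) (Cr : Ta A → Ta A → Prop)
    (pt : Ra A → Ta A), Rg κ → Fx κ δ Y Cr → Pj κ δ pt →
      ∃ m, isT κ Set.univ m ∧ ∀ p t, isP κ p → t ∈ Y → Cp δ pt Cr p t → Rle κ (p, m) (p, t)

/-- MODULE MLX (the main lemma for a fixed `x`, section 4).  Written proof.  Let `m` be as in `StMAS`, `Cr t₀ s₀`.  `Pj.lift` for `p₀` (`isP κ p₀`, `rs δ p₀ = p₀`, `pt p₀` is empty by `Pj.zero`, so `Rle δ (p₀, s₀) (rs δ p₀, pt p₀)`): `p*` extending `p₀`, `rs δ p* = p₀`,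
`Rle δ (p₀, pt p*) (p₀, s₀)`; so `p*` captures `t₀` and `Rle κ (p*, m) (p*, t₀)`, `Rle κ (p*, m) (p₀, t₀)`.  The result is `(p*, m)`.  Let `a = (p₁, q₁) ≤ (p*, m)`, `z ∈ AX`, `δ ≤ c`, and suppose `a ∈ D z c`.  Let `r₁ = rs δ p₁`, `t₁ ∈ Y` with `Cr t₁ (pt p₁)` (`Fx.b`).
`Rle δ (r₁, pt p₁) (p₀, s₀)`: by `Rle δ (r₁, pt p₁) (p₀, pt p*)` (`Pj.mono`) and transitivity; so `Rle κ (r₁, t₁) (p₀, t₀)` (`Fx.c`).  The last hypothesis gives `r₂, t₂, c'` with `c' < δ`, `Rle κ (r₂, t₂) (r₁, t₁)`, `(r₂, t₂) ∈ D z c'`.  Let `Cr t₂ s₂` (`Fx.a`);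
`Rle δ (r₂, s₂) (rs δ p₁, pt p₁)` by `Fx.c`.  `Pj.lift`: `p₂` extending `p₁`, `rs δ p₂ = r₂`, `Rle δ (r₂, pt p₂) (r₂, s₂)`, so `p₂` captures `t₂`, `Rle κ (p₂, m) (p₂, t₂)`, `Rle κ (p₂, t₂) (r₂, t₂)` (`Xt p₂ (rs δ p₂)`), `Rle κ (p₂, q₁) (p₂, m)` (from `a ≤ (p*, m)`),
so `(p₂, q₁) ∈ D z c'` and also `∈ D z c` (it is `≤ a`), so `c = c'`, a contradiction. -/
def StMLX : Prop :=
  ∀ (A : Type) [LinearOrder A] [WellFoundedLT A] (κ δ : A) (Y : Set (Ta A)) (Cr : Ta A → Ta A → Prop)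
    (pt : Ra A → Ta A), Rg κ → Fx κ δ Y Cr → Pj κ δ pt →
    ∀ (Z : Type) (AX : Set Z) (D : Z → A → Set (Ra A × Ta A)) (p₀ : Ra A) (t₀ : Ta A),
      isP δ p₀ → t₀ ∈ Y →
      (∀ z c a a', isP κ a'.1 → isT κ Set.univ a'.2 → a ∈ D z c → Rle κ a' a → a' ∈ D z c) →
      (∀ z c c' a, a ∈ D z c → a ∈ D z c' → c = c') →
      (∀ z ∈ AX, ∀ r t, isP δ r → t ∈ Y → Rle κ (r, t) (p₀, t₀) →
        ∃ r₁ t₁ c, isP δ r₁ ∧ t₁ ∈ Y ∧ c < δ ∧ Rle κ (r₁, t₁) (r, t) ∧ (r₁, t₁) ∈ D z c) →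
      ∃ p m, isP κ p ∧ isT κ Set.univ m ∧ Rle κ (p, m) (p₀, t₀) ∧
        ∀ z ∈ AX, ∀ c, δ ≤ c → ∀ a : Ra A × Ta A, isP κ a.1 → isT κ Set.univ a.2 →
          Rle κ a (p, m) → a ∉ D z c

end Pool.Agent.Helper24.FR
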