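import Pool.Agent.Helper24.FR.StIV
import Pool.Agent.Helper24.FR.Huge

/-!
# FR, part V: the huge cardinal (definitions and statements)

`A` is the set of the ordinals below the target of the huge cardinal `κ`, `U` the ultrafilter on the power set of `A`.
Sections refer to /team-store/MP_f663dd-FR-proof.md.  Here a.e. means `∀ᶠ x in (U : Filter (Set A))`.
Since `U` is an ultrafilter, `¬ ∀ᶠ x, P x` is the same as `∀ᶠ x, ¬ P x` (`Ultrafilter.eventually_not`).
-/

set_option autoImplicit false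

open Cardinal Set Filter

namespace Pool.Agent.Helper24.FR

/-- `U` witnesses that `κ` is huge with target the order type of `A`. -/
structure Hu {A : Type} [LinearOrder A] (κ : A) (U : Ultrafilter (Set A)) : Prop where
  unc : ℵ₀ < #(Iio κ)
  kini : ∀ a < κ, #(Iio a) < #(Iio κ)
  lini : ∀ a : A, #(Iio a) < #A
  comp : ∀ (I : Type) (P : I → Set A → Prop), #I < #(Iio κ) →
    (∀ i, ∀ᶠ x in (U : Filter (Set A)), P i x) → ∀ᶠ x in (U : Filter (Set A)), ∀ i, P i x
  fine : ∀ a, ∀ᶠ x in (U : Filter (Set A)), a ∈ x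
  norm : ∀ f : Set A → A, (∀ᶠ x in (U : Filter (Set A)), f x ∈ x) →
    ∃ a, ∀ᶠ x in (U : Filter (Set A)), f x = a
  typ : ∀ᶠ x in (U : Filter (Set A)), ∃ i : A → A, StrictMonoOn i (Iio κ) ∧ i '' Iio κ = x

/-- `δ = δ_x`, and `i` is the order isomorphism of `Iio κ` with `x`. -/
structure Gd {A : Type} [LinearOrder A] (κ : A) (x : Set A) (δ : A) (i : A → A) : Prop where
  mono : StrictMonoOn i (Iio κ)
  img : i '' Iio κ = x
  lt : δ < κ
  cap : x ∩ Iio κ = Iio δ
  rg : Rg δ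
  fix : ∀ z < δ, i z = z

/-- `s = c_x(t)`. -/
def CT {A : Type} [LinearOrder A] (κ δ : A) (i : A → A) (t s : Ta A) : Prop :=
  ∀ α < κ, ∀ η < δ, (s (α, η) = none ↔ t (i α, η) = none) ∧
    ∀ n n', t (i α, η) = some n → s (α, η) = some n' → ∀ p, isP δ p → n p = (n' p).map i

/-- `s = c_x(t)` is a condition. -/
def CrX {A : Type} [LinearOrder A] (κ δ : A) (i : A → A) (t s : Ta A) : Prop :=
  isT δ (Iio κ) s ∧ CT κ δ i t s

/-- The data `d`, `i` for all `x`. -/
structure Dat {A : Type} [LinearOrder A] (κ : A) (U : Ultrafilter (Set A)) (d : Set A → A)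
    (i : Set A → A → A) : Prop where
  good : ∀ᶠ x in (U : Filter (Set A)), Gd κ x (d x) (i x)
  big : ∀ ξ < κ, ∀ᶠ x in (U : Filter (Set A)), ξ < d x

/-- MODULE USE (normality in usable form).  Written proof.  First: otherwise a.e. there is `f x ∈ x` with `¬ P x (f x)`; `norm`: `f x = a` a.e., a contradiction.  Second: the first with `P' x a := ∀ z, g z = a → P x z`.
Third: otherwise for all `z ∈ S`, `f x ≠ z` a.e., so by `comp` a.e. `f x` is different from all `z ∈ S`.  Fourth: enumerate: for a.e. `x` there is `e x : ℕ → Option A` with `f x = {a | ∃ n, e x n = some a}`; for each `n` either a.e. `e x n = none` or a.e.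
`e x n = some (a x n)` with `a x n ∈ f x ⊆ x`, so constant (`norm`); so `e x n = c n` a.e.; by `comp` for `ℕ` a.e. `e x = c`. -/
def StUSE : Prop :=
  (∀ (A : Type) [LinearOrder A] [WellFoundedLT A] (κ : A) (U : Ultrafilter (Set A)), Hu κ U →
    ∀ P : Set A → A → Prop, (∀ a, ∀ᶠ x in (U : Filter (Set A)), P x a) →
      ∀ᶠ x in (U : Filter (Set A)), ∀ a ∈ x, P x a) ∧
  (∀ (A : Type) [LinearOrder A] [WellFoundedLT A] (κ : A) (U : Ultrafilter (Set A)), Hu κ U →
    ∀ (Z : Type) (T : Set Z) (g : Z → A), (∀ z ∈ T, ∀ z' ∈ T, g z = g z' → z = z') →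
      ∀ P : Set A → Z → Prop, (∀ z ∈ T, ∀ᶠ x in (U : Filter (Set A)), P x z) →
        ∀ᶠ x in (U : Filter (Set A)), ∀ z ∈ T, g z ∈ x → P x z) ∧
  (∀ (A : Type) [LinearOrder A] [WellFoundedLT A] (κ : A) (U : Ultrafilter (Set A)), Hu κ U →
    ∀ (Z : Type) (S : Set Z), #S < #(Iio κ) → ∀ f : Set A → Z,
      (∀ᶠ x in (U : Filter (Set A)), f x ∈ S) → ∃ z ∈ S, ∀ᶠ x in (U : Filter (Set A)), f x = z) ∧
  (∀ (A : Type) [LinearOrder A] [WellFoundedLT A] (κ : A) (U : Ultrafilter (Set A)), Hu κ U →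
    ∀ f : Set A → Set A, (∀ᶠ x in (U : Filter (Set A)), (f x).Countable ∧ f x ⊆ x) →
      ∃ y, ∀ᶠ x in (U : Filter (Set A)), f x = y)

/-- MODULE UKR (`κ` is inaccessible, (0.1)).  Written proof.  A.e. `κ ∈ x` and `x = i '' Iio κ`, so there is `g x < κ` with `i (g x) = κ`.  (*) For `ξ < κ`, a.e. `ξ ≤ g x`: a.e. `Iio ξ ⊆ x` (`comp`, `fine`, `kini`); for `z < ξ` let `z = i (z')`,
`z' < g x` as `i z' < κ = i (g x)`; `z ↦ z'` is a strictly monotone map of `Iio ξ` to `Iio (g x)`, so `z ≤ z' < g x` for all `z < ξ`.  `κ` has no immediate predecessor (`kini`, `unc`).  Regularity: let `S ⊆ Iio κ`, `#S < #(Iio κ)`, and suppose that for every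
`ξ < κ` there is `s ∈ S` with `ξ ≤ s`.  Then `g x ≤ s x` with `s x ∈ S`, a.e. constant (`StUSE.3`): `g x ≤ s` a.e.; choose `s < ξ < κ`, a contradiction to (*).  Strong limit: let `a < κ` and suppose `#(Iio κ) ≤ 2 ^ #(Iio a)`: an injection `h` of `Iio κ`
into the power set of `Iio a`.  For every `η < a` the truth value of `η ∈ h (g x)` is a.e. constant, so by `comp` `h (g x)` is a.e. constant, so `g x = c` a.e., a contradiction to (*) for some `c < ξ < κ`. -/
def StUKR : Prop :=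
  ∀ (A : Type) [LinearOrder A] [WellFoundedLT A] (κ : A) (U : Ultrafilter (Set A)), Hu κ U →
    Rg κ ∧ ∀ a < κ, 2 ^ #(Iio a) < #(Iio κ)

/-- MODULE UDE (`δ_x`, (0.2)).  Written proof.  It is enough to show that a.e. there are `δ`, `i` with `Gd κ x δ i` (choice), and `big` follows: a.e. `ξ ∈ x ∩ Iio κ = Iio (d x)`.
(1) a.e. for all `a ∈ x` with `a < κ`, `Iio a ⊆ x` (`StUSE.1`, `comp`, `fine`).  (2) a.e. `κ ∈ x`, so not `Iio κ ⊆ x`: if `κ = i g`, `g < κ`, and `Iio κ ⊆ x`, then `z ↦ i⁻¹ z` is strictly monotone from `Iio κ` to `Iio g`, so `g ≤ i⁻¹ g < g`.  `δ` = the least element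
not in `x`; `δ < κ`, `x ∩ Iio κ = Iio δ` by (1).  `fix`: by induction on `z < δ`: `z ≤ i z` (strictly monotone); `z = i y` for some `y`, `y ≤ i y = z`; if `y < z` then `i y = y ≠ z`; so `y = z`.
(3) `Rg δ` a.e.: uncountable: take `S ⊆ Iio κ` with `#S = ℵ₁` (`ℵ₁ ≤ 2 ^ ℵ₀ < #(Iio κ)`), bounded by `ξ < κ`, and a.e. `ξ < δ`.  Initial and regular: otherwise a.e. there are `β x < δ` and `g x : A → A` with `g x η < δ` for `η < β x` and for all `ξ < δ` there is `η < β x` with
`ξ ≤ g x η` (if `#(Iio δ) ≤ #(Iio ξ)` for some `ξ < δ`: a surjection `Iio ξ → Iio δ`; if `δ` is initial and `S ⊆ Iio δ` is unbounded, `#S < #(Iio δ)`: there is `β < δ` with `#S ≤ #(Iio β)` (else all `#(Iio β) < #S`, so the order type of `Iio δ` is at most the initial ordinal of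
`#S`), and a surjection `Iio β → S`).  `β x ∈ x`: a.e. `β x = β < κ`; for `η < β`: `g x η ∈ x`, a.e. `g x η = G η < κ`; by `comp` a.e. this holds for all `η < β`.  `Rg κ`: the `G η` are bounded by some `ξ < κ`; a.e. `ξ < δ`, a contradiction. -/
def StUDE : Prop :=
  ∀ (A : Type) [LinearOrder A] [WellFoundedLT A] (κ : A) (U : Ultrafilter (Set A)), Hu κ U →
    ∃ (d : Set A → A) (i : Set A → A → A), Dat κ U d i

/-- MODULE ULR (the target is inaccessible).  Written proof.  For `x = i '' Iio κ` and `β ∈ x`, `β = i b`: `x ∩ Iio β = i '' Iio b`, so `#(x ∩ Iio β) = #(Iio b) < #(Iio κ)` (`typ`, `kini`).  `lreg`: let `#S < #A`, and suppose that for all `ξ` there is `s ∈ S`, `ξ ≤ s`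
(if this fails we are done, as `A` has no maximum by `lini`).  There is `β : A` with `#S ≤ #(Iio β)` (otherwise the order type of `A` would be at most the initial ordinal of `#S`), so `g : A → A` with `S = g '' Iio β`.  By `StUSE.1`: a.e. `g η ∈ x` for all `η ∈ x`; a.e. for all `a ∈ x` there is `η ∈ x`, `η < β`, `a ≤ g η` (for fixed `a` fix such `η`, a.e. it
is in `x`); a.e. `β ∈ x`.  `T = {t < κ | i t ∈ g '' (x ∩ Iio β)}` has fewer than `#(Iio κ)` elements; `Rg κ`: `T` is bounded by `ξ < κ`; `a = i ξ ∈ x`: `i ξ ≤ g η = i t` with `t ∈ T`, so `ξ ≤ t`, a contradiction.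
`lsl`: let `β : A` and suppose `#A ≤ 2 ^ #(Iio β)`: `h : A → Set A` injective with `h a ⊆ Iio β`.  For `a ≠ a'` there is `η < β` in exactly one of `h a`, `h a'`, and a.e. `η ∈ x`; by `StUSE.1` twice, a.e. for all `a ≠ a'` in `x`, `h a ∩ x ≠ h a' ∩ x`.  So `#(Iio κ) = #x ≤ 2 ^ #(x ∩ Iio β) < #(Iio κ)`
(a.e. `β ∈ x`; `StUKR`), a contradiction. -/
def StULR : Prop :=
  ∀ (A : Type) [LinearOrder A] [WellFoundedLT A] (κ : A) (U : Ultrafilter (Set A)), Hu κ U → Big κ

/-- MODULE R31 (3.1).  Written proof.  A.e. `Rg (d x)`, so by `StRES.6` there is `ξ x < d x` with `isP (ξ x) (f x)`.  `ξ x ∈ Iio (d x) ⊆ x`, so a.e. `ξ x = ξ`, `ξ < κ`.  `{p | isP ξ p}` has fewer than `#(Iio κ)` elements (`StCNT.1`, `μ = #(Iio κ)`, `StCNU.1`), so `StUSE.3`; `StRES.5`. -/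
def StR31 : Prop :=
  ∀ (A : Type) [LinearOrder A] [WellFoundedLT A] (κ : A) (U : Ultrafilter (Set A)) (d : Set A → A)
    (i : Set A → A → A), Hu κ U → Dat κ U d i → ∀ f : Set A → Ra A,
      (∀ᶠ x in (U : Filter (Set A)), isP (d x) (f x)) →
        ∃ p, isP κ p ∧ ∀ᶠ x in (U : Filter (Set A)), f x = p

/-- MODULE R32 (3.2).  Written proof.  For good `x` define `s (α', η)` for `α' < κ`, `η < d x` with `t (i α', η) = some n` as the name `n'` with `n' p = some z'` iff `isP (d x) p`, `n p = some (i z')`, `z' < κ`; otherwise `s (α', η) = none`.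
A.e. facts, each by normality (if one fails a.e., choose a counterexample `α, η ∈ x` (`η < d x`), `p` with `isP (d x) p`; it is a.e. constant by `norm` and `StR31`):
(i) for `α ∈ x`, `η < d x`, `t (α, η) = some n`, `isP (d x) p`, `n p = some z`: `z ∈ x` (for fixed data a.e. `z ∈ x`).  (ii) for such `α, η, n, p` there is `p'` with `isP (d x) p'`, extending `p`, `n p' ≠ none` (fixed data: `isN.den` gives `p'` with `isP κ p'`, and a.e. `isP (d x) p'` by
`StRES.6` and `Dat.big`).  (iii) let `e` be an injection of `{z | t z ≠ none}` into `Iio κ` (`isT.siz`): for `α, η` as above `e (α, η) < d x` (`Dat.big`).  (iv) the bound `ξ < κ` of `isT.hgt` is `< d x`.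
By (i) `n p = (n' p).map i` for `isP (d x) p`.  `isN (d x) α' n'`: values: `i z' = z < α = i α'`, so `z' < α'`; `mon`: clear; `den`: (ii) and (i).  `isT.siz`: (iii), the map `(α', η) ↦ e (i α', η)` is injective into `Iio (d x)`.  `isT.hgt`: (iv). -/
def StR32 : Prop :=
  ∀ (A : Type) [LinearOrder A] [WellFoundedLT A] (κ : A) (U : Ultrafilter (Set A)) (d : Set A → A)
    (i : Set A → A → A), Hu κ U → Dat κ U d i → ∀ t, isT κ Set.univ t →
      ∀ᶠ x in (U : Filter (Set A)), ∃ s, CrX κ (d x) (i x) t s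

/-- MODULE R33 (3.3).  Written proof.  Write `s x = f x`.  `t (α, η) := some n_{α, η}` if `η < κ` and a.e. there is `α' < κ` with `i x α' = α`, `s x (α', η) ≠ none`; otherwise `none`.  `n_{α, η} p = some z` iff a.e. there are `α' < κ`, `n'`, `z' < κ` with `i x α' = α`, `s x (α', η) = some n'`,
`n' p = some z'`, `i x z' = z` (this `z` is unique, since `i x` is injective on `Iio κ` and two a.e. properties hold together for some `x`); `none` if there is no such `z`.
(A) `CT κ (d x) (i x) t (s x)` a.e.: otherwise a.e. there is a counterexample `α' x < κ`, `η x < d x` (and perhaps `p x`, `isP (d x) (p x)`); `α x = i x (α' x) ∈ x` and `η x ∈ x` are a.e. constant (`norm`), `p x` too (`StR31`), and `U` decides whether `s x (α' x, η)` is defined and whether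
`n' p` is defined (`n'` the value of `s x (α' x, η)`); if `n' p = some (z' x)`, then `z' x < α' x < κ`, `i x (z' x) ∈ x` is a.e. constant `z`, so `n_{α, η} p = some z`.
(B) `isT κ univ t`.  `hgt`: `s x` has a bound `ξ x < d x`, `ξ x ∈ x`, a.e. constant `ξ < κ`.  `siz`: a.e. there is `g x : A → A × A` such that every `z` with `s x z ≠ none` is `g x ζ` for some `ζ < d x`, and `g x ζ ∈ Iio κ ×ˢ Iio (d x)` for all `ζ < d x` (if `s x` is not empty; the empty case is
trivial); for fixed `ζ < κ` (a.e. `ζ < d x`) `(i x (g x ζ).1, (g x ζ).2)` is a.e. constant `G ζ`; if `t (α, η) ≠ none`, then a.e. `(α', η) = g x (ζ x)` with `i x α' = α`, `ζ x < d x`, `ζ x ∈ x`, a.e. constant `ζ`, so `(α, η) = G ζ`; so the domain of `t` is contained in `G '' Iio κ`.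
`dom`: `η < κ`; `isN κ α n_{α, η}`: values: `z' < α'` so `z = i x z' < i x α' = α`, and `isP (d x) p` so `isP κ p` (`StRES.5`); `mon`: for fixed `p, p'` with `isP κ`, a.e. `isP (d x) p'` (`StRES.6`, `Dat.big`); `den`: for fixed `p`, a.e. `isP (d x) p`, so there is `p' x` extending `p`, `isP (d x) (p' x)`,
with the value of `s x (α', η)` defined at it; a.e. `p' x = p'` (`StR31`), and the value `z' x` has `i x (z' x)` a.e. constant. -/
def StR33 : Prop :=
  ∀ (A : Type) [LinearOrder A] [WellFoundedLT A] (κ : A) (U : Ultrafilter (Set A)) (d : Set A → A)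
    (i : Set A → A → A), Hu κ U → Dat κ U d i → ∀ f : Set A → Ta A,
      (∀ᶠ x in (U : Filter (Set A)), isT (d x) (Iio κ) (f x)) →
        ∃ t, isT κ Set.univ t ∧ ∀ᶠ x in (U : Filter (Set A)), CrX κ (d x) (i x) t (f x)

/-- MODULE R34 (3.4).  Written proof.  Let `x` be good with `isP (d x) r₁`, `isP (d x) r₂` (a.e.).  (→) holds for all such `x`: if `s₂ (α', η) = some n₂'` then `α' < κ`, `η < d x` (`isT.dom`), `t₂ (i α', η) = some n₂`, so `t₁ (i α', η) = some n₁` with `Feq κ r₁ n₁ n₂`, `s₁ (α', η) = some n₁'`; for `q` with `isP (d x) q`, so `isP κ q`,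
extending `r₁`: `n₁' q = some v`, `n₂' q = some v'` imply `n₁ q = some (i v)`, `n₂ q = some (i v')`, so `i v = i v'`, `v = v'` (`v, v' < α' < κ`).  (←) Suppose that not `Rle κ (r₁, t₁) (r₂, t₂)`; if not `Xt r₁ r₂` the right side fails too.  Otherwise there is `(α, η)` with `t₂ (α, η) = some n₂` and either
`t₁ (α, η) = none`, or `t₁ (α, η) = some n₁` and there is `q`, `isP κ q`, extending `r₁` with `n₁ q = some v`, `n₂ q = some v'`, `v ≠ v'`.  A.e. `α ∈ x`, `η < d x`, `isP (d x) q` (`StRES.6`, `Dat.big`), `α = i α'`; then the right side fails: `s₂ (α', η) = some n₂'`, `n₂ q = (n₂' q).map i`, etc.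
(the values `s₁`, `s₂` are arbitrary with `CrX`). -/
def StR34 : Prop :=
  ∀ (A : Type) [LinearOrder A] [WellFoundedLT A] (κ : A) (U : Ultrafilter (Set A)) (d : Set A → A)
    (i : Set A → A → A), Hu κ U → Dat κ U d i → ∀ t₁ t₂ r₁ r₂, isT κ Set.univ t₁ → isT κ Set.univ t₂ →
      isP κ r₁ → isP κ r₂ → ∀ᶠ x in (U : Filter (Set A)), ∀ s₁ s₂, CrX κ (d x) (i x) t₁ s₁ →
        CrX κ (d x) (i x) t₂ s₂ → (Rle κ (r₁, t₁) (r₂, t₂) ↔ Rle (d x) (r₁, s₁) (r₂, s₂))

/-- MODULE RFX (reflection: (a), (b), (c), (h) of section 3).  Written proof.  `lt`, `rg`: `Gd`.  `crT`, `yT`: by definition.  `card`: `g` is injective on `Y` with values in `x = i '' Iio κ`.  `a`: `StUSE.2` (`T = {t | isT κ univ t}`) and `StR32`.  `b`: if it fails a.e., choose `f x` with `isT (d x) (Iio κ) (f x)` and no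
`t ∈ Y x` with `CrX t (f x)`; `StR33` gives `t`, and a.e. `g t ∈ x`.  `c`: if it fails a.e., choose `t₁ x, t₂ x ∈ Y x`, `r₁ x`, `r₂ x` with `isP (d x)` (and `s₁ x`, `s₂ x`) violating it; `g (t₁ x) ∈ x` is a.e. constant so `t₁ x` is a.e. constant, the same for `t₂ x`, and `r₁ x, r₂ x` are a.e. constant by
`StR31`; this contradicts `StR34`.  `h`: `StUSE.2`: for fixed `t` the heights are `< ξ < κ`, a.e. `ξ < d x`. -/
def StRFX : Prop :=
  ∀ (A : Type) [LinearOrder A] [WellFoundedLT A] (κ : A) (U : Ultrafilter (Set A)) (d : Set A → A)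
    (i : Set A → A → A) (g : Ta A → A), Hu κ U → Dat κ U d i →
      (∀ t t', isT κ Set.univ t → isT κ Set.univ t' → g t = g t' → t = t') →
        ∀ᶠ x in (U : Filter (Set A)),
          Fx κ (d x) {t | isT κ Set.univ t ∧ g t ∈ x} (CrX κ (d x) (i x))

/-- MODULE UML (the main lemma, section 4).  Written proof.  Let `Dat κ U d i` (`StUDE`), `g` an injection of `{t | isT κ univ t}` into `A` (`StCNU.3`), `Y x = {t | isT κ univ t ∧ g t ∈ x}`, `p = (p₀, t₀)`,
`D' z c := {a | ∃ (h : isP κ a.1 ∧ isT κ univ a.2) (hc : c < κ), ⟨a, h⟩ ∈ D z ⟨c, hc⟩}`.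
(d) a.e.: for all `z ∈ AX x`, `r`, `t` with `isP (d x) r`, `t ∈ Y x`, `Rle κ (r, t) (p₀, t₀)` there are `r₁, t₁, c` with `isP (d x) r₁`, `t₁ ∈ Y x`, `c < d x`, `Rle κ (r₁, t₁) (r, t)`, `(r₁, t₁) ∈ D' z c`: if not, choose counterexamples `z x, r x, t x`; they are a.e. constant (hypothesis on `AX`; `StR31`;
`g (t x) ∈ x`, `norm`); for the constant `z, r, t` the density of `D` below `p` gives `(r₁, t₁) ≤ (r, t)` in `D z c`, and a.e. `isP (d x) r₁` (`StRES.6`, `Dat.big`), `g t₁ ∈ x` (`fine`), `c < d x` (`Dat.big`).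
A.e. also `isP (d x) p₀`, `g t₀ ∈ x`, `Fx` (`StRFX`), `Gd`.  Choose one `x` with all this, `pt` by `StPRJ`, and apply `StMLX`; `e = d x`.  `i x` gives a bijection of `x` with `Iio κ`. -/
def StUML : Prop :=
  ∀ (A : Type) [LinearOrder A] [WellFoundedLT A] (κ : A) (U : Ultrafilter (Set A)), Hu κ U →
    ∀ (Z : Type) (AX : Set A → Set Z),
      (∀ f : Set A → Z, (∀ᶠ x in (U : Filter (Set A)), f x ∈ AX x) →
        ∃ z, ∀ᶠ x in (U : Filter (Set A)), f x = z) →
      ∀ (p : RC κ) (D : Z → Iio κ → Set (RC κ)),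
        (∀ z c r r', r ∈ D z c → r' ≤ r → r' ∈ D z c) →
        (∀ z c c' r, c ≠ c' → r ∈ D z c → r ∉ D z c') →
        (∀ z, ∀ q ≤ p, ∃ r ≤ q, ∃ c, r ∈ D z c) →
          ∃ p' ≤ p, ∃ (x : Set A) (e : Iio κ), Nonempty (x ≃ Iio κ) ∧
            ∀ z ∈ AX x, ∀ c, e ≤ c → ∀ r ≤ p', r ∉ D z c

/-- MODULE CRP (the two applications of the main lemma).  Written proof.  First: `StUML` with `Z = {y : Set A // y.Countable ∧ y.Infinite}`, `AX x = {y | y.1 ⊆ x}` (`StUSE.4`).  Second: let `ClP p (Iio β) (Iio κ)` with `D₀`, `β < κ`.  Let `c₀ : Iio κ` be the least element,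
`D z c := D₀ z c` for `c ≠ c₀` and `D z c₀ := D₀ z c₀ ∪ {r | ∀ r' ≤ r, ∀ c, r' ∉ D₀ z c}`.  This is open, disjoint, and dense.  `StUML` with `Z = Iio β`, `AX x = univ` (`StUSE.3`, `#(Iio β) < #(Iio κ)`): `p' ≤ p`, `e`.  Let `c ≥ e`, `c ≠ c₀`.  By `ClP` there are `r ≤ p'` and `z` with
`r ∈ D₀ z c = D z c`, a contradiction. -/
def StCRP : Prop :=
  (∀ (A : Type) [LinearOrder A] [WellFoundedLT A] (κ : A) (U : Ultrafilter (Set A)), Hu κ U →
    CoreP (RC κ) A κ) ∧
  (∀ (A : Type) [LinearOrder A] [WellFoundedLT A] (κ : A) (U : Ultrafilter (Set A)), Hu κ U →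
    ∀ (p : RC κ), ∀ β < κ, ¬ ClP p (Iio β) (Iio κ))

/-- MODULE HUG.  Written proof.  `A = lam.ord.ToType`; `κ'` = the element of `A` with `Iio κ'` of order type `κ.ord` (`Ordinal.enum`); `#(Iio κ') = κ`; initial segments of `Iio κ'` and of `A` have smaller cardinality (`κ.ord`, `lam.ord` are initial).  `typ`: if `x` has order type `κ.ord`, it is order isomorphic to
`Iio κ'`; extend the isomorphism `Iio κ' → x` to a function `i : A → A` arbitrarily. -/
def StHUG : Prop :=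
  ∀ κ : Cardinal.{0}, IsHuge κ →
    ∃ (A : Type) (_ : LinearOrder A) (_ : WellFoundedLT A) (κ' : A) (U : Ultrafilter (Set A)), Hu κ' U

end Pool.Agent.Helper24.FR
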