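import Pool.Agent.Helper24.FR.StVI

/-!
# FR, part VII: monotonicity inside the model (statements)
-/

set_option autoImplicit false

universe u

namespace Pool.Agent.Helper24.FR

/-- MODULE PTR (ordinals are comparable).  Written proof.  Call `x, y` comparable if `x ∈ y` or `x = y` or `y ∈ x`.  Suppose `x₀, y₀` are incomparable ordinals; let `x₀⁺ = x₀ ∪ {x₀}`, `y₀⁺ = y₀ ∪ {y₀}` (pair, union), which are transitive and whose elements are transitive.
`A = {x ∈ x₀⁺ | some y ∈ y₀⁺ is incomparable with x}` (separation), not empty; `x₁` an `∈`-minimal element of `A` (`found`); `B = {y ∈ y₀⁺ | x₁, y incomparable}`, not empty, `y₁` an `∈`-minimal element of `B`.  For `s ∈ x₁`: `s ∈ x₀⁺`, `s ∉ A`, so `s` and `y₁` are comparable; `s = y₁` gives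
`y₁ ∈ x₁`, `y₁ ∈ s` gives `y₁ ∈ x₁` (`x₁` is transitive), both impossible; so `s ∈ y₁`.  For `t ∈ y₁`: `t ∈ y₀⁺`, `t ∉ B`, so `x₁` and `t` are comparable; `t = x₁` and `x₁ ∈ t` give `x₁ ∈ y₁`, impossible; so `t ∈ x₁`.  By `ext` `x₁ = y₁`, a contradiction. -/
def StPTR : Prop := ∀ (N : Type u) (E : N → N → Prop), ZFC E → ∀ x y, POrd E x → POrd E y →
  E x y ∨ x = y ∨ E y x

/-- MODULE PMO (monotonicity).  Written proof.  By `StPTR`, `l ∈ l'` or `l = l'` or `l' ∈ l`; the last is impossible by the last clause of `PSucc E k l`; so `l ⊆ l'` (`l'` is transitive).  Let `L', f'` be as in `PNeg E l' k`.  `L = {y ∈ L' | y ⊆ l}` (separation), so `y ∈ L ↔ PCtb E y l`;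
`f = {(y, c) | y ∈ L, c ∈ k, (y, c) ∈ f'}` (`StPSB.3`) is a function from `L` to `k`.  For `X ⊆ l` with `|X| = k` and `c ∈ k` there is `y` with `PCtb E y X`, `(y, c) ∈ f'`; then `y ⊆ l`, `PCtb E y l`, `y ∈ L`, so `(y, c) ∈ f`. -/
def StPMO : Prop := ∀ (N : Type u) (E : N → N → Prop), ZFC E → ∀ k l l', PSucc E k l →
  PCard E l' → E k l' → PNeg E l' k → PNeg E l k

end Pool.Agent.Helper24.FR
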